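import Pool.Agent.Q183.UH.Core

/-!
The uniform bound over all algebraically closed fields and for arbitrary sets of forms of bounded
degree.
-/

set_option autoImplicit false

namespace Pool.Agent.Q183.UH

open Filter Pool.Agent.TH143.HE Pool.Agent.Q183.RS MvPolynomial Cardinal
open scoped LinearAlgebra.Projectivization

theorem encard_range_le {α β γ : Type} (f : α → β) (g : α → γ) (h : ∀ a a', f a = f a' → g a = g a') :
    (Set.range g).encard ≤ (Set.range f).encard := by
  classical
  have h3 : (some '' Set.range g) ⊆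
      (fun b => if h : ∃ a, f a = b then some (g h.choose) else none) '' (Set.range f) := by
    rintro _ ⟨_, ⟨a, rfl⟩, rfl⟩
    refine ⟨f a, ⟨a, rfl⟩, ?_⟩
    have h2 : ∃ a', f a' = f a := ⟨a, rfl⟩
    simp only
    rw [dif_pos h2]
    exact congrArg some (h _ _ h2.choose_spec)
  have h4 := (Set.encard_le_encard h3).trans (Set.encard_image_le _ _)
  rwa [(Option.some_injective γ).encard_image] at h4

/-- descent of the field of definition -/
theorem BoundOver.up {A L : Type} [Field A] [Field L] [CharZero L] (ψ : A →+* L) {N s r d : ℕ}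
    {e : Fin s → ℕ} {B : ℕ} (h : BoundOver A N s r d e B)
    (F : Fin s → MvPolynomial (Fin (N + 1)) L) (hF : ∀ i, (F i).IsHomogeneous (e i))
    (hno : NoRat (Set.range F)) (x : ℕ → Fin (N + 1) → L) (hne : ∀ m, x m ≠ 0)
    (hX : ∀ m i, eval (x m) (F i) = 0) (a : Fin (N + 1) → ℕ → Polynomial L)
    (ha0 : ∀ j, ∃ k ≤ r, a j k ≠ 0) (had : ∀ j k, (a j k).natDegree ≤ d)
    (ha : ∀ j, ∀ m : ℕ, ∑ k ∈ Finset.range (r + 1), (a j k).eval (m : L) * x (m + k) j = 0)
    (hFr : ∀ i c, (F i).coeff c ∈ ψ.range) (hxr : ∀ m j, x m j ∈ ψ.range)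
    (har : ∀ j k c, (a j k).coeff c ∈ ψ.range) :
    (Set.range fun m => Projectivization.mk L (x m) (hne m)).encard ≤ (B : ℕ∞) := by
  classical
  have hF1 : ∀ i, ∃ F' : MvPolynomial (Fin (N + 1)) A, MvPolynomial.map ψ F' = F i := by
    intro i
    have h1 : F i ∈ Set.range (MvPolynomial.map ψ) := by
      rw [MvPolynomial.mem_range_map_iff_coeffs_subset]
      intro z hz
      obtain ⟨c, -, rfl⟩ := MvPolynomial.mem_coeffs_iff.1 hz
      exact hFr i c
    exact h1
  choose F' hF' using hF1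
  choose x' hx' using hxr
  have ha1 : ∀ j k, ∃ q : Polynomial A, q.map ψ = a j k := by
    intro j k
    have h1 : a j k ∈ Polynomial.lifts ψ := by
      rw [Polynomial.lifts_iff_coeff_lifts]
      exact fun c => har j k c
    exact h1
  choose a' ha' using ha1
  have hx'' : ∀ m, (fun j => ψ (x' m j)) = x m := fun m => funext fun j => hx' m j
  have hne' : ∀ m, x' m ≠ 0 := by
    intro m h0
    apply hne m
    rw [← hx'' m, h0]
    funext j
    simp
  have key := h F' (fun i => IsHomogeneous.of_map ψ.injective (by rw [hF' i]; exact hF i)) (by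
    intro p hp j k i i'
    have h1 := hno (fun j => (p j).map ψ) (by
      rintro _ ⟨l, rfl⟩
      rw [← hF' l]
      have h2 := hp (F' l) ⟨l, rfl⟩
      have h3 : aeval (fun j => (p j).map ψ) (MvPolynomial.map ψ (F' l)) =
          (aeval p (F' l)).map ψ := by
        rw [aeval_def, MvPolynomial.eval₂_map, aeval_def, ← Polynomial.coe_mapRingHom,
          MvPolynomial.eval₂_comp_left]
        congr 1
        ext z
        simp
      rw [h3, h2, Polynomial.map_zero]) j k i i'
    simp only [Polynomial.coeff_map] at h1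
    rw [← map_mul, ← map_mul] at h1
    exact ψ.injective h1) x' hne' (by
    intro m i
    apply ψ.injective
    rw [map_zero, ← hX m i, ← hF' i, ← hx'' m]
    rw [MvPolynomial.eval_map, eval, coe_eval₂Hom, eval₂_comp_left]
    rfl) (by
    intro j
    obtain ⟨k, hk, hk0⟩ := ha0 j
    refine ⟨a' j, ⟨k, hk, fun h0 => hk0 ?_⟩, fun k => ?_, fun m => ?_⟩
    · rw [← ha' j k, h0, Polynomial.map_zero]
    · have h1 := had j k
      rw [← ha' j k, Polynomial.natDegree_map] at h1
      exact h1
    · apply ψ.injective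
      rw [map_zero, ← ha j m, map_sum]
      refine Finset.sum_congr rfl fun k _ => ?_
      rw [map_mul, ← hx', ← ha' j k, Polynomial.eval_map, ← map_natCast ψ m,
        Polynomial.eval₂_at_apply])
  refine (encard_range_le _ _ ?_).trans key
  intro m m' hm
  rw [Projectivization.mk_eq_mk_iff'] at hm ⊢
  obtain ⟨c, hc⟩ := hm
  refine ⟨ψ c, ?_⟩
  funext j
  have h1 := congrFun hc j
  rw [Pi.smul_apply, smul_eq_mul] at h1 ⊢
  rw [← hx', ← hx', ← h1, map_mul]

theorem bound_closed (N s r d : ℕ) (e : Fin s → ℕ) :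
    ∃ B : ℕ, ∀ (L : Type) [Field L] [CharZero L] [IsAlgClosed L], BoundOver L N s r d e B := by
  classical
  obtain ⟨B, hB⟩ := core N s r d e
  refine ⟨B, fun L _ _ _ F hF hno x hne hX hrec => ?_⟩
  choose a ha0 had ha using hrec
  let T : Set L := (Set.range fun p : Fin s × (Fin (N + 1) →₀ ℕ) => (F p.1).coeff p.2) ∪
    ((Set.range fun p : ℕ × Fin (N + 1) => x p.1 p.2) ∪
      Set.range fun p : Fin (N + 1) × ℕ × ℕ => (a p.1 p.2.1).coeff p.2.2)
  have hT : T.Countable := (Set.countable_range _).union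
    ((Set.countable_range _).union (Set.countable_range _))
  let k0 := Subfield.closure T
  have hk0 : #k0 ≤ ℵ₀ := (Subfield.cardinalMk_closure_le_max T).trans
    (max_le (Cardinal.le_aleph0_iff_set_countable.2 hT) le_rfl)
  let A := AlgebraicClosure k0
  have hA : #A ≤ 𝔠 := by
    have h1 : #A ≤ max #k0 ℵ₀ := Algebra.IsAlgebraic.cardinalMk_le_max k0 A
    exact h1.trans ((max_le hk0 le_rfl).trans aleph0_le_continuum)
  let ψ : A →ₐ[k0] L := IsAlgClosed.lift
  have hcz : CharZero A := charZero_of_injective_algebraMap (algebraMap k0 A).injective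
  have hTr : ∀ z ∈ T, z ∈ (ψ : A →+* L).range := by
    intro z hz
    refine ⟨algebraMap k0 A ⟨z, Subfield.subset_closure hz⟩, ?_⟩
    exact ψ.commutes _
  exact (hB A hA).up (ψ : A →+* L) F hF hno x hne hX a ha0 had ha
    (fun i c => hTr _ (Or.inl ⟨(i, c), rfl⟩)) (fun m j => hTr _ (Or.inr (Or.inl ⟨(m, j), rfl⟩)))
    (fun j k c => hTr _ (Or.inr (Or.inr ⟨(j, k, c), rfl⟩)))

/-- exponents at most `D` -/
noncomputable def Ex (N D : ℕ) : Finset (Fin (N + 1) →₀ ℕ) :=
  Finset.Icc 0 (Finsupp.equivFunOnFinite.symm fun _ => D)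

theorem mem_Ex {L : Type} [Field L] {N D e : ℕ} (he : e ≤ D) {F : MvPolynomial (Fin (N + 1)) L}
    (hF : F.IsHomogeneous e) {c : Fin (N + 1) →₀ ℕ} (hc : F.coeff c ≠ 0) : c ∈ Ex N D := by
  unfold Ex
  rw [Finset.mem_Icc]
  refine ⟨fun i => Nat.zero_le _, fun i => ?_⟩
  have h1 := hF hc
  rw [Finsupp.weight_apply, Finsupp.sum_fintype _ _ (by simp)] at h1
  have h2 : ∑ i, c i = e := by simpa using h1
  have h3 := Finset.single_le_sum (f := fun i => c i) (fun i _ => Nat.zero_le _) (Finset.mem_univ i)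
  change c i ≤ D
  omega

theorem exists_family {L : Type} [Field L] {N D : ℕ} (FF : Set (MvPolynomial (Fin (N + 1)) L))
    (hFF : ∀ F ∈ FF, ∃ e, e ≤ D ∧ F.IsHomogeneous e) :
    ∃ G : Fin (D + 1) × Fin (Ex N D).card → MvPolynomial (Fin (N + 1)) L,
      (∀ i, (G i).IsHomogeneous (i.1 : ℕ)) ∧ (∀ i, G i ∈ Submodule.span L FF) ∧
      ∀ F ∈ FF, F ∈ Submodule.span L (Set.range G) := by
  classical
  let V : ℕ → Submodule L (MvPolynomial (Fin (N + 1)) L) := fun e =>
    Submodule.span L {F | F ∈ FF ∧ F.IsHomogeneous e}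
  let W : Submodule L (MvPolynomial (Fin (N + 1)) L) :=
    Submodule.span L ((Ex N D).image fun c => monomial c (1 : L) : Finset _)
  have hVW : ∀ e, e ≤ D → V e ≤ W := by
    intro e he
    refine Submodule.span_le.2 fun F hF => ?_
    change F ∈ W
    rw [F.as_sum]
    refine Submodule.sum_mem _ fun c hc => ?_
    have h1 : monomial c (F.coeff c) = (F.coeff c) • monomial c (1 : L) := by
      rw [smul_monomial, smul_eq_mul, mul_one]
    rw [h1]
    refine Submodule.smul_mem _ _ (Submodule.subset_span ?_)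
    exact Finset.mem_coe.2 (Finset.mem_image_of_mem _ (mem_Ex he hF.2 (mem_support_iff.1 hc)))
  have hWfin : Module.Finite L W := Module.Finite.span_finset L _
  have hWrank : Module.finrank L W ≤ (Ex N D).card :=
    (finrank_span_finset_le_card _).trans Finset.card_image_le
  have hex : ∀ e : Fin (D + 1), ∃ g : Fin (Ex N D).card → MvPolynomial (Fin (N + 1)) L,
      Submodule.span L (Set.range g) = V e := by
    intro e
    have h0 : V e ≤ W := hVW e (Nat.le_of_lt_succ e.2)
    have hfin : Module.Finite L (V e) := Submodule.finiteDimensional_of_le h0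
    have h1 : Module.finrank L (V e) ≤ (Ex N D).card := (Submodule.finrank_mono h0).trans hWrank
    let v := Module.finBasis L (V e)
    refine ⟨fun i => if h : (i : ℕ) < Module.finrank L (V e) then (v ⟨i, h⟩ : _) else 0, ?_⟩
    apply le_antisymm
    · refine Submodule.span_le.2 ?_
      rintro _ ⟨i, rfl⟩
      simp only
      split_ifs with h
      · exact (v ⟨i, h⟩).2
      · exact Submodule.zero_mem _
    · intro F hF
      have h2 := v.sum_repr ⟨F, hF⟩
      have h3 : F = ∑ i, (v.repr ⟨F, hF⟩ i) • ((v i : V e) : MvPolynomial (Fin (N + 1)) L) := by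
        have h4 := congrArg (Submodule.subtype (V e)) h2
        rw [map_sum] at h4
        simp only [map_smul] at h4
        exact h4.symm
      rw [h3]
      refine Submodule.sum_mem _ fun i _ => Submodule.smul_mem _ _ (Submodule.subset_span ?_)
      refine ⟨⟨i, i.2.trans_le h1⟩, ?_⟩
      simp only
      rw [dif_pos i.2]
  choose g hg using hex
  refine ⟨fun i => g i.1 i.2, fun i => ?_, fun i => ?_, fun F hF => ?_⟩
  · have h1 : g i.1 i.2 ∈ V i.1 := by
      rw [← hg]
      exact Submodule.subset_span ⟨i.2, rfl⟩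
    have h2 : V i.1 ≤ homogeneousSubmodule (Fin (N + 1)) L i.1 :=
      Submodule.span_le.2 fun F hF => hF.2
    exact h2 h1
  · have h1 : g i.1 i.2 ∈ V i.1 := by
      rw [← hg]
      exact Submodule.subset_span ⟨i.2, rfl⟩
    exact Submodule.span_mono (fun F hF => hF.1) h1
  · obtain ⟨e, he, heF⟩ := hFF F hF
    have h1 : F ∈ V (⟨e, Nat.lt_succ_of_le he⟩ : Fin (D + 1)) := Submodule.subset_span ⟨hF, heF⟩
    rw [← hg] at h1
    refine Submodule.span_mono ?_ h1
    rintro _ ⟨i, rfl⟩
    exact ⟨(⟨e, Nat.lt_succ_of_le he⟩, i), rfl⟩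

theorem vanish_span {L S : Type} [Field L] [CommRing S] [Algebra L S] {N : ℕ}
    {FF : Set (MvPolynomial (Fin (N + 1)) L)} {p : Fin (N + 1) → S}
    (h : ∀ F ∈ FF, aeval p F = 0) {G : MvPolynomial (Fin (N + 1)) L}
    (hG : G ∈ Submodule.span L FF) : aeval p G = 0 := by
  have h1 : Submodule.span L FF ≤ LinearMap.ker
      (aeval p : MvPolynomial (Fin (N + 1)) L →ₐ[L] S).toLinearMap :=
    Submodule.span_le.2 fun F hF => h F hF
  exact h1 hG

/-- **The uniform bound**, over all algebraically closed fields. -/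
theorem bound_sets (N D r d : ℕ) : ∃ B : ℕ, ∀ (L : Type) [Field L] [CharZero L] [IsAlgClosed L]
    (FF : Set (MvPolynomial (Fin (N + 1)) L)), (∀ F ∈ FF, ∃ e, e ≤ D ∧ F.IsHomogeneous e) →
    NoRat FF → ∀ (x : ℕ → Fin (N + 1) → L) (hne : ∀ m, x m ≠ 0),
    (∀ m, ∀ F ∈ FF, aeval (x m) F = 0) → (∀ j, PRecOD r d fun m => x m j) →
    (Set.range fun m => Projectivization.mk L (x m) (hne m)).encard ≤ (B : ℕ∞) := by
  classical
  let q : Fin ((D + 1) * (Ex N D).card) ≃ Fin (D + 1) × Fin (Ex N D).card := finProdFinEquiv.symm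
  obtain ⟨B, hB⟩ := bound_closed N ((D + 1) * (Ex N D).card) r d (fun i => ((q i).1 : ℕ))
  refine ⟨B, fun L _ _ _ FF hFF hno x hne hX hrec => ?_⟩
  obtain ⟨G, hG1, hG2, hG3⟩ := exists_family FF hFF
  refine hB L (fun i => G (q i)) (fun i => hG1 _) (fun p hp => ?_) x hne (fun m i => ?_) hrec
  · refine hno p fun F hF => vanish_span (FF := Set.range G) ?_ (hG3 F hF)
    rintro _ ⟨i, rfl⟩
    have h1 := hp (G (q (q.symm i))) ⟨q.symm i, rfl⟩
    rw [Equiv.apply_symm_apply] at h1
    exact h1
  · have h1 := vanish_span (FF := FF) (p := x m) (hX m) (hG2 (q i))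
    rw [← h1, aeval_eq_eval]

end Pool.Agent.Q183.UH
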