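import Pool.Agent.Q183.UH.NonUni
import Pool.Agent.Q183.UH.Desc

/-!
All fields of characteristic zero, arbitrary sets of forms of bounded degree.
-/

set_option autoImplicit false

namespace Pool.Agent.Q183.UH

open Filter Pool.Agent.TH143.HE Pool.Agent.Q183.RS MvPolynomial Cardinal Pool.Agent.H533R3.SL

variable {N : ℕ}

theorem goodZ_map {A L : Type} [Field A] [Field L] (ψ : A →+* L) {x' : ℕ → Fin (N + 1) → A}
    {x : ℕ → Fin (N + 1) → L} (hx : ∀ m j, ψ (x' m j) = x m j) {Z' Z : ℕ → Prop}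
    (hZ : ∀ t, Z' t ↔ Z t) {M t : ℕ} : GoodZ Z' x' M t ↔ GoodZ Z x M t := by
  unfold GoodZ
  rw [hZ, hZ]
  have h1 : Par (x' (t + M)) (x' t) ↔ Par (x (t + M)) (x t) := by
    constructor
    · intro h i j
      rw [← hx, ← hx, ← hx, ← hx, ← map_mul, ← map_mul, h i j]
    · intro h i j
      apply ψ.injective
      rw [map_mul, map_mul, hx, hx, hx, hx]
      exact h i j
  rw [h1]

/-- lifting of a P-recursive sequence to a subfield -/
theorem precOD_lift {A L : Type} [Field A] [Field L] (ψ : A →+* L) {r d : ℕ} {f' : ℕ → A}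
    {f : ℕ → L} (hf : ∀ m, ψ (f' m) = f m) {a : ℕ → Polynomial L} (h0 : ∃ k ≤ r, a k ≠ 0)
    (hd : ∀ k, (a k).natDegree ≤ d)
    (ha : ∀ m : ℕ, ∑ k ∈ Finset.range (r + 1), (a k).eval (m : L) * f (m + k) = 0)
    (har : ∀ k c, (a k).coeff c ∈ ψ.range) : PRecOD r d f' := by
  have ha1 : ∀ k, ∃ q : Polynomial A, q.map ψ = a k := by
    intro k
    have h1 : a k ∈ Polynomial.lifts ψ := by
      rw [Polynomial.lifts_iff_coeff_lifts]
      exact fun c => har k c
    exact h1
  choose a' ha' using ha1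
  obtain ⟨k, hk, hk0⟩ := h0
  refine ⟨a', ⟨k, hk, fun h0 => hk0 ?_⟩, fun k => ?_, fun m => ?_⟩
  · rw [← ha' k, h0, Polynomial.map_zero]
  · have h1 := hd k
    rw [← ha' k, Polynomial.natDegree_map] at h1
    exact h1
  · apply ψ.injective
    rw [map_zero, ← ha m, map_sum]
    refine Finset.sum_congr rfl fun k _ => ?_
    rw [map_mul, hf, ← ha' k, Polynomial.eval_map, ← map_natCast ψ m,
      Polynomial.eval₂_at_apply]

theorem lift_poly {A L : Type} [Field A] [Field L] (ψ : A →+* L)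
    {F : MvPolynomial (Fin (N + 1)) L} (h : ∀ c, F.coeff c ∈ ψ.range) :
    ∃ F' : MvPolynomial (Fin (N + 1)) A, MvPolynomial.map ψ F' = F := by
  have h1 : F ∈ Set.range (MvPolynomial.map ψ) := by
    rw [MvPolynomial.mem_range_map_iff_coeffs_subset]
    intro z hz
    obtain ⟨c, -, rfl⟩ := MvPolynomial.mem_coeffs_iff.1 hz
    exact h c
  exact h1

theorem eval_mapψ {A L : Type} [Field A] [Field L] (ψ : A →+* L) {x' : Fin (N + 1) → A}
    {x : Fin (N + 1) → L} (hx : ∀ j, ψ (x' j) = x j) (F : MvPolynomial (Fin (N + 1)) A) :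
    eval x (MvPolynomial.map ψ F) = ψ (eval x' F) := by
  have h1 : x = fun j => ψ (x' j) := funext fun j => (hx j).symm
  rw [h1, MvPolynomial.eval_map, eval, coe_eval₂Hom, eval₂_comp_left]
  rfl

/-- rational curves over a subfield -/
theorem PairOn.down {A L : Type} [Field A] [Field L] (ψ : A →+* L)
    {FF GG : Set (MvPolynomial (Fin (N + 1)) A)}
    (h : PairOn ((MvPolynomial.map ψ) '' FF) ((MvPolynomial.map ψ) '' GG)) : PairOn FF GG := by
  intro p hp
  have hz : ∀ F : MvPolynomial (Fin (N + 1)) A, aeval (fun j => (p j).map ψ)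
      (MvPolynomial.map ψ F) = (aeval p F).map ψ := fun F => (map_aeval ψ p F).symm
  rcases h (fun j => (p j).map ψ) (by
    rintro _ ⟨F, hF, rfl⟩
    rw [hz, hp F hF, Polynomial.map_zero]) with h1 | h1
  · left
    intro j k i i'
    have h2 := h1 j k i i'
    simp only [Polynomial.coeff_map] at h2
    rw [← map_mul, ← map_mul] at h2
    exact ψ.injective h2
  · right
    intro G hG
    have h2 := h1 _ ⟨G, hG, rfl⟩
    rw [hz] at h2
    exact (Polynomial.map_eq_zero ψ).1 h2

theorem pair_closed (N s s' r d : ℕ) (e : Fin s → ℕ) (e' : Fin s' → ℕ) :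
    ∃ M C : ℕ, 0 < M ∧ ∀ (L : Type) [Field L] [CharZero L] [IsAlgClosed L],
      BoundPair L N s s' r d e e' M C := by
  classical
  obtain ⟨M, C, hM, hB⟩ := corePair N s s' r d e e'
  refine ⟨M, C, hM, fun L _ _ _ F G hF hG hno x hne hX hrec => ?_⟩
  choose a ha0 had ha using hrec
  let T : Set L := (Set.range fun p : Fin s × (Fin (N + 1) →₀ ℕ) => (F p.1).coeff p.2) ∪
    ((Set.range fun p : Fin s' × (Fin (N + 1) →₀ ℕ) => (G p.1).coeff p.2) ∪
    ((Set.range fun p : ℕ × Fin (N + 1) => x p.1 p.2) ∪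
      Set.range fun p : Fin (N + 1) × ℕ × ℕ => (a p.1 p.2.1).coeff p.2.2))
  have hT : T.Countable := (Set.countable_range _).union ((Set.countable_range _).union
    ((Set.countable_range _).union (Set.countable_range _)))
  let k0 := Subfield.closure T
  have hk0 : #k0 ≤ ℵ₀ := (Subfield.cardinalMk_closure_le_max T).trans
    (max_le (Cardinal.le_aleph0_iff_set_countable.2 hT) le_rfl)
  let A := AlgebraicClosure k0
  have hA : #A ≤ 𝔠 := by
    have h1 : #A ≤ max #k0 ℵ₀ := Algebra.IsAlgebraic.cardinalMk_le_max k0 A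
    exact h1.trans ((max_le hk0 le_rfl).trans aleph0_le_continuum)
  let ψ' : A →ₐ[k0] L := IsAlgClosed.lift
  let ψ : A →+* L := ψ'
  have hcz : CharZero A := charZero_of_injective_algebraMap (algebraMap k0 A).injective
  have hTr : ∀ z ∈ T, z ∈ ψ.range := by
    intro z hz
    refine ⟨algebraMap k0 A ⟨z, Subfield.subset_closure hz⟩, ?_⟩
    exact ψ'.commutes _
  choose F' hF' using fun i => lift_poly ψ (F := F i) fun c => hTr _ (Or.inl ⟨(i, c), rfl⟩)
  choose G' hG' using fun i => lift_poly ψ (F := G i) fun c =>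
    hTr _ (Or.inr (Or.inl ⟨(i, c), rfl⟩))
  choose x' hx' using fun m j => hTr _ (Or.inr (Or.inr (Or.inl ⟨(m, j), rfl⟩)) : x m j ∈ T)
  have hFi : (MvPolynomial.map ψ) '' (Set.range F') = Set.range F := by
    rw [← Set.range_comp]
    congr 1
    exact funext hF'
  have hGi : (MvPolynomial.map ψ) '' (Set.range G') = Set.range G := by
    rw [← Set.range_comp]
    congr 1
    exact funext hG'
  have key := hB A hA F' G' (fun i => IsHomogeneous.of_map ψ.injective (by rw [hF' i]; exact hF i))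
    (fun i => IsHomogeneous.of_map ψ.injective (by rw [hG' i]; exact hG i))
    (PairOn.down ψ (by rw [hFi, hGi]; exact hno)) x' (fun m h0 => hne m (by
      funext j
      rw [← hx', h0]
      simp)) (fun m i => ψ.injective (by
      rw [map_zero, ← eval_mapψ ψ (hx' m), hF' i]
      exact hX m i)) (fun j => precOD_lift ψ (fun m => hx' m j) (ha0 j) (had j) (ha j)
        fun k c => hTr _ (Or.inr (Or.inr (Or.inr ⟨(j, k, c), rfl⟩))))
  refine le_trans (le_of_eq ?_) key
  congr 1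
  ext t
  refine not_congr (goodZ_map ψ hx' fun t => ?_).symm
  refine forall_congr' fun i => ?_
  rw [← hG' i, eval_mapψ ψ (hx' t)]
  exact (map_eq_zero ψ).symm

/-- **Pairs**, over all algebraically closed fields and for sets of forms. -/
theorem pair_sets (N D r d : ℕ) : ∃ M C : ℕ, 0 < M ∧
    ∀ (L : Type) [Field L] [CharZero L] [IsAlgClosed L]
    (FF GG : Set (MvPolynomial (Fin (N + 1)) L)), (∀ F ∈ FF, ∃ e, e ≤ D ∧ F.IsHomogeneous e) →
    (∀ G ∈ GG, ∃ e, e ≤ D ∧ G.IsHomogeneous e) → PairOn FF GG →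
    ∀ (x : ℕ → Fin (N + 1) → L), (∀ m, x m ≠ 0) →
    (∀ m, ∀ F ∈ FF, aeval (x m) F = 0) → (∀ j, PRecOD r d fun m => x m j) →
    {t | ¬ GoodZ (fun t => ∀ G ∈ GG, aeval (x t) G = 0) x M t}.encard ≤ (C : ℕ∞) := by
  classical
  let q : Fin ((D + 1) * (Ex N D).card) ≃ Fin (D + 1) × Fin (Ex N D).card := finProdFinEquiv.symm
  obtain ⟨M, C, hM, hB⟩ := pair_closed N ((D + 1) * (Ex N D).card) ((D + 1) * (Ex N D).card) r d
    (fun i => ((q i).1 : ℕ)) (fun i => ((q i).1 : ℕ))
  refine ⟨M, C, hM, fun L _ _ _ FF GG hFF hGG hno x hne hX hrec => ?_⟩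
  obtain ⟨F, hF1, hF2, hF3⟩ := exists_family FF hFF
  obtain ⟨G, hG1, hG2, hG3⟩ := exists_family GG hGG
  have hrange : ∀ {S : Type} [CommRing S] [Algebra L S] (H : Fin (D + 1) × Fin (Ex N D).card →
      MvPolynomial (Fin (N + 1)) L) (p : Fin (N + 1) → S),
      (∀ P ∈ Set.range (fun i => H (q i)), aeval p P = 0) → ∀ P ∈ Set.range H, aeval p P = 0 := by
    rintro S _ _ H p h _ ⟨i, rfl⟩
    have h1 := h (H (q (q.symm i))) ⟨q.symm i, rfl⟩
    rw [Equiv.apply_symm_apply] at h1
    exact h1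
  have key := hB L (fun i => F (q i)) (fun i => G (q i)) (fun i => hF1 _) (fun i => hG1 _)
    (fun p hp => by
      rcases hno p (fun P hP => vanish_span (FF := Set.range F) (hrange F p hp) (hF3 P hP)) with
        h1 | h1
      · exact Or.inl h1
      · right
        rintro _ ⟨i, rfl⟩
        exact vanish_span (FF := GG) h1 (hG2 _)) x hne (fun m i => by
      have h1 := vanish_span (FF := FF) (p := x m) (hX m) (hF2 (q i))
      rw [← h1, aeval_eq_eval]) hrec
  have hiff : ∀ t, (∀ G ∈ GG, aeval (x t) G = 0) ↔ ∀ i, eval (x t) (G (q i)) = 0 := by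
    intro t
    constructor
    · intro h i
      have h1 := vanish_span (FF := GG) h (hG2 (q i))
      rw [← h1, aeval_eq_eval]
    · intro h P hP
      refine vanish_span (FF := Set.range G) (hrange G (x t) ?_) (hG3 P hP)
      rintro _ ⟨i, rfl⟩
      rw [aeval_eq_eval]
      exact h i
  refine le_trans (le_of_eq ?_) key
  congr 1
  ext t
  simp only [hiff]

theorem PRecOD.map {K L : Type} [Field K] [Field L] (e : K →+* L) {r d : ℕ} {f : ℕ → K}
    (h : PRecOD r d f) : PRecOD r d fun m => e (f m) := by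
  obtain ⟨a, ⟨k, hk, hk0⟩, hd, h⟩ := h
  refine ⟨fun k => (a k).map e, ⟨k, hk, by rwa [Ne, Polynomial.map_eq_zero]⟩, fun k =>
    (Polynomial.natDegree_map_le).trans (hd k), fun m => ?_⟩
  have h1 := congrArg e (h m)
  rw [map_sum, map_zero] at h1
  rw [← h1]
  refine Finset.sum_congr rfl fun k _ => ?_
  rw [map_mul, Polynomial.eval_map, ← map_natCast e m, Polynomial.eval₂_at_apply]

/-- **Pairs**, over all fields of characteristic zero. -/
theorem pair_final (N D r d : ℕ) : ∃ M C : ℕ, 0 < M ∧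
    ∀ (K : Type) [Field K] [CharZero K]
    (FF GG : Set (MvPolynomial (Fin (N + 1)) K)), (∀ F ∈ FF, ∃ e, e ≤ D ∧ F.IsHomogeneous e) →
    (∀ G ∈ GG, ∃ e, e ≤ D ∧ G.IsHomogeneous e) →
    PairOn ((MvPolynomial.map (algebraMap K (AlgebraicClosure K))) '' FF)
      ((MvPolynomial.map (algebraMap K (AlgebraicClosure K))) '' GG) →
    ∀ (x : ℕ → Fin (N + 1) → K), (∀ m, x m ≠ 0) →
    (∀ m, ∀ F ∈ FF, aeval (x m) F = 0) → (∀ j, PRecOD r d fun m => x m j) →
    {t | ¬ GoodZ (fun t => ∀ G ∈ GG, aeval (x t) G = 0) x M t}.encard ≤ (C : ℕ∞) := by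
  obtain ⟨M, C, hM, hB⟩ := pair_sets N D r d
  refine ⟨M, C, hM, fun K _ _ FF GG hFF hGG hno x hne hX hrec => ?_⟩
  let L := AlgebraicClosure K
  let ψ : K →+* L := algebraMap K L
  have hcz : CharZero L := charZero_of_injective_algebraMap ψ.injective
  have hev : ∀ m (F : MvPolynomial (Fin (N + 1)) K),
      aeval (fun j => ψ (x m j)) (MvPolynomial.map ψ F) = ψ (aeval (x m) F) := by
    intro m F
    rw [aeval_eq_eval, aeval_eq_eval]
    exact eval_mapψ ψ (fun j => rfl) F
  have key := hB L ((MvPolynomial.map ψ) '' FF) ((MvPolynomial.map ψ) '' GG) (by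
    rintro _ ⟨F, hF, rfl⟩
    obtain ⟨e, he, h⟩ := hFF F hF
    exact ⟨e, he, h.map _⟩) (by
    rintro _ ⟨F, hF, rfl⟩
    obtain ⟨e, he, h⟩ := hGG F hF
    exact ⟨e, he, h.map _⟩) hno (fun m j => ψ (x m j)) (fun m h0 => hne m (by
      funext j
      have h1 : ψ (x m j) = 0 := congrFun h0 j
      rwa [map_eq_zero] at h1)) (by
    rintro m _ ⟨F, hF, rfl⟩
    rw [hev, hX m F hF, map_zero]) (fun j => (hrec j).map ψ)
  refine le_trans (le_of_eq ?_) key
  congr 1
  ext t
  refine not_congr (goodZ_map ψ (fun _ _ => rfl) fun t => ?_)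
  constructor
  · rintro h _ ⟨G, hG, rfl⟩
    rw [hev, h G hG, map_zero]
  · intro h G hG
    have h1 := h _ ⟨G, hG, rfl⟩
    rwa [hev, map_eq_zero] at h1

/-- **Varieties which are not uniruled**, over all extension fields. -/
theorem non_final {k : Type} [Field k] (hk : #k ≤ 𝔠) (FF : Set (MvPolynomial (Fin (N + 1)) k))
    (hprime : (Ideal.span FF).IsPrime) (hnu : ¬ Uniruled (Ideal.span FF)) (D : ℕ) (hD : 1 ≤ D)
    (hFF : ∀ F ∈ FF, ∃ e, e ≤ D ∧ F.IsHomogeneous e) (r d : ℕ) :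
    ∃ (G : MvPolynomial (Fin (N + 1)) k) (M C : ℕ), (∃ e, G.IsHomogeneous e) ∧
      G ∉ Ideal.span FF ∧ 0 < M ∧ ∀ (K : Type) [Field K] [CharZero K] [Algebra k K],
        BoundOff FF r d G M C K := by
  classical
  obtain ⟨G, M, C, hG1, hG2, hM, hB⟩ := coreNon FF hprime hnu D hD hFF r d
  refine ⟨G, M, C, hG1, hG2, hM, fun K _ _ _ x hne hX hrec => ?_⟩
  choose a ha0 had ha using hrec
  let T : Set K := Set.range (algebraMap k K) ∪
    ((Set.range fun p : ℕ × Fin (N + 1) => x p.1 p.2) ∪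
      Set.range fun p : Fin (N + 1) × ℕ × ℕ => (a p.1 p.2.1).coeff p.2.2)
  have hTc : #T ≤ 𝔠 := by
    refine (mk_union_le _ _).trans ?_
    have h1 : #(Set.range (algebraMap k K)) ≤ 𝔠 := mk_range_le.trans hk
    have h2 : #(((Set.range fun p : ℕ × Fin (N + 1) => x p.1 p.2) ∪
      Set.range fun p : Fin (N + 1) × ℕ × ℕ => (a p.1 p.2.1).coeff p.2.2 : Set K)) ≤ 𝔠 :=
      (Cardinal.le_aleph0_iff_set_countable.2
        ((Set.countable_range _).union (Set.countable_range _))).trans aleph0_le_continuum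
    exact (add_le_add h1 h2).trans (by rw [continuum_add_self])
  let K0 := Subfield.closure T
  have hK0 : #K0 ≤ 𝔠 := (Subfield.cardinalMk_closure_le_max T).trans
    (max_le hTc aleph0_le_continuum)
  let ι : k →+* K0 := (algebraMap k K).codRestrict K0.toSubring fun z =>
    Subfield.subset_closure (Or.inl ⟨z, rfl⟩)
  let _ : Algebra k K0 := ι.toAlgebra
  let ψ : K0 →+* K := K0.subtype
  have hTr : ∀ z ∈ T, z ∈ ψ.range := fun z hz => ⟨⟨z, Subfield.subset_closure hz⟩, rfl⟩
  choose x' hx' using fun m j => hTr _ (Or.inr (Or.inl ⟨(m, j), rfl⟩) : x m j ∈ T)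
  have hev : ∀ m (F : MvPolynomial (Fin (N + 1)) k), ψ (aeval (x' m) F) = aeval (x m) F := by
    intro m F
    have h1 : x m = fun j => ψ (x' m j) := funext fun j => (hx' m j).symm
    rw [h1, aeval_def, eval₂_comp_left]
    rfl
  have key := hB K0 hK0 x' (fun m h0 => hne m (by
      funext j
      rw [← hx', h0]
      simp)) (fun m F hF => ψ.injective (by rw [hev, hX m F hF, map_zero])) (fun j =>
      precOD_lift ψ (fun m => hx' m j) (ha0 j) (had j) (ha j)
        fun k c => hTr _ (Or.inr (Or.inr ⟨(j, k, c), rfl⟩)))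
  refine le_trans (le_of_eq ?_) key
  congr 1
  ext t
  refine not_congr (goodZ_map ψ hx' fun t => ?_).symm
  rw [← hev t G]
  exact (map_eq_zero ψ).symm

end Pool.Agent.Q183.UH
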