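import Pool.Agent.Q183.UH.Fin
import Pool.Agent.Q183.UH.Desc2

/-!
Finite sequences over all fields of characteristic zero, arbitrary sets of forms of bounded degree.
-/

set_option autoImplicit false

namespace Pool.Agent.Q183.UH

open Filter Pool.Agent.TH143.HE Pool.Agent.Q183.RS MvPolynomial Cardinal Pool.Agent.H533R3.SL

variable {N : ℕ}

/-- lifting of a regular recurrence to a subfield -/
theorem regRec_lift {A L : Type} [Field A] [Field L] (ψ : A →+* L) {R d l : ℕ} {f' : ℕ → A}
    {f : ℕ → L} (hf : ∀ m, ψ (f' m) = f m) {a : ℕ → Polynomial L}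
    (hd : ∀ k, (a k).natDegree ≤ d)
    (ha : ∀ m : ℕ, m + R < l → ∑ k ∈ Finset.range (R + 1), (a k).eval (m : L) * f (m + k) = 0)
    (hreg : ∀ m : ℕ, m < l → (a 0).eval (m : L) ≠ 0 ∧ (a R).eval (m : L) ≠ 0)
    (har : ∀ k c, (a k).coeff c ∈ ψ.range) : RegRec R d l f' := by
  have ha1 : ∀ k, ∃ q : Polynomial A, q.map ψ = a k := by
    intro k
    have h1 : a k ∈ Polynomial.lifts ψ := by
      rw [Polynomial.lifts_iff_coeff_lifts]
      exact fun c => har k c
    exact h1
  choose a' ha' using ha1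
  have hev : ∀ k (m : ℕ), ψ ((a' k).eval (m : A)) = (a k).eval (m : L) := by
    intro k m
    rw [← ha' k, Polynomial.eval_map, ← map_natCast ψ m, Polynomial.eval₂_at_apply]
  refine ⟨a', fun k => ?_, fun m hm => ?_, fun m hm => ?_⟩
  · have h1 := hd k
    rw [← ha' k, Polynomial.natDegree_map] at h1
    exact h1
  · apply ψ.injective
    rw [map_zero, ← ha m hm, map_sum]
    refine Finset.sum_congr rfl fun k _ => ?_
    rw [map_mul, hf, hev]
  · obtain ⟨h1, h2⟩ := hreg m hm
    rw [← hev] at h1 h2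
    exact ⟨fun h0 => h1 (by rw [h0, map_zero]), fun h0 => h2 (by rw [h0, map_zero])⟩

theorem RegRec.map {K L : Type} [Field K] [Field L] (e : K →+* L) {R d l : ℕ} {f : ℕ → K}
    (h : RegRec R d l f) : RegRec R d l fun m => e (f m) := by
  obtain ⟨a, hd, h, hreg⟩ := h
  have hev : ∀ k (m : ℕ), ((a k).map e).eval (m : L) = e ((a k).eval (m : K)) := by
    intro k m
    rw [Polynomial.eval_map, ← map_natCast e m, Polynomial.eval₂_at_apply]
  refine ⟨fun k => (a k).map e, fun k => (Polynomial.natDegree_map_le).trans (hd k),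
    fun m hm => ?_, fun m hm => ?_⟩
  · have h1 := congrArg e (h m hm)
    rw [map_sum, map_zero] at h1
    rw [← h1]
    refine Finset.sum_congr rfl fun k _ => ?_
    rw [map_mul, hev]
  · rw [hev, hev]
    exact ⟨(map_ne_zero e).2 (hreg m hm).1, (map_ne_zero e).2 (hreg m hm).2⟩

theorem RegRec.congr {K : Type} [Field K] {R d l : ℕ} {f g : ℕ → K} (h : RegRec R d l f)
    (hfg : ∀ m, m < l → f m = g m) : RegRec R d l g := by
  obtain ⟨a, hd, h, hreg⟩ := h
  refine ⟨a, hd, fun m hm => ?_, hreg⟩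
  rw [← h m hm]
  refine Finset.sum_congr rfl fun k hk => ?_
  have := Finset.mem_range.1 hk
  rw [hfg (m + k) (by omega)]

theorem fin_closed (N s s' R d : ℕ) (e : Fin s → ℕ) (e' : Fin s' → ℕ) :
    ∃ M C : ℕ, 0 < M ∧ ∀ (L : Type) [Field L] [CharZero L] [IsAlgClosed L],
      FinPair L N s s' R d e e' M C := by
  classical
  obtain ⟨M, C, hM, hB⟩ := coreFin N s s' R d e e'
  refine ⟨M, C, hM, fun L _ _ _ F G hF hG hno l x hne hX hrec => ?_⟩
  choose a had ha hreg using hrec
  let T : Set L := (Set.range fun p : Fin s × (Fin (N + 1) →₀ ℕ) => (F p.1).coeff p.2) ∪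
    ((Set.range fun p : Fin s' × (Fin (N + 1) →₀ ℕ) => (G p.1).coeff p.2) ∪
    ((Set.range fun p : ℕ × Fin (N + 1) => x p.1 p.2) ∪
      Set.range fun p : Fin (N + 1) × ℕ × ℕ => (a p.1 p.2.1).coeff p.2.2))
  have hT : T.Countable := (Set.countable_range _).union ((Set.countable_range _).union
    ((Set.countable_range _).union (Set.countable_range _)))
  let k0 := Subfield.closure T
  have hk0 : #k0 ≤ ℵ₀ := (Subfield.cardinalMk_closure_le_max T).trans
    (max_le (Cardinal.le_aleph0_iff_set_countable.2 hT) le_rfl)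
  let A := AlgebraicClosure k0
  have hA : #A ≤ 𝔠 := by
    have h1 : #A ≤ max #k0 ℵ₀ := Algebra.IsAlgebraic.cardinalMk_le_max k0 A
    exact h1.trans ((max_le hk0 le_rfl).trans aleph0_le_continuum)
  let ψ' : A →ₐ[k0] L := IsAlgClosed.lift
  let ψ : A →+* L := ψ'
  have hcz : CharZero A := charZero_of_injective_algebraMap (algebraMap k0 A).injective
  have hTr : ∀ z ∈ T, z ∈ ψ.range := by
    intro z hz
    refine ⟨algebraMap k0 A ⟨z, Subfield.subset_closure hz⟩, ?_⟩
    exact ψ'.commutes _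
  choose F' hF' using fun i => lift_poly ψ (F := F i) fun c => hTr _ (Or.inl ⟨(i, c), rfl⟩)
  choose G' hG' using fun i => lift_poly ψ (F := G i) fun c =>
    hTr _ (Or.inr (Or.inl ⟨(i, c), rfl⟩))
  choose x' hx' using fun m j => hTr _ (Or.inr (Or.inr (Or.inl ⟨(m, j), rfl⟩)) : x m j ∈ T)
  have hFi : (MvPolynomial.map ψ) '' (Set.range F') = Set.range F := by
    rw [← Set.range_comp]
    congr 1
    exact funext hF'
  have hGi : (MvPolynomial.map ψ) '' (Set.range G') = Set.range G := by
    rw [← Set.range_comp]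
    congr 1
    exact funext hG'
  intro t ht1 ht2
  have key := hB A hA F' G' (fun i => IsHomogeneous.of_map ψ.injective (by rw [hF' i]; exact hF i))
    (fun i => IsHomogeneous.of_map ψ.injective (by rw [hG' i]; exact hG i))
    (PairOn.down ψ (by rw [hFi, hGi]; exact hno)) l x' (fun m hm h0 => hne m hm (by
      funext j
      rw [← hx', h0]
      simp)) (fun m hm i => ψ.injective (by
      rw [map_zero, ← eval_mapψ ψ (hx' m), hF' i]
      exact hX m hm i)) (fun j => regRec_lift ψ (fun m => hx' m j) (had j) (ha j) (hreg j)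
        fun k c => hTr _ (Or.inr (Or.inr (Or.inr ⟨(j, k, c), rfl⟩)))) t ht1 ht2
  refine (goodZ_map ψ hx' fun t => ?_).1 key
  refine forall_congr' fun i => ?_
  rw [← hG' i, eval_mapψ ψ (hx' t)]
  exact (map_eq_zero ψ).symm

/-- **Pairs**, for finite sequences over all algebraically closed fields and for sets of forms. -/
theorem fin_sets (N D R d : ℕ) : ∃ M C : ℕ, 0 < M ∧
    ∀ (L : Type) [Field L] [CharZero L] [IsAlgClosed L]
    (FF GG : Set (MvPolynomial (Fin (N + 1)) L)), (∀ F ∈ FF, ∃ e, e ≤ D ∧ F.IsHomogeneous e) →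
    (∀ G ∈ GG, ∃ e, e ≤ D ∧ G.IsHomogeneous e) → PairOn FF GG →
    ∀ (l : ℕ) (x : ℕ → Fin (N + 1) → L), (∀ m, m < l → x m ≠ 0) →
    (∀ m, m < l → ∀ F ∈ FF, aeval (x m) F = 0) → (∀ j, RegRec R d l fun m => x m j) →
    ∀ t, C ≤ t → t + M + C ≤ l → GoodZ (fun t => ∀ G ∈ GG, aeval (x t) G = 0) x M t := by
  classical
  let q : Fin ((D + 1) * (Ex N D).card) ≃ Fin (D + 1) × Fin (Ex N D).card := finProdFinEquiv.symm
  obtain ⟨M, C, hM, hB⟩ := fin_closed N ((D + 1) * (Ex N D).card) ((D + 1) * (Ex N D).card) R d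
    (fun i => ((q i).1 : ℕ)) (fun i => ((q i).1 : ℕ))
  refine ⟨M, C, hM, fun L _ _ _ FF GG hFF hGG hno l x hne hX hrec t ht1 ht2 => ?_⟩
  obtain ⟨F, hF1, hF2, hF3⟩ := exists_family FF hFF
  obtain ⟨G, hG1, hG2, hG3⟩ := exists_family GG hGG
  have hrange : ∀ {S : Type} [CommRing S] [Algebra L S] (H : Fin (D + 1) × Fin (Ex N D).card →
      MvPolynomial (Fin (N + 1)) L) (p : Fin (N + 1) → S),
      (∀ P ∈ Set.range (fun i => H (q i)), aeval p P = 0) → ∀ P ∈ Set.range H, aeval p P = 0 := by
    rintro S _ _ H p h _ ⟨i, rfl⟩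
    have h1 := h (H (q (q.symm i))) ⟨q.symm i, rfl⟩
    rw [Equiv.apply_symm_apply] at h1
    exact h1
  have key := hB L (fun i => F (q i)) (fun i => G (q i)) (fun i => hF1 _) (fun i => hG1 _)
    (fun p hp => by
      rcases hno p (fun P hP => vanish_span (FF := Set.range F) (hrange F p hp) (hF3 P hP)) with
        h1 | h1
      · exact Or.inl h1
      · right
        rintro _ ⟨i, rfl⟩
        exact vanish_span (FF := GG) h1 (hG2 _)) l x hne (fun m hm i => by
      have h1 := vanish_span (FF := FF) (p := x m) (hX m hm) (hF2 (q i))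
      rw [← h1, aeval_eq_eval]) hrec t ht1 ht2
  have hiff : ∀ t, (∀ G ∈ GG, aeval (x t) G = 0) ↔ ∀ i, eval (x t) (G (q i)) = 0 := by
    intro t
    constructor
    · intro h i
      have h1 := vanish_span (FF := GG) h (hG2 (q i))
      rw [← h1, aeval_eq_eval]
    · intro h P hP
      refine vanish_span (FF := Set.range G) (hrange G (x t) ?_) (hG3 P hP)
      rintro _ ⟨i, rfl⟩
      rw [aeval_eq_eval]
      exact h i
  have hfun : (fun t => ∀ G ∈ GG, aeval (x t) G = 0) = fun t => ∀ i, eval (x t) (G (q i)) = 0 :=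
    funext fun t => propext (hiff t)
  rw [hfun]
  exact key

/-- **Pairs**, for finite sequences over all fields of characteristic zero. -/
theorem fin_final (N D R d : ℕ) : ∃ M C : ℕ, 0 < M ∧
    ∀ (K : Type) [Field K] [CharZero K]
    (FF GG : Set (MvPolynomial (Fin (N + 1)) K)), (∀ F ∈ FF, ∃ e, e ≤ D ∧ F.IsHomogeneous e) →
    (∀ G ∈ GG, ∃ e, e ≤ D ∧ G.IsHomogeneous e) →
    PairOn ((MvPolynomial.map (algebraMap K (AlgebraicClosure K))) '' FF)
      ((MvPolynomial.map (algebraMap K (AlgebraicClosure K))) '' GG) →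
    ∀ (l : ℕ) (x : ℕ → Fin (N + 1) → K), (∀ m, m < l → x m ≠ 0) →
    (∀ m, m < l → ∀ F ∈ FF, aeval (x m) F = 0) → (∀ j, RegRec R d l fun m => x m j) →
    ∀ t, C ≤ t → t + M + C ≤ l → GoodZ (fun t => ∀ G ∈ GG, aeval (x t) G = 0) x M t := by
  obtain ⟨M, C, hM, hB⟩ := fin_sets N D R d
  refine ⟨M, C, hM, fun K _ _ FF GG hFF hGG hno l x hne hX hrec t ht1 ht2 => ?_⟩
  let L := AlgebraicClosure K
  let ψ : K →+* L := algebraMap K L
  have hcz : CharZero L := charZero_of_injective_algebraMap ψ.injective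
  have hev : ∀ m (F : MvPolynomial (Fin (N + 1)) K),
      aeval (fun j => ψ (x m j)) (MvPolynomial.map ψ F) = ψ (aeval (x m) F) := by
    intro m F
    rw [aeval_eq_eval, aeval_eq_eval]
    exact eval_mapψ ψ (fun j => rfl) F
  have key := hB L ((MvPolynomial.map ψ) '' FF) ((MvPolynomial.map ψ) '' GG) (by
    rintro _ ⟨F, hF, rfl⟩
    obtain ⟨e, he, h⟩ := hFF F hF
    exact ⟨e, he, h.map _⟩) (by
    rintro _ ⟨F, hF, rfl⟩
    obtain ⟨e, he, h⟩ := hGG F hF
    exact ⟨e, he, h.map _⟩) hno l (fun m j => ψ (x m j)) (fun m hm h0 => hne m hm (by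
      funext j
      have h1 : ψ (x m j) = 0 := congrFun h0 j
      rwa [map_eq_zero] at h1)) (by
    rintro m hm _ ⟨F, hF, rfl⟩
    rw [hev, hX m hm F hF, map_zero]) (fun j => (hrec j).map ψ) t ht1 ht2
  refine (goodZ_map ψ (fun _ _ => rfl) fun t => ?_).2 key
  constructor
  · rintro h _ ⟨G, hG, rfl⟩
    rw [hev, h G hG, map_zero]
  · intro h G hG
    have h1 := h _ ⟨G, hG, rfl⟩
    rwa [hev, map_eq_zero] at h1

/-! ### recurrences of order at most `R` -/

/-- The finite sequence `f 0, ..., f (L - 1)` satisfies a linear recurrence of order at most `R`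
whose coefficients are polynomials of degree at most `d` in the index, such that the first and the
last coefficient do not vanish at the indices at which the recurrence holds. -/
def FinRec {K : Type} [Field K] (R d L : ℕ) (f : ℕ → K) : Prop :=
  ∃ (q : ℕ) (a : ℕ → Polynomial K), q ≤ R ∧ (∀ k, (a k).natDegree ≤ d) ∧
    ∀ m : ℕ, m + q < L → (a 0).eval (m : K) ≠ 0 ∧ (a q).eval (m : K) ≠ 0 ∧
      ∑ k ∈ Finset.range (q + 1), (a k).eval (m : K) * f (m + k) = 0

theorem natDegree_shift_le {K : Type} [Field K] (p : Polynomial K) (c : K) :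
    (p.comp (Polynomial.X + Polynomial.C c)).natDegree ≤ p.natDegree := by
  rw [Polynomial.natDegree_comp, Polynomial.natDegree_X_add_C, mul_one]

theorem eval_shift {K : Type} [Field K] (p : Polynomial K) (c m : K) :
    (p.comp (Polynomial.X + Polynomial.C c)).eval m = p.eval (m + c) := by
  simp

/-- the order can be raised -/
theorem FinRec.raise {K : Type} [Field K] {q d L : ℕ} {f : ℕ → K} {a : ℕ → Polynomial K}
    (hd : ∀ k, (a k).natDegree ≤ d)
    (ha : ∀ m : ℕ, m + q < L → (a 0).eval (m : K) ≠ 0 ∧ (a q).eval (m : K) ≠ 0 ∧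
      ∑ k ∈ Finset.range (q + 1), (a k).eval (m : K) * f (m + k) = 0) (s : ℕ) :
    ∃ b : ℕ → Polynomial K, (∀ k, (b k).natDegree ≤ d) ∧
      ∀ m : ℕ, m + (q + s) < L → (b 0).eval (m : K) ≠ 0 ∧ (b (q + s)).eval (m : K) ≠ 0 ∧
      ∑ k ∈ Finset.range (q + s + 1), (b k).eval (m : K) * f (m + k) = 0 := by
  induction s with
  | zero => exact ⟨a, hd, ha⟩
  | succ s ih =>
    obtain ⟨b, hbd, hb⟩ := ih
    let sh : Polynomial K → Polynomial K := fun p => p.comp (Polynomial.X + Polynomial.C 1)
    let b1 : ℕ → Polynomial K := fun k => if k = 0 then 0 else sh (b (k - 1))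
    let b2 : ℕ → Polynomial K := fun k => if k ≤ q + s then b k else 0
    have hev1 : ∀ k (m : ℕ), (b1 (k + 1)).eval (m : K) = (b k).eval ((m + 1 : ℕ) : K) := by
      intro k m
      have h1 : b1 (k + 1) = sh (b k) := by
        simp [b1]
      rw [h1, eval_shift, Nat.cast_add, Nat.cast_one]
    have hev10 : b1 0 = 0 := if_pos rfl
    refine ⟨fun k => b1 k - b2 k, fun k => ?_, fun m hm => ?_⟩
    · refine (Polynomial.natDegree_sub_le _ _).trans (max_le ?_ ?_)
      · rcases Nat.eq_zero_or_pos k with h | h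
        · rw [h, hev10, Polynomial.natDegree_zero]
          exact Nat.zero_le _
        · have h1 : b1 k = sh (b (k - 1)) := if_neg h.ne'
          rw [h1]
          exact (natDegree_shift_le _ _).trans (hbd _)
      · simp only [b2]
        split_ifs
        · exact hbd _
        · simp
    · have h1 := hb m (by omega)
      have h2 := hb (m + 1) (by omega)
      refine ⟨?_, ?_, ?_⟩
      · simp only [Polynomial.eval_sub]
        rw [hev10, Polynomial.eval_zero, zero_sub, neg_ne_zero]
        simp only [b2, Nat.zero_le, if_true]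
        exact h1.1
      · simp only [Polynomial.eval_sub]
        have h3 : b2 (q + (s + 1)) = 0 := if_neg (by omega)
        rw [h3, Polynomial.eval_zero, sub_zero]
        have h4 : q + (s + 1) = q + s + 1 := by ring
        rw [h4, hev1]
        exact h2.2.1
      · simp only [Polynomial.eval_sub, sub_mul, Finset.sum_sub_distrib]
        have h4 : q + (s + 1) + 1 = q + s + 1 + 1 := by ring
        have e1 : ∑ k ∈ Finset.range (q + (s + 1) + 1), (b1 k).eval (m : K) * f (m + k) = 0 := by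
          rw [h4, Finset.sum_range_succ', hev10, Polynomial.eval_zero, zero_mul, add_zero]
          rw [← h2.2.2]
          refine Finset.sum_congr rfl fun k _ => ?_
          rw [hev1]
          congr 2
          ring
        have e2 : ∑ k ∈ Finset.range (q + (s + 1) + 1), (b2 k).eval (m : K) * f (m + k) = 0 := by
          rw [h4, Finset.sum_range_succ]
          have h3 : b2 (q + s + 1) = 0 := if_neg (by omega)
          rw [h3, Polynomial.eval_zero, zero_mul, add_zero, ← h1.2.2]
          refine Finset.sum_congr rfl fun k hk => ?_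
          have h5 : b2 k = b k := if_pos (by have := Finset.mem_range.1 hk; omega)
          rw [h5]
        rw [e1, e2, sub_zero]

theorem FinRec.reg {K : Type} [Field K] {R d L : ℕ} {f : ℕ → K} (h : FinRec R d L f) :
    RegRec R d (L - R) f := by
  obtain ⟨q, a, hq, hd, ha⟩ := h
  obtain ⟨s, rfl⟩ := Nat.exists_eq_add_of_le hq
  obtain ⟨b, hbd, hb⟩ := FinRec.raise hd ha s
  exact ⟨b, hbd, fun m hm => (hb m (by omega)).2.2, fun m hm =>
    ⟨(hb m (by omega)).1, (hb m (by omega)).2.1⟩⟩

/-- a piece of a finite recurrence -/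
theorem FinRec.shift {K : Type} [Field K] {R d L : ℕ} {f : ℕ → K} (h : FinRec R d L f) (s : ℕ) :
    FinRec R d (L - s) fun m => f (s + m) := by
  obtain ⟨q, a, hq, hd, ha⟩ := h
  refine ⟨q, fun k => (a k).comp (Polynomial.X + Polynomial.C (s : K)), hq,
    fun k => (natDegree_shift_le _ _).trans (hd k), fun m hm => ?_⟩
  have h1 := ha (s + m) (by omega)
  have h2 : ∀ k, ((a k).comp (Polynomial.X + Polynomial.C (s : K))).eval (m : K) =
      (a k).eval ((s + m : ℕ) : K) := by
    intro k
    rw [eval_shift, Nat.cast_add, add_comm]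
  simp only [h2]
  refine ⟨h1.1, h1.2.1, ?_⟩
  rw [← h1.2.2]
  refine Finset.sum_congr rfl fun k _ => ?_
  rw [Nat.add_assoc]

theorem FinRec.mono {K : Type} [Field K] {R R' d d' L L' : ℕ} {f : ℕ → K} (h : FinRec R d L f)
    (hR : R ≤ R') (hd : d ≤ d') (hL : L' ≤ L) : FinRec R' d' L' f := by
  obtain ⟨q, a, hq, hd, ha⟩ := h
  exact ⟨q, a, hq.trans hR, fun k => (hd k).trans (by omega), fun m hm => ha m (by omega)⟩

end Pool.Agent.Q183.UH
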