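import Pool.Agent.Q183.UH.Tfae
import Pool.Agent.TH409.SH.Fin2

/-!
The equivalences for projective points.
-/

set_option autoImplicit false

namespace Pool.Agent.Q183.UH

open Filter Pool.Agent.TH143.HE Pool.Agent.Q183.RS MvPolynomial Cardinal Pool.Agent.H533R3.SL
open scoped LinearAlgebra.Projectivization

/-- A sequence of points of the projective variety of the forms in `FF` over the field `L` with
homogeneous coordinates each of which satisfies a recurrence of order at most `r` whose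
coefficients are polynomials of degree at most `d` in the index. -/
def RecPoints {N : ℕ} {K : Type} [Field K] (FF : Set (MvPolynomial (Fin (N + 1)) K)) (L : Type)
    [Field L] [Algebra K L] (r d : ℕ) (P : ℕ → ℙ L (Fin (N + 1) → L)) : Prop :=
  ∃ (x : ℕ → Fin (N + 1) → L) (h : ∀ m, x m ≠ 0), (∀ m, P m = Projectivization.mk L (x m) (h m)) ∧
    (∀ m, ∀ F ∈ FF, aeval (x m) F = 0) ∧ ∀ j, PRecOD r d fun m => x m j

/-- The same for recurrences with constant coefficients. -/
def CRecPoints {N : ℕ} {K : Type} [Field K] (FF : Set (MvPolynomial (Fin (N + 1)) K)) (L : Type)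
    [Field L] [Algebra K L] (r : ℕ) (P : ℕ → ℙ L (Fin (N + 1) → L)) : Prop :=
  ∃ (x : ℕ → Fin (N + 1) → L) (h : ∀ m, x m ≠ 0), (∀ m, P m = Projectivization.mk L (x m) (h m)) ∧
    (∀ m, ∀ F ∈ FF, aeval (x m) F = 0) ∧ ∀ j, CRecO r fun m => x m j

/-- The point is in the projective variety of the forms in `GG`. -/
def InZ {N : ℕ} {K : Type} [Field K] (GG : Set (MvPolynomial (Fin (N + 1)) K)) {L : Type}
    [Field L] [Algebra K L] (P : ℙ L (Fin (N + 1) → L)) : Prop :=
  ∀ G ∈ GG, aeval P.rep G = 0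

variable {N : ℕ}

theorem aeval_smul_homL {K L : Type} [Field K] [Field L] [Algebra K L]
    {F : MvPolynomial (Fin (N + 1)) K} {e : ℕ} (hF : F.IsHomogeneous e) (b : L)
    (v : Fin (N + 1) → L) : aeval (b • v) F = b ^ e * aeval v F := by
  have h1 : ∀ w : Fin (N + 1) → L, aeval w F = eval w (MvPolynomial.map (algebraMap K L) F) := by
    intro w
    rw [eval_map]
    rfl
  rw [h1, h1]
  exact eval_smul_homogL (hF.map _) b v

theorem inZ_mk {K L : Type} [Field K] [Field L] [Algebra K L]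
    {GG : Set (MvPolynomial (Fin (N + 1)) K)} (hGG : ∀ G ∈ GG, ∃ e, G.IsHomogeneous e)
    (v : Fin (N + 1) → L) (hv : v ≠ 0) :
    InZ GG (Projectivization.mk L v hv) ↔ ∀ G ∈ GG, aeval v G = 0 := by
  obtain ⟨a, ha⟩ := Projectivization.exists_smul_eq_mk_rep L v hv
  refine forall₂_congr fun G hG => ?_
  obtain ⟨e, he⟩ := hGG G hG
  have h1 : (Projectivization.mk L v hv).rep = (a : L) • v := ha.symm
  rw [h1, aeval_smul_homL he]
  constructor
  · intro h
    exact (mul_eq_zero.1 h).resolve_left (pow_ne_zero _ a.ne_zero)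
  · intro h
    rw [h, mul_zero]

theorem par_iff {L : Type} [Field L] {u v : Fin (N + 1) → L} (hu : u ≠ 0) (hv : v ≠ 0) :
    Par u v ↔ Projectivization.mk L u hu = Projectivization.mk L v hv := by
  constructor
  · exact fun h => h.eq hu hv
  · intro h
    rw [Projectivization.mk_eq_mk_iff'] at h
    obtain ⟨c, hc⟩ := h
    intro i j
    rw [← hc, Pi.smul_apply, Pi.smul_apply, smul_eq_mul, smul_eq_mul]
    ring

/-- **Pairs of varieties.** -/
theorem pair_tfae (N D : ℕ) : ∃ M C : ℕ → ℕ → ℕ, (∀ r d, 0 < M r d) ∧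
    ∀ (K : Type) [Field K] [CharZero K] (FF GG : Set (MvPolynomial (Fin (N + 1)) K)),
      (∀ F ∈ FF, ∃ e, e ≤ D ∧ F.IsHomogeneous e) → (∀ G ∈ GG, ∃ e, e ≤ D ∧ G.IsHomogeneous e) →
      [∀ (E : Type) [Field E] [Algebra K E], RatIn FF GG E,
       ∀ (E : Type) [Field E] [Algebra K E] [FiniteDimensional K E], RatIn FF GG E,
       ∀ (L : Type) [Field L] [Algebra K L] (r d : ℕ) (P : ℕ → ℙ L (Fin (N + 1) → L)),
        RecPoints FF L r d P →
        {t | P (t + M r d) ≠ P t ∧ ¬ (InZ GG (P t) ∧ InZ GG (P (t + M r d)))}.encard ≤ C r d,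
       ∀ (L : Type) [Field L] [Algebra K L] (r d : ℕ) (P : ℕ → ℙ L (Fin (N + 1) → L)),
        RecPoints FF L r d P → (P '' {t | ¬ InZ GG (P t)}).encard ≤ (M r d + C r d : ℕ),
       ∀ (L : Type) [Field L] [Algebra K L] [FiniteDimensional K L] (r : ℕ)
        (P : ℕ → ℙ L (Fin (N + 1) → L)), CRecPoints FF L r P →
        (P '' {t | ¬ InZ GG (P t)}).Finite].TFAE := by
  classical
  choose M C hM hB using fun r d => pair_final N D r d
  refine ⟨M, C, hM, fun K _ _ FF GG hFF hGG => ?_⟩
  have hFF' : ∀ F ∈ FF, ∃ e, F.IsHomogeneous e := fun F hF =>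
    let ⟨e, _, he⟩ := hFF F hF
    ⟨e, he⟩
  have hGG' : ∀ G ∈ GG, ∃ e, G.IsHomogeneous e := fun F hF =>
    let ⟨e, _, he⟩ := hGG F hF
    ⟨e, he⟩
  -- the bound
  have key : (∀ (E : Type) [Field E] [Algebra K E], RatIn FF GG E) →
      ∀ (L : Type) [Field L] [Algebra K L] (r d : ℕ) (x : ℕ → Fin (N + 1) → L),
        (∀ m, x m ≠ 0) → (∀ m, ∀ F ∈ FF, aeval (x m) F = 0) → (∀ j, PRecOD r d fun m => x m j) →
        {t | ¬ GoodZ (fun t => ∀ G ∈ GG, aeval (x t) G = 0) x (M r d) t}.encard ≤
          (C r d : ℕ∞) := by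
    intro h L _ _ r d x hne hX hrec
    have hcz : CharZero L := charZero_of_injective_algebraMap (algebraMap K L).injective
    let ψ := algebraMap K L
    have hev : ∀ m (F : MvPolynomial (Fin (N + 1)) K),
        aeval (x m) (MvPolynomial.map ψ F) = aeval (x m) F := fun m F =>
      aeval_map_algebraMap L (x m) F
    have h1 := hB r d L ((MvPolynomial.map ψ) '' FF) ((MvPolynomial.map ψ) '' GG) (by
      rintro _ ⟨F, hF, rfl⟩
      obtain ⟨e, he, h⟩ := hFF F hF
      exact ⟨e, he, h.map _⟩) (by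
      rintro _ ⟨F, hF, rfl⟩
      obtain ⟨e, he, h⟩ := hGG F hF
      exact ⟨e, he, h.map _⟩) (by
      let _ : Algebra K (AlgebraicClosure L) := ((algebraMap L (AlgebraicClosure L)).comp ψ).toAlgebra
      have h2 := (h (AlgebraicClosure L)).pairOn
      rw [← Set.image_comp, ← Set.image_comp]
      have h3 : ∀ F : MvPolynomial (Fin (N + 1)) K,
          (MvPolynomial.map (algebraMap L (AlgebraicClosure L)) ∘ MvPolynomial.map ψ) F =
          MvPolynomial.map (algebraMap K (AlgebraicClosure L)) F := by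
        intro F
        rw [Function.comp_apply, MvPolynomial.map_map]
        rfl
      rw [Set.image_congr fun F _ => h3 F, Set.image_congr fun F _ => h3 F]
      exact h2) x hne (by
      rintro m _ ⟨F, hF, rfl⟩
      rw [hev, hX m F hF]) hrec
    refine le_trans (le_of_eq ?_) h1
    congr 1
    ext t
    have h4 : ∀ t, (∀ G ∈ GG, aeval (x t) G = 0) ↔
        ∀ G ∈ (MvPolynomial.map ψ) '' GG, aeval (x t) G = 0 := by
      intro t
      constructor
      · rintro h _ ⟨G, hG, rfl⟩
        rw [hev, h G hG]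
      · intro h G hG
        have h1 := h _ ⟨G, hG, rfl⟩
        rwa [hev] at h1
    simp only [h4]
  tfae_have 1 → 2 := fun h E _ _ _ => h E
  tfae_have 2 → 1 := fun h => ratIn_ext hFF' hGG' fun E _ _ _ => h E
  tfae_have 1 → 3 := by
    rintro h L _ _ r d P ⟨x, hne, hP, hX, hrec⟩
    refine le_trans (Set.encard_le_encard ?_) (key h L r d x hne hX hrec)
    rintro t ⟨h1, h2⟩ h3
    unfold GoodZ at h3
    rcases h3 with h3 | h3
    · apply h2
      rw [hP, hP]
      exact ⟨(inZ_mk hGG' _ _).2 h3.1, (inZ_mk hGG' _ _).2 h3.2⟩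
    · apply h1
      rw [hP, hP]
      exact h3.eq _ _
  tfae_have 1 → 4 := by
    rintro h L _ _ r d P ⟨x, hne, hP, hX, hrec⟩
    have h1 := points_le (Z := fun t => ∀ G ∈ GG, aeval (x t) G = 0) hne (fun t t' hp hz G hG => by
      obtain ⟨e, he⟩ := hGG' G hG
      have h2 : eval (x t) (MvPolynomial.map (algebraMap K L) G) = 0 := by
        rw [ev_algebraMap]
        exact hz G hG
      have h3 := hp.eval_zero (hne t) (he.map _) h2
      rwa [ev_algebraMap] at h3) (hM r d) (key h L r d x hne hX hrec)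
    refine le_trans (le_of_eq ?_) h1
    congr 1
    have h2 : P = fun m => Projectivization.mk L (x m) (hne m) := funext hP
    rw [h2]
    congr 1
    ext t
    exact not_congr (inZ_mk hGG' _ _)
  tfae_have 3 → 4 := by
    intro h L _ _ r d P hP
    have h1 := h L r d P hP
    obtain ⟨x, hne, hPx, hX, hrec⟩ := hP
    have h2 := points_le (Z := fun t => ∀ G ∈ GG, aeval (x t) G = 0) hne (fun t t' hp hz G hG => by
      obtain ⟨e, he⟩ := hGG' G hG
      have h2 : eval (x t) (MvPolynomial.map (algebraMap K L) G) = 0 := by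
        rw [ev_algebraMap]
        exact hz G hG
      have h3 := hp.eval_zero (hne t) (he.map _) h2
      rwa [ev_algebraMap] at h3) (hM r d) (C := C r d) (by
      refine le_trans (Set.encard_le_encard ?_) h1
      intro t ht
      unfold GoodZ at ht
      push Not at ht
      refine ⟨fun h3 => ht.2 ?_, fun h3 => ?_⟩
      · rw [hPx, hPx] at h3
        exact (par_iff (hne _) (hne _)).2 h3
      · rw [hPx, hPx, inZ_mk hGG', inZ_mk hGG'] at h3
        obtain ⟨G, hG, hGne⟩ := ht.1 h3.1
        exact hGne (h3.2 G hG))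
    refine le_trans (le_of_eq ?_) h2
    congr 1
    have h2 : P = fun m => Projectivization.mk L (x m) (hne m) := funext hPx
    rw [h2]
    congr 1
    ext t
    exact not_congr (inZ_mk hGG' _ _)
  tfae_have 4 → 5 := by
    rintro h L _ _ _ r P ⟨x, hne, hP, hX, hrec⟩
    have h1 := h L r 0 P ⟨x, hne, hP, hX, fun j => CRecO.precOD (hrec j) 0⟩
    exact Set.finite_of_encard_le_coe h1
  tfae_have 5 → 2 := by
    intro h E _ _ _ p hp
    by_contra hcon
    push Not at hcon
    obtain ⟨hnc, G, hG, hGp⟩ := hcon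
    have hcz : CharZero E := charZero_of_injective_algebraMap (algebraMap K E).injective
    obtain ⟨r, x, hne, hX, hrec, hxG, hinf⟩ := seq_on_curve hp (fun hall => by
      obtain ⟨i, j, m, n, hne⟩ := hnc
      exact hne (hall i j m n)) hGp
    apply hinf
    have h1 := h E r (fun m => Projectivization.mk E (x m) (hne m)) ⟨x, hne, fun _ => rfl, hX, hrec⟩
    refine h1.subset ?_
    rintro _ ⟨m, rfl⟩
    refine ⟨m, ?_, rfl⟩
    intro h2
    rw [inZ_mk hGG'] at h2
    exact hxG m (h2 G hG)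
  tfae_finish

/-- Brody hyperbolic varieties contain no rational curves. -/
theorem brody_ratIn {K : Type} [Field K] {FF : Set (MvPolynomial (Fin (N + 1)) K)}
    (hFF : ∀ F ∈ FF, ∃ e, F.IsHomogeneous e) (σ : K →+* ℂ)
    (hyp : Pool.Agent.H458.Sp.BrodyHyperbolic ((MvPolynomial.map σ) '' FF)) (E : Type) [Field E]
    [Algebra K E] : RatIn FF {1} E := by
  refine ratIn_ext hFF (fun G hG => ⟨0, by rw [Set.mem_singleton_iff.1 hG]; exact isHomogeneous_one _ _⟩)
    (fun E _ _ _ => ?_) E
  intro p hp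
  left
  let _ : Algebra K ℂ := σ.toAlgebra
  have halg : Algebra.IsAlgebraic K E := Algebra.IsAlgebraic.of_finite K E
  let τ : E →ₐ[K] ℂ := IsAlgClosed.lift
  have h1 := Pool.Agent.TH409.SH.no_curveC' ((MvPolynomial.map σ) '' FF) (by
    rintro _ ⟨F, hF, rfl⟩
    obtain ⟨e, he⟩ := hFF F hF
    exact ⟨e, he.map _⟩) hyp (fun j => (p j).map (τ : E →+* ℂ)) (by
    rintro _ ⟨F, hF, rfl⟩
    have h2 : aeval (fun j => (p j).map (τ : E →+* ℂ)) (MvPolynomial.map σ F) =
        (aeval p F).map (τ : E →+* ℂ) := by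
      rw [← Polynomial.coe_mapRingHom, aeval_def, aeval_def, eval₂_comp_left, eval₂_map]
      congr 1
      refine RingHom.ext fun z => ?_
      change Polynomial.C (σ z) = ((Polynomial.C (algebraMap K E z)).map (τ : E →+* ℂ))
      rw [Polynomial.map_C]
      congr 1
      exact (τ.commutes z).symm
    rw [h2, hp F hF, Polynomial.map_zero])
  have h2 : ¬ ∃ j k i i', ((p j).map (τ : E →+* ℂ)).coeff i * ((p k).map (τ : E →+* ℂ)).coeff i' ≠
      ((p k).map (τ : E →+* ℂ)).coeff i * ((p j).map (τ : E →+* ℂ)).coeff i' := by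
    intro h
    obtain ⟨j, k, u, v, hne⟩ := (nc_iff fun j => (p j).map (τ : E →+* ℂ)).1 h
    exact hne (h1 j k u v)
  push Not at h2
  intro i j m n
  have h3 := h2 i j m n
  simp only [Polynomial.coeff_map] at h3
  apply (τ : E →+* ℂ).injective
  rw [map_mul, map_mul]
  exact h3

end Pool.Agent.Q183.UH
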