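import Pool.Agent.Q183.UH.Fin2
import Pool.Agent.Q183.UH.Thm

/-!
The equivalences for finite sequences of projective points.
-/

set_option autoImplicit false

namespace Pool.Agent.Q183.UH

open Filter Pool.Agent.TH143.HE Pool.Agent.Q183.RS MvPolynomial Cardinal Pool.Agent.H533R3.SL
open scoped LinearAlgebra.Projectivization

variable {N : ℕ}

/-- `P 0, ..., P (l - 1)` are points of the projective variety of the forms in `FF` over the field
`L` with homogeneous coordinates each of which satisfies a recurrence of order at most `R` whose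
coefficients are polynomials of degree at most `d` in the index, such that the first and the last
coefficient do not vanish at the indices at which the recurrence holds. -/
def FinPoints {K : Type} [Field K] (FF : Set (MvPolynomial (Fin (N + 1)) K)) (L : Type)
    [Field L] [Algebra K L] (R d l : ℕ) (P : ℕ → ℙ L (Fin (N + 1) → L)) : Prop :=
  ∃ x : ℕ → Fin (N + 1) → L,
    (∀ m, m < l → ∃ h : x m ≠ 0, P m = Projectivization.mk L (x m) h) ∧
    (∀ m, m < l → ∀ F ∈ FF, aeval (x m) F = 0) ∧ ∀ j, FinRec R d l fun m => x m j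

/-- the middle part of the sequence is periodic: number of points -/
theorem fin_points_le {α : Type} {P : ℕ → α} {Z : α → Prop} {M C l : ℕ} (hM : 0 < M)
    (h : ∀ t, C ≤ t → t + M + C ≤ l → P (t + M) = P t ∨ Z (P t) ∧ Z (P (t + M))) :
    (P '' {t | t < l ∧ ¬ Z (P t)}).encard ≤ (M + 2 * C : ℕ) := by
  classical
  have hsub : P '' {t | t < l ∧ ¬ Z (P t)} ⊆
      P '' (((Finset.range (C + M) ∪ Finset.Ico (l - C) l : Finset ℕ)) : Set ℕ) := by
    rintro _ ⟨t, ⟨ht, hZ⟩, rfl⟩
    have key : ∀ n, n ≤ t → n + C < l → ¬ Z (P n) → ∃ s, s < C + M ∧ P s = P n := by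
      intro n
      induction n using Nat.strong_induction_on with
      | _ n ih =>
        intro hnt hn hZn
        rcases Nat.lt_or_ge n (C + M) with h1 | h1
        · exact ⟨n, h1, rfl⟩
        · have h2 := h (n - M) (by omega) (by omega)
          have h3 : n - M + M = n := by omega
          rw [h3] at h2
          rcases h2 with h2 | h2
          · obtain ⟨s, hs, hs'⟩ := ih (n - M) (by omega) (by omega) (by omega) (by rwa [← h2])
            exact ⟨s, hs, hs'.trans h2.symm⟩
          · exact absurd h2.2 hZn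
    rcases Nat.lt_or_ge (t + C) l with h1 | h1
    · obtain ⟨s, hs, hs'⟩ := key t le_rfl h1 hZ
      refine ⟨s, ?_, hs'⟩
      rw [Finset.coe_union]
      exact Or.inl (Finset.mem_coe.2 (Finset.mem_range.2 hs))
    · refine ⟨t, ?_, rfl⟩
      rw [Finset.coe_union]
      exact Or.inr (Finset.mem_coe.2 (Finset.mem_Ico.2 ⟨by omega, ht⟩))
  refine (Set.encard_le_encard hsub).trans ((Set.encard_image_le _ _).trans ?_)
  rw [Set.encard_coe_eq_coe_finsetCard]
  have h1 : (Finset.range (C + M) ∪ Finset.Ico (l - C) l).card ≤ M + 2 * C := by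
    refine (Finset.card_union_le _ _).trans ?_
    rw [Finset.card_range, Nat.card_Ico]
    omega
  exact_mod_cast h1

/-- finite pieces of recurrences with constant coefficients -/
theorem CRecO.finRec {K : Type} [Field K] {r : ℕ} {f : ℕ → K} (h : CRecO r f) (d l : ℕ) :
    FinRec r d l fun m => f (r + m) := by
  classical
  obtain ⟨a, ⟨k0, hk0, hne⟩, ha⟩ := h
  let s : Finset ℕ := (Finset.range (r + 1)).filter fun k => a k ≠ 0
  have hs : s.Nonempty := ⟨k0, Finset.mem_filter.2 ⟨Finset.mem_range.2 (by omega), hne⟩⟩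
  let q0 := s.min' hs
  let q1 := s.max' hs
  have h0 := Finset.mem_filter.1 (s.min'_mem hs)
  have h1 := Finset.mem_filter.1 (s.max'_mem hs)
  have h01 : q0 ≤ q1 := s.min'_le_max' hs
  have hq1 : q1 ≤ r := by
    have := Finset.mem_range.1 h1.1
    omega
  refine ⟨q1 - q0, fun k => Polynomial.C (a (q0 + k)), by omega, fun k => by simp, fun m _ => ?_⟩
  simp only [Polynomial.eval_C]
  refine ⟨h0.2, ?_, ?_⟩
  · have h2 : q0 + (q1 - q0) = q1 := by omega
    rw [h2]
    exact h1.2
  · have h2 := ha (r - q0 + m)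
    have h3 : ∑ k ∈ Finset.range (r + 1), a k * f (r - q0 + m + k) =
        ∑ k ∈ Finset.Ico q0 (q1 + 1), a k * f (r - q0 + m + k) := by
      symm
      refine Finset.sum_subset ?_ ?_
      · intro k hk
        have := Finset.mem_Ico.1 hk
        exact Finset.mem_range.2 (by omega)
      · intro k hk hk'
        have h4 := Finset.mem_range.1 hk
        by_cases h5 : a k = 0
        · rw [h5, zero_mul]
        · exfalso
          apply hk'
          have h6 : k ∈ s := Finset.mem_filter.2 ⟨hk, h5⟩
          have h7 := s.min'_le k h6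
          have h8 := s.le_max' k h6
          exact Finset.mem_Ico.2 ⟨h7, by change k < q1 + 1; omega⟩
    rw [h3, Finset.sum_Ico_eq_sum_range] at h2
    have h4 : q1 + 1 - q0 = q1 - q0 + 1 := by omega
    rw [h4] at h2
    rw [← h2]
    refine Finset.sum_congr rfl fun k _ => ?_
    have h5 : r + (m + k) = r - q0 + m + (q0 + k) := by omega
    rw [h5]

/-- **Pairs of varieties, finite sequences.** -/
theorem fin_tfae (N D : ℕ) : ∃ M C : ℕ → ℕ → ℕ, (∀ R d, 0 < M R d) ∧
    ∀ (K : Type) [Field K] [CharZero K] (FF GG : Set (MvPolynomial (Fin (N + 1)) K)),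
      (∀ F ∈ FF, ∃ e, e ≤ D ∧ F.IsHomogeneous e) → (∀ G ∈ GG, ∃ e, e ≤ D ∧ G.IsHomogeneous e) →
      [∀ (E : Type) [Field E] [Algebra K E], RatIn FF GG E,
       ∀ (E : Type) [Field E] [Algebra K E] [FiniteDimensional K E], RatIn FF GG E,
       ∀ (L : Type) [Field L] [Algebra K L] (R d l : ℕ) (P : ℕ → ℙ L (Fin (N + 1) → L)),
        FinPoints FF L R d l P → ∀ t, C R d ≤ t → t + M R d + C R d ≤ l →
        P (t + M R d) = P t ∨ InZ GG (P t) ∧ InZ GG (P (t + M R d)),
       ∀ (L : Type) [Field L] [Algebra K L] (R d l : ℕ) (P : ℕ → ℙ L (Fin (N + 1) → L)),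
        FinPoints FF L R d l P →
        (P '' {t | t < l ∧ ¬ InZ GG (P t)}).encard ≤ (M R d + 2 * C R d : ℕ),
       ∀ (L : Type) [Field L] [Algebra K L] [FiniteDimensional K L] (R : ℕ), ∃ B : ℕ,
        ∀ (l : ℕ) (P : ℕ → ℙ L (Fin (N + 1) → L)), FinPoints FF L R 0 l P →
        (P '' {t | t < l ∧ ¬ InZ GG (P t)}).encard ≤ B].TFAE := by
  classical
  choose M C hM hB using fun R d => fin_final N D R d
  refine ⟨M, fun R d => C R d + R, hM, fun K _ _ FF GG hFF hGG => ?_⟩
  have hFF' : ∀ F ∈ FF, ∃ e, F.IsHomogeneous e := fun F hF =>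
    let ⟨e, _, he⟩ := hFF F hF
    ⟨e, he⟩
  have hGG' : ∀ G ∈ GG, ∃ e, G.IsHomogeneous e := fun F hF =>
    let ⟨e, _, he⟩ := hGG F hF
    ⟨e, he⟩
  -- the bound
  have key : (∀ (E : Type) [Field E] [Algebra K E], RatIn FF GG E) →
      ∀ (L : Type) [Field L] [Algebra K L] (R d l : ℕ) (x : ℕ → Fin (N + 1) → L),
        (∀ m, m < l → x m ≠ 0) → (∀ m, m < l → ∀ F ∈ FF, aeval (x m) F = 0) →
        (∀ j, FinRec R d l fun m => x m j) → ∀ t, C R d + R ≤ t → t + M R d + (C R d + R) ≤ l →
        GoodZ (fun t => ∀ G ∈ GG, aeval (x t) G = 0) x (M R d) t := by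
    intro h L _ _ R d l x hne hX hrec t ht1 ht2
    have hcz : CharZero L := charZero_of_injective_algebraMap (algebraMap K L).injective
    let ψ := algebraMap K L
    have hev : ∀ m (F : MvPolynomial (Fin (N + 1)) K),
        aeval (x m) (MvPolynomial.map ψ F) = aeval (x m) F := fun m F =>
      aeval_map_algebraMap L (x m) F
    have h1 := hB R d L ((MvPolynomial.map ψ) '' FF) ((MvPolynomial.map ψ) '' GG) (by
      rintro _ ⟨F, hF, rfl⟩
      obtain ⟨e, he, h⟩ := hFF F hF
      exact ⟨e, he, h.map _⟩) (by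
      rintro _ ⟨F, hF, rfl⟩
      obtain ⟨e, he, h⟩ := hGG F hF
      exact ⟨e, he, h.map _⟩) (by
      let _ : Algebra K (AlgebraicClosure L) := ((algebraMap L (AlgebraicClosure L)).comp ψ).toAlgebra
      have h2 := (h (AlgebraicClosure L)).pairOn
      rw [← Set.image_comp, ← Set.image_comp]
      have h3 : ∀ F : MvPolynomial (Fin (N + 1)) K,
          (MvPolynomial.map (algebraMap L (AlgebraicClosure L)) ∘ MvPolynomial.map ψ) F =
          MvPolynomial.map (algebraMap K (AlgebraicClosure L)) F := by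
        intro F
        rw [Function.comp_apply, MvPolynomial.map_map]
        rfl
      rw [Set.image_congr fun F _ => h3 F, Set.image_congr fun F _ => h3 F]
      exact h2) (l - R) x (fun m hm => hne m (by omega)) (by
      rintro m hm _ ⟨F, hF, rfl⟩
      rw [hev, hX m (by omega) F hF]) (fun j => (hrec j).reg) t (by omega) (by omega)
    have h4 : (fun t => ∀ G ∈ (MvPolynomial.map ψ) '' GG, aeval (x t) G = 0) =
        fun t => ∀ G ∈ GG, aeval (x t) G = 0 := by
      funext t
      apply propext
      constructor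
      · intro h G hG
        have h1 := h _ ⟨G, hG, rfl⟩
        rwa [hev] at h1
      · rintro h _ ⟨G, hG, rfl⟩
        rw [hev, h G hG]
    rw [h4] at h1
    exact h1
  tfae_have 1 → 2 := fun h E _ _ _ => h E
  tfae_have 2 → 1 := fun h => ratIn_ext hFF' hGG' fun E _ _ _ => h E
  tfae_have 1 → 3 := by
    rintro h L _ _ R d l P ⟨x, hP, hX, hrec⟩ t ht1 ht2
    change C R d + R ≤ t at ht1
    change t + M R d + (C R d + R) ≤ l at ht2
    have h3 := key h L R d l x (fun m hm => (hP m hm).1) hX hrec t ht1 ht2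
    have hMR := hM R d
    obtain ⟨n1, e1⟩ := hP t (by omega)
    by_cases hC : t + M R d < l
    · obtain ⟨n2, e2⟩ := hP (t + M R d) hC
      rw [e1, e2]
      unfold GoodZ at h3
      rcases h3 with h3 | h3
      · exact Or.inr ⟨(inZ_mk hGG' _ _).2 h3.1, (inZ_mk hGG' _ _).2 h3.2⟩
      · exact Or.inl (h3.eq _ _)
    · exfalso
      -- then `R = 0` and the first coordinate of the sequence vanishes
      have hR0 : R = 0 := by omega
      subst hR0
      apply (hP t (by omega)).1
      funext j
      obtain ⟨q, a, hq, -, ha⟩ := hrec j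
      have hq0 : q = 0 := by omega
      subst hq0
      have h5 := ha t (by omega)
      simp only [Finset.sum_range_succ, Finset.sum_range_zero, zero_add, Nat.add_zero] at h5
      exact (mul_eq_zero.1 h5.2.2).resolve_left h5.1
  tfae_have 3 → 4 := by
    intro h L _ _ R d l P hP
    exact fin_points_le (hM R d) (h L R d l P hP)
  tfae_have 4 → 5 := by
    intro h L _ _ _ R
    exact ⟨_, fun l P hP => h L R 0 l P hP⟩
  tfae_have 5 → 2 := by
    intro h E _ _ _ p hp
    by_contra hcon
    push Not at hcon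
    obtain ⟨hnc, G, hG, hGp⟩ := hcon
    have hcz : CharZero E := charZero_of_injective_algebraMap (algebraMap K E).injective
    obtain ⟨r, x, hne, hX, hrec, hxG, hinf⟩ := seq_on_curve hp (fun hall => by
      obtain ⟨i, j, m, n, hne⟩ := hnc
      exact hne (hall i j m n)) hGp
    obtain ⟨B, hB⟩ := h E r
    let P : ℕ → ℙ E (Fin (N + 1) → E) := fun m => Projectivization.mk E (x (r + m)) (hne _)
    have hinf' : (Set.range P).Infinite := by
      intro hfin
      apply hinf
      refine ((hfin.union ((Set.finite_lt_nat r).image fun m =>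
        Projectivization.mk E (x m) (hne m)))).subset ?_
      rintro _ ⟨m, rfl⟩
      rcases Nat.lt_or_ge m r with h1 | h1
      · exact Or.inr ⟨m, h1, rfl⟩
      · left
        refine ⟨m - r, ?_⟩
        have h2 : r + (m - r) = m := by omega
        simp only [P]
        congr 1
        rw [h2]
    -- many points
    obtain ⟨T, hT, hcard⟩ := hinf'.exists_subset_card_eq (B + 1)
    have hT' : ∀ Q, Q ∈ T → ∃ m, P m = Q := fun Q hQ => hT hQ
    choose! ind hind using hT'
    have h1 := hB (T.sup ind + 1) P ⟨fun m => x (r + m), fun m _ => ⟨hne _, rfl⟩,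
      fun m _ => hX _, fun j => CRecO.finRec (hrec j) 0 _⟩
    have h2 : (T : Set (ℙ E (Fin (N + 1) → E))) ⊆ P '' {t | t < T.sup ind + 1 ∧ ¬ InZ GG (P t)} := by
      intro Q hQ
      refine ⟨ind Q, ⟨Nat.lt_succ_of_le (Finset.le_sup (f := ind) hQ), ?_⟩, hind Q hQ⟩
      intro h3
      rw [inZ_mk hGG'] at h3
      exact hxG _ (h3 G hG)
    have h3 := (Set.encard_le_encard h2).trans h1
    rw [Set.encard_coe_eq_coe_finsetCard, hcard] at h3
    have h4 : B + 1 ≤ B := by exact_mod_cast h3
    omega
  tfae_finish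

end Pool.Agent.Q183.UH
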