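import Pool.Agent.Q183.UH.Plane

/-!
Recurrences with integer coefficients: bounds for the size of the points.
-/

set_option autoImplicit false

namespace Pool.Agent.Q183.UH

open Filter MvPolynomial
open scoped LinearAlgebra.Projectivization

/-- Rational curves over an algebraically closed field. -/
theorem RatIn.fin_ext {N : ℕ} {K : Type} [Field K] [IsAlgClosed K]
    {FF GG : Set (MvPolynomial (Fin (N + 1)) K)} (h : RatIn FF GG K) (E : Type) [Field E]
    [Algebra K E] [FiniteDimensional K E] : RatIn FF GG E := by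
  intro p hp
  have hbij : Function.Bijective (algebraMap K E) :=
    IsAlgClosed.algebraMap_bijective_of_isIntegral
  let ε : K ≃ₐ[K] E := AlgEquiv.ofBijective (Algebra.ofId K E) hbij
  let δ : E →ₐ[K] K := (ε.symm : E →ₐ[K] K)
  have hmap : ∀ F : MvPolynomial (Fin (N + 1)) K,
      aeval (fun j => (p j).map (δ : E →+* K)) F = (aeval p F).map (δ : E →+* K) := by
    intro F
    have h1 := comp_aeval_apply (f := p) (Polynomial.mapAlgHom δ) F
    exact h1.symm
  have hinj : Function.Injective (δ : E →+* K) := (δ : E →+* K).injective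
  rcases h (fun j => (p j).map (δ : E →+* K)) (fun F hF => by
    rw [hmap, hp F hF, Polynomial.map_zero]) with h1 | h1
  · left
    intro i j m n
    have h2 := h1 i j m n
    simp only [Polynomial.coeff_map] at h2
    rw [← map_mul, ← map_mul] at h2
    exact hinj h2
  · right
    intro G hG
    have h2 := h1 G hG
    rw [hmap] at h2
    exact (Polynomial.map_eq_zero _).1 h2

theorem root_le {a : Polynomial ℤ} {A : ℕ} (ha : a ≠ 0) (hA : ∀ i, |a.coeff i| ≤ A) {m : ℕ}
    (hm : a.eval (m : ℤ) = 0) : m ≤ A := by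
  obtain ⟨n, hn⟩ : ∃ n, a.natDegree = n := ⟨_, rfl⟩
  induction n using Nat.strong_induction_on generalizing a with
  | _ n ih =>
    rcases Nat.eq_zero_or_pos m with h0 | h0
    · omega
    have h1 := a.divX_mul_X_add
    have h2 : (m : ℤ) * a.divX.eval (m : ℤ) + a.coeff 0 = 0 := by
      have h3 := congrArg (Polynomial.eval (m : ℤ)) h1
      rw [hm, Polynomial.eval_add, Polynomial.eval_mul, Polynomial.eval_X, Polynomial.eval_C] at h3
      linarith
    by_cases h4 : a.coeff 0 = 0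
    · have h5 : a.divX ≠ 0 := by
        intro h6
        rw [h6, zero_mul, h4, Polynomial.C_0, add_zero] at h1
        exact ha h1.symm
      have h6 : a.divX.eval (m : ℤ) = 0 := by
        rw [h4, add_zero] at h2
        exact (mul_eq_zero.1 h2).resolve_left (by exact_mod_cast h0.ne')
      refine ih a.divX.natDegree ?_ h5 (fun i => ?_) h6 rfl
      · rw [Polynomial.natDegree_divX_eq_natDegree_tsub_one]
        have h7 : a.natDegree ≠ 0 := by
          intro h8
          apply h5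
          rw [Polynomial.divX_eq_zero_iff]
          rw [Polynomial.eq_C_of_natDegree_eq_zero h8]
          simp
        omega
      · rw [Polynomial.coeff_divX]
        exact hA _
    · have h5 : (m : ℤ) ∣ a.coeff 0 := ⟨-a.divX.eval (m : ℤ), by linarith⟩
      have h6 := Int.le_of_dvd (abs_pos.2 h4) ((dvd_abs _ _).2 h5)
      have h7 := hA 0
      exact_mod_cast h6.trans h7

theorem eval_size {a : Polynomial ℤ} {A d : ℕ} (hd : a.natDegree ≤ d) (hA : ∀ i, |a.coeff i| ≤ A)
    (m : ℕ) : |a.eval (m : ℤ)| ≤ (d + 1) * A * (m + 1) ^ d := by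
  rw [Polynomial.eval_eq_sum_range' (n := d + 1) (by omega)]
  refine (Finset.abs_sum_le_sum_abs _ _).trans ?_
  have h1 : ∀ i ∈ Finset.range (d + 1), |a.coeff i * (m : ℤ) ^ i| ≤ A * ((m : ℤ) + 1) ^ d := by
    intro i hi
    have h2 := Finset.mem_range.1 hi
    rw [abs_mul]
    refine mul_le_mul (hA i) ?_ (abs_nonneg _) (by positivity)
    rw [abs_pow, abs_of_nonneg (by positivity : (0 : ℤ) ≤ m)]
    calc (m : ℤ) ^ i ≤ ((m : ℤ) + 1) ^ i := pow_le_pow_left₀ (by positivity) (by linarith) _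
      _ ≤ ((m : ℤ) + 1) ^ d := pow_le_pow_right₀ (by
        have : (0 : ℤ) ≤ m := by positivity
        linarith) (by omega)
  refine (Finset.sum_le_sum h1).trans ?_
  rw [Finset.sum_const, Finset.card_range, nsmul_eq_mul]
  push_cast
  linarith

/-- The sequence `x` of length `l` (possibly infinite) satisfies a linear recurrence of order at most
`r` whose coefficients are polynomials of degree at most `d` with integer coefficients of absolute
value at most `A`, the first and the last one not the zero polynomial. -/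
def IntRec (r d A : ℕ) (l : ℕ∞) (x : ℕ → ℂ) : Prop :=
  ∃ (q : ℕ) (a : ℕ → Polynomial ℤ), q ≤ r ∧ a 0 ≠ 0 ∧ a q ≠ 0 ∧
    (∀ k, (a k).natDegree ≤ d ∧ ∀ i, |(a k).coeff i| ≤ A) ∧
    ∀ m : ℕ, ((m + q : ℕ) : ℕ∞) < l →
      ∑ k ∈ Finset.range (q + 1), (((a k).eval (m : ℤ) : ℤ) : ℂ) * x (m + k) = 0

/-- after the index `A` the recurrence is regular -/
theorem IntRec.finRec {r d A : ℕ} {l : ℕ∞} {x : ℕ → ℂ} (h : IntRec r d A l x) (l' : ℕ)
    (hl : ((A + 1 + l' : ℕ) : ℕ∞) ≤ l) : FinRec r d l' fun m => x (A + 1 + m) := by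
  obtain ⟨q, a, hq, h0, hq0, hA, ha⟩ := h
  have hev : ∀ k (m : ℕ), (((a k).map (Int.castRingHom ℂ)).comp
      (Polynomial.X + Polynomial.C ((A + 1 : ℕ) : ℂ))).eval (m : ℂ) =
      (((a k).eval ((A + 1 + m : ℕ) : ℤ) : ℤ) : ℂ) := by
    intro k m
    rw [eval_shift]
    have h1 : (m : ℂ) + ((A + 1 : ℕ) : ℂ) = Int.castRingHom ℂ ((A + 1 + m : ℕ) : ℤ) := by
      rw [map_natCast]
      push_cast
      ring
    rw [h1, Polynomial.eval_map, Polynomial.eval₂_at_apply]
    rfl
  refine ⟨q, fun k => ((a k).map (Int.castRingHom ℂ)).comp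
    (Polynomial.X + Polynomial.C ((A + 1 : ℕ) : ℂ)), hq, fun k =>
    (natDegree_shift_le _ _).trans ((Polynomial.natDegree_map_le).trans (hA k).1), fun m hm => ?_⟩
  simp only [hev]
  refine ⟨?_, ?_, ?_⟩
  · intro h1
    have h2 := root_le h0 (hA 0).2 (m := A + 1 + m) (by exact_mod_cast h1)
    omega
  · intro h1
    have h2 := root_le hq0 (hA q).2 (m := A + 1 + m) (by exact_mod_cast h1)
    omega
  · rw [← ha (A + 1 + m) (lt_of_lt_of_le (by exact_mod_cast (by omega : A + 1 + m + q < A + 1 + l')) hl)]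
    refine Finset.sum_congr rfl fun k _ => ?_
    rw [Nat.add_assoc (A + 1)]

/-- one step -/
theorem IntRec.step {r d A : ℕ} {l : ℕ∞} {x : ℕ → ℂ} (h : IntRec r d A l x) {t : ℕ}
    (ht : A + r < t) (htl : (t : ℕ∞) < l) {Y : ℝ} (hY : ∀ s < t, ‖x s‖ ≤ Y) (hY0 : 0 ≤ Y) :
    ‖x t‖ ≤ (r * ((d + 1) * A * (t + 1) ^ d)) * Y := by
  obtain ⟨q, a, hq, h0, hq0, hA, ha⟩ := h
  obtain ⟨m, hm⟩ : ∃ m, t = m + q := ⟨t - q, by omega⟩
  have hmA : A < m := by omega
  have h1 := ha m (by rw [← hm]; exact htl)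
  rw [Finset.sum_range_succ, ← hm] at h1
  have h2 : (1 : ℝ) ≤ ‖(((a q).eval (m : ℤ) : ℤ) : ℂ)‖ := by
    rw [Complex.norm_intCast]
    have h3 : (a q).eval (m : ℤ) ≠ 0 := fun h4 => by
      have := root_le hq0 (hA q).2 h4
      omega
    exact_mod_cast Int.one_le_abs h3
  have h3 : (((a q).eval (m : ℤ) : ℤ) : ℂ) * x t =
      -∑ k ∈ Finset.range q, (((a k).eval (m : ℤ) : ℤ) : ℂ) * x (m + k) := by
    linear_combination h1
  have h4 : ‖x t‖ ≤ ‖(((a q).eval (m : ℤ) : ℤ) : ℂ) * x t‖ := by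
    rw [norm_mul]
    nlinarith [norm_nonneg (x t)]
  refine h4.trans ?_
  rw [h3, norm_neg]
  refine (norm_sum_le _ _).trans ?_
  have h5 : ∀ k ∈ Finset.range q, ‖(((a k).eval (m : ℤ) : ℤ) : ℂ) * x (m + k)‖ ≤
      ((d + 1) * A * (t + 1) ^ d) * Y := by
    intro k hk
    have h6 := Finset.mem_range.1 hk
    rw [norm_mul, Complex.norm_intCast]
    refine mul_le_mul ?_ (hY _ (by omega)) (norm_nonneg _) (by positivity)
    have h7 := eval_size (hA k).1 (hA k).2 m
    have h8 : (|(((a k).eval (m : ℤ) : ℤ) : ℝ)|) ≤ (d + 1) * A * (m + 1) ^ d := by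
      exact_mod_cast h7
    refine h8.trans ?_
    refine mul_le_mul_of_nonneg_left ?_ (by positivity)
    refine pow_le_pow_left₀ (by positivity) ?_ _
    have : (m : ℝ) ≤ t := by exact_mod_cast (by omega : m ≤ t)
    linarith
  refine (Finset.sum_le_sum h5).trans ?_
  rw [Finset.sum_const, Finset.card_range, nsmul_eq_mul]
  have h6 : (q : ℝ) ≤ r := by exact_mod_cast hq
  have h7 : (0 : ℝ) ≤ ((d + 1) * A * (t + 1) ^ d) * Y := by positivity
  nlinarith

/-- several steps -/
theorem IntRec.steps {r d A : ℕ} {l : ℕ∞} {x : ℕ → ℂ} (h : IntRec r d A l x) {t0 n : ℕ}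
    (ht0 : A + r < t0) (htl : ((t0 + n : ℕ) : ℕ∞) ≤ l) {Y W : ℝ} (hY : ∀ s < t0, ‖x s‖ ≤ Y)
    (hY0 : 0 ≤ Y) (hW1 : 1 ≤ W)
    (hW : ∀ t, t < t0 + n → (r : ℝ) * ((d + 1) * A * (t + 1) ^ d) ≤ W) :
    ∀ s < t0 + n, ‖x s‖ ≤ W ^ n * Y := by
  induction n with
  | zero =>
    intro s hs
    rw [pow_zero, one_mul]
    exact hY s hs
  | succ n ih =>
    have ih' := ih (le_trans (by exact_mod_cast (by omega : t0 + n ≤ t0 + (n + 1))) htl)
      fun t ht => hW t (by omega)
    intro s hs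
    have h0 : 0 ≤ W ^ n * Y := by positivity
    rcases Nat.lt_or_ge s (t0 + n) with h1 | h1
    · refine (ih' s h1).trans ?_
      rw [pow_succ]
      nlinarith
    · have h2 : s = t0 + n := by omega
      rw [h2]
      refine (h.step (t := t0 + n) (by omega) (lt_of_lt_of_le (by
        exact_mod_cast (by omega : t0 + n < t0 + (n + 1))) htl) ih' h0).trans ?_
      have h3 : W ^ (n + 1) * Y = W * (W ^ n * Y) := by ring
      rw [h3]
      exact mul_le_mul_of_nonneg_right (hW _ (by omega)) h0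

/-- the constant in the bound -/
def cst (r d M C : ℕ) : ℕ := (r + 1) * (d + 1) * (C + M + 3) ^ d + 2 * C + 1 + (d + 1) * (C + M + 1)

/-- **The size of a sequence whose middle part is periodic.** -/
theorem IntRec.bound {r d A M C : ℕ} {l : ℕ∞} {x : ℕ → ℂ} (h : IntRec r d A l x) (hA : 1 ≤ A)
    (hM : 0 < M) (hper : ∀ t, A + 1 + C ≤ t → ((t + M + C : ℕ) : ℕ∞) ≤ l → x (t + M) = x t)
    {B : ℝ} (hB0 : 0 ≤ B) (hB : ∀ t, t ≤ A + r → (t : ℕ∞) < l → ‖x t‖ ≤ B) :
    (∀ t : ℕ, ((t + cst r d M C : ℕ) : ℕ∞) ≤ l →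
      ‖x t‖ ≤ ((cst r d M C : ℝ) * A) ^ cst r d M C * B) ∧
    ∀ t : ℕ, (t : ℕ∞) < l →
      ‖x t‖ ≤ ((cst r d M C : ℝ) * (A * (t + 1) ^ d)) ^ cst r d M C * B := by
  obtain ⟨c, hc⟩ : ∃ c, c = cst r d M C := ⟨_, rfl⟩
  rw [← hc]
  have hA1 : (1 : ℝ) ≤ A := by exact_mod_cast hA
  obtain ⟨c1, hc1⟩ : ∃ c1 : ℕ, c1 = (r + 1) * (d + 1) * (C + M + 3) ^ d := ⟨_, rfl⟩
  have hc' : c = c1 + 2 * C + 1 + (d + 1) * (C + M + 1) := by rw [hc, hc1]; rfl
  have hc1c : (c1 : ℝ) ≤ c := by
    have : c1 ≤ c := by omega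
    exact_mod_cast this
  have hc11 : (1 : ℝ) ≤ c1 := by
    have : 1 ≤ c1 := by
      rw [hc1]
      exact Nat.one_le_iff_ne_zero.2 (by positivity)
    exact_mod_cast this
  have hcR : (1 : ℝ) ≤ c := hc11.trans hc1c
  -- the factor for the first indices
  obtain ⟨W1, hW1⟩ : ∃ W1 : ℝ, W1 = (r + 1) * ((d + 1) * A * (A + 1 + C + M + 1) ^ d) := ⟨_, rfl⟩
  have hW11 : 1 ≤ W1 := by
    rw [hW1]
    have e1 : (1 : ℝ) ≤ r + 1 := by
      have : (0 : ℝ) ≤ r := by positivity
      linarith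
    have e2 : (1 : ℝ) ≤ d + 1 := by
      have : (0 : ℝ) ≤ d := by positivity
      linarith
    have e3 : (1 : ℝ) ≤ (A + 1 + C + M + 1 : ℝ) ^ d := one_le_pow₀ (by
      have : (0 : ℝ) ≤ C := by positivity
      have : (0 : ℝ) ≤ M := by positivity
      linarith)
    exact one_le_mul_of_one_le_of_one_le e1 (one_le_mul_of_one_le_of_one_le
      (one_le_mul_of_one_le_of_one_le e2 hA1) e3)
  have hW1c : W1 ≤ (c1 : ℝ) * A ^ (d + 1) := by
    rw [hW1, hc1]
    push_cast
    have e1 : (A + 1 + C + M + 1 : ℝ) ^ d ≤ ((C + M + 3) * A) ^ d := by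
      refine pow_le_pow_left₀ (by positivity) ?_ _
      have : (0 : ℝ) ≤ C := by positivity
      have : (0 : ℝ) ≤ M := by positivity
      nlinarith
    have e2 : ((r : ℝ) + 1) * ((d + 1) * A * (A + 1 + C + M + 1) ^ d) ≤
        (r + 1) * ((d + 1) * A * ((C + M + 3) * A) ^ d) := by
      refine mul_le_mul_of_nonneg_left ?_ (by positivity)
      exact mul_le_mul_of_nonneg_left e1 (by positivity)
    refine e2.trans (le_of_eq ?_)
    rw [mul_pow, pow_succ]
    ring
  have hU : ∀ t : ℕ, t ≤ A + 1 + C + M → (t : ℕ∞) < l → ‖x t‖ ≤ W1 ^ (C + M + 1) * B := by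
    intro t ht htl
    rcases Nat.lt_or_ge (A + r) t with h1 | h1
    · have h2 := h.steps (t0 := A + r + 1) (n := t - (A + r)) (by omega) (by
        have h3 : A + r + 1 + (t - (A + r)) = t + 1 := by omega
        rw [h3]
        exact Order.add_one_le_of_lt htl) (Y := B) (W := W1) (fun s hs => hB s (by omega)
          (lt_of_lt_of_le (by exact_mod_cast (by omega : s < t)) htl.le)) hB0 hW11 (fun s hs => by
          rw [hW1]
          have e1 : ((s : ℝ) + 1) ^ d ≤ (A + 1 + C + M + 1) ^ d := by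
            refine pow_le_pow_left₀ (by positivity) ?_ _
            have : (s : ℝ) ≤ (A + 1 + C + M : ℕ) := by exact_mod_cast (by omega)
            push_cast at this
            linarith
          have e2 : (0 : ℝ) ≤ (d + 1) * A * (A + 1 + C + M + 1) ^ d := by positivity
          calc (r : ℝ) * ((d + 1) * A * (s + 1) ^ d)
              ≤ r * ((d + 1) * A * (A + 1 + C + M + 1) ^ d) := by
                refine mul_le_mul_of_nonneg_left ?_ (by positivity)
                exact mul_le_mul_of_nonneg_left e1 (by positivity)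
            _ ≤ _ := by nlinarith) t (by omega)
      refine h2.trans (mul_le_mul_of_nonneg_right ?_ hB0)
      exact pow_le_pow_right₀ hW11 (by omega)
    · refine (hB t h1 htl).trans ?_
      have h2 : 1 ≤ W1 ^ (C + M + 1) := one_le_pow₀ hW11
      nlinarith
  have hmid : ∀ t : ℕ, ((t + C + 1 : ℕ) : ℕ∞) ≤ l → ‖x t‖ ≤ W1 ^ (C + M + 1) * B := by
    intro t
    induction t using Nat.strong_induction_on with
    | _ t ih =>
      intro ht
      rcases Nat.lt_or_ge (A + 1 + C + M) t with h1 | h1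
      · have h2 := hper (t - M) (by omega) (le_trans (by
          exact_mod_cast (by omega : t - M + M + C ≤ t + C + 1)) ht)
        have h3 : t - M + M = t := by omega
        rw [h3] at h2
        rw [h2]
        exact ih (t - M) (by omega) (le_trans (by
          exact_mod_cast (by omega : t - M + C + 1 ≤ t + C + 1)) ht)
      · exact hU t h1 (lt_of_lt_of_le (by exact_mod_cast (by omega : t < t + C + 1)) ht)
  have hpow : W1 ^ (C + M + 1) ≤ ((c : ℝ) * A) ^ ((d + 1) * (C + M + 1)) := by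
    rw [pow_mul]
    refine pow_le_pow_left₀ (by linarith) (hW1c.trans ?_) _
    rw [mul_pow]
    refine mul_le_mul_of_nonneg_right ?_ (by positivity)
    exact hc1c.trans (le_self_pow₀ hcR (by omega))
  have hcA : (1 : ℝ) ≤ c * A := one_le_mul_of_one_le_of_one_le hcR hA1
  refine ⟨fun t ht => ?_, fun t ht => ?_⟩
  · refine (hmid t (le_trans (by exact_mod_cast (by omega : t + C + 1 ≤ t + c)) ht)).trans ?_
    refine mul_le_mul_of_nonneg_right (hpow.trans ?_) hB0
    exact pow_le_pow_right₀ hcA (by omega)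
  · -- the last indices
    obtain ⟨Q, hQ⟩ : ∃ Q : ℝ, Q = c * (A * (t + 1) ^ d) := ⟨_, rfl⟩
    rw [← hQ]
    have ht1 : (1 : ℝ) ≤ (t + 1 : ℝ) ^ d := one_le_pow₀ (by
      have : (0 : ℝ) ≤ t := by positivity
      linarith)
    have hcAQ : (c : ℝ) * A ≤ Q := by
      rw [hQ]
      refine mul_le_mul_of_nonneg_left ?_ (by positivity)
      nlinarith
    have hQ1 : 1 ≤ Q := hcA.trans hcAQ
    have hWQ : ∀ s : ℕ, s ≤ t → (r : ℝ) * ((d + 1) * A * (s + 1) ^ d) ≤ Q := by
      intro s hs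
      have e1 : ((s : ℝ) + 1) ^ d ≤ (t + 1) ^ d := by
        refine pow_le_pow_left₀ (by positivity) ?_ _
        have : (s : ℝ) ≤ t := by exact_mod_cast hs
        linarith
      have e3 : ((r : ℝ) + 1) * (d + 1) ≤ c := by
        have e4 : (r + 1) * (d + 1) ≤ c := by
          have : (r + 1) * (d + 1) * 1 ≤ c1 := by
            rw [hc1]
            exact Nat.mul_le_mul_left _ (Nat.one_le_pow _ _ (by omega))
          omega
        exact_mod_cast e4
      calc (r : ℝ) * ((d + 1) * A * (s + 1) ^ d)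
          ≤ r * ((d + 1) * A * (t + 1) ^ d) := by
            refine mul_le_mul_of_nonneg_left ?_ (by positivity)
            exact mul_le_mul_of_nonneg_left e1 (by positivity)
        _ ≤ ((r + 1) * (d + 1)) * (A * (t + 1) ^ d) := by
            have : (0 : ℝ) ≤ (d + 1) * (A * (t + 1) ^ d) := by positivity
            nlinarith
        _ ≤ Q := by
            rw [hQ]
            exact mul_le_mul_of_nonneg_right e3 (by positivity)
    have hfin : ‖x t‖ ≤ Q ^ C * (W1 ^ (C + M + 1) * B) := by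
      have hU0 : B ≤ W1 ^ (C + M + 1) * B := by
        have : 1 ≤ W1 ^ (C + M + 1) := one_le_pow₀ hW11
        nlinarith
      have hU00 : 0 ≤ W1 ^ (C + M + 1) * B := hB0.trans hU0
      rcases Nat.lt_or_ge (A + r) (t + 1 - C) with h1 | h1
      · have h2 := h.steps (t0 := t + 1 - C) (n := C) h1 (by
          have h3 : t + 1 - C + C = t + 1 := by omega
          rw [h3]
          exact Order.add_one_le_of_lt ht) (Y := W1 ^ (C + M + 1) * B) (W := Q) (fun s hs =>
            hmid s (le_trans (by exact_mod_cast (by omega : s + C + 1 ≤ t + 1))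
              (Order.add_one_le_of_lt ht))) hU00 hQ1 (fun s hs => hWQ s (by omega)) t (by omega)
        exact h2
      · rcases Nat.lt_or_ge (A + r) t with h4 | h4
        · have h2 := h.steps (t0 := A + r + 1) (n := t - (A + r)) (by omega) (by
            have h3 : A + r + 1 + (t - (A + r)) = t + 1 := by omega
            rw [h3]
            exact Order.add_one_le_of_lt ht) (Y := B) (W := Q) (fun s hs => hB s (by omega)
              (lt_of_lt_of_le (by exact_mod_cast (by omega : s < t)) ht.le)) hB0 hQ1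
              (fun s hs => hWQ s (by omega)) t (by omega)
          refine h2.trans ?_
          refine mul_le_mul (pow_le_pow_right₀ hQ1 (by omega)) hU0 hB0 (by positivity)
        · refine (hB t h4 ht).trans (hU0.trans ?_)
          have h5 : 1 ≤ Q ^ C := one_le_pow₀ hQ1
          nlinarith
    refine hfin.trans ?_
    rw [← mul_assoc]
    refine mul_le_mul_of_nonneg_right ?_ hB0
    have e1 : W1 ^ (C + M + 1) ≤ Q ^ ((d + 1) * (C + M + 1)) :=
      hpow.trans (pow_le_pow_left₀ (by positivity) hcAQ _)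
    calc Q ^ C * W1 ^ (C + M + 1) ≤ Q ^ C * Q ^ ((d + 1) * (C + M + 1)) :=
          mul_le_mul_of_nonneg_left e1 (by positivity)
      _ = Q ^ (C + (d + 1) * (C + M + 1)) := by rw [pow_add]
      _ ≤ Q ^ c := pow_le_pow_right₀ hQ1 (by omega)

/-- **The size of the points of plane curves in recurrent sequences.** -/
theorem plane_size (D r d : ℕ) : ∃ M c : ℕ, 0 < M ∧ ∀ (F : MvPolynomial (Fin 2) ℂ),
    F.totalDegree ≤ D → NoParam F ℂ → ∀ (A : ℕ), 1 ≤ A → ∀ (B : ℝ), 0 ≤ B → ∀ (l : ℕ∞)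
    (x y : ℕ → ℂ), (∀ t : ℕ, (t : ℕ∞) < l → aeval ![x t, y t] F = 0) → IntRec r d A l x →
    IntRec r d A l y → (∀ t : ℕ, t ≤ A + r → (t : ℕ∞) < l → ‖x t‖ ≤ B ∧ ‖y t‖ ≤ B) →
    (∀ t : ℕ, A + c ≤ t → ((t + M + c : ℕ) : ℕ∞) ≤ l → x (t + M) = x t ∧ y (t + M) = y t) ∧
    (∀ t : ℕ, ((t + c : ℕ) : ℕ∞) ≤ l →
      ‖x t‖ ≤ ((c : ℝ) * A) ^ c * B ∧ ‖y t‖ ≤ ((c : ℝ) * A) ^ c * B) ∧
    ∀ t : ℕ, (t : ℕ∞) < l → ‖x t‖ ≤ ((c : ℝ) * (A * (t + 1) ^ d)) ^ c * B ∧
      ‖y t‖ ≤ ((c : ℝ) * (A * (t + 1) ^ d)) ^ c * B := by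
  obtain ⟨M, C, hM, h⟩ := plane_fin' D r d
  refine ⟨M, cst r d M C, hM, fun F hF hno A hA B hB0 l x y hX hx hy hB => ?_⟩
  have hno' : ∀ (E : Type) [Field E] [Algebra ℂ E] [FiniteDimensional ℂ E],
      RatIn (N := 2) {hmg (D + 1) F} {X 2} E := by
    intro E i1 i2 i3
    exact (hno.ratIn (hF.trans (by omega))).fin_ext E
  have hper : ∀ t, A + 1 + C ≤ t → ((t + M + C : ℕ) : ℕ∞) ≤ l → x (t + M) = x t ∧
      y (t + M) = y t := by
    intro t ht htl
    obtain ⟨t', rfl⟩ := Nat.exists_eq_add_of_le (show A + 1 ≤ t by omega)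
    have h1 : ((A + 1 + (t' + M + C) : ℕ) : ℕ∞) ≤ l := le_trans (by
      exact_mod_cast (by omega : A + 1 + (t' + M + C) ≤ A + 1 + t' + M + C)) htl
    have h2 := h ℂ F hF hno' ℂ (t' + M + C) (fun m => x (A + 1 + m)) (fun m => y (A + 1 + m))
      (fun m hm => hX _ (lt_of_lt_of_le (by
        exact_mod_cast (by omega : A + 1 + m < A + 1 + (t' + M + C))) h1))
      (hx.finRec _ h1) (hy.finRec _ h1) t' (by omega) le_rfl
    simp only [← Nat.add_assoc] at h2
    exact h2
  have hbx := hx.bound hA hM (fun t h1 h2 => (hper t h1 h2).1) hB0 fun t h1 h2 => (hB t h1 h2).1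
  have hby := hy.bound hA hM (fun t h1 h2 => (hper t h1 h2).2) hB0 fun t h1 h2 => (hB t h1 h2).2
  have hcC : C + 1 ≤ cst r d M C := by
    unfold cst
    omega
  refine ⟨fun t h1 h2 => hper t (by omega) (le_trans (by
    exact_mod_cast (by omega : t + M + C ≤ t + M + cst r d M C)) h2),
    fun t ht => ⟨hbx.1 t ht, hby.1 t ht⟩, fun t ht => ⟨hbx.2 t ht, hby.2 t ht⟩⟩

end Pool.Agent.Q183.UH
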