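import Pool.Agent.Q183.UH.Pseudo
import Pool.Agent.Q183.UH.Size

/-!
Points with coordinates in a finitely generated ring.
-/

set_option autoImplicit false

namespace Pool.Agent.Q183.UH

open Filter Pool.Agent.TH143.DE Pool.Agent.Q183.RS MvPolynomial Cardinal Pool.Agent.H533R3.SL
open scoped LinearAlgebra.Projectivization

variable {N : ℕ}

/-- The points `P 0, P 1, ...` have homogeneous coordinates in the ring `A` which generate the unit
ideal of `A` and which satisfy linear recurrences of order at most `r` with constant coefficients. -/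
def RingPoints {k : Type} [Field k] (FF : Set (MvPolynomial (Fin (N + 1)) k)) (A : Subring k)
    (r : ℕ) (P : ℕ → ℙ k (Fin (N + 1) → k)) : Prop :=
  ∃ (x h : ℕ → Fin (N + 1) → k) (hx : ∀ t, x t ≠ 0),
    (∀ t, P t = Projectivization.mk k (x t) (hx t)) ∧ (∀ t, ∀ F ∈ FF, aeval (x t) F = 0) ∧
    (∀ t j, x t j ∈ A ∧ h t j ∈ A) ∧ (∀ t, ∑ j, h t j * x t j = 1) ∧ ∀ j, CRecO r fun t => x t j

theorem RingPoints.crec {k : Type} [Field k] {FF : Set (MvPolynomial (Fin (N + 1)) k)}
    {A : Subring k} {r : ℕ} {P : ℕ → ℙ k (Fin (N + 1) → k)} (h : RingPoints FF A r P) :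
    CRecPoints FF k r P := by
  obtain ⟨x, h, hx, h1, h2, h3, h4, h5⟩ := h
  exact ⟨x, hx, h1, h2, h5⟩

/-- nonconstant polynomial maps take different values -/
theorem nc_eval {k : Type} [Field k] [Infinite k] {p : Fin (N + 1) → Polynomial k}
    (hnc : ¬ ∀ i j m n, (p i).coeff m * (p j).coeff n = (p j).coeff m * (p i).coeff n) :
    ∃ (i j : Fin (N + 1)) (a b : k), (p i).eval a * (p j).eval b ≠ (p j).eval a * (p i).eval b := by
  by_contra hcon
  push Not at hcon
  apply hnc
  intro i j m n
  -- fix `b`
  have h1 : ∀ b : k, p i * Polynomial.C ((p j).eval b) = p j * Polynomial.C ((p i).eval b) := by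
    intro b
    apply Polynomial.funext
    intro a
    rw [Polynomial.eval_mul, Polynomial.eval_mul, Polynomial.eval_C, Polynomial.eval_C]
    exact hcon i j a b
  have h2 : Polynomial.C ((p i).coeff m) * p j = Polynomial.C ((p j).coeff m) * p i := by
    apply Polynomial.funext
    intro b
    have h3 := congrArg (fun f => Polynomial.coeff f m) (h1 b)
    simp only [Polynomial.coeff_mul_C] at h3
    rw [Polynomial.eval_mul, Polynomial.eval_mul, Polynomial.eval_C, Polynomial.eval_C]
    exact h3
  have h3 := congrArg (fun f => Polynomial.coeff f n) h2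
  simp only [Polynomial.coeff_C_mul] at h3
  exact h3

theorem aeval_mul_hom {k S : Type} [Field k] [CommRing S] [Algebra k S]
    {F : MvPolynomial (Fin (N + 1)) k} {e : ℕ} (hF : F.IsHomogeneous e) (g : S)
    (q : Fin (N + 1) → S) : aeval (fun i => g * q i) F = g ^ e * aeval q F := by
  rw [aeval_def, aeval_def, eval₂_eq', eval₂_eq', Finset.mul_sum]
  refine Finset.sum_congr rfl fun d hd => ?_
  have h1 : ∑ i, d i = e := by
    have h2 := hF (mem_support_iff.1 hd)
    rw [← h2, Finsupp.weight_apply, Finsupp.sum_fintype _ _ (fun i => by simp)]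
    simp
  simp only [mul_pow, Finset.prod_mul_distrib, Finset.prod_pow_eq_pow_sum]
  rw [h1]
  ring

/-- a primitive representation of a map from the line -/
theorem primitive_rep {k : Type} [Field k] (p : Fin (N + 1) → Polynomial k) (hp : p ≠ 0) :
    ∃ (g : Polynomial k) (q h : Fin (N + 1) → Polynomial k), g ≠ 0 ∧ (∀ i, p i = g * q i) ∧
      ∑ i, h i * q i = 1 := by
  classical
  have hpr : (Ideal.span (Set.range p)).IsPrincipal := IsPrincipalIdealRing.principal _
  obtain ⟨g, hg⟩ := hpr
  have hg' : Ideal.span (Set.range p) = Ideal.span {g} := hg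
  have h1 : ∀ i, g ∣ p i := by
    intro i
    rw [← Ideal.mem_span_singleton, ← hg']
    exact Ideal.subset_span ⟨i, rfl⟩
  choose q hq using h1
  have h2 : g ∈ Ideal.span (Set.range p) := by
    rw [hg']
    exact Ideal.subset_span rfl
  rw [Ideal.mem_span_range_iff_exists_fun] at h2
  obtain ⟨h, hh⟩ := h2
  have hg0 : g ≠ 0 := by
    rintro rfl
    apply hp
    funext i
    rw [hq i, zero_mul]
    rfl
  refine ⟨g, q, h, hg0, hq, ?_⟩
  have h3 : g * (∑ i, h i * q i) = g * 1 := by
    rw [mul_one, Finset.mul_sum]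
    conv_rhs => rw [← hh]
    refine Finset.sum_congr rfl fun i _ => ?_
    rw [hq i]
    ring
  exact mul_left_cancel₀ hg0 h3

/-- **Points over a finitely generated ring on a rational curve.** -/
theorem ring_seq {k : Type} [Field k] [CharZero k] {FF : Set (MvPolynomial (Fin (N + 1)) k)}
    (hFF : ∀ F ∈ FF, ∃ e, F.IsHomogeneous e) {p : Fin (N + 1) → Polynomial k}
    (hp : ∀ F ∈ FF, aeval p F = 0)
    (hnc : ¬ ∀ i j m n, (p i).coeff m * (p j).coeff n = (p j).coeff m * (p i).coeff n) :
    ∃ (S : Finset k) (r : ℕ) (P : ℕ → ℙ k (Fin (N + 1) → k)),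
      RingPoints FF (Subring.closure (S : Set k)) r P ∧ (Set.range P).Infinite := by
  classical
  have hp0 : p ≠ 0 := by
    rintro rfl
    apply hnc
    intro i j m n
    simp
  obtain ⟨g, q, h, hg, hq, hh⟩ := primitive_rep p hp0
  obtain ⟨i0, j0, a, b, hab⟩ := nc_eval hnc
  have hab' : (q i0).eval a * (q j0).eval b ≠ (q j0).eval a * (q i0).eval b := by
    intro h1
    apply hab
    simp only [hq, Polynomial.eval_mul]
    linear_combination g.eval a * g.eval b * h1
  have hqF : ∀ F ∈ FF, aeval q F = 0 := by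
    intro F hF
    obtain ⟨e, he⟩ := hFF F hF
    have h1 := hp F hF
    have h2 : p = fun i => g * q i := funext hq
    rw [h2, aeval_mul_hom he] at h1
    exact (mul_eq_zero.1 h1).resolve_left (pow_ne_zero _ hg)
  -- the coefficients
  let cf : Polynomial k → Finset k := fun f => f.support.image f.coeff
  let S : Finset k := (Finset.univ.biUnion fun i => cf (q i)) ∪ Finset.univ.biUnion fun i => cf (h i)
  let A : Subring k := Subring.closure (S : Set k)
  have hA : ∀ f : Polynomial k, (∀ c ∈ cf f, c ∈ S) → ∀ t : ℕ, f.eval ((2 : k) ^ t) ∈ A := by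
    intro f hf t
    rw [Polynomial.eval_eq_sum]
    refine Subring.sum_mem _ fun n hn => ?_
    refine Subring.mul_mem _ (Subring.subset_closure ?_) ?_
    · exact hf _ (Finset.mem_image_of_mem _ hn)
    · refine Subring.pow_mem _ (Subring.pow_mem _ ?_ _) _
      have h2 : (2 : k) = 1 + 1 := by norm_num
      rw [h2]
      exact Subring.add_mem _ (Subring.one_mem _) (Subring.one_mem _)
  have hAq : ∀ i t, (q i).eval ((2 : k) ^ t) ∈ A := fun i => hA _ fun c hc =>
    Finset.mem_union_left _ (Finset.mem_biUnion.2 ⟨i, Finset.mem_univ _, hc⟩)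
  have hAh : ∀ i t, (h i).eval ((2 : k) ^ t) ∈ A := fun i => hA _ fun c hc =>
    Finset.mem_union_right _ (Finset.mem_biUnion.2 ⟨i, Finset.mem_univ _, hc⟩)
  have hsum : ∀ t : ℕ, ∑ i, (h i).eval ((2 : k) ^ t) * (q i).eval ((2 : k) ^ t) = 1 := by
    intro t
    have h1 := congrArg (Polynomial.eval ((2 : k) ^ t)) hh
    rw [Polynomial.eval_finsetSum, Polynomial.eval_one] at h1
    simpa only [Polynomial.eval_mul] using h1
  have hne : ∀ t : ℕ, (fun i => (q i).eval ((2 : k) ^ t)) ≠ 0 := by
    intro t h0
    have h1 := hsum t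
    have h2 : ∀ i, (q i).eval ((2 : k) ^ t) = 0 := fun i => congrFun h0 i
    simp [h2] at h1
  set n : ℕ := Finset.univ.sup (fun i => (q i).natDegree) + 1 with hn
  have hdeg : ∀ i, (q i).natDegree < n := by
    intro i
    have := Finset.le_sup (f := fun i => (q i).natDegree) (Finset.mem_univ i)
    omega
  refine ⟨S, n, fun t => Projectivization.mk k (fun i => (q i).eval ((2 : k) ^ t)) (hne t),
    ⟨fun t i => (q i).eval ((2 : k) ^ t), fun t i => (h i).eval ((2 : k) ^ t), hne, fun t => rfl,
      fun t F hF => ?_, fun t i => ⟨hAq i t, hAh i t⟩, hsum, fun j => ?_⟩, ?_⟩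
  · have h1 := comp_aeval_apply (f := q) (Polynomial.aeval ((2 : k) ^ t) : Polynomial k →ₐ[k] k) F
    rw [hqF F hF, map_zero] at h1
    have h2 : (fun i => (q i).eval ((2 : k) ^ t)) =
        fun i => (Polynomial.aeval ((2 : k) ^ t) : Polynomial k →ₐ[k] k) (q i) := by
      funext i
      rw [Polynomial.coe_aeval_eq_eval]
    change aeval (fun i => (q i).eval ((2 : k) ^ t)) F = 0
    rw [h2]
    exact h1.symm
  · have h4 : (fun t : ℕ => (q j).eval ((2 : k) ^ t)) = fun t => ∑ l : Fin n,
        (q j).coeff l * ((2 : k) ^ (l : ℕ)) ^ t := by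
      funext t
      rw [Polynomial.eval_eq_sum_range' (hdeg j), Finset.sum_range]
      refine Finset.sum_congr rfl fun l _ => ?_
      rw [← pow_mul, ← pow_mul, mul_comm t]
    rw [h4]
    exact crec_expsum _ _
  · intro hfin
    have : Finite (Set.range fun t : ℕ => Projectivization.mk k
      (fun i => (q i).eval ((2 : k) ^ t)) (hne t)) := hfin
    obtain ⟨⟨P, t0, ht0⟩, hP⟩ := Finite.exists_infinite_fiber (Set.rangeFactorization
      fun t : ℕ => Projectivization.mk k (fun i => (q i).eval ((2 : k) ^ t)) (hne t))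
    have hset := Set.infinite_coe_iff.1 hP
    set c : Fin (N + 1) → k := fun i => (q i).eval ((2 : k) ^ t0) with hc
    have hpol : ∀ i j, q i * Polynomial.C (c j) = q j * Polynomial.C (c i) := by
      intro i j
      rw [← sub_eq_zero]
      apply Polynomial.eq_zero_of_infinite_isRoot
      refine Set.Infinite.mono ?_ (hset.image (f := fun t : ℕ => (2 : k) ^ t) ?_)
      · rintro _ ⟨t, ht, rfl⟩
        have h2 : Projectivization.mk k (fun i => (q i).eval ((2 : k) ^ t)) (hne t) = P :=
          congrArg Subtype.val ht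
        rw [← ht0, Projectivization.mk_eq_mk_iff'] at h2
        obtain ⟨d, hd⟩ := h2
        have e1 : (q i).eval ((2 : k) ^ t) = d * c i := (congrFun hd i).symm
        have e2 : (q j).eval ((2 : k) ^ t) = d * c j := (congrFun hd j).symm
        change Polynomial.eval _ _ = 0
        rw [Polynomial.eval_sub, Polynomial.eval_mul, Polynomial.eval_mul, Polynomial.eval_C,
          Polynomial.eval_C, e1, e2]
        ring
      · intro t _ t' _ h3
        have h5 : ((2 ^ t : ℕ) : k) = ((2 ^ t' : ℕ) : k) := by
          push_cast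
          exact h3
        exact Nat.pow_right_injective le_rfl (Nat.cast_injective h5)
    obtain ⟨l, hl⟩ : ∃ l, c l ≠ 0 := by
      by_contra h0
      push Not at h0
      exact hne t0 (funext h0)
    apply hab'
    have hev : ∀ i z, (q i).eval z * c l = (q l).eval z * c i := by
      intro i z
      have h1 := congrArg (Polynomial.eval z) (hpol i l)
      simpa only [Polynomial.eval_mul, Polynomial.eval_C] using h1
    apply mul_right_cancel₀ (mul_ne_zero hl hl)
    calc (q i0).eval a * (q j0).eval b * (c l * c l)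
        = ((q i0).eval a * c l) * ((q j0).eval b * c l) := by ring
      _ = ((q l).eval a * c i0) * ((q l).eval b * c j0) := by rw [hev, hev]
      _ = ((q l).eval a * c j0) * ((q l).eval b * c i0) := by ring
      _ = ((q j0).eval a * c l) * ((q i0).eval b * c l) := by rw [hev, hev]
      _ = _ := by ring

end Pool.Agent.Q183.UH
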