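import Pool.Agent.Q183.UH.Core2
import Pool.Agent.Q183.RS.Fin

/-!
The first window: P-recursive sequences of points of a variety on which the rational curves lie in
a closed set.
-/

set_option autoImplicit false

namespace Pool.Agent.Q183.UH

open Filter Pool.Agent.TH143.HE Pool.Agent.TH143.DE Pool.Agent.Q183.RS MvPolynomial Cardinal
open Pool.Agent.H533R3.SL

variable {N : ℕ} {L : Type} [Field L] [Algebra L ℂ]

theorem aeval_alg (y : Fin (N + 1) → L) (F : MvPolynomial (Fin (N + 1)) L) :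
    aeval (fun j => algebraMap L ℂ (y j)) F = algebraMap L ℂ (eval y F) := by
  rw [aeval_def, eval, coe_eval₂Hom, eval₂_comp_left]
  rfl

theorem aeval_map_eq (v : Fin (N + 1) → ℂ) (F : MvPolynomial (Fin (N + 1)) L) :
    eval v (MvPolynomial.map (algebraMap L ℂ) F) = aeval v F := by
  rw [eval_map]
  rfl

theorem aeval_smul_h {F : MvPolynomial (Fin (N + 1)) L} {e : ℕ} (hF : F.IsHomogeneous e) (b : ℂ)
    (v : Fin (N + 1) → ℂ) : aeval (fun j => b * v j) F = b ^ e * aeval v F := by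
  rw [← aeval_map_eq, ← aeval_map_eq, eval_smul_homogL (hF.map _)]

/-- the parametrised curve lies on the variety -/
theorem curve_on {M : ℕ} (hM : 0 < M) {a : ℕ} {ρ : Fin (N + 1) → Polynomial ℂ}
    {z : ℕ → Fin (N + 1) → ℂ} (h : ∀ᶠ i : ℕ in atTop, ∃ b : ℂ, b ≠ 0 ∧
      ∀ j, (ρ j).eval ((a + M * i : ℕ) : ℂ) = b * z i j)
    {F : MvPolynomial (Fin (N + 1)) L} {e : ℕ} (hF : F.IsHomogeneous e)
    (hz : ∀ᶠ i in atTop, aeval (z i) F = 0) : aeval ρ F = 0 := by
  apply Polynomial.eq_zero_of_infinite_isRoot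
  obtain ⟨i0, hi0⟩ := eventually_atTop.1 (h.and hz)
  refine Set.Infinite.mono (s := (fun i : ℕ => ((a + M * i : ℕ) : ℂ)) '' Set.Ici i0) ?_ ?_
  · rintro _ ⟨i, hi, rfl⟩
    obtain ⟨⟨b, hb, h1⟩, h2⟩ := hi0 i hi
    change Polynomial.eval _ _ = 0
    rw [aeval_eval']
    have h3 : (fun j => (ρ j).eval ((a + M * i : ℕ) : ℂ)) = fun j => b * z i j := funext h1
    rw [h3, aeval_smul_h hF, h2, mul_zero]
  · refine (Set.Ici_infinite i0).image ?_
    intro i _ i' _ h1
    have h2 : a + M * i = a + M * i' := Nat.cast_injective h1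
    have h3 : M * i = M * i' := by omega
    exact Nat.eq_of_mul_eq_mul_left hM h3

/-- all indices from some index on are good -/
theorem finish {s' : ℕ} {G : Fin s' → MvPolynomial (Fin (N + 1)) L}
    (hGh : ∀ i, ∃ e, (G i).IsHomogeneous e) {y : ℕ → Fin (N + 1) → L} {M : ℕ} (hM : 0 < M)
    {ρ : ℕ → Fin (N + 1) → Polynomial ℂ}
    (hcl : ∀ a, a < M → (∀ᶠ i in atTop, ∀ l, eval (y (a + M * i)) (G l) = 0) ∨
      ((∀ᶠ i : ℕ in atTop, ∃ b : ℂ, b ≠ 0 ∧
        ∀ j, (ρ a j).eval ((a + M * i : ℕ) : ℂ) = b * algebraMap L ℂ (y (a + M * i) j)) ∧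
        (¬ NonConst (ρ a) ∨ ∀ l, aeval (ρ a) (G l) = 0))) :
    ∃ i0 : ℕ, ∀ i, i0 ≤ i → Good G y M i := by
  classical
  have hZ : ∀ a, (∀ᶠ i in atTop, ∀ l, eval (y (a + M * i)) (G l) = 0) →
      ∀ᶠ i in atTop, Good G y M (a + M * i) := by
    intro a h
    filter_upwards [h, eventually_shift h 1] with i h1 h2
    refine Or.inl fun l => ⟨h1 l, ?_⟩
    have h3 : a + M * i + M = a + M * (i + 1) := by ring
    rw [h3]
    exact h2 l
  have hclass : ∀ a, a < M → ∀ᶠ i in atTop, Good G y M (a + M * i) := by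
    intro a ha
    rcases hcl a ha with h | ⟨h, hc | hc⟩
    · exact hZ a h
    · filter_upwards [h, eventually_shift h 1] with i h1 h2
      obtain ⟨b, hb, h1⟩ := h1
      obtain ⟨b', hb', h2⟩ := h2
      right
      have h3 : a + M * i + M = a + M * (i + 1) := by ring
      rw [h3]
      intro j k
      apply (algebraMap L ℂ).injective
      rw [map_mul, map_mul]
      unfold NonConst at hc
      push Not at hc
      have h4 := hc j k ((a + M * (i + 1) : ℕ) : ℂ) ((a + M * i : ℕ) : ℂ)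
      rw [h1, h1, h2, h2] at h4
      have h5 : (b * b') * (algebraMap L ℂ (y (a + M * (i + 1)) j) *
          algebraMap L ℂ (y (a + M * i) k) - algebraMap L ℂ (y (a + M * (i + 1)) k) *
          algebraMap L ℂ (y (a + M * i) j)) = 0 := by linear_combination h4
      exact sub_eq_zero.1 ((mul_eq_zero.1 h5).resolve_left (mul_ne_zero hb hb'))
    · refine hZ a ?_
      filter_upwards [h] with i h1 l
      obtain ⟨b, hb, h1⟩ := h1
      obtain ⟨e, he⟩ := hGh l
      have h2 : aeval (fun j => (ρ a j).eval ((a + M * i : ℕ) : ℂ)) (G l) = 0 := by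
        rw [← aeval_eval', hc l, Polynomial.eval_zero]
      rw [funext h1, aeval_smul_h he] at h2
      have h3 := (mul_eq_zero.1 h2).resolve_left (pow_ne_zero _ hb)
      rw [aeval_alg] at h3
      exact (map_eq_zero _).1 h3
  have h1 : ∀ᶠ i in atTop, ∀ a ∈ Finset.range M, Good G y M (a + M * i) := by
    rw [Finset.eventually_all]
    intro a ha
    exact hclass a (Finset.mem_range.1 ha)
  obtain ⟨i1, hi1⟩ := eventually_atTop.1 h1
  refine ⟨M * (i1 + 1), fun m hm => ?_⟩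
  have h9 := hi1 (m / M) ?_ (m % M) (Finset.mem_range.2 (Nat.mod_lt m hM))
  · rw [Nat.mod_add_div] at h9
    exact h9
  · rw [Nat.le_div_iff_mul_le hM]
    nlinarith

/-- the classes -/
theorem classes {q : ℕ} {FF : Set (MvPolynomial (Fin (N + 1)) L)}
    (hFF : ∀ F ∈ FF, ∃ e, F.IsHomogeneous e) {s' : ℕ} {G : Fin s' → MvPolynomial (Fin (N + 1)) L}
    (hG : ∀ (i : Fin s') (c : Fin ((N + 1) * q) → Fin (N + 1) → ℂ) (l : Fin ((N + 1) * q) → ℕ),
        (∀ F ∈ FF, MvPolynomial.aeval (cur c l) F = 0) →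
        (∃ i i', cur c l i * Polynomial.C (∑ j, c j i') ≠
          cur c l i' * Polynomial.C (∑ j, c j i)) →
        MvPolynomial.aeval (fun i => ∑ j, c j i) (G i) = 0)
    {y : ℕ → Fin (N + 1) → L} (hne : ∀ m, y m ≠ 0) (hy : ∀ j, PRecO q fun m => y m j)
    (hX : ∀ m, ∀ F ∈ FF, eval (y m) F = 0) :
    ∃ (M : ℕ) (ρ : ℕ → Fin (N + 1) → Polynomial ℂ), 0 < M ∧
      ∀ a, (∀ᶠ i in atTop, ∀ l, eval (y (a + M * i)) (G l) = 0) ∨
      (∀ᶠ i : ℕ in atTop, ∃ b : ℂ, b ≠ 0 ∧
        ∀ j, (ρ a j).eval ((a + M * i : ℕ) : ℂ) = b * algebraMap L ℂ (y (a + M * i) j)) := by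
  classical
  let x : ℕ → Fin (N + 1) → ℂ := fun m j => algebraMap L ℂ (y m j)
  have hxne : ∀ m, x m ≠ 0 := fun m h0 => hne m (by
    funext j
    have h1 : algebraMap L ℂ (y m j) = 0 := congrFun h0 j
    rwa [map_eq_zero] at h1)
  have hrec : ∀ j, RecO RB q fun m => x m j := fun j => (hy j).recRB
  have hXx : ∀ m, ∀ F ∈ FF, aeval (x m) F = 0 := by
    intro m F hF
    change aeval (fun j => algebraMap L ℂ (y m j)) F = 0
    rw [aeval_alg, hX m F hF, map_zero]
  obtain ⟨t, ht⟩ := alg_main RB_field (R := (N + 1) * q) (by rw [Fintype.card_fin]) hrec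
    ((MvPolynomial.map (algebraMap L ℂ)) '' FF) (by
      rintro _ ⟨F, hF, rfl⟩
      refine Eventually.of_forall fun m => ?_
      rw [aeval_map_eq]
      exact hXx m F hF)
  obtain ⟨c, hc⟩ := exists_linear x hxne
  have hlf : ∀ (j : Fin (N + 1)) (v : Fin (N + 1) → ℂ), lf (Pi.single j 1) v = v j := by
    intro j v
    unfold lf
    simp [Pi.single_apply]
  have halg : ∀ j, AlgOn RB {m | ∃ l, eval (x m) (MvPolynomial.map (algebraMap L ℂ) (G l)) ≠ 0}
      (fun m => x m j / lf (fun j : Fin (N + 1) => c ^ (j : ℕ)) (x m)) := by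
    intro j
    apply AlgOn.unshift (t := t)
    have h1 := ht {m | ∃ l, eval (x m) (MvPolynomial.map (algebraMap L ℂ) (G l)) ≠ 0}
      (Pi.single j 1) (fun j => c ^ (j : ℕ)) 0 (Eventually.of_forall fun m _ => by
        rw [zero_add]
        exact hc m) (Eventually.of_forall fun m hm hM => by
        obtain ⟨l, hl⟩ := hm
        apply hl
        rw [aeval_map_eq]
        exact moves_zero hFF (hG l) hM)
    simp only [zero_add, hlf] at h1
    exact h1
  obtain ⟨M, ρ, hM, h⟩ := str (x := x) (fun j => (hrec j).lin)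
    (fun l => MvPolynomial.map (algebraMap L ℂ) (G l)) (fun j => c ^ (j : ℕ)) hc halg
  refine ⟨M, ρ, hM, fun a => ?_⟩
  rcases h a with h | h
  · left
    filter_upwards [h] with i hi l
    have h1 := hi l
    rw [aeval_map_eq] at h1
    change aeval (fun j => algebraMap L ℂ (y (a + M * i) j)) (G l) = 0 at h1
    rw [aeval_alg] at h1
    exact (map_eq_zero _).1 h1
  · exact Or.inr h

end Pool.Agent.Q183.UH
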