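import Pool.Agent.Q183.UH.Class

/-!
Subsequences of P-recursive sequences along arithmetic progressions are P-recursive.
-/

set_option autoImplicit false

namespace Pool.Agent.Q183.UH

open Filter Pool.Agent.TH143.HE Pool.Agent.TH143.DE

/-- a rational function of the index as a sequence -/
theorem exists_rb (g : RF) : ∃ P R : Polynomial ℂ, R ≠ 0 ∧ (g ≠ 0 → P ≠ 0) ∧
    ∀ b : ℕ → ℂ, (∀ᶠ m in atTop, b m = P.eval (m : ℂ) / R.eval (m : ℂ)) →
      gg b = algebraMap RF GG g := by
  refine ⟨g.num, g.denom, RatFunc.denom_ne_zero g, fun hg h0 => hg ?_, fun b hb => ?_⟩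
  · rwa [RatFunc.num_eq_zero_iff] at h0
  · have hR : g.denom ≠ 0 := RatFunc.denom_ne_zero g
    have hu := evG_unit ⟨g.denom, mem_nonZeroDivisors_of_ne_zero hR⟩
    apply hu.mul_right_cancel
    change _ * evG g.denom = _ * evG g.denom
    have h1 : g * algebraMap (Polynomial ℂ) RF g.denom = algebraMap (Polynomial ℂ) RF g.num := by
      have h2 := RatFunc.num_div_denom g
      have hR' : algebraMap (Polynomial ℂ) RF g.denom ≠ 0 := by
        rwa [Ne, map_eq_zero_iff _ (RatFunc.algebraMap_injective ℂ)]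
      rw [div_eq_iff hR'] at h2
      exact h2.symm
    have h3 : algebraMap RF GG g * evG g.denom = evG g.num := by
      rw [← psi_poly, ← psi_poly, algGG_apply, ← map_mul, h1]
    rw [h3, evG_apply, evG_apply, ← map_mul, gg_eq]
    filter_upwards [hb, ev_ne Nat.cast_injective hR] with m h1 h2
    rw [Pi.mul_apply, h1, div_mul_cancel₀ _ h2]

/-- the shifts span a finite-dimensional space -/
theorem exists_span {f : ℕ → ℂ} (hf : LinRec RB f) :
    ∃ V : Submodule RF GG, Module.Finite RF V ∧ ∀ i, (shG ^ i) (gg f) ∈ V := by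
  classical
  obtain ⟨r, a, ha, ⟨k0, hk0, hn⟩, h⟩ := hf
  choose c hc using fun k => psi_of_RB (ha k)
  have hrel : ∑ k ∈ Finset.range (r + 1), algebraMap RF GG (c k) * (shG ^ k) (gg f) = 0 := by
    have h1 : ∀ k, algebraMap RF GG (c k) * (shG ^ k) (gg f) = gg (fun m => a k m * f (m + k)) := by
      intro k
      rw [algGG_apply, hc, shG_pow, ← map_mul]
      rfl
    rw [Finset.sum_congr rfl fun k _ => h1 k, ← map_sum, ← map_zero gg, gg_eq]
    filter_upwards [h] with m hm
    rw [Finset.sum_apply]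
    exact hm
  have hck0 : c k0 ≠ 0 := by
    intro h0
    apply hn
    have h1 := hc k0
    rw [h0, map_zero, ← map_zero gg, gg_eq] at h1
    filter_upwards [h1] with m hm
    exact hm.symm
  let T := (Finset.range (r + 1)).filter fun k => c k ≠ 0
  have hT : T.Nonempty := ⟨k0, Finset.mem_filter.2 ⟨Finset.mem_range.2 (by omega), hck0⟩⟩
  set t := T.max' hT with ht
  have htT := Finset.mem_filter.1 (T.max'_mem hT)
  have hout : ∀ k ∈ Finset.range (r + 1), t < k → c k = 0 := by
    intro k hk hkt
    by_contra hne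
    exact absurd (T.le_max' k (Finset.mem_filter.2 ⟨hk, hne⟩)) (not_le.2 hkt)
  have hct : c t ≠ 0 := htT.2
  let s : Set GG := (fun i => (shG ^ i) (gg f)) '' (Set.Iic t)
  let V := Submodule.span RF s
  have hgen : ∀ i ≤ t, (shG ^ i) (gg f) ∈ V := fun i hi => Submodule.subset_span ⟨i, hi, rfl⟩
  have htop : (shG ^ t) (gg f) = ∑ k ∈ Finset.range t,
      algebraMap RF GG (-(c t)⁻¹ * c k) * (shG ^ k) (gg f) := by
    have h1 : ∑ k ∈ Finset.range (t + 1), algebraMap RF GG (c k) * (shG ^ k) (gg f) = 0 := by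
      rw [← hrel]
      apply Finset.sum_subset
      · intro k hk
        have h2 := Finset.mem_range.1 htT.1
        have h3 := Finset.mem_range.1 hk
        exact Finset.mem_range.2 (by omega)
      · intro k hk hk'
        rw [hout k hk (by
          by_contra h4
          exact hk' (Finset.mem_range.2 (by omega))), map_zero, zero_mul]
    rw [Finset.sum_range_succ] at h1
    have h2 : algebraMap RF GG (-(c t)⁻¹) * (∑ k ∈ Finset.range t,
        algebraMap RF GG (c k) * (shG ^ k) (gg f)) =
        ∑ k ∈ Finset.range t, algebraMap RF GG (-(c t)⁻¹ * c k) * (shG ^ k) (gg f) := by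
      rw [Finset.mul_sum]
      exact Finset.sum_congr rfl fun k _ => by rw [map_mul, mul_assoc]
    rw [← h2]
    have h3 : algebraMap RF GG (-(c t)⁻¹) * algebraMap RF GG (c t) = -1 := by
      rw [← map_mul, neg_mul, inv_mul_cancel₀ hct, map_neg, map_one]
    linear_combination (-algebraMap RF GG (-(c t)⁻¹)) * h1 + (shG ^ t) (gg f) * h3
  have hst : ∀ x ∈ V, shG x ∈ V := by
    intro x hx
    induction hx using Submodule.span_induction with
    | mem x hx =>
      obtain ⟨i, hi, rfl⟩ := hx
      change shG ((shG ^ i) (gg f)) ∈ V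
      rcases Nat.lt_or_ge i t with h2 | h2
      · rw [shG_pow_succ]
        exact hgen _ h2
      · have h3 : i = t := le_antisymm hi h2
        rw [h3, htop, map_sum]
        refine V.sum_mem fun k hk => ?_
        rw [map_mul, shG_psi, shG_pow_succ, ← Algebra.smul_def]
        exact V.smul_mem _ (hgen _ (Finset.mem_range.1 hk))
    | zero => rw [map_zero]; exact V.zero_mem
    | add x y _ _ hx hy =>
      rw [map_add]
      exact V.add_mem hx hy
    | smul a x _ hx =>
      rw [Algebra.smul_def, map_mul, shG_psi, ← Algebra.smul_def]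
      exact V.smul_mem _ hx
  refine ⟨V, Module.Finite.span_of_finite RF ((Set.finite_Iic t).image _), fun i => ?_⟩
  induction i with
  | zero => exact hgen 0 (Nat.zero_le _)
  | succ i ih =>
    rw [← shG_pow_succ]
    exact hst _ ih

/-- **Arithmetic progressions.** -/
theorem linRec_ap {f : ℕ → ℂ} (hf : LinRec RB f) {M : ℕ} (hM : 0 < M) (c : ℕ) :
    LinRec RB fun i => f (c + M * i) := by
  classical
  obtain ⟨V, hV, hVi⟩ := exists_span hf
  let v : ℕ → V := fun j => ⟨(shG ^ (M * j)) (gg f), hVi _⟩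
  have hdep : ¬ LinearIndependent RF v := Module.Finite.not_linearIndependent_of_infinite v
  rw [not_linearIndependent_iff] at hdep
  obtain ⟨s, g, hsum, j0, hj0, hg0⟩ := hdep
  choose P R hR hP hb using fun j => exists_rb (g j)
  let b : ℕ → ℕ → ℂ := fun j m => if j ∈ s then (P j).eval (m : ℂ) / (R j).eval (m : ℂ) else 0
  have hrel : ∀ᶠ m : ℕ in atTop, ∑ j ∈ s, (P j).eval (m : ℂ) / (R j).eval (m : ℂ) *
      f (m + M * j) = 0 := by
    have h1 := congrArg (Subtype.val) hsum
    have h2 : ∑ j ∈ s, gg (fun m : ℕ => (P j).eval (m : ℂ) / (R j).eval (m : ℂ) *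
        f (m + M * j)) = 0 := by
      rw [Submodule.coe_sum, Submodule.coe_zero] at h1
      rw [← h1]
      refine Finset.sum_congr rfl fun j _ => ?_
      change _ = g j • (shG ^ (M * j)) (gg f)
      rw [Algebra.smul_def, ← hb j (fun m => (P j).eval (m : ℂ) / (R j).eval (m : ℂ))
        (Eventually.of_forall fun m => rfl), shG_pow, ← map_mul]
      rfl
    rw [← map_sum, ← map_zero gg, gg_eq] at h2
    filter_upwards [h2] with m hm
    rw [Finset.sum_apply] at hm
    exact hm
  have hcomp : ∀ {Q : Polynomial ℂ}, Q ≠ 0 →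
      Q.comp (Polynomial.C (c : ℂ) + Polynomial.C (M : ℂ) * Polynomial.X) ≠ 0 := by
    intro Q hQ h0
    rw [Polynomial.comp_eq_zero_iff] at h0
    rcases h0 with h0 | ⟨-, h0⟩
    · exact hQ h0
    · have h1 := congrArg (fun q => Polynomial.coeff q 1) h0
      simp only [Polynomial.coeff_add, Polynomial.coeff_C_succ, Polynomial.coeff_C_mul,
        Polynomial.coeff_X_one, mul_one, zero_add] at h1
      exact (Nat.cast_ne_zero.2 hM.ne') h1
  have heval : ∀ (Q : Polynomial ℂ) (i : ℕ), Q.eval ((c + M * i : ℕ) : ℂ) =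
      (Q.comp (Polynomial.C (c : ℂ) + Polynomial.C (M : ℂ) * Polynomial.X)).eval (i : ℂ) := by
    intro Q i
    rw [Polynomial.eval_comp]
    simp
  refine ⟨s.sup id, fun j i => b j (c + M * i), fun j => ?_, ⟨j0, Finset.le_sup (f := id) hj0, ?_⟩,
    ?_⟩
  · by_cases hj : j ∈ s
    · refine ⟨(P j).comp (Polynomial.C (c : ℂ) + Polynomial.C (M : ℂ) * Polynomial.X),
        (R j).comp (Polynomial.C (c : ℂ) + Polynomial.C (M : ℂ) * Polynomial.X), hcomp (hR j),
        Eventually.of_forall fun i => ?_⟩
      simp only [b, if_pos hj]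
      rw [heval, heval]
    · simp only [b, if_neg hj]
      exact RB.zero_mem
  · intro h0
    have h1 := ev_ne (t := fun m : ℕ => (m : ℂ)) Nat.cast_injective (hcomp (hP j0 hg0))
    have h2 := ev_ne (t := fun m : ℕ => (m : ℂ)) Nat.cast_injective (hcomp (hR j0))
    obtain ⟨i, h3, h4, h5⟩ := (h0.and (h1.and h2)).exists
    simp only [b, if_pos hj0] at h3
    rw [heval, heval] at h3
    exact div_ne_zero h4 h5 h3
  · have h1 : ∀ᶠ i in atTop, ∑ j ∈ s, (P j).eval ((c + M * i : ℕ) : ℂ) /
        (R j).eval ((c + M * i : ℕ) : ℂ) * f (c + M * i + M * j) = 0 := ev_clF.1 (clF_le hM c hrel)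
    filter_upwards [h1] with i hi
    rw [← hi]
    have h2 : s ⊆ Finset.range (s.sup id + 1) := by
      intro j hj
      exact Finset.mem_range.2 (Nat.lt_succ_of_le (Finset.le_sup (f := id) hj))
    rw [← Finset.sum_subset h2]
    · refine Finset.sum_congr rfl fun j hj => ?_
      simp only [b, if_pos hj]
      rw [mul_add, ← add_assoc]
    · intro j _ hj
      simp only [b, if_neg hj, zero_mul]

end Pool.Agent.Q183.UH
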