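import Pool.Agent.Q183.UH.Pseudo
import Pool.Agent.Q183.UH.Size

/-!
Bounded families of maps.
-/

set_option autoImplicit false

namespace Pool.Agent.Q183.UH

open Filter Pool.Agent.TH143.DE Pool.Agent.Q183.RS MvPolynomial Cardinal Pool.Agent.H533R3.SL
open scoped LinearAlgebra.Projectivization

variable {N : ℕ}

/-- The points over the field `K` have homogeneous coordinates in a common finite-dimensional
subspace of `K` over `k`. -/
def BoundedFamily (k : Type) [Field k] {K : Type} [Field K] [Algebra k K]
    (P : ℕ → ℙ K (Fin (N + 1) → K)) : Prop :=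
  ∃ V : Submodule k K, FiniteDimensional k V ∧ ∀ t, ∃ (y : Fin (N + 1) → K) (hy : y ≠ 0),
    (∀ j, y j ∈ V) ∧ P t = Projectivization.mk K y hy

theorem BoundedFamily.of_finite {k : Type} [Field k] {K : Type} [Field K] [Algebra k K]
    {P : ℕ → ℙ K (Fin (N + 1) → K)} (h : (Set.range P).Finite) : BoundedFamily k P := by
  classical
  let S : Set K := (fun q : ℙ K (Fin (N + 1) → K) × Fin (N + 1) => q.1.rep q.2) ''
    (Set.range P ×ˢ Set.univ)
  have hS : S.Finite := (h.prod Set.finite_univ).image _
  refine ⟨Submodule.span k S, FiniteDimensional.span_of_finite k hS, fun t => ?_⟩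
  refine ⟨(P t).rep, (P t).rep_nonzero, fun j => Submodule.subset_span ⟨(P t, j), ⟨⟨t, rfl⟩,
    trivial⟩, rfl⟩, (P t).mk_rep.symm⟩

/-- the degrees of the elements of a finite-dimensional space of rational functions -/
theorem deg_bdd {k : Type} [Field k] (V : Submodule k (RatFunc k)) [FiniteDimensional k V] :
    ∃ B : ℤ, ∀ v ∈ V, v ≠ 0 → |v.intDegree| ≤ B := by
  classical
  obtain ⟨S, hS⟩ := (Module.finite_def.1 (inferInstance : Module.Finite k V))
  obtain ⟨S', hS'⟩ : ∃ S' : Finset (RatFunc k), Submodule.span k (S' : Set (RatFunc k)) = V := by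
    have h1 : V.FG := (Submodule.fg_iff_finiteDimensional V).2 inferInstance
    exact h1
  let Q : Polynomial k := ∏ s ∈ S', s.denom
  have hQ : Q ≠ 0 := Finset.prod_ne_zero_iff.2 fun s _ => s.denom_ne_zero
  let m : ℕ := (∏ s ∈ S', s.denom).natDegree + S'.sup fun s => s.num.natDegree
  have key : ∀ v ∈ V, ∃ p : Polynomial k, p.natDegree ≤ m ∧
      v * algebraMap (Polynomial k) (RatFunc k) Q = algebraMap (Polynomial k) (RatFunc k) p := by
    intro v hv
    rw [← hS'] at hv
    induction hv using Submodule.span_induction with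
    | mem s hs =>
      refine ⟨s.num * ∏ s' ∈ S'.erase s, s'.denom, ?_, ?_⟩
      · refine Polynomial.natDegree_mul_le.trans ?_
        have h1 : (∏ s' ∈ S'.erase s, s'.denom).natDegree ≤ (∏ s ∈ S', s.denom).natDegree := by
          refine Polynomial.natDegree_le_of_dvd ?_ hQ
          exact Finset.prod_dvd_prod_of_subset _ _ _ (Finset.erase_subset _ _)
        have h2 : s.num.natDegree ≤ S'.sup fun s => s.num.natDegree :=
          Finset.le_sup (f := fun s : RatFunc k => s.num.natDegree) hs
        simp only [m]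
        omega
      · have h1 : Q = s.denom * ∏ s' ∈ S'.erase s, s'.denom :=
          (Finset.mul_prod_erase S' (fun s => s.denom) hs).symm
        have h2 := s.num_div_denom
        have h3 : algebraMap (Polynomial k) (RatFunc k) s.denom ≠ 0 :=
          (map_ne_zero_iff _ (RatFunc.algebraMap_injective k)).2 s.denom_ne_zero
        rw [div_eq_iff h3] at h2
        rw [h1, map_mul, map_mul, h2]
        ring
    | zero => exact ⟨0, by simp, by simp⟩
    | add v w _ _ hv hw =>
      obtain ⟨p, hp1, hp2⟩ := hv
      obtain ⟨q, hq1, hq2⟩ := hw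
      exact ⟨p + q, (Polynomial.natDegree_add_le _ _).trans (max_le hp1 hq1), by
        rw [add_mul, hp2, hq2, map_add]⟩
    | smul c v _ hv =>
      obtain ⟨p, hp1, hp2⟩ := hv
      refine ⟨Polynomial.C c * p, (Polynomial.natDegree_C_mul_le _ _).trans hp1, ?_⟩
      rw [map_mul, ← hp2, smul_mul_assoc, Algebra.smul_def,
        IsScalarTower.algebraMap_apply k (Polynomial k) (RatFunc k)]
      rfl
  refine ⟨m + Q.natDegree, fun v hv hv0 => ?_⟩
  obtain ⟨p, hp1, hp2⟩ := key v hv
  have hQ' : algebraMap (Polynomial k) (RatFunc k) Q ≠ 0 :=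
    (map_ne_zero_iff _ (RatFunc.algebraMap_injective k)).2 hQ
  have h1 := congrArg RatFunc.intDegree hp2
  rw [RatFunc.intDegree_mul hv0 hQ', RatFunc.intDegree_polynomial,
    RatFunc.intDegree_polynomial] at h1
  rw [abs_le]
  have h2 : (p.natDegree : ℤ) ≤ m := by exact_mod_cast hp1
  constructor
  · have : (0 : ℤ) ≤ p.natDegree := by positivity
    have : (0 : ℤ) ≤ m := by positivity
    linarith
  · have : (0 : ℤ) ≤ Q.natDegree := by positivity
    linarith

/-- the maps `s ↦ q (s ^ (t + 1))` are not a bounded family -/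
theorem unbounded_seq {k : Type} [Field k] {FF : Set (MvPolynomial (Fin (N + 1)) k)}
    {q : Fin (N + 1) → Polynomial k} (hq : ∀ F ∈ FF, aeval q F = 0)
    (hnc : ¬ ∀ i j m n, (q i).coeff m * (q j).coeff n = (q j).coeff m * (q i).coeff n) :
    ∃ (R : ℕ) (P : ℕ → ℙ (RatFunc k) (Fin (N + 1) → RatFunc k)),
      CRecPoints FF (RatFunc k) R P ∧ ¬ BoundedFamily k P := by
  classical
  let ι : Polynomial k →+* RatFunc k := algebraMap (Polynomial k) (RatFunc k)
  have hι : Function.Injective ι := RatFunc.algebraMap_injective k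
  obtain ⟨i0, hi0⟩ : ∃ i, q i ≠ 0 := by
    by_contra h
    push Not at h
    apply hnc
    intro i j m n
    rw [h i, h j]
  let f : ℕ → Fin (N + 1) → Polynomial k := fun t i =>
    Polynomial.aeval (Polynomial.X ^ (t + 1)) (q i)
  have hfc : ∀ t i, f t i = Polynomial.expand k (t + 1) (q i) := by
    intro t i
    rw [Polynomial.expand_eq_comp_X_pow]
    rfl
  have hf0 : ∀ t i, f t i = 0 → q i = 0 := by
    intro t i h
    rw [hfc] at h
    exact (Polynomial.expand_eq_zero (Nat.succ_pos t)).1 h
  have hfne : ∀ t, (fun i => ι (f t i)) ≠ 0 := by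
    intro t h0
    exact hi0 (hf0 t i0 (hι (by rw [map_zero]; exact congrFun h0 i0)))
  -- two forms with values of different degrees
  obtain ⟨i, j, c, hj, hne, hdeg⟩ : ∃ (i j : Fin (N + 1)) (c : k), q j ≠ 0 ∧
      q i - Polynomial.C c * q j ≠ 0 ∧
      (q i - Polynomial.C c * q j).natDegree ≠ (q j).natDegree := by
    by_contra hcon
    push Not at hcon
    apply hnc
    -- all coordinates are multiples of `q i0`
    have hmul : ∀ i, ∃ c, q i = Polynomial.C c * q i0 := by
      intro i
      refine ⟨(q i).coeff (q i0).natDegree / (q i0).leadingCoeff, ?_⟩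
      by_contra hne
      have h1 := hcon i i0 ((q i).coeff (q i0).natDegree / (q i0).leadingCoeff) hi0
        (sub_ne_zero.2 hne)
      have h2 : (q i - Polynomial.C ((q i).coeff (q i0).natDegree / (q i0).leadingCoeff) *
          q i0).coeff (q i0).natDegree = 0 := by
        rw [Polynomial.coeff_sub, Polynomial.coeff_C_mul]
        change _ - _ * (q i0).leadingCoeff = 0
        rw [div_mul_cancel₀ _ (Polynomial.leadingCoeff_ne_zero.2 hi0), sub_self]
      refine (Polynomial.leadingCoeff_ne_zero.2 (sub_ne_zero.2 hne)) ?_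
      rw [Polynomial.leadingCoeff, h1]
      exact h2
    choose c hc using hmul
    intro i j m n
    rw [hc i, hc j]
    simp only [Polynomial.coeff_C_mul]
    ring
  set n : ℕ := Finset.univ.sup (fun i => (q i).natDegree) + 1 with hn
  have hdegn : ∀ i, (q i).natDegree < n := by
    intro i
    have := Finset.le_sup (f := fun i => (q i).natDegree) (Finset.mem_univ i)
    omega
  refine ⟨n, fun t => Projectivization.mk (RatFunc k) (fun i => ι (f t i)) (hfne t), ?_, ?_⟩
  · refine ⟨fun t i => ι (f t i), hfne, fun t => rfl, fun t F hF => ?_, fun j => ?_⟩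
    · have h2 : aeval (f t) F = 0 := by
        have h3 := comp_aeval_apply (f := q)
          (Polynomial.aeval (Polynomial.X ^ (t + 1) : Polynomial k) :
            Polynomial k →ₐ[k] Polynomial k) F
        rw [hq F hF, map_zero] at h3
        exact h3.symm
      have h3 := comp_aeval_apply (f := f t)
        (IsScalarTower.toAlgHom k (Polynomial k) (RatFunc k)) F
      rw [h2, map_zero] at h3
      exact h3.symm
    · have h4 : (fun t => ι (f t j)) = fun t => ∑ l : Fin n,
          ι (Polynomial.C ((q j).coeff l) * Polynomial.X ^ (l : ℕ)) *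
            ((ι Polynomial.X) ^ (l : ℕ)) ^ t := by
        funext t
        have h5 : f t j = (q j).comp (Polynomial.X ^ (t + 1)) := rfl
        rw [h5, Polynomial.comp, Polynomial.eval₂_eq_sum_range' _ (hdegn j), Finset.sum_range,
          map_sum]
        refine Finset.sum_congr rfl fun l _ => ?_
        rw [← map_pow, ← map_pow, ← map_mul]
        congr 1
        ring
      change CRecO n (fun t => ι (f t j))
      rw [h4]
      exact crec_expsum _ _
  · rintro ⟨V, hV, hP⟩
    obtain ⟨B, hB⟩ := deg_bdd V
    obtain ⟨t, ht⟩ : ∃ t : ℕ, 2 * B < t := ⟨(2 * B).toNat + 1, by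
      have := Int.self_le_toNat (2 * B)
      push_cast
      omega⟩
    obtain ⟨y, hy, hyV, hy2⟩ := hP t
    rw [Projectivization.mk_eq_mk_iff'] at hy2
    obtain ⟨a, ha⟩ := hy2
    have ha0 : a ≠ 0 := by
      rintro rfl
      rw [zero_smul] at ha
      exact hfne t ha.symm
    have hai : ∀ i, a * y i = ι (f t i) := fun i => congrFun ha i
    have hj0 : ι (f t j) ≠ 0 := (map_ne_zero_iff ι hι).2 fun h => hj (hf0 t j h)
    have hyj : y j ≠ 0 := fun h => hj0 (by rw [← hai, h, mul_zero])
    -- the combination
    have hcomb : f t i - Polynomial.C c * f t j =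
        Polynomial.expand k (t + 1) (q i - Polynomial.C c * q j) := by
      rw [hfc, hfc, map_sub, map_mul, Polynomial.expand_C]
    have hw : a * (y i - c • y j) = ι (f t i - Polynomial.C c * f t j) := by
      rw [map_sub, map_mul, ← hai, ← hai, Algebra.smul_def,
        IsScalarTower.algebraMap_apply k (Polynomial k) (RatFunc k)]
      change a * (y i - ι (Polynomial.C c) * y j) = _
      ring
    have hcne : f t i - Polynomial.C c * f t j ≠ 0 := by
      rw [hcomb]
      intro h
      exact hne ((Polynomial.expand_eq_zero (Nat.succ_pos t)).1 h)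
    have hcne' : ι (f t i - Polynomial.C c * f t j) ≠ 0 := (map_ne_zero_iff ι hι).2 hcne
    have hvne : y i - c • y j ≠ 0 := fun h => hcne' (by rw [← hw, h, mul_zero])
    have e1 := congrArg RatFunc.intDegree hw
    have e2 := congrArg RatFunc.intDegree (hai j)
    rw [RatFunc.intDegree_mul ha0 hvne, RatFunc.intDegree_polynomial, hcomb,
      Polynomial.natDegree_expand] at e1
    rw [RatFunc.intDegree_mul ha0 hyj, RatFunc.intDegree_polynomial, hfc,
      Polynomial.natDegree_expand] at e2
    have b1 := hB _ (V.sub_mem (hyV i) (V.smul_mem c (hyV j))) hvne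
    have b2 := hB _ (hyV j) hyj
    rw [abs_le] at b1 b2
    have hdiff : ((q i - Polynomial.C c * q j).natDegree : ℤ) - (q j).natDegree ≠ 0 := by
      intro h
      apply hdeg
      omega
    have e3 : (((q i - Polynomial.C c * q j).natDegree : ℤ) - (q j).natDegree) * (t + 1) =
        (y i - c • y j).intDegree - (y j).intDegree := by
      push_cast at e1 e2
      linarith
    have h5 : |(((q i - Polynomial.C c * q j).natDegree : ℤ) - (q j).natDegree) * (t + 1)| ≤
        2 * B := by
      rw [e3, abs_le]
      constructor <;> linarith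
    rw [abs_mul] at h5
    have h6 : 1 ≤ |((q i - Polynomial.C c * q j).natDegree : ℤ) - (q j).natDegree| :=
      Int.one_le_abs hdiff
    have h7 : |((t : ℤ) + 1)| = t + 1 := abs_of_nonneg (by positivity)
    rw [h7] at h5
    nlinarith

end Pool.Agent.Q183.UH
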