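import Pool.Agent.TH143.HE.Quot

/-!
Residue classes: the germs of an algebra which is finitely generated over the rational functions and
stable under the shift have no zero divisors along suitable residue classes.
-/

set_option autoImplicit false

namespace Pool.Agent.Q183.UH

open Filter Pool.Agent.TH143.HE Pool.Agent.TH143.DE

/-- germs which vanish along the filter -/
noncomputable def vanI (ℱ : Filter ℕ) (hF : ℱ ≤ atTop) : Ideal GG where
  carrier := {x | ∀ f, gg f = x → ∀ᶠ m in ℱ, f m = 0}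
  add_mem' := by
    intro x y hx hy f hf
    obtain ⟨g, rfl⟩ := gg_surj x
    obtain ⟨h, rfl⟩ := gg_surj y
    rw [← map_add, gg_eq] at hf
    filter_upwards [hF hf, hx g rfl, hy h rfl] with m h1 h2 h3
    rw [h1, Pi.add_apply, h2, h3, add_zero]
  zero_mem' := by
    intro f hf
    rw [← map_zero gg, gg_eq] at hf
    filter_upwards [hF hf] with m hm
    rw [hm, Pi.zero_apply]
  smul_mem' := by
    intro c x hx f hf
    obtain ⟨g, rfl⟩ := gg_surj x
    obtain ⟨h, rfl⟩ := gg_surj c
    rw [smul_eq_mul, ← map_mul, gg_eq] at hf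
    filter_upwards [hF hf, hx g rfl] with m h1 h2
    rw [h1, Pi.mul_apply, h2, mul_zero]

theorem mem_vanI {ℱ : Filter ℕ} {hF : ℱ ≤ atTop} {f : ℕ → ℂ} :
    gg f ∈ vanI ℱ hF ↔ ∀ᶠ m in ℱ, f m = 0 := by
  constructor
  · intro h
    exact h f rfl
  · intro h g hg
    rw [gg_eq] at hg
    filter_upwards [hF hg, h] with m h1 h2
    rw [h1, h2]

theorem vanI_prime (U : Ultrafilter ℕ) (hU : (U : Filter ℕ) ≤ atTop) : (vanI U hU).IsPrime := by
  constructor
  · rw [Ne, Ideal.eq_top_iff_one, ← map_one gg, mem_vanI]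
    intro h
    obtain ⟨m, hm⟩ := h.exists
    exact one_ne_zero hm
  · intro x y hxy
    obtain ⟨f, rfl⟩ := gg_surj x
    obtain ⟨g, rfl⟩ := gg_surj y
    rw [← map_mul, mem_vanI] at hxy
    rw [mem_vanI, mem_vanI]
    have h1 : ∀ᶠ m in (U : Filter ℕ), f m = 0 ∨ g m = 0 := by
      filter_upwards [hxy] with m hm
      exact mul_eq_zero.1 hm
    exact Ultrafilter.eventually_or.1 h1

/-- the residue class -/
def clF (M c : ℕ) : Filter ℕ := Filter.map (fun i => c + M * i) atTop

theorem clF_le {M : ℕ} (hM : 0 < M) (c : ℕ) : clF M c ≤ atTop := by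
  refine tendsto_atTop_atTop.2 fun b => ⟨b, fun i hi => ?_⟩
  have : i ≤ M * i := Nat.le_mul_of_pos_left i hM
  omega

theorem ev_clF {M c : ℕ} {p : ℕ → Prop} : (∀ᶠ m in clF M c, p m) ↔ ∀ᶠ i in atTop, p (c + M * i) :=
  Iff.rfl

theorem clF_add {M : ℕ} (c t : ℕ) {p : ℕ → Prop} :
    (∀ᶠ m in clF M (c + M * t), p m) ↔ ∀ᶠ m in clF M c, p m := by
  rw [ev_clF, ev_clF]
  have h1 : ∀ i, c + M * t + M * i = c + M * (i + t) := fun i => by ring
  simp only [h1]
  constructor
  · intro h
    obtain ⟨i0, h0⟩ := eventually_atTop.1 h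
    refine eventually_atTop.2 ⟨i0 + t, fun i hi => ?_⟩
    have := h0 (i - t) (by omega)
    rwa [Nat.sub_add_cancel (by omega)] at this
  · intro h
    exact eventually_shift h t

section

variable {S : Subalgebra RF GG}

/-- the restriction of the shift -/
noncomputable def shR (hst : ∀ x ∈ S, shG x ∈ S) : S →+* S :=
  (shG.comp S.val.toRingHom).codRestrict S fun x => hst x x.2

theorem shR_coe (hst : ∀ x ∈ S, shG x ∈ S) (x : S) : ((shR hst x : S) : GG) = shG x := rfl

theorem shR_pow (hst : ∀ x ∈ S, shG x ∈ S) (i : ℕ) (x : S) :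
    (((shR hst ^ i) x : S) : GG) = (shG ^ i) (x : GG) := by
  induction i with
  | zero => rfl
  | succ i ih =>
    rw [pow_succ', RingHom.mul_def, RingHom.comp_apply, shR_coe, ih, shG_pow_succ]

theorem shR_inj (hst : ∀ x ∈ S, shG x ∈ S) : Function.Injective (shR hst) := by
  intro x y h
  apply Subtype.ext
  apply shG_inj
  rw [← shR_coe hst, ← shR_coe hst, h]

/-- the period of the minimal primes -/
theorem exists_period [IsNoetherianRing S] (hst : ∀ x ∈ S, shG x ∈ S) :
    ∃ M : ℕ, 0 < M ∧ ∀ p ∈ minimalPrimes S, p.comap (shR hst ^ M) = p := by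
  classical
  have hfin : (minimalPrimes S).Finite := minimalPrimes.finite_of_isNoetherianRing S
  have : Finite (minimalPrimes S) := hfin
  have h1 : ∀ p : minimalPrimes S, ∃ q : minimalPrimes S, (q : Ideal S).comap (shR hst) = p := by
    intro p
    have h2 : (⊥ : Ideal S).comap (shR hst) = ⊥ := by
      rw [← RingHom.ker_eq_comap_bot]
      exact (RingHom.injective_iff_ker_eq_bot _).1 (shR_inj hst)
    obtain ⟨q, hq, hqe⟩ := Ideal.exists_minimalPrimes_comap_eq (I := (⊥ : Ideal S)) (shR hst)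
      (p : Ideal S) (by
        rw [h2]
        exact p.2)
    exact ⟨⟨q, hq⟩, hqe⟩
  choose τ hτ using h1
  have hinj : Function.Injective τ := by
    intro p q h
    apply Subtype.ext
    rw [← hτ p, ← hτ q, h]
  let E : Equiv.Perm (minimalPrimes S) :=
    Equiv.ofBijective τ (Finite.injective_iff_bijective.1 hinj)
  have hE : ∀ (i : ℕ) (p : minimalPrimes S),
      (((E ^ i) p : minimalPrimes S) : Ideal S).comap (shR hst ^ i) = p := by
    intro i
    induction i with
    | zero => intro p; exact Ideal.comap_id _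
    | succ i ih =>
      intro p
      have h3 : (E ^ (i + 1)) p = (E ^ i) (E p) := by rw [pow_succ, Equiv.Perm.mul_apply]
      have h4 : shR hst ^ (i + 1) = (shR hst ^ i).comp (shR hst) := by rw [pow_succ]; rfl
      rw [h3, h4, ← Ideal.comap_comap, ih (E p)]
      exact hτ p
  refine ⟨orderOf E, orderOf_pos E, fun p hp => ?_⟩
  have h2 := hE (orderOf E) ⟨p, hp⟩
  rw [pow_orderOf_eq_one, Equiv.Perm.one_apply] at h2
  exact h2

/-- vanishing of the elements of a prime at an index -/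
theorem van_span {p : Ideal S} {T : Finset S} (hT : Ideal.span (T : Set S) = p) {ρ : S → ℕ → ℂ}
    (hρ : ∀ s, gg (ρ s) = (s : GG)) {s : S} (hs : s ∈ p) {f : ℕ → ℂ} (hf : gg f = (s : GG)) :
    ∀ᶠ m in atTop, (∀ t ∈ T, ρ t m = 0) → f m = 0 := by
  classical
  rw [← hT] at hs
  induction hs using Submodule.span_induction generalizing f with
  | mem x hx =>
    rw [← hρ, gg_eq] at hf
    filter_upwards [hf] with m h1 h2
    rw [h1, h2 x hx]
  | zero =>
    have h0 : gg f = gg 0 := by rw [hf, map_zero]; rfl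
    rw [gg_eq] at h0
    filter_upwards [h0] with m h1 _
    rw [h1, Pi.zero_apply]
  | add x y _ _ hx hy =>
    have h0 : gg f = gg (ρ x + ρ y) := by rw [hf, map_add, hρ, hρ]; rfl
    rw [gg_eq] at h0
    filter_upwards [h0, hx (hρ x), hy (hρ y)] with m h1 h2 h3 h4
    rw [h1, Pi.add_apply, h2 h4, h3 h4, add_zero]
  | smul a x _ hx =>
    have h0 : gg f = gg (ρ a * ρ x) := by rw [hf, map_mul, hρ, hρ]; rfl
    rw [gg_eq] at h0
    filter_upwards [h0, hx (hρ x)] with m h1 h2 h4
    rw [h1, Pi.mul_apply, h2 h4, mul_zero]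

theorem comap_clF (hst : ∀ x ∈ S, shG x ∈ S) {M : ℕ} (hM : 0 < M) (c : ℕ) :
    ((vanI (clF M c) (clF_le hM c)).comap (S.val : S →+* GG)).comap (shR hst) =
      (vanI (clF M (c + 1)) (clF_le hM (c + 1))).comap (S.val : S →+* GG) := by
  ext s
  obtain ⟨f, hf⟩ := gg_surj (s : GG)
  rw [Ideal.mem_comap, Ideal.mem_comap, Ideal.mem_comap]
  change shG (s : GG) ∈ _ ↔ (s : GG) ∈ _
  rw [← hf, shG_gg, mem_vanI, mem_vanI, ev_clF, ev_clF]
  have h1 : ∀ i, c + M * i + 1 = c + 1 + M * i := fun i => by ring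
  simp only [h1]

/-- **Residue classes.** -/
theorem class_prime (hfg : S.FG) (hst : ∀ x ∈ S, shG x ∈ S) :
    ∃ M : ℕ, ∃ hM : 0 < M, ∀ c,
      ((vanI (clF M c) (clF_le hM c)).comap (S.val : S →+* GG)).IsPrime := by
  classical
  have hft : Algebra.FiniteType RF S := (Subalgebra.fg_iff_finiteType S).1 hfg
  have hnoeth : IsNoetherianRing S := Algebra.FiniteType.isNoetherianRing RF S
  obtain ⟨M, hM, hper⟩ := exists_period hst
  have hfin : (minimalPrimes S).Finite := minimalPrimes.finite_of_isNoetherianRing S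
  let P := hfin.toFinset
  have hP : ∀ p, p ∈ P ↔ p ∈ minimalPrimes S := fun p => hfin.mem_toFinset
  choose ρ hρ using fun s : S => gg_surj (s : GG)
  choose T hT using fun p : Ideal S => (IsNoetherian.noetherian p : p.FG)
  let V : Ideal S → ℕ → Prop := fun p m => ∀ t ∈ T p, ρ t m = 0
  -- stability
  have h2 : ∀ p ∈ P, ∀ᶠ m in atTop, V p m → V p (m + M) := by
    intro p hp
    have h3 : ∀ t ∈ T p, ∀ᶠ m in atTop, V p m → ρ t (m + M) = 0 := by
      intro t ht
      have htp : t ∈ p := by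
        rw [← hT p]
        exact Ideal.subset_span ht
      have h4 : (shR hst ^ M) t ∈ p := by
        rw [← hper p ((hP p).1 hp), Ideal.mem_comap] at htp
        exact htp
      have h5 : gg (fun m => ρ t (m + M)) = (((shR hst ^ M) t : S) : GG) := by
        rw [shR_pow, ← hρ t, shG_pow]
      exact van_span (hT p) hρ h4 h5
    filter_upwards [(Finset.eventually_all (T p)).2 h3] with m h4 h5 t ht
    exact h4 t ht h5
  -- covering
  have h3 : ∀ᶠ m in atTop, ∃ p ∈ P, V p m := by
    by_contra hcon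
    have hfr : ∃ᶠ m in atTop, ¬ ∃ p ∈ P, V p m := Filter.not_eventually.1 hcon
    obtain ⟨U, hU, hUc⟩ : ∃ U : Ultrafilter ℕ, (U : Filter ℕ) ≤ atTop ∧
        ∀ᶠ m in (U : Filter ℕ), ¬ ∃ p ∈ P, V p m := by
      have hne : (atTop ⊓ 𝓟 {m : ℕ | ¬ ∃ p ∈ P, V p m}).NeBot := by
        rw [Filter.inf_principal_neBot_iff]
        intro W hW
        obtain ⟨m, hm1, hm2⟩ := (hfr.and_eventually hW).exists
        exact ⟨m, hm2, hm1⟩
      let U := @Ultrafilter.of ℕ _ hne
      have hle : (U : Filter ℕ) ≤ atTop ⊓ 𝓟 {m : ℕ | ¬ ∃ p ∈ P, V p m} :=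
        @Ultrafilter.of_le ℕ _ hne
      exact ⟨U, hle.trans inf_le_left, (hle.trans inf_le_right) (mem_principal_self _)⟩
    have hQ := vanI_prime U hU
    have hQS : ((vanI U hU).comap (S.val : S →+* GG)).IsPrime := Ideal.comap_isPrime _ _
    obtain ⟨p, hp, hple⟩ := Ideal.exists_minimalPrimes_le
      (bot_le : (⊥ : Ideal S) ≤ (vanI U hU).comap (S.val : S →+* GG))
    have h4 : ∀ᶠ m in (U : Filter ℕ), V p m := by
      refine (Finset.eventually_all (T p)).2 fun t ht => ?_
      have htp : t ∈ p := by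
        rw [← hT p]
        exact Ideal.subset_span ht
      have h5 := hple htp
      rw [Ideal.mem_comap] at h5
      change (t : GG) ∈ vanI U hU at h5
      rw [← hρ t, mem_vanI] at h5
      exact h5
    obtain ⟨m, hm1, hm2⟩ := (hUc.and h4).exists
    exact hm1 ⟨p, (hP p).2 hp, hm2⟩
  -- every class contains a minimal prime
  have h4 : ∀ c, ∃ p ∈ P, p ≤ (vanI (clF M c) (clF_le hM c)).comap (S.val : S →+* GG) := by
    intro c
    obtain ⟨m0, hm0⟩ := eventually_atTop.1 (((Finset.eventually_all P).2 h2).and h3)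
    have h5 : m0 ≤ c + M * m0 := by
      have : m0 ≤ M * m0 := Nat.le_mul_of_pos_left m0 hM
      omega
    obtain ⟨p, hp, hpV⟩ := (hm0 _ h5).2
    refine ⟨p, hp, ?_⟩
    have h6 : ∀ i, V p (c + M * m0 + M * i) := by
      intro i
      induction i with
      | zero => exact hpV
      | succ i ih =>
        have h7 := (hm0 (c + M * m0 + M * i) (by omega)).1 p hp ih
        have h8 : c + M * m0 + M * (i + 1) = c + M * m0 + M * i + M := by ring
        rw [h8]
        exact h7
    intro s hs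
    rw [Ideal.mem_comap]
    change (s : GG) ∈ _
    rw [← hρ s, mem_vanI, ← clF_add c m0, ev_clF]
    have h7 := van_span (hT p) hρ hs (hρ s)
    have h8 : ∀ᶠ m in clF M (c + M * m0), V p m → ρ s m = 0 := clF_le hM _ h7
    rw [ev_clF] at h8
    filter_upwards [h8] with i hi
    exact hi (h6 i)
  -- the classes cover
  let J : ℕ → Ideal S := fun c => (vanI (clF M c) (clF_le hM c)).comap (S.val : S →+* GG)
  obtain ⟨p0, hp0, -⟩ := h4 0
  have hp0' := (hP p0).1 hp0
  have hp0p : p0.IsPrime := hp0'.1.1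
  have h5 : (Finset.range M).inf J ≤ p0 := by
    intro s hs
    have h6 : ∀ c ∈ Finset.range M, s ∈ J c := by
      intro c hc
      exact (Finset.inf_le hc : (Finset.range M).inf J ≤ J c) hs
    have h7 : (s : GG) = 0 := by
      rw [← hρ s, ← map_zero gg, gg_eq]
      have h8 : ∀ c ∈ Finset.range M, ∀ᶠ i in atTop, ρ s (c + M * i) = 0 := by
        intro c hc
        have h9 : (s : GG) ∈ vanI (clF M c) (clF_le hM c) := h6 c hc
        rw [← hρ s, mem_vanI, ev_clF] at h9
        exact h9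
      obtain ⟨i0, hi0⟩ := eventually_atTop.1 ((Finset.eventually_all _).2 h8)
      refine eventually_atTop.2 ⟨M * (i0 + 1), fun m hm => ?_⟩
      have h9 := hi0 (m / M) ?_ (m % M) (Finset.mem_range.2 (Nat.mod_lt m hM))
      · rw [Nat.mod_add_div] at h9
        exact h9
      · rw [Nat.le_div_iff_mul_le hM]
        nlinarith
    have h8 : s = 0 := Subtype.ext h7
    rw [h8]
    exact p0.zero_mem
  obtain ⟨c0, -, hc0⟩ := (Ideal.IsPrime.inf_le' hp0p).1 h5
  obtain ⟨p, hp, hple⟩ := h4 c0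
  have hp' := (hP p).1 hp
  have h6 : p0 ≤ p := hp0'.2 hp'.1 (hple.trans hc0)
  have h7 : J c0 = p0 := le_antisymm hc0 (h6.trans hple)
  have h8 : ∀ i, (J (c0 + i)).IsPrime := by
    intro i
    induction i with
    | zero => rw [add_zero, h7]; exact hp0p
    | succ i ih =>
      have h9 : J (c0 + (i + 1)) = (J (c0 + i)).comap (shR hst) := (comap_clF hst hM (c0 + i)).symm
      rw [h9]
      exact Ideal.comap_isPrime _ _
  refine ⟨M, hM, fun c => ?_⟩
  have h9 : J c = J (c + M * c0) := by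
    ext s
    change (s : GG) ∈ vanI (clF M c) (clF_le hM c) ↔
      (s : GG) ∈ vanI (clF M (c + M * c0)) (clF_le hM (c + M * c0))
    rw [← hρ s, mem_vanI, mem_vanI, clF_add]
  have h10 : c0 ≤ c + M * c0 := by
    have : c0 ≤ M * c0 := Nat.le_mul_of_pos_left c0 hM
    omega
  obtain ⟨i, hi⟩ := Nat.exists_eq_add_of_le h10
  change (J c).IsPrime
  rw [h9, hi]
  exact h8 i

end

/-- **The dichotomy on residue classes.** -/
theorem class_dich {s : Set GG} (hs : s.Finite)
    (hst : ∀ x ∈ Algebra.adjoin RF s, shG x ∈ Algebra.adjoin RF s) :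
    ∃ M : ℕ, 0 < M ∧ ∀ (c : ℕ) (f g : ℕ → ℂ), gg f ∈ Algebra.adjoin RF s →
      gg g ∈ Algebra.adjoin RF s → (∀ᶠ i in atTop, f (c + M * i) * g (c + M * i) = 0) →
      (∀ᶠ i in atTop, f (c + M * i) = 0) ∨ (∀ᶠ i in atTop, g (c + M * i) = 0) := by
  obtain ⟨M, hM, h⟩ := class_prime (S := Algebra.adjoin RF s) ⟨hs.toFinset, by simp⟩ hst
  refine ⟨M, hM, fun c f g hf hg hfg => ?_⟩
  have h1 := (h c).mem_or_mem (x := ⟨gg f, hf⟩) (y := ⟨gg g, hg⟩) (by
    change gg f * gg g ∈ vanI (clF M c) (clF_le hM c)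
    rw [← map_mul, mem_vanI, ev_clF]
    exact hfg)
  rcases h1 with h1 | h1
  · left
    change gg f ∈ vanI (clF M c) (clF_le hM c) at h1
    rwa [mem_vanI, ev_clF] at h1
  · right
    change gg g ∈ vanI (clF M c) (clF_le hM c) at h1
    rwa [mem_vanI, ev_clF] at h1

end Pool.Agent.Q183.UH
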