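import Pool.Agent.Q183.UH.Main

/-!
The uniform bound over algebraically closed fields of cardinality at most that of the continuum.
-/

set_option autoImplicit false

namespace Pool.Agent.Q183.UH

open Filter Pool.Agent.TH143.HE Pool.Agent.Q183.RS MvPolynomial Cardinal
open scoped LinearAlgebra.Projectivization

/-- the bound holds for all sequences over `K` -/
def BoundOver (K : Type) [Field K] (N s r d : ℕ) (e : Fin s → ℕ) (B : ℕ) : Prop :=
  ∀ F : Fin s → MvPolynomial (Fin (N + 1)) K, (∀ i, (F i).IsHomogeneous (e i)) →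
    NoRat (Set.range F) → ∀ (x : ℕ → Fin (N + 1) → K) (hne : ∀ m, x m ≠ 0),
    (∀ m i, eval (x m) (F i) = 0) → (∀ j, PRecOD r d fun m => x m j) →
    (Set.range fun m => Projectivization.mk K (x m) (hne m)).encard ≤ (B : ℕ∞)

theorem core (N s r d : ℕ) (e : Fin s → ℕ) :
    ∃ B : ℕ, ∀ (K : Type) [Field K] [CharZero K] [IsAlgClosed K], #K ≤ 𝔠 →
      BoundOver K N s r d e B := by
  classical
  by_contra hcon
  push Not at hcon
  set σ : ℕ := r + ((N + 1) * d + (N + 1) * d) with hσ
  choose K i1 i2 i3 hK hbad using fun n : ℕ => hcon (σ + (σ + 1) * n)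
  unfold BoundOver at hbad
  push Not at hbad
  choose F hF hno x hne hX hrec hlt using hbad
  choose g hg1 hg2 hg3 hg4 hg5 using fun n j => (hrec n j).norm
  choose S0 hS0c hS0 using fun n j => exists_zeros (hg2 n j)
  choose SR hSRc hSR using fun n j => exists_zeros (hg3 n j)
  let S : ℕ → Finset ℕ := fun n => Finset.range r ∪ (Finset.univ.biUnion (S0 n) ∪
    Finset.univ.biUnion (SR n))
  have hScard : ∀ n, (S n).card ≤ σ := by
    intro n
    refine (Finset.card_union_le _ _).trans ?_
    rw [Finset.card_range, hσ]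
    refine Nat.add_le_add_left ((Finset.card_union_le _ _).trans (Nat.add_le_add ?_ ?_)) _
    · refine Finset.card_biUnion_le.trans ((Finset.sum_le_card_nsmul _ _ d fun j _ =>
        (hS0c n j).trans (hg1 n j 0)).trans ?_)
      simp
    · refine Finset.card_biUnion_le.trans ((Finset.sum_le_card_nsmul _ _ d fun j _ =>
        (hSRc n j).trans (hg1 n j (r + 1))).trans ?_)
      simp
  have hint : ∀ n, ∃ μ L : ℕ, (∀ m, μ ≤ m → m < μ + L → m ∉ S n) ∧ (n : ℕ∞) <
      ((fun m => Projectivization.mk (K n) (x n m) (hne n m)) '' (Set.Ico μ (μ + L))).encard := by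
    intro n
    refine exists_interval _ (S n) n (lt_of_le_of_lt ?_ (hlt n))
    have h1 : (S n).card + ((S n).card + 1) * n ≤ σ + (σ + 1) * n :=
      Nat.add_le_add (hScard n) (Nat.mul_le_mul_right _ (Nat.succ_le_succ (hScard n)))
    exact_mod_cast h1
  choose μ L hμ hbig using hint
  have hL : ∀ n, 0 < L n := by
    intro n
    by_contra h0
    have h1 : L n = 0 := by omega
    have h2 := hbig n
    rw [h1, add_zero, Set.Ico_self, Set.image_empty, Set.encard_empty] at h2
    exact absurd h2 (by simp)
  refine contra (K := K) hK (s := s) (R := r + 1) (b := r) (d := d) (Nat.succ_pos r) F hF hno x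
    hne hX g hg1 hg5 μ L ?_ ?_ ?_ hbig
  · intro n
    by_contra h
    refine hμ n (μ n) le_rfl (by have := hL n; omega) ?_
    exact Finset.mem_union_left _ (Finset.mem_range.2 (by omega))
  · intro n m h1 h2 j h3
    exact hμ n m h1 h2 (Finset.mem_union_right _ (Finset.mem_union_left _
      (Finset.mem_biUnion.2 ⟨j, Finset.mem_univ _, hS0 n j m h3⟩)))
  · intro n m h1 h2 j h3
    exact hμ n m h1 h2 (Finset.mem_union_right _ (Finset.mem_union_right _
      (Finset.mem_biUnion.2 ⟨j, Finset.mem_univ _, hSR n j m h3⟩)))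

end Pool.Agent.Q183.UH
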