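import Pool.Agent.Q183.UH.Good

/-!
The contradiction for families of sequences with more and more points outside closed sets.
-/

set_option autoImplicit false

namespace Pool.Agent.Q183.UH

open Filter Pool.Agent.TH143.HE Pool.Agent.Q183.RS MvPolynomial Cardinal
open scoped LinearAlgebra.Projectivization

/-- an interval without singular indices and with many values along `A` -/
theorem exists_intervalA {P : Type} (x : ℕ → P) (A : Set ℕ) (S : Finset ℕ) (n : ℕ)
    (h : ((S.card + (S.card + 1) * n : ℕ) : ℕ∞) < (x '' A).encard) :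
    ∃ μ L : ℕ, (∀ m, μ ≤ m → m < μ + L → m ∉ S) ∧
      (n : ℕ∞) < (x '' (A ∩ Set.Ico μ (μ + L))).encard := by
  classical
  let c : ℕ → ℕ := fun m => (S.filter (· < m)).card
  have hc : ∀ m, c m ≤ S.card := fun m => Finset.card_le_card (Finset.filter_subset _ _)
  let T : ℕ → Set ℕ := fun i => {m | m ∈ A ∧ m ∉ S ∧ c m = i}
  have hcov : x '' A ⊆ x '' (S : Set ℕ) ∪ ⋃ i ∈ Finset.range (S.card + 1), x '' T i := by
    rintro _ ⟨m, hmA, rfl⟩
    by_cases hm : m ∈ S
    · exact Or.inl ⟨m, hm, rfl⟩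
    · refine Or.inr (Set.mem_iUnion₂.2 ⟨c m, Finset.mem_range.2 (Nat.lt_succ_of_le (hc m)),
        m, ⟨hmA, hm, rfl⟩, rfl⟩)
  obtain ⟨i, hi⟩ : ∃ i, (n : ℕ∞) < (x '' T i).encard := by
    by_contra hcon
    push Not at hcon
    have h1 : (x '' A).encard ≤ ((S.card + (S.card + 1) * n : ℕ) : ℕ∞) := by
      refine (Set.encard_le_encard hcov).trans ((Set.encard_union_le _ _).trans ?_)
      push_cast
      refine add_le_add ?_ ?_
      · refine (Set.encard_image_le _ _).trans ?_
        rw [Set.encard_coe_eq_coe_finsetCard]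
      · have h2 : ∀ (F : Finset ℕ), (⋃ i ∈ F, x '' T i).encard ≤ (F.card : ℕ∞) * n := by
          intro F
          induction F using Finset.induction_on with
          | empty => simp
          | insert a F ha ih =>
            rw [Finset.set_biUnion_insert, Finset.card_insert_of_notMem ha]
            refine (Set.encard_union_le _ _).trans ?_
            push_cast
            rw [add_mul, one_mul, add_comm]
            exact add_le_add ih (hcon a)
        have h3 := h2 (Finset.range (S.card + 1))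
        rw [Finset.card_range] at h3
        push_cast at h3
        exact h3
    exact absurd h (not_lt.2 h1)
  obtain ⟨V, hV1, hV2⟩ := Set.exists_subset_encard_eq (Order.add_one_le_of_lt hi)
  have hVfin : V.Finite := Set.finite_of_encard_eq_coe (k := n + 1) (by rw [hV2]; push_cast; rfl)
  choose! w hw using fun v (hv : v ∈ V) => hV1 hv
  have hWfin : (w '' V).Finite := hVfin.image _
  have hVne : V.Nonempty := by
    rw [← Set.encard_ne_zero, hV2]
    exact (by simp : (n : ℕ∞) + 1 ≠ 0)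
  let W := hWfin.toFinset
  have hWne : W.Nonempty := by
    obtain ⟨v, hv⟩ := hVne
    exact ⟨w v, hWfin.mem_toFinset.2 ⟨v, hv, rfl⟩⟩
  have hWT : ∀ m ∈ W, m ∈ T i := by
    intro m hm
    obtain ⟨v, hv, rfl⟩ := hWfin.mem_toFinset.1 hm
    exact (hw v hv).1
  have hμ := hWT _ (W.min'_mem hWne)
  have hν := hWT _ (W.max'_mem hWne)
  set μ := W.min' hWne with hμd
  set ν := W.max' hWne with hνd
  have hμν : μ ≤ ν := W.min'_le _ (W.max'_mem hWne)
  refine ⟨μ, ν + 1 - μ, fun m hm1 hm2 hmS => ?_, ?_⟩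
  · have h1 : μ < m := lt_of_le_of_ne hm1 (fun h2 => hμ.2.1 (h2 ▸ hmS))
    have h2 : m < ν := lt_of_le_of_ne (by omega) (fun h3 => hν.2.1 (h3 ▸ hmS))
    have h3 : c μ < c ν := by
      apply Finset.card_lt_card
      rw [Finset.ssubset_iff_of_subset]
      · exact ⟨m, Finset.mem_filter.2 ⟨hmS, h2⟩, fun h4 =>
          absurd (Finset.mem_filter.1 h4).2 (not_lt.2 hm1)⟩
      · intro k hk
        rw [Finset.mem_filter] at hk ⊢
        exact ⟨hk.1, hk.2.trans_le hμν⟩
    rw [hμ.2.2, hν.2.2] at h3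
    exact lt_irrefl _ h3
  · have h1 : V ⊆ x '' (A ∩ Set.Ico μ (μ + (ν + 1 - μ))) := by
      intro v hv
      refine ⟨w v, ⟨(hw v hv).1.1, ?_⟩, (hw v hv).2⟩
      have h2 : w v ∈ W := hWfin.mem_toFinset.2 ⟨v, hv, rfl⟩
      have h3 := W.min'_le _ h2
      have h4 := W.le_max' _ h2
      rw [← hμd] at h3
      rw [← hνd] at h4
      exact ⟨h3, by omega⟩
    refine lt_of_lt_of_le ?_ (Set.encard_le_encard h1)
    rw [hV2]
    exact_mod_cast Nat.lt_succ_self n

/-- the number of singular indices -/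
def sig (N r d : ℕ) : ℕ := r + ((N + 1) * d + (N + 1) * d)

variable {K : ℕ → Type} [∀ n, Field (K n)] {N : ℕ}

theorem TT_add {U : Ultrafilter ℕ} (μ : ℕ → ℕ) (i : ℕ) :
    TT K U (fun n => μ n + i) = (i : UK K U) + TT K U μ := by
  unfold TT
  have h3 : (i : UK K U) = mk K U (fun n => (i : K n)) := by
    rw [← map_natCast (mk K U)]
    rfl
  rw [h3, ← map_add]
  congr 1
  funext n
  rw [Pi.add_apply]
  push_cast
  ring

/-- The points with the indices `t` and `t + M` coincide, or they are exceptional. -/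
def GoodZ {L : Type} [Field L] (Z : ℕ → Prop) (x : ℕ → Fin (N + 1) → L) (M t : ℕ) : Prop :=
  (Z t ∧ Z (t + M)) ∨ Par (x (t + M)) (x t)

theorem GoodZ.chain {L : Type} [Field L] {Z : ℕ → Prop} {x : ℕ → Fin (N + 1) → L}
    (hne : ∀ m, x m ≠ 0) (hZ : ∀ t t', Par (x t) (x t') → Z t → Z t') {M t : ℕ} (k : ℕ)
    (h : ∀ i < k, GoodZ Z x M (t + M * i)) : GoodZ Z x (M * k) t := by
  induction k with
  | zero =>
    right
    rw [mul_zero, add_zero]
    exact Par.refl _
  | succ k ih =>
    have h1 := ih fun i hi => h i (by omega)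
    have h2 := h k (by omega)
    have h3 : t + M * (k + 1) = t + M * k + M := by ring
    unfold GoodZ at h1 h2 ⊢
    rw [h3]
    rcases h1 with h1 | h1
    · rcases h2 with h2 | h2
      · exact Or.inl ⟨h1.1, h2.2⟩
      · exact Or.inl ⟨h1.1, hZ _ _ h2.symm h1.2⟩
    · rcases h2 with h2 | h2
      · exact Or.inl ⟨hZ _ _ h1 h2.1, h2.2⟩
      · exact Or.inr (Par.trans (hne _) h2 h1)

/-- a window with a bad index in its middle -/
theorem exists_window (S : Finset ℕ) (Bad : Set ℕ) (a b : ℕ)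
    (h : ((S.card + (S.card + 1) * (a + b) : ℕ) : ℕ∞) < Bad.encard) :
    ∃ μ L : ℕ, (∀ m, μ ≤ m → m < μ + L → m ∉ S) ∧ ∃ t ∈ Bad, μ + a ≤ t ∧ t + b < μ + L := by
  classical
  obtain ⟨μ, L, h1, h2⟩ := exists_intervalA id Bad S (a + b) (by rwa [Set.image_id])
  rw [Set.image_id] at h2
  refine ⟨μ, L, h1, ?_⟩
  by_contra hcon
  push Not at hcon
  have h3 : Bad ∩ Set.Ico μ (μ + L) ⊆ Set.Ico μ (μ + a) ∪ Set.Ico (μ + L - b) (μ + L) := by
    rintro t ⟨ht1, ht2, ht3⟩
    by_cases h4 : t < μ + a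
    · exact Or.inl ⟨ht2, h4⟩
    · have h5 := hcon t ht1 (by omega)
      exact Or.inr ⟨by omega, ht3⟩
  have h4 := (Set.encard_le_encard h3).trans (Set.encard_union_le _ _)
  have h5 : ∀ u v : ℕ, (Set.Ico u v).encard = ((v - u : ℕ) : ℕ∞) := by
    intro u v
    rw [← Finset.coe_Ico, Set.encard_coe_eq_coe_finsetCard, Nat.card_Ico]
  rw [h5, h5, ← Nat.cast_add] at h4
  have h6 := h2.trans_le h4
  have h7 : a + b < (μ + a - μ) + (μ + L - (μ + L - b)) := by exact_mod_cast h6
  omega

/-- **The contradiction.** -/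
theorem contra3 [∀ n, CharZero (K n)] {r d : ℕ} {U : Ultrafilter ℕ}
    (hU : (U : Filter ℕ) ≤ atTop) (x : ∀ n, ℕ → Fin (N + 1) → K n) (hne : ∀ n m, x n m ≠ 0)
    (hrec : ∀ n j, PRecOD r d fun m => x n m j) (Z : ℕ → ℕ → Prop)
    (hZ : ∀ n t t', Par (x n t) (x n t') → Z n t → Z n t')
    (hbig : ∀ n : ℕ, ((sig N r d + (sig N r d + 1) * (n + n.factorial) : ℕ) : ℕ∞) <
      {t | ¬ GoodZ (Z n) (x n) n.factorial t}.encard)
    (hwin : ∀ μ : ℕ → ℕ, (∀ j, PRecO (r + 1) fun i => XX U x (fun n => μ n + i) j) →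
      ∃ (s' : ℕ) (e' : Fin s' → ℕ) (G : ∀ n, Fin s' → MvPolynomial (Fin (N + 1)) (K n))
        (M i0 : ℕ), 0 < M ∧ (∀ n i, (G n i).IsHomogeneous (e' i)) ∧
        (∀ i, i0 ≤ i → ∀ᶠ n in (U : Filter ℕ), Good (G n) (x n) M (μ n + i)) ∧
        ∀ᶠ n in (U : Filter ℕ), ∀ t, (∀ i, eval (x n t) (G n i) = 0) → Z n t) : False := by
  classical
  choose g hg1 hg2 hg3 hg4 hg5 using fun n j => (hrec n j).norm
  choose S0 hS0c hS0 using fun n j => exists_zeros (hg2 n j)
  choose SR hSRc hSR using fun n j => exists_zeros (hg3 n j)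
  let S : ℕ → Finset ℕ := fun n => Finset.range r ∪ (Finset.univ.biUnion (S0 n) ∪
    Finset.univ.biUnion (SR n))
  have hScard : ∀ n, (S n).card ≤ sig N r d := by
    intro n
    refine (Finset.card_union_le _ _).trans ?_
    rw [Finset.card_range, sig]
    refine Nat.add_le_add_left ((Finset.card_union_le _ _).trans (Nat.add_le_add ?_ ?_)) _
    · refine Finset.card_biUnion_le.trans ((Finset.sum_le_card_nsmul _ _ d fun j _ =>
        (hS0c n j).trans (hg1 n j 0)).trans ?_)
      simp
    · refine Finset.card_biUnion_le.trans ((Finset.sum_le_card_nsmul _ _ d fun j _ =>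
        (hSRc n j).trans (hg1 n j (r + 1))).trans ?_)
      simp
  have hint : ∀ n, ∃ μ L : ℕ, (∀ m, μ ≤ m → m < μ + L → m ∉ S n) ∧
      ∃ t ∈ {t | ¬ GoodZ (Z n) (x n) n.factorial t}, μ + n ≤ t ∧ t + n.factorial < μ + L := by
    intro n
    refine exists_window (S n) _ n n.factorial (lt_of_le_of_lt ?_ (hbig n))
    have h1 : (S n).card + ((S n).card + 1) * (n + n.factorial) ≤
        sig N r d + (sig N r d + 1) * (n + n.factorial) :=
      Nat.add_le_add (hScard n) (Nat.mul_le_mul_right _ (Nat.succ_le_succ (hScard n)))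
    exact_mod_cast h1
  choose μ L hμ T hTbad hT1 hT2 using hint
  have hL : ∀ n, 0 < L n := by
    intro n
    have h1 := hT1 n
    have h2 := hT2 n
    omega
  have hb : ∀ n, r ≤ μ n := by
    intro n
    by_contra h
    refine hμ n (μ n) le_rfl (by have := hL n; omega) ?_
    exact Finset.mem_union_left _ (Finset.mem_range.2 (by omega))
  have hns0 : ∀ n m, μ n ≤ m → m < μ n + L n → ∀ j, (g n j 0).eval (m : K n) ≠ 0 := by
    intro n m h1 h2 j h3
    exact hμ n m h1 h2 (Finset.mem_union_right _ (Finset.mem_union_left _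
      (Finset.mem_biUnion.2 ⟨j, Finset.mem_univ _, hS0 n j m h3⟩)))
  have hnsR : ∀ n m, μ n ≤ m → m < μ n + L n → ∀ j, (g n j (r + 1)).eval (m : K n) ≠ 0 := by
    intro n m h1 h2 j h3
    exact hμ n m h1 h2 (Finset.mem_union_right _ (Finset.mem_union_right _
      (Finset.mem_biUnion.2 ⟨j, Finset.mem_univ _, hSR n j m h3⟩)))
  -- the recurrences of the first window
  choose Ag hAg using fun (j : Fin (N + 1)) (k : ℕ) => exists_lift d (fun n => g n j k)
    fun n => hg1 n j k
  have hrecU : ∀ j, PRecO (r + 1) fun i => XX U x (fun n => μ n + i) j := by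
    intro j
    refine ⟨fun k => ((Ag j k).map (mk K U)).comp (Polynomial.X + Polynomial.C (TT K U μ)),
        ⟨0, Nat.zero_le _, comp_ne ?_ _⟩, fun i => ?_⟩
    · intro h0
      have h1 : ((Ag j 0).map (mk K U)).eval (TT K U μ) ≠ 0 := by
        unfold TT
        rw [eval_mk, mk_ne]
        refine Eventually.of_forall fun n => ?_
        rw [hAg]
        exact hns0 n (μ n) le_rfl (by have := hL n; omega) j
      apply h1
      rw [h0, Polynomial.eval_zero]
    · have h1 := XX_rec (U := U) (x := x) (b := r) (R := r + 1) (j := j) (A := Ag j)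
        (fun n m hm => by
          simp only [hAg]
          exact hg5 n j m hm) (t := fun n => μ n + i) (Eventually.of_forall fun n => by
          have := hb n
          omega)
      rw [← h1]
      refine Finset.sum_congr rfl fun k _ => ?_
      rw [Polynomial.eval_comp, Polynomial.eval_add, Polynomial.eval_X, Polynomial.eval_C]
      have h3 : (fun n => μ n + i + k) = fun n => μ n + (i + k) := by
        funext n
        ring
      rw [TT_add, h3]
  obtain ⟨s', e', G, M, i0, hM, hGh, hG, hGZ⟩ := hwin μ hrecU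
  have hall := all_good (U := U) (R := r + 1) (b := r) (d := d) (Nat.succ_pos r) x hne g hg1 hg5
    μ L hb hns0 hnsR G hGh M i0 hG
  obtain ⟨n, h1, h2, h3⟩ := (hall.and (hGZ.and (hU (eventually_ge_atTop (i0 + M))))).exists
  apply hTbad n
  obtain ⟨k, hk⟩ : M ∣ n.factorial := Nat.dvd_factorial hM (by omega)
  rw [hk]
  refine GoodZ.chain (hne n) (hZ n) k fun i hi => ?_
  have h4 : M * i + M ≤ M * k := by
    have : M * (i + 1) ≤ M * k := Nat.mul_le_mul_left M (by omega)
    calc M * i + M = M * (i + 1) := by ring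
      _ ≤ _ := this
  have h5 := hT1 n
  have h6 := hT2 n
  rw [hk] at h6
  rcases h1 (T n + M * i) (by omega) (by omega) with h7 | h7
  · exact Or.inl ⟨h2 _ fun i => (h7 i).1, h2 _ fun i => (h7 i).2⟩
  · exact Or.inr h7

/-- the number of the points which are not exceptional -/
theorem points_le {L : Type} [Field L] {Z : ℕ → Prop} {x : ℕ → Fin (N + 1) → L}
    (hne : ∀ m, x m ≠ 0) (hZ : ∀ t t', Par (x t) (x t') → Z t → Z t') {M C : ℕ} (hM : 0 < M)
    (h : {t | ¬ GoodZ Z x M t}.encard ≤ (C : ℕ∞)) :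
    ((fun m => Projectivization.mk L (x m) (hne m)) '' {m | ¬ Z m}).encard ≤
      ((M + C : ℕ) : ℕ∞) := by
  classical
  let W : Set ℕ := Set.Iio M ∪ (fun t => t + M) '' {t | ¬ GoodZ Z x M t}
  have hsub : (fun m => Projectivization.mk L (x m) (hne m)) '' {m | ¬ Z m} ⊆
      (fun m => Projectivization.mk L (x m) (hne m)) '' W := by
    rintro _ ⟨m, hm, rfl⟩
    change ¬ Z m at hm
    induction m using Nat.strong_induction_on with
    | _ m ih =>
      by_cases h1 : m < M
      · exact ⟨m, Or.inl h1, rfl⟩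
      · by_cases h2 : GoodZ Z x M (m - M)
        · unfold GoodZ at h2
          rw [Nat.sub_add_cancel (by omega)] at h2
          rcases h2 with h2 | h2
          · exact absurd h2.2 hm
          · obtain ⟨w, hw, hwe⟩ := ih (m - M) (by omega) (fun h3 => hm (hZ _ _ h2.symm h3))
            refine ⟨w, hw, hwe.trans ?_⟩
            exact (h2.eq _ _).symm
        · exact ⟨m, Or.inr ⟨m - M, h2, Nat.sub_add_cancel (by omega)⟩, rfl⟩
  refine (Set.encard_le_encard hsub).trans ((Set.encard_image_le _ _).trans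
    ((Set.encard_union_le _ _).trans ?_))
  push_cast
  refine add_le_add ?_ ((Set.encard_image_le _ _).trans h)
  rw [← Finset.coe_Iio, Set.encard_coe_eq_coe_finsetCard, Nat.card_Iio]

end Pool.Agent.Q183.UH
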