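import Pool.Agent.Q183.UH.Pair

/-!
Finite sequences.
-/

set_option autoImplicit false

namespace Pool.Agent.Q183.UH

open Filter Pool.Agent.TH143.HE Pool.Agent.Q183.RS MvPolynomial Cardinal
open scoped LinearAlgebra.Projectivization

variable {K : ℕ → Type} [∀ n, Field (K n)] {N : ℕ}

theorem XX_neF {U : Ultrafilter ℕ} {x : ∀ n, ℕ → Fin (N + 1) → K n} {L : ℕ → ℕ}
    (hne : ∀ n m, m < L n → x n m ≠ 0) {t : ℕ → ℕ} (ht : ∀ᶠ n in (U : Filter ℕ), t n < L n) :
    XX U x t ≠ 0 := by
  intro h
  have h1 : ∀ j, ∀ᶠ n in (U : Filter ℕ), x n (t n) j = 0 := fun j => mk_zero.1 (congrFun h j)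
  obtain ⟨n, hn, hn'⟩ := ((eventually_all.2 h1).and ht).exists
  exact hne n (t n) hn' (funext hn)

theorem XX_recF {U : Ultrafilter ℕ} {x : ∀ n, ℕ → Fin (N + 1) → K n} {L : ℕ → ℕ} {R : ℕ}
    {j : Fin (N + 1)} {A : ℕ → Polynomial (∀ n, K n)}
    (hA : ∀ n m, m + R < L n → ∑ k ∈ Finset.range (R + 1), ((A k).map (ev K n)).eval (m : K n) *
      x n (m + k) j = 0) {t : ℕ → ℕ} (ht : ∀ᶠ n in (U : Filter ℕ), t n + R < L n) :
    ∑ k ∈ Finset.range (R + 1), ((A k).map (mk K U)).eval (TT K U t) *
      XX U x (fun n => t n + k) j = 0 := by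
  have h1 : ∀ k, ((A k).map (mk K U)).eval (TT K U t) * XX U x (fun n => t n + k) j =
      mk K U (fun n => ((A k).map (ev K n)).eval ((t n : ℕ) : K n) * x n (t n + k) j) := by
    intro k
    unfold TT XX
    rw [eval_mk, ← map_mul]
    rfl
  rw [Finset.sum_congr rfl fun k _ => h1 k, ← map_sum, mk_zero]
  filter_upwards [ht] with n hn
  rw [Finset.sum_apply]
  exact hA n (t n) hn

theorem all_goodF [∀ n, CharZero (K n)] {U : Ultrafilter ℕ} {R d : ℕ} (hRpos : 0 < R)
    (x : ∀ n, ℕ → Fin (N + 1) → K n) (L : ℕ → ℕ) (hne : ∀ n m, m < L n → x n m ≠ 0)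
    (α : ∀ n, Fin (N + 1) → ℕ → Polynomial (K n)) (hdeg : ∀ n j k, (α n j k).natDegree ≤ d)
    (hα : ∀ n j m, m + R < L n → ∑ k ∈ Finset.range (R + 1), (α n j k).eval (m : K n) *
      x n (m + k) j = 0)
    (hns0 : ∀ n m, m < L n → ∀ j, (α n j 0).eval (m : K n) ≠ 0)
    (hnsR : ∀ n m, m < L n → ∀ j, (α n j R).eval (m : K n) ≠ 0)
    {s' : ℕ} {e' : Fin s' → ℕ} (G : ∀ n, Fin s' → MvPolynomial (Fin (N + 1)) (K n))
    (hGh : ∀ n i, (G n i).IsHomogeneous (e' i)) (M i0 : ℕ)
    (hG : ∀ i, i0 ≤ i → ∀ᶠ n in (U : Filter ℕ), Good (G n) (x n) M i) :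
    ∀ᶠ n in (U : Filter ℕ), ∀ t, i0 ≤ t → t + M < L n → Good (G n) (x n) M t := by
  classical
  let Bd : ℕ → ℕ → Prop := fun n t => i0 ≤ t ∧ t + M < L n ∧ ¬ Good (G n) (x n) M t
  by_contra hcon
  have hBad : ∀ᶠ n in (U : Filter ℕ), ∃ t, Bd n t := by
    have h1 := Ultrafilter.eventually_not.2 hcon
    filter_upwards [h1] with n hn
    push Not at hn
    exact hn
  -- lifts
  choose A hA using fun (j : Fin (N + 1)) (k : ℕ) => exists_lift d (fun n => α n j k)
    fun n => hdeg n j k
  choose Q hQhom hQ using fun i => exists_liftM (e' i) (fun n => G n i) fun n => hGh n i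
  have hrec : ∀ (j : Fin (N + 1)) (t : ℕ → ℕ), (∀ᶠ n in (U : Filter ℕ), t n + R < L n) →
      ∑ k ∈ Finset.range (R + 1), ((A j k).map (mk K U)).eval (TT K U t) *
        XX U x (fun n => t n + k) j = 0 := by
    intro j t ht
    refine XX_recF (L := L) (fun n m hm => ?_) ht
    simp only [hA]
    exact hα n j m hm
  have hev0 : ∀ (j : Fin (N + 1)) (t : ℕ → ℕ), (∀ᶠ n in (U : Filter ℕ), t n < L n) → ((A j 0).map (mk K U)).eval (TT K U t) ≠ 0 := by
    intro j t ht
    unfold TT
    rw [eval_mk, mk_ne]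
    filter_upwards [ht] with n hn
    rw [hA]
    exact hns0 n (t n) hn j
  have hevR : ∀ (j : Fin (N + 1)) (t : ℕ → ℕ), (∀ᶠ n in (U : Filter ℕ), t n < L n) → ((A j R).map (mk K U)).eval (TT K U t) ≠ 0 := by
    intro j t ht
    unfold TT
    rw [eval_mk, mk_ne]
    filter_upwards [ht] with n hn
    rw [hA]
    exact hnsR n (t n) hn j
  -- the first bad index
  let κ : ℕ → ℕ := fun n => if h : ∃ t, Bd n t then Nat.find h else 0
  have hκ : ∀ᶠ n in (U : Filter ℕ), Bd n (κ n) ∧
      ∀ t, i0 ≤ t → t < κ n → Good (G n) (x n) M t := by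
    filter_upwards [hBad] with n hn
    have h1 : κ n = Nat.find hn := dif_pos hn
    rw [h1]
    refine ⟨Nat.find_spec hn, fun t h2 h3 => ?_⟩
    by_contra h4
    refine Nat.find_min hn h3 ⟨h2, ?_, h4⟩
    have := (Nat.find_spec hn).2.1
    omega
  have hfar : ∀ l, ∀ᶠ n in (U : Filter ℕ), i0 + l < κ n := by
    intro l
    have h1 : ∀ᶠ n in (U : Filter ℕ), ∀ i ∈ Finset.range (l + 1),
        Good (G n) (x n) M (i0 + i) := by
      rw [Finset.eventually_all]
      intro i _
      exact hG (i0 + i) (by omega)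
    filter_upwards [hκ, h1] with n h2 h3
    by_contra h4
    have h5 := h2.1.1
    have h6 := h3 (κ n - i0) (Finset.mem_range.2 (by omega))
    have h7 : i0 + (κ n - i0) = κ n := by omega
    rw [h7] at h6
    exact h2.1.2.2 h6
  -- the window at the first bad index
  let τ : ℕ → ℕ → ℕ := fun l n => κ n + M - l
  have hτ : ∀ l, ∀ᶠ n in (U : Filter ℕ), κ n + M - l - R < L n ∧
      l + R ≤ κ n ∧ κ n + M < L n := by
    intro l
    filter_upwards [hfar (l + R), hκ] with n h1 h2
    have := h2.1.2.1
    omega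
  have hTT : ∀ l, TT K U (fun n => κ n + M - l - R) =
      TT K U κ + (M : UK K U) - (R : UK K U) - (l : UK K U) := by
    intro l
    unfold TT
    have h3 : ∀ i : ℕ, (i : UK K U) = mk K U (fun n => (i : K n)) := by
      intro i
      rw [← map_natCast (mk K U)]
      rfl
    rw [h3 M, h3 R, h3 l, ← map_add, ← map_sub, ← map_sub, mk_eq]
    filter_upwards [hτ l] with n hn
    have h4 : κ n + M = (κ n + M - l - R) + l + R := by omega
    have h5 : ((κ n : ℕ) : K n) + (M : K n) = ((κ n + M - l - R : ℕ) : K n) + (l : K n) +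
        (R : K n) := by
      have h6 : ((κ n + M : ℕ) : K n) = (((κ n + M - l - R) + l + R : ℕ) : K n) := by rw [← h4]
      push_cast at h6
      exact h6
    simp only [Pi.add_apply, Pi.sub_apply]
    rw [h5]
    ring
  let cc : UK K U := TT K U κ + (M : UK K U) - (R : UK K U)
  let β : Fin (N + 1) → ℕ → ℕ → UK K U := fun j k l =>
    ((A j (R - k)).map (mk K U)).eval (cc - (l : UK K U))
  let u : Fin (N + 1) → ℕ → UK K U := fun j l => XX U x (τ l) j
  have hβ : ∀ j k, (fun l => β j k l) ∈ polyB (UK K U) := by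
    intro j k
    refine ⟨((A j (R - k)).map (mk K U)).comp (Polynomial.C cc - Polynomial.X), fun l => ?_⟩
    rw [Polynomial.eval_comp, Polynomial.eval_sub, Polynomial.eval_C, Polynomial.eval_X]
  have hβ0 : ∀ j l, β j 0 l ≠ 0 := by
    intro j l
    simp only [β, cc, Nat.sub_zero]
    rw [← hTT l]
    refine hevR j _ ?_
    filter_upwards [hτ l] with n hn
    exact hn.1
  have hβR : ∀ j l, β j R l ≠ 0 := by
    intro j l
    simp only [β, cc, Nat.sub_self]
    rw [← hTT l]
    refine hev0 j _ ?_
    filter_upwards [hτ l] with n hn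
    exact hn.1
  have hu : ∀ j l, ∑ k ∈ Finset.range (R + 1), β j k l * u j (l + k) = 0 := by
    intro j l
    have h1 := hrec j (fun n => κ n + M - l - R) (by
      filter_upwards [hτ l] with n hn
      omega)
    rw [hTT l] at h1
    rw [← Finset.sum_range_reflect] at h1
    rw [← h1]
    refine Finset.sum_congr rfl fun k hk => ?_
    have h2 := Finset.mem_range.1 hk
    have h3 : R + 1 - 1 - k = R - k := by omega
    rw [h3]
    have h4 : u j (l + k) = XX U x (fun n => κ n + M - l - R + (R - k)) j := by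
      refine congrFun (XX_congr ?_) j
      filter_upwards [hτ l] with n hn
      simp only [τ]
      omega
    rw [h4]
  have hune : ∀ l, (fun j => u j l) ≠ 0 := by
    intro l
    refine XX_neF hne ?_
    filter_upwards [hτ l] with n hn
    simp only [τ]
    omega
  -- consecutive vectors
  have hstep : ∀ l, 1 ≤ l → (∀ i, eval (fun j => u j l) (MvPolynomial.map (mk K U) (Q i)) = 0 ∧
      eval (fun j => u j (l + M)) (MvPolynomial.map (mk K U) (Q i)) = 0) ∨
      Par (fun j => u j l) (fun j => u j (l + M)) := by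
    intro l hl
    have h0 : ∀ᶠ n in (U : Filter ℕ),
        (∀ i, eval (x n (τ l n)) (G n i) = 0 ∧ eval (x n (τ (l + M) n)) (G n i) = 0) ∨
        Par (x n (τ l n)) (x n (τ (l + M) n)) := by
      filter_upwards [hκ, hfar l] with n h2 h3
      have h4 := h2.2 (κ n - l) (by omega) (by omega)
      have h5 : κ n - l + M = τ l n := by
        simp only [τ]
        omega
      have h6 : κ n - l = τ (l + M) n := by
        simp only [τ]
        omega
      unfold Good at h4
      rw [h5, h6] at h4
      rcases h4 with h4 | h4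
      · exact Or.inl fun i => ⟨(h4 i).2, (h4 i).1⟩
      · exact Or.inr h4
    rcases Ultrafilter.eventually_or.1 h0 with h1 | h1
    · left
      intro i
      refine ⟨(XX_eval fun n => hQ i n).2 ?_, (XX_eval fun n => hQ i n).2 ?_⟩
      · filter_upwards [h1] with n hn
        exact (hn i).1
      · filter_upwards [h1] with n hn
        exact (hn i).2
    · right
      exact XX_par.2 h1
  have hhom : ∀ i, (MvPolynomial.map (mk K U) (Q i)).IsHomogeneous (e' i) := fun i =>
    (hQhom i).map _
  by_cases hz : ∀ i, eval (fun j => u j M) (MvPolynomial.map (mk K U) (Q i)) = 0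
  · -- the vectors are in the closed set
    have hall : ∀ l, 1 ≤ l → ∀ i, eval (fun j => u j (l * M))
        (MvPolynomial.map (mk K U) (Q i)) = 0 := by
      intro l hl
      induction l, hl using Nat.le_induction with
      | base =>
        rw [one_mul]
        exact hz
      | succ l hl ih =>
        intro i
        have h2 : (l + 1) * M = l * M + M := by ring
        rw [h2]
        rcases Nat.eq_zero_or_pos M with hM0 | hMpos
        · rw [hM0, mul_zero, add_zero]
          rw [hM0] at hz
          exact hz i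
        rcases hstep (l * M) (by nlinarith) with h1 | h1
        · exact (h1 i).2
        · exact h1.eval_zero (hune _) (hhom i) (ih i)
    have hzero : ∀ i, eval (fun j => u j 0) (MvPolynomial.map (mk K U) (Q i)) = 0 := fun i =>
      rigid_form hRpos hβ hβ0 hβR hu M (hhom i) fun l hl => hall l hl i
    have e1 : ∀ᶠ n in (U : Filter ℕ), ∀ i, eval (x n (τ M n)) (G n i) = 0 :=
      eventually_all.2 fun i => (XX_eval fun n => hQ i n).1 (hz i)
    have e2 : ∀ᶠ n in (U : Filter ℕ), ∀ i, eval (x n (τ 0 n)) (G n i) = 0 :=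
      eventually_all.2 fun i => (XX_eval fun n => hQ i n).1 (hzero i)
    obtain ⟨n, h1, h2, h3⟩ := (e1.and (e2.and hκ)).exists
    apply h3.1.2.2
    simp only [τ, Nat.sub_zero, Nat.add_sub_cancel] at h1 h2
    exact Or.inl fun i => ⟨h1 i, h2 i⟩
  · -- the vectors are proportional
    obtain ⟨i1, hi1⟩ := not_forall.1 hz
    have hall : ∀ l, 1 ≤ l → Par (fun j => u j (l * M)) (fun j => u j M) := by
      intro l hl
      induction l, hl using Nat.le_induction with
      | base =>
        rw [one_mul]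
        exact Par.refl _
      | succ l hl ih =>
        have h2 : (l + 1) * M = l * M + M := by ring
        rcases Nat.eq_zero_or_pos M with hM0 | hMpos
        · rw [hM0, mul_zero]
          exact Par.refl _
        rw [h2]
        rcases hstep (l * M) (by nlinarith) with h1 | h1
        · exact absurd (ih.eval_zero (hune _) (hhom i1) (h1 i1).1) hi1
        · exact (h1.symm).trans (hune _) ih
    obtain ⟨j0, hj0⟩ := Function.ne_iff.1 (hune M)
    rw [Pi.zero_apply] at hj0
    have hzero : ∀ a, u j0 M * u a 0 = u a M * u j0 0 := by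
      intro a
      have h1 := rigid_seq hRpos hβ hβ0 hβR hu M
        (fun j => algebraMap (UK K U) (ℕ → UK K U)
          ((if j = a then u j0 M else 0) - if j = j0 then u a M else 0))
        (fun j => (polyB (UK K U)).algebraMap_mem _) (fun l hl => by
          have h2 : ∀ j, (algebraMap (UK K U) (ℕ → UK K U)
              ((if j = a then u j0 M else 0) - if j = j0 then u a M else 0)) l * u j (l * M) =
              (if j = a then u j0 M * u j (l * M) else 0) -
                if j = j0 then u a M * u j (l * M) else 0 := by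
            intro j
            change ((if j = a then u j0 M else 0) - if j = j0 then u a M else 0) * _ = _
            split_ifs <;> ring
          rw [Finset.sum_congr rfl fun j _ => h2 j, Finset.sum_sub_distrib, Finset.sum_ite_eq',
            Finset.sum_ite_eq', if_pos (Finset.mem_univ _), if_pos (Finset.mem_univ _)]
          have h3 := hall l hl a j0
          simp only at h3
          linear_combination h3)
      have h2 : ∀ j, (algebraMap (UK K U) (ℕ → UK K U)
          ((if j = a then u j0 M else 0) - if j = j0 then u a M else 0)) 0 * u j 0 =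
          (if j = a then u j0 M * u j 0 else 0) - if j = j0 then u a M * u j 0 else 0 := by
        intro j
        change ((if j = a then u j0 M else 0) - if j = j0 then u a M else 0) * _ = _
        split_ifs <;> ring
      rw [Finset.sum_congr rfl fun j _ => h2 j, Finset.sum_sub_distrib, Finset.sum_ite_eq',
        Finset.sum_ite_eq', if_pos (Finset.mem_univ _), if_pos (Finset.mem_univ _)] at h1
      linear_combination h1
    have hpar0 : Par (XX U x (τ 0)) (XX U x (τ M)) := by
      intro i j
      change u i 0 * u j M = u j 0 * u i M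
      apply mul_left_cancel₀ hj0
      have e1 := hzero i
      have e2 := hzero j
      linear_combination u j M * e1 - u i M * e2
    rw [XX_par] at hpar0
    obtain ⟨n, h1, h2⟩ := (hpar0.and hκ).exists
    apply h2.1.2.2
    simp only [τ, Nat.sub_zero, Nat.add_sub_cancel] at h1
    exact Or.inr h1


theorem GoodZ.chainF {L : Type} [Field L] {Z : ℕ → Prop} {x : ℕ → Fin (N + 1) → L} {l : ℕ}
    (hne : ∀ m, m < l → x m ≠ 0)
    (hZ : ∀ t t', t < l → t' < l → Par (x t) (x t') → Z t → Z t') {M t : ℕ} (k : ℕ)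
    (hl : t + M * k < l) (h : ∀ i < k, GoodZ Z x M (t + M * i)) : GoodZ Z x (M * k) t := by
  induction k with
  | zero =>
    right
    rw [mul_zero, add_zero]
    exact Par.refl _
  | succ k ih =>
    have h3 : t + M * (k + 1) = t + M * k + M := by ring
    rw [h3] at hl
    have h1 := ih (by omega) fun i hi => h i (by omega)
    have h2 := h k (by omega)
    unfold GoodZ at h1 h2 ⊢
    rw [h3]
    have hM : 0 ≤ M * k := Nat.zero_le _
    rcases h1 with h1 | h1
    · rcases h2 with h2 | h2
      · exact Or.inl ⟨h1.1, h2.2⟩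
      · exact Or.inl ⟨h1.1, hZ _ _ (by omega) (by omega) h2.symm h1.2⟩
    · rcases h2 with h2 | h2
      · exact Or.inl ⟨hZ _ _ (by omega) (by omega) h1 h2.1, h2.2⟩
      · exact Or.inr (Par.trans (hne _ (by omega)) h2 h1)

/-- The finite sequence `f 0, ..., f (L - 1)` satisfies a linear recurrence of order `R` whose
coefficients are polynomials in the index of degree at most `d`, and the first and the last
coefficient do not vanish at the indices less than `L`. -/
def RegRec {K : Type} [Field K] (R d L : ℕ) (f : ℕ → K) : Prop :=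
  ∃ a : ℕ → Polynomial K, (∀ k, (a k).natDegree ≤ d) ∧
    (∀ m : ℕ, m + R < L → ∑ k ∈ Finset.range (R + 1), (a k).eval (m : K) * f (m + k) = 0) ∧
    ∀ m : ℕ, m < L → (a 0).eval (m : K) ≠ 0 ∧ (a R).eval (m : K) ≠ 0

/-- **The contradiction**, for finite sequences. -/
theorem contraF [∀ n, CharZero (K n)] {R d : ℕ} (hRpos : 0 < R) {U : Ultrafilter ℕ}
    (hU : (U : Filter ℕ) ≤ atTop) (x : ∀ n, ℕ → Fin (N + 1) → K n) (L : ℕ → ℕ)
    (hne : ∀ n m, m < L n → x n m ≠ 0) (hrec : ∀ n j, RegRec R d (L n) fun m => x n m j)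
    (Z : ℕ → ℕ → Prop)
    (hZ : ∀ n t t', t < L n → t' < L n → Par (x n t) (x n t') → Z n t → Z n t')
    (T : ℕ → ℕ) (hT1 : ∀ n, n ≤ T n) (hT2 : ∀ n, T n + n.factorial + n ≤ L n)
    (hT3 : ∀ n, ¬ GoodZ (Z n) (x n) n.factorial (T n))
    (hwin : (∀ j, PRecO R fun i => XX U x (fun _ => i) j) → (∀ i : ℕ, XX U x (fun _ => i) ≠ 0) →
      (∀ i : ℕ, ∀ᶠ n in (U : Filter ℕ), i < L n) →
      ∃ (s' : ℕ) (e' : Fin s' → ℕ) (G : ∀ n, Fin s' → MvPolynomial (Fin (N + 1)) (K n))
        (M i0 : ℕ), 0 < M ∧ (∀ n i, (G n i).IsHomogeneous (e' i)) ∧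
        (∀ i, i0 ≤ i → ∀ᶠ n in (U : Filter ℕ), Good (G n) (x n) M i) ∧
        ∀ᶠ n in (U : Filter ℕ), ∀ t, t < L n → (∀ i, eval (x n t) (G n i) = 0) → Z n t) :
    False := by
  classical
  choose g hg1 hg2 hg3 using hrec
  have hbigL : ∀ i : ℕ, ∀ᶠ n in (U : Filter ℕ), i < L n := by
    intro i
    filter_upwards [hU (eventually_ge_atTop (i + 1))] with n hn
    have h1 := hT1 n
    have h2 := hT2 n
    omega
  choose Ag hAg using fun (j : Fin (N + 1)) (k : ℕ) => exists_lift d (fun n => g n j k)
    fun n => hg1 n j k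
  have hrecU : ∀ j, PRecO R fun i => XX U x (fun _ => i) j := by
    intro j
    refine ⟨fun k => (Ag j k).map (mk K U), ⟨0, Nat.zero_le _, fun h0 => ?_⟩, fun i => ?_⟩
    · have h1 : ((Ag j 0).map (mk K U)).eval (TT K U fun _ => 0) ≠ 0 := by
        unfold TT
        rw [eval_mk, mk_ne]
        filter_upwards [hbigL 0] with n hn
        rw [hAg]
        exact (hg3 n j 0 hn).1
      apply h1
      have h0' : (Ag j 0).map (mk K U) = 0 := h0
      rw [h0', Polynomial.eval_zero]
    · have h1 := XX_recF (U := U) (x := x) (L := L) (R := R) (j := j) (A := Ag j)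
        (fun n m hm => by
          simp only [hAg]
          exact hg2 n j m hm) (t := fun _ => i) (hbigL (i + R))
      rw [← h1]
      refine Finset.sum_congr rfl fun k _ => ?_
      have h3 : TT K U (fun _ => i) = (i : UK K U) := by
        unfold TT
        rw [← map_natCast (mk K U)]
        rfl
      rw [h3]
  obtain ⟨s', e', G, M, i0, hM, hGh, hG, hGZ⟩ := hwin hrecU (fun i => XX_neF hne (hbigL i)) hbigL
  have hall := all_goodF (U := U) (R := R) (d := d) hRpos x L hne g hg1 (fun n j m hm => hg2 n j m hm)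
    (fun n m hm j => (hg3 n j m hm).1) (fun n m hm j => (hg3 n j m hm).2) G hGh M i0 hG
  obtain ⟨n, h1, h2, h3⟩ := (hall.and (hGZ.and (hU (eventually_ge_atTop (i0 + M + 1))))).exists
  apply hT3 n
  obtain ⟨k, hk⟩ : M ∣ n.factorial := Nat.dvd_factorial hM (by omega)
  have h5 := hT1 n
  have h6 := hT2 n
  rw [hk] at h6 ⊢
  refine GoodZ.chainF (hne n) (hZ n) k (by omega) fun i hi => ?_
  have h4 : M * i + M ≤ M * k := by
    have : M * (i + 1) ≤ M * k := Nat.mul_le_mul_left M (by omega)
    calc M * i + M = M * (i + 1) := by ring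
      _ ≤ _ := this
  rcases h1 (T n + M * i) (by omega) (by omega) with h7 | h7
  · exact Or.inl ⟨h2 _ (by omega) fun i => (h7 i).1, h2 _ (by omega) fun i => (h7 i).2⟩
  · exact Or.inr h7

/-- the property of the finite sequences over `K` -/
def FinPair (K : Type) [Field K] (N s s' R d : ℕ) (e : Fin s → ℕ) (e' : Fin s' → ℕ)
    (M C : ℕ) : Prop :=
  ∀ (F : Fin s → MvPolynomial (Fin (N + 1)) K) (G : Fin s' → MvPolynomial (Fin (N + 1)) K),
    (∀ i, (F i).IsHomogeneous (e i)) → (∀ i, (G i).IsHomogeneous (e' i)) →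
    PairOn (Set.range F) (Set.range G) → ∀ (L : ℕ) (x : ℕ → Fin (N + 1) → K),
    (∀ m, m < L → x m ≠ 0) → (∀ m, m < L → ∀ i, eval (x m) (F i) = 0) →
    (∀ j, RegRec R d L fun m => x m j) → ∀ t, C ≤ t → t + M + C ≤ L →
    GoodZ (fun t => ∀ i, eval (x t) (G i) = 0) x M t

theorem RegRec.pos {K : Type} [Field K] {R d L : ℕ} {x : ℕ → Fin (N + 1) → K}
    (hL : 0 < L) (hne : x 0 ≠ 0) (h : ∀ j, RegRec R d L fun m => x m j) : 0 < R := by
  by_contra hR
  have hR0 : R = 0 := by omega
  subst hR0
  apply hne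
  funext j
  obtain ⟨a, -, h1, h2⟩ := h j
  have h3 := h1 0 (by omega)
  simp only [Finset.sum_range_succ, Finset.sum_range_zero, zero_add] at h3
  exact (mul_eq_zero.1 h3).resolve_left (h2 0 hL).1

theorem coreFin (N s s' R d : ℕ) (e : Fin s → ℕ) (e' : Fin s' → ℕ) :
    ∃ M C : ℕ, 0 < M ∧ ∀ (K : Type) [Field K] [CharZero K] [IsAlgClosed K], #K ≤ 𝔠 →
      FinPair K N s s' R d e e' M C := by
  classical
  by_contra hcon
  push Not at hcon
  choose K i1 i2 i3 hK hbad using fun n : ℕ => hcon n.factorial n n.factorial_pos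
  unfold FinPair at hbad
  push Not at hbad
  choose F G hF hG hno L x hne hX hrec T hT1 hT2 hT3 using hbad
  let U : Ultrafilter ℕ := hyperfilter ℕ
  have hU : (U : Filter ℕ) ≤ atTop := Nat.hyperfilter_le_atTop
  have hL0 : 0 < L 0 := by
    have := hT2 0
    have h2 := Nat.factorial_pos 0
    omega
  refine contraF (K := K) (RegRec.pos hL0 (hne 0 0 hL0) (hrec 0)) (U := U) hU x L hne hrec
    (fun n t => ∀ i, eval (x n t) (G n i) = 0)
    (fun n t t' ht ht' h1 h2 i => h1.eval_zero (hne n _ ht) (hG n i) (h2 i)) T hT1 hT2 hT3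
    fun hrecU hneU hbigL => ?_
  choose Q hQhom hQ using fun i => exists_liftM (e i) (fun n => F n i) fun n => hF n i
  choose Q' hQ'hom hQ' using fun i => exists_liftM (e' i) (fun n => G n i) fun n => hG n i
  have hpair : PairOn (Set.range fun i => MvPolynomial.map (mk K U) (Q i))
      (Set.range fun i => MvPolynomial.map (mk K U) (Q' i)) := by
    refine pair_ultra fun n => ?_
    have h1 : (fun i => MvPolynomial.map (ev K n) (Q i)) = F n := funext fun i => hQ i n
    have h2 : (fun i => MvPolynomial.map (ev K n) (Q' i)) = G n := funext fun i => hQ' i n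
    rw [h1, h2]
    exact hno n
  obtain ⟨M, i0, hM, hgood⟩ := window2 (card_le hK) (FF := Set.range fun i =>
    MvPolynomial.map (mk K U) (Q i)) (by
      rintro _ ⟨i, rfl⟩
      exact ⟨e i, (hQhom i).map _⟩) (G := fun i => MvPolynomial.map (mk K U) (Q' i))
      (fun i => ⟨e' i, (hQ'hom i).map _⟩) hpair (q := R)
      (y := fun i => XX U x fun _ => i) hneU hrecU (by
      rintro m _ ⟨i, rfl⟩
      refine (XX_eval fun n => hQ i n).2 ?_
      filter_upwards [hbigL m] with n hn
      exact hX n m hn i)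
  refine ⟨s', e', G, M, i0, hM, hG, fun i hi => ?_, Eventually.of_forall fun n t _ ht => ht⟩
  rcases hgood i hi with h | h
  · have h1 : ∀ᶠ n in (U : Filter ℕ), ∀ l, eval (x n i) (G n l) = 0 ∧
        eval (x n (i + M)) (G n l) = 0 := by
      refine eventually_all.2 fun l => ?_
      exact ((XX_eval fun n => hQ' l n).1 (h l).1).and ((XX_eval fun n => hQ' l n).1 (h l).2)
    filter_upwards [h1] with n hn
    exact Or.inl fun l => hn l
  · filter_upwards [XX_par.1 h] with n hn
    exact Or.inr hn

end Pool.Agent.Q183.UH
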