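import Pool.Agent.Q183.UH.Step

/-!
Normal form of recurrences of bounded order and degree, and intervals without singular indices.
-/

set_option autoImplicit false

namespace Pool.Agent.Q183.UH

open Filter

variable {K : Type} [Field K]

/-- The sequence `f` satisfies a nontrivial linear recurrence of order at most `r` whose
coefficients are polynomials in the index of degree at most `d`. -/
def PRecOD (r d : ℕ) (f : ℕ → K) : Prop :=
  ∃ a : ℕ → Polynomial K, (∃ k ≤ r, a k ≠ 0) ∧ (∀ k, (a k).natDegree ≤ d) ∧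
    ∀ m : ℕ, ∑ k ∈ Finset.range (r + 1), (a k).eval (m : K) * f (m + k) = 0

/-- recurrences of exact order `R`, from the index `b` on -/
def NormRec (R b d : ℕ) (f : ℕ → K) : Prop :=
  ∃ g : ℕ → Polynomial K, (∀ k, (g k).natDegree ≤ d) ∧ g 0 ≠ 0 ∧ g R ≠ 0 ∧
    (∀ k, R < k → g k = 0) ∧
    ∀ m : ℕ, b ≤ m → ∑ k ∈ Finset.range (R + 1), (g k).eval (m : K) * f (m + k) = 0

theorem comp_ne {p : Polynomial K} (hp : p ≠ 0) (c : K) :
    p.comp (Polynomial.X + Polynomial.C c) ≠ 0 := by
  intro h
  apply hp
  apply Polynomial.taylor_injective c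
  rw [Polynomial.taylor_apply, map_zero]
  exact h

theorem natDegree_comp' (p : Polynomial K) (c : K) :
    (p.comp (Polynomial.X + Polynomial.C c)).natDegree = p.natDegree := by
  rw [Polynomial.natDegree_comp, Polynomial.natDegree_X_add_C, mul_one]

theorem NormRec.up {R b d : ℕ} {f : ℕ → K} (h : NormRec R b d f) : NormRec (R + 1) b d f := by
  obtain ⟨g, hg1, hg2, hg3, hg4, hg5⟩ := h
  refine ⟨fun k => (if k = 0 then 0 else (g (k - 1)).comp (Polynomial.X + Polynomial.C 1)) - g k,
    ?_, ?_, ?_, ?_, ?_⟩
  · intro k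
    refine (Polynomial.natDegree_sub_le _ _).trans (max_le ?_ (hg1 k))
    split_ifs
    · simp
    · rw [natDegree_comp']
      exact hg1 _
  · simp [hg2]
  · simp only [Nat.add_eq_zero_iff, one_ne_zero, and_false, if_false, Nat.add_sub_cancel]
    rw [hg4 (R + 1) (by omega), sub_zero]
    exact comp_ne hg3 1
  · intro k hk
    simp only
    rw [if_neg (by omega), hg4 k (by omega), hg4 (k - 1) (by omega), Polynomial.zero_comp, sub_zero]
  · intro m hm
    have h1 := hg5 m hm
    have h2 := hg5 (m + 1) (by omega)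
    have h3 : ∑ k ∈ Finset.range (R + 1 + 1), (g k).eval (m : K) * f (m + k) = 0 := by
      rw [Finset.sum_range_succ, h1, hg4 (R + 1) (by omega), Polynomial.eval_zero, zero_mul,
        add_zero]
    have h4 : ∑ k ∈ Finset.range (R + 1 + 1), (if k = 0 then (0 : Polynomial K) else
        (g (k - 1)).comp (Polynomial.X + Polynomial.C 1)).eval (m : K) * f (m + k) = 0 := by
      rw [Finset.sum_range_succ']
      simp only [if_true, Polynomial.eval_zero, zero_mul, add_zero, Nat.add_eq_zero_iff,
        one_ne_zero, and_false, if_false, Nat.add_sub_cancel]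
      rw [← h2]
      refine Finset.sum_congr rfl fun k _ => ?_
      rw [Polynomial.eval_comp, Polynomial.eval_add, Polynomial.eval_X, Polynomial.eval_C]
      have h5 : m + (k + 1) = m + 1 + k := by ring
      rw [h5]
      push_cast
      rfl
    have h5 : ∀ k, ((if k = 0 then (0 : Polynomial K) else
        (g (k - 1)).comp (Polynomial.X + Polynomial.C 1)) - g k).eval (m : K) * f (m + k) =
        (if k = 0 then (0 : Polynomial K) else
        (g (k - 1)).comp (Polynomial.X + Polynomial.C 1)).eval (m : K) * f (m + k) -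
        (g k).eval (m : K) * f (m + k) := fun k => by rw [Polynomial.eval_sub, sub_mul]
    rw [Finset.sum_congr rfl fun k _ => h5 k, Finset.sum_sub_distrib, h3, h4, sub_zero]

theorem NormRec.up' {R b d : ℕ} {f : ℕ → K} (h : NormRec R b d f) (i : ℕ) :
    NormRec (R + i) b d f := by
  induction i with
  | zero => exact h
  | succ i ih => exact ih.up

theorem PRecOD.norm {r d : ℕ} {f : ℕ → K} (h : PRecOD r d f) : NormRec (r + 1) r d f := by
  classical
  obtain ⟨a, ⟨k0, hk0, hne⟩, hdeg, h⟩ := h
  let T := (Finset.range (r + 1)).filter fun k => a k ≠ 0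
  have hT : T.Nonempty := ⟨k0, Finset.mem_filter.2 ⟨Finset.mem_range.2 (by omega), hne⟩⟩
  set t := T.max' hT with ht
  set b := T.min' hT with hb
  have htT := Finset.mem_filter.1 (T.max'_mem hT)
  have hbT := Finset.mem_filter.1 (T.min'_mem hT)
  rw [← ht] at htT
  rw [← hb] at hbT
  have hbt : b ≤ t := T.min'_le _ (T.max'_mem hT)
  have htr : t ≤ r := by
    have := Finset.mem_range.1 htT.1
    omega
  have hout : ∀ k, k ≤ r → ¬ (b ≤ k ∧ k ≤ t) → a k = 0 := by
    intro k hk hkt
    by_contra hne
    apply hkt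
    have h1 : k ∈ T := Finset.mem_filter.2 ⟨Finset.mem_range.2 (by omega), hne⟩
    exact ⟨T.min'_le _ h1, T.le_max' _ h1⟩
  have h1 : NormRec (t - b) b d f := by
    refine ⟨fun k => if k ≤ t - b then (a (k + b)).comp (Polynomial.X + Polynomial.C (-(b : K)))
      else 0, ?_, ?_, ?_, ?_, ?_⟩
    · intro k
      simp only
      split_ifs
      · rw [natDegree_comp']
        exact hdeg _
      · simp
    · simp only [Nat.zero_le, if_true, zero_add]
      exact comp_ne hbT.2 _
    · simp only [le_refl, if_true]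
      rw [Nat.sub_add_cancel hbt]
      exact comp_ne htT.2 _
    · intro k hk
      simp only
      rw [if_neg (by omega)]
    · intro m hm
      obtain ⟨m', rfl⟩ : ∃ m', m = m' + b := ⟨m - b, by omega⟩
      have h2 : ∀ k ∈ Finset.range (t - b + 1), (if k ≤ t - b then (a (k + b)).comp
          (Polynomial.X + Polynomial.C (-(b : K))) else 0).eval ((m' + b : ℕ) : K) *
          f (m' + b + k) = (a (b + k)).eval (m' : K) * f (m' + (b + k)) := by
        intro k hk
        rw [if_pos (by have := Finset.mem_range.1 hk; omega), Polynomial.eval_comp,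
          Polynomial.eval_add, Polynomial.eval_X, Polynomial.eval_C, add_assoc m' b k, add_comm k b]
        congr 2
        push_cast
        ring
      rw [Finset.sum_congr rfl h2]
      have h3 := Finset.sum_Ico_eq_sum_range (fun k => (a k).eval (m' : K) * f (m' + k)) b (t + 1)
      have h4 : t + 1 - b = t - b + 1 := by omega
      rw [h4] at h3
      rw [← h3, ← h m']
      refine Finset.sum_subset ?_ ?_
      · intro k hk
        rw [Finset.mem_Ico] at hk
        exact Finset.mem_range.2 (by omega)
      · intro k hk hk'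
        rw [hout k (by have := Finset.mem_range.1 hk; omega) (fun h5 => hk' (Finset.mem_Ico.2
          ⟨h5.1, by omega⟩)), Polynomial.eval_zero, zero_mul]
  have h2 := h1.up' (r + 1 - (t - b))
  have h3 : t - b + (r + 1 - (t - b)) = r + 1 := by omega
  rw [h3] at h2
  obtain ⟨g, g1, g2, g3, g4, g5⟩ := h2
  exact ⟨g, g1, g2, g3, g4, fun m hm => g5 m (by omega)⟩

/-- the zeros of a polynomial at the natural numbers -/
theorem exists_zeros [CharZero K] {P : Polynomial K} (hP : P ≠ 0) :
    ∃ S : Finset ℕ, S.card ≤ P.natDegree ∧ ∀ m : ℕ, P.eval (m : K) = 0 → m ∈ S := by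
  classical
  let S := P.roots.toFinset.preimage (fun m : ℕ => (m : K)) Nat.cast_injective.injOn
  refine ⟨S, ?_, fun m hm => ?_⟩
  · have h1 : (S.image fun m : ℕ => (m : K)) ⊆ P.roots.toFinset := by
      intro z hz
      obtain ⟨m, hm, rfl⟩ := Finset.mem_image.1 hz
      exact Finset.mem_preimage.1 hm
    rw [← Finset.card_image_of_injective S (Nat.cast_injective (R := K))]
    exact (Finset.card_le_card h1).trans ((Multiset.toFinset_card_le _).trans
      (Polynomial.card_roots' P))
  · rw [Finset.mem_preimage, Multiset.mem_toFinset, Polynomial.mem_roots hP]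
    exact hm

/-- an interval without singular indices and with many values -/
theorem exists_interval {P : Type} (x : ℕ → P) (S : Finset ℕ) (n : ℕ)
    (h : ((S.card + (S.card + 1) * n : ℕ) : ℕ∞) < (Set.range x).encard) :
    ∃ μ L : ℕ, (∀ m, μ ≤ m → m < μ + L → m ∉ S) ∧
      (n : ℕ∞) < (x '' (Set.Ico μ (μ + L))).encard := by
  classical
  let c : ℕ → ℕ := fun m => (S.filter (· < m)).card
  have hc : ∀ m, c m ≤ S.card := fun m => Finset.card_le_card (Finset.filter_subset _ _)
  let T : ℕ → Set ℕ := fun i => {m | m ∉ S ∧ c m = i}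
  have hcov : Set.range x ⊆ x '' (S : Set ℕ) ∪ ⋃ i ∈ Finset.range (S.card + 1), x '' T i := by
    rintro _ ⟨m, rfl⟩
    by_cases hm : m ∈ S
    · exact Or.inl ⟨m, hm, rfl⟩
    · refine Or.inr (Set.mem_iUnion₂.2 ⟨c m, Finset.mem_range.2 (Nat.lt_succ_of_le (hc m)),
        m, ⟨hm, rfl⟩, rfl⟩)
  obtain ⟨i, hi⟩ : ∃ i, (n : ℕ∞) < (x '' T i).encard := by
    by_contra hcon
    push Not at hcon
    have h1 : (Set.range x).encard ≤ ((S.card + (S.card + 1) * n : ℕ) : ℕ∞) := by
      refine (Set.encard_le_encard hcov).trans ((Set.encard_union_le _ _).trans ?_)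
      push_cast
      refine add_le_add ?_ ?_
      · refine (Set.encard_image_le _ _).trans ?_
        rw [Set.encard_coe_eq_coe_finsetCard]
      · have h2 : ∀ (F : Finset ℕ), (⋃ i ∈ F, x '' T i).encard ≤ (F.card : ℕ∞) * n := by
          intro F
          induction F using Finset.induction_on with
          | empty => simp
          | insert a F ha ih =>
            rw [Finset.set_biUnion_insert, Finset.card_insert_of_notMem ha]
            refine (Set.encard_union_le _ _).trans ?_
            push_cast
            rw [add_mul, one_mul, add_comm]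
            exact add_le_add ih (hcon a)
        have h3 := h2 (Finset.range (S.card + 1))
        rw [Finset.card_range] at h3
        push_cast at h3
        exact h3
    exact absurd h (not_lt.2 h1)
  obtain ⟨V, hV1, hV2⟩ := Set.exists_subset_encard_eq (Order.add_one_le_of_lt hi)
  have hVfin : V.Finite := Set.finite_of_encard_eq_coe (k := n + 1) (by rw [hV2]; push_cast; rfl)
  choose! w hw using fun v (hv : v ∈ V) => hV1 hv
  have hWfin : (w '' V).Finite := hVfin.image _
  have hVne : V.Nonempty := by
    rw [← Set.encard_ne_zero, hV2]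
    exact (by simp : (n : ℕ∞) + 1 ≠ 0)
  let W := hWfin.toFinset
  have hWne : W.Nonempty := by
    obtain ⟨v, hv⟩ := hVne
    exact ⟨w v, hWfin.mem_toFinset.2 ⟨v, hv, rfl⟩⟩
  have hWT : ∀ m ∈ W, m ∈ T i := by
    intro m hm
    obtain ⟨v, hv, rfl⟩ := hWfin.mem_toFinset.1 hm
    exact (hw v hv).1
  have hμ := hWT _ (W.min'_mem hWne)
  have hν := hWT _ (W.max'_mem hWne)
  set μ := W.min' hWne with hμd
  set ν := W.max' hWne with hνd
  have hμν : μ ≤ ν := W.min'_le _ (W.max'_mem hWne)
  refine ⟨μ, ν + 1 - μ, fun m hm1 hm2 hmS => ?_, ?_⟩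
  · have h1 : μ < m := lt_of_le_of_ne hm1 (fun h2 => hμ.1 (h2 ▸ hmS))
    have h2 : m < ν := lt_of_le_of_ne (by omega) (fun h3 => hν.1 (h3 ▸ hmS))
    have h3 : c μ < c ν := by
      apply Finset.card_lt_card
      rw [Finset.ssubset_iff_of_subset]
      · exact ⟨m, Finset.mem_filter.2 ⟨hmS, h2⟩, fun h4 =>
          absurd (Finset.mem_filter.1 h4).2 (not_lt.2 hm1)⟩
      · intro k hk
        rw [Finset.mem_filter] at hk ⊢
        exact ⟨hk.1, hk.2.trans_le hμν⟩
    rw [hμ.2, hν.2] at h3
    exact lt_irrefl _ h3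
  · have h1 : V ⊆ x '' (Set.Ico μ (μ + (ν + 1 - μ))) := by
      intro v hv
      refine ⟨w v, ?_, (hw v hv).2⟩
      have h2 : w v ∈ W := hWfin.mem_toFinset.2 ⟨v, hv, rfl⟩
      have h3 := W.min'_le _ h2
      have h4 := W.le_max' _ h2
      rw [← hμd] at h3
      rw [← hνd] at h4
      exact ⟨h3, by omega⟩
    refine lt_of_lt_of_le ?_ (Set.encard_le_encard h1)
    rw [hV2]
    exact_mod_cast Nat.lt_succ_self n

end Pool.Agent.Q183.UH
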