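import Pool.Agent.Q183.UH.AP
import Pool.Agent.Q183.UH.Norm
import Pool.Agent.Q183.RS.Par

/-!
The structure of P-recursive sequences of points: along every residue class either the points lie
in a given closed set, or they are parametrised by polynomials.
-/

set_option autoImplicit false

namespace Pool.Agent.Q183.UH

open Filter Pool.Agent.TH143.HE Pool.Agent.TH143.DE Pool.Agent.Q183.RS MvPolynomial

variable {N : ℕ}

/-- **Parametrisation by polynomials**, with a given linear form. -/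
theorem par' {x : ℕ → Fin (N + 1) → ℂ} (hlin : ∀ j, LinRec RB fun m => x m j)
    (c : Fin (N + 1) → ℂ) (hℓx : ∀ m, lf c (x m) ≠ 0) (halg : ∀ j,
      ∃ P : Polynomial (Polynomial ℂ), P ≠ 0 ∧
        ∀ᶠ m in atTop, evs (fun m => x m j / lf c (x m)) P m = 0) :
    ∃ (K : ℕ) (ρ : ℕ → Fin (N + 1) → Polynomial ℂ), 0 < K ∧
      ∀ᶠ m : ℕ in atTop, ∃ b : ℂ, b ≠ 0 ∧ ∀ j, (ρ (m % K) j).eval (m : ℂ) = b * x m j := by
  classical
  have hrat : ∀ j, ∃ (p : Polynomial ℂ) (k : ℕ) (q : ℕ → Polynomial ℂ), p ≠ 0 ∧ 0 < k ∧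
      ∀ᶠ m : ℕ in atTop, p.eval (m : ℂ) * (x m j / lf c (x m)) =
        (q (m % k)).eval (m : ℂ) := by
    intro j
    obtain ⟨P, hP, hP0⟩ := halg j
    have hfg : ∀ i, FGS fun m => x m i := fun i => exists_fg (hlin i)
    have hg : FGS fun m => lf c (x m) := by
      have h1 : (fun m => lf c (x m)) = fun m => ∑ i : Fin (N + 1), c i * x m i := rfl
      rw [h1]
      exact FGS.sum _ fun i _ => (hfg i).const_mul _
    exact quasi_rational_quot (hfg j) hg (Eventually.of_forall hℓx) hP hP0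
  choose p k q hp hk hq using hrat
  set K := ∏ j, k j with hK
  have hKpos : 0 < K := Finset.prod_pos fun j _ => hk j
  let P : Polynomial ℂ := ∏ j, p j
  have hP : P ≠ 0 := Finset.prod_ne_zero_iff.2 fun j _ => hp j
  let ρ : ℕ → Fin (N + 1) → Polynomial ℂ := fun a j =>
    (∏ i ∈ Finset.univ.erase j, p i) * q j (a % k j)
  refine ⟨K, ρ, hKpos, ?_⟩
  filter_upwards [ev_ne Nat.cast_injective hP, eventually_all.2 hq] with m h0 hm
  have h3 := hℓx m
  refine ⟨P.eval (m : ℂ) / lf c (x m), div_ne_zero h0 h3, fun j => ?_⟩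
  have h1 : P.eval (m : ℂ) = (∏ i ∈ Finset.univ.erase j, p i).eval (m : ℂ) *
      (p j).eval (m : ℂ) := by
    rw [← Polynomial.eval_mul, mul_comm, Finset.mul_prod_erase _ _ (Finset.mem_univ j)]
  simp only [ρ]
  rw [Polynomial.eval_mul, Nat.mod_mod_of_dvd _ (Finset.dvd_prod_of_mem k (Finset.mem_univ j)),
    ← hm j, h1]
  ring

/-- backward shift of the coefficients -/
theorem rb_unshift {b : ℕ → ℂ} (hb : b ∈ RB) (t : ℕ) :
    ∃ b' : ℕ → ℂ, b' ∈ RB ∧ ∀ m, b' (m + t) = b m := by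
  obtain ⟨P, R, hR, h⟩ := hb
  refine ⟨fun m => b (m - t), ⟨P.comp (Polynomial.X - Polynomial.C (t : ℂ)),
    R.comp (Polynomial.X - Polynomial.C (t : ℂ)), ?_, ?_⟩, fun m => by simp⟩
  · have h1 := comp_ne hR (-(t : ℂ))
    rwa [map_neg, ← sub_eq_add_neg] at h1
  · refine eventually_unshift (t := t) ?_
    filter_upwards [h] with m hm
    rw [Nat.add_sub_cancel, hm, Polynomial.eval_comp, Polynomial.eval_comp]
    simp

theorem AlgOn.unshift {A : Set ℕ} {t : ℕ} {f : ℕ → ℂ}
    (h : AlgOn RB {m | m + t ∈ A} (fun m => f (m + t))) : AlgOn RB A f := by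
  obtain ⟨d, b, hb, ⟨k0, hk0, hne⟩, h⟩ := h
  choose b' hb' hbb using fun k => rb_unshift (hb k) t
  refine ⟨d, b', hb', ⟨k0, hk0, fun h0 => hne ?_⟩, ?_⟩
  · filter_upwards [eventually_shift h0 t] with m h2
    rw [← hbb, h2]
  · refine eventually_unshift (t := t) ?_
    filter_upwards [h] with m h2 hmA
    rw [← h2 hmA]
    refine Finset.sum_congr rfl fun k hk => ?_
    rw [hbb k]

/-- a common algebra -/
theorem exists_common {J : Type} [Fintype J] {f : J → ℕ → ℂ} (hf : ∀ j, LinRec RB (f j)) :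
    ∃ s : Set GG, s.Finite ∧ (∀ j, gg (f j) ∈ Algebra.adjoin RF s) ∧
      ∀ x ∈ Algebra.adjoin RF s, shG x ∈ Algebra.adjoin RF s := by
  choose s hs1 hs2 hs3 using fun j => exists_fg (hf j)
  have hle : ∀ j, Algebra.adjoin RF (s j) ≤ Algebra.adjoin RF (⋃ j, s j) := fun j =>
    Algebra.adjoin_mono (Set.subset_iUnion s j)
  refine ⟨⋃ j, s j, Set.finite_iUnion hs1, fun j => hle j (hs2 j), adjoin_stable ?_⟩
  intro x hx
  obtain ⟨j, hj⟩ := Set.mem_iUnion.1 hx
  exact hle j (hs3 j x (Algebra.subset_adjoin hj))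

theorem rb_mem {S : Subalgebra RF GG} {b : ℕ → ℂ} (hb : b ∈ RB) : gg b ∈ S := by
  obtain ⟨r, hr⟩ := psi_of_RB hb
  rw [← hr]
  exact S.algebraMap_mem r

theorem rb_ap {b : ℕ → ℂ} (hb : b ∈ RB) {M : ℕ} (hM : 0 < M) (c : ℕ) :
    (fun i => b (c + M * i)) ∈ RB := by
  obtain ⟨P, R, hR, h⟩ := hb
  refine ⟨P.comp (Polynomial.C (c : ℂ) + Polynomial.C (M : ℂ) * Polynomial.X),
    R.comp (Polynomial.C (c : ℂ) + Polynomial.C (M : ℂ) * Polynomial.X), ?_, ?_⟩
  · intro h0
    rw [Polynomial.comp_eq_zero_iff] at h0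
    rcases h0 with h0 | ⟨-, h0⟩
    · exact hR h0
    · have h1 := congrArg (fun q => Polynomial.coeff q 1) h0
      simp only [Polynomial.coeff_add, Polynomial.coeff_C_succ, Polynomial.coeff_C_mul,
        Polynomial.coeff_X_one, mul_one, zero_add] at h1
      exact (Nat.cast_ne_zero.2 hM.ne') h1
  · have h1 : ∀ᶠ i in atTop, b (c + M * i) = P.eval ((c + M * i : ℕ) : ℂ) /
        R.eval ((c + M * i : ℕ) : ℂ) := ev_clF.1 (clF_le hM c h)
    filter_upwards [h1] with i hi
    rw [hi, Polynomial.eval_comp, Polynomial.eval_comp]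
    simp

theorem rb_ev {b : ℕ → ℂ} (hb : b ∈ RB) (h : ¬ ∀ᶠ m in atTop, b m = 0) :
    ∀ᶠ m in atTop, b m ≠ 0 :=
  (RB_field.dich b hb).resolve_left h

/-- **The structure theorem.** -/
theorem str {x : ℕ → Fin (N + 1) → ℂ} (hlin : ∀ j, LinRec RB fun m => x m j)
    {ι : Type} [Finite ι] (G : ι → MvPolynomial (Fin (N + 1)) ℂ)
    (c : Fin (N + 1) → ℂ) (hℓx : ∀ m, lf c (x m) ≠ 0)
    (halg : ∀ j, AlgOn RB {m | ∃ l, eval (x m) (G l) ≠ 0} (fun m => x m j / lf c (x m))) :
    ∃ (M : ℕ) (ρ : ℕ → Fin (N + 1) → Polynomial ℂ), 0 < M ∧ ∀ a, 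
      (∀ᶠ i in atTop, ∀ l, eval (x (a + M * i)) (G l) = 0) ∨
      (∀ᶠ i : ℕ in atTop, ∃ b : ℂ, b ≠ 0 ∧
        ∀ j, (ρ a j).eval ((a + M * i : ℕ) : ℂ) = b * x (a + M * i) j) := by
  classical
  obtain ⟨s, hs, hsx, hst⟩ := exists_common hlin
  set S := Algebra.adjoin RF s with hS
  obtain ⟨M1, hM1, hdich⟩ := class_dich hs hst
  -- polynomials in the coordinates
  have hpoly : ∀ F : MvPolynomial (Fin (N + 1)) ℂ, gg (fun m => eval (x m) F) ∈ S := by
    intro F
    have h1 : (fun m => eval (x m) F) = aeval (fun j m => x m j) F := by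
      funext m
      have h2 := comp_aeval_apply (f := fun j m => x m j) (Pi.evalAlgHom ℂ (fun _ : ℕ => ℂ) m) F
      change _ = aeval (fun j => x m j) F at h2
      rw [aeval_eq_eval] at h2
      exact h2.symm
    rw [h1]
    have h2 : gg (aeval (fun j m => x m j) F) = aeval (fun j => gg fun m => x m j) F :=
      comp_aeval_apply (f := fun j m => x m j) gg F
    rw [h2]
    have h3 : aeval (fun j => gg fun m => x m j) F ∈
        Algebra.adjoin ℂ (Set.range fun j => gg fun m => x m j) := by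
      rw [Algebra.adjoin_range_eq_range_aeval]
      exact ⟨F, rfl⟩
    have h4 : Algebra.adjoin ℂ (Set.range fun j => gg fun m => x m j) ≤ S.restrictScalars ℂ := by
      refine Algebra.adjoin_le ?_
      rintro _ ⟨j, rfl⟩
      exact hsx j
    exact h4 h3
  -- the classes
  have hcl : ∀ a, (∀ᶠ i in atTop, ∀ l, eval (x (a + M1 * i)) (G l) = 0) ∨
      ∃ (K : ℕ) (ρ : ℕ → Fin (N + 1) → Polynomial ℂ), 0 < K ∧
        ∀ᶠ i : ℕ in atTop, ∃ b : ℂ, b ≠ 0 ∧
          ∀ j, (ρ (i % K) j).eval (i : ℂ) = b * x (a + M1 * i) j := by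
    intro a
    by_cases hG : ∀ l, ∀ᶠ i in atTop, eval (x (a + M1 * i)) (G l) = 0
    · exact Or.inl (eventually_all.2 hG)
    right
    obtain ⟨l, hl⟩ := not_forall.1 hG
    refine par' (x := fun i => x (a + M1 * i)) (fun j => linRec_ap (hlin j) hM1 a) c
      (fun i => hℓx _) fun j => ?_
    obtain ⟨d, b, hb, ⟨k0, hk0, hne⟩, h⟩ := halg j
    -- the homogeneous relation
    let F : ℕ → ℂ := fun m => ∑ k ∈ Finset.range (d + 1), b k m * x m j ^ k *
      lf c (x m) ^ (d - k)
    have hlfS : gg (fun m => lf c (x m)) ∈ S := by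
      have h1 : (fun m => lf c (x m)) = fun m => eval (x m) (∑ i, C (c i) * X i) := by
        funext m
        unfold lf
        simp
      rw [h1]
      exact hpoly _
    have hFS : gg F ∈ S := by
      have h1 : gg F = ∑ k ∈ Finset.range (d + 1), gg (b k) * gg (fun m => x m j) ^ k *
          gg (fun m => lf c (x m)) ^ (d - k) := by
        have h2 : F = ∑ k ∈ Finset.range (d + 1), b k * (fun m => x m j) ^ k *
            (fun m => lf c (x m)) ^ (d - k) := by
          funext m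
          rw [Finset.sum_apply]
          rfl
        rw [h2, map_sum]
        refine Finset.sum_congr rfl fun k _ => ?_
        rw [map_mul, map_mul, map_pow, map_pow]
      rw [h1]
      exact S.sum_mem fun k _ => S.mul_mem (S.mul_mem (rb_mem (hb k)) (S.pow_mem (hsx j) _))
        (S.pow_mem hlfS _)
    have hprod : ∀ᶠ m in atTop, eval (x m) (G l) * F m = 0 := by
      filter_upwards [h] with m hm
      by_cases h1 : eval (x m) (G l) = 0
      · rw [h1, zero_mul]
      · have h2 := hm ⟨l, h1⟩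
        have h3 : F m = lf c (x m) ^ d * ∑ k ∈ Finset.range (d + 1), b k m *
            (x m j / lf c (x m)) ^ k := by
          rw [Finset.mul_sum]
          refine Finset.sum_congr rfl fun k hk => ?_
          have h4 := Finset.mem_range.1 hk
          have h5 := hℓx m
          rw [div_pow]
          have h6 : lf c (x m) ^ d = lf c (x m) ^ (d - k) * lf c (x m) ^ k := by
            rw [← pow_add]
            congr 1
            omega
          rw [h6]
          field_simp
        rw [h3, h2, mul_zero, mul_zero]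
    have h1 := (hdich a (fun m => eval (x m) (G l)) F (hpoly _) hFS
      (ev_clF.1 (clF_le hM1 a hprod))).resolve_left hl
    -- the relation along the class
    apply AlgOn.exists_rel (A := Set.univ) (Eventually.of_forall fun m => Set.mem_univ m)
    refine ⟨d, fun k i => b k (a + M1 * i), fun k => rb_ap (hb k) hM1 a, ⟨k0, hk0, fun h0 => ?_⟩, ?_⟩
    · have h2 : ∀ᶠ i in atTop, b k0 (a + M1 * i) ≠ 0 :=
        ev_clF.1 (clF_le hM1 a (rb_ev (hb k0) hne))
      obtain ⟨i, h3, h4⟩ := (h0.and h2).exists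
      exact h4 h3
    · filter_upwards [h1] with i hi _
      have h5 := hℓx (a + M1 * i)
      have h3 : F (a + M1 * i) = lf c (x (a + M1 * i)) ^ d * ∑ k ∈ Finset.range (d + 1),
          b k (a + M1 * i) * (x (a + M1 * i) j / lf c (x (a + M1 * i))) ^ k := by
        rw [Finset.mul_sum]
        refine Finset.sum_congr rfl fun k hk => ?_
        have h4 := Finset.mem_range.1 hk
        rw [div_pow]
        have h6 : lf c (x (a + M1 * i)) ^ d = lf c (x (a + M1 * i)) ^ (d - k) *
            lf c (x (a + M1 * i)) ^ k := by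
          rw [← pow_add]
          congr 1
          omega
        rw [h6]
        field_simp
      rw [h3] at hi
      exact (mul_eq_zero.1 hi).resolve_left (pow_ne_zero _ h5)
  -- a common modulus
  choose K0 ρ0 hK0 using fun a => (show ∃ (K : ℕ) (ρ : ℕ → Fin (N + 1) → Polynomial ℂ), 0 < K ∧
    ((∀ᶠ i in atTop, ∀ l, eval (x (a + M1 * i)) (G l) = 0) ∨
      ∀ᶠ i : ℕ in atTop, ∃ b : ℂ, b ≠ 0 ∧
          ∀ j, (ρ (i % K) j).eval (i : ℂ) = b * x (a + M1 * i) j) by
    rcases hcl a with h | ⟨K, ρ, hK, h⟩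
    · exact ⟨1, fun _ _ => 0, one_pos, Or.inl h⟩
    · exact ⟨K, ρ, hK, Or.inr h⟩)
  let Q := ∏ a ∈ Finset.range M1, K0 a
  have hQ : 0 < Q := Finset.prod_pos fun a _ => (hK0 a).1
  refine ⟨M1 * Q, fun a j => (ρ0 (a % M1) ((a / M1) % K0 (a % M1)) j).comp
    (Polynomial.C ((M1 : ℂ)⁻¹) * (Polynomial.X - Polynomial.C ((a % M1 : ℕ) : ℂ))),
    Nat.mul_pos hM1 hQ, fun a => ?_⟩
  have hidx : ∀ i, a + M1 * Q * i = a % M1 + M1 * (a / M1 + Q * i) := by
    intro i
    have := Nat.mod_add_div a M1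
    calc a + M1 * Q * i = (a % M1 + M1 * (a / M1)) + M1 * Q * i := by rw [this]
      _ = _ := by ring
  have htend : Tendsto (fun i => a / M1 + Q * i) atTop atTop := by
    refine tendsto_atTop_atTop.2 fun b => ⟨b, fun i hi => ?_⟩
    have h1 : i ≤ Q * i := Nat.le_mul_of_pos_left i hQ
    exact hi.trans (h1.trans (Nat.le_add_left _ _))
  rcases (hK0 (a % M1)).2 with h | h
  · left
    filter_upwards [htend.eventually h] with i hi
    rw [hidx]
    exact hi
  · right
    filter_upwards [htend.eventually h] with i hi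
    obtain ⟨b, hb, hi⟩ := hi
    refine ⟨b, hb, fun j => ?_⟩
    have h1 : (a / M1 + Q * i) % K0 (a % M1) = (a / M1) % K0 (a % M1) := by
      have h2 : K0 (a % M1) ∣ Q :=
        Finset.dvd_prod_of_mem K0 (Finset.mem_range.2 (Nat.mod_lt a hM1))
      obtain ⟨q, hq⟩ := h2
      rw [hq, mul_assoc, Nat.add_mul_mod_self_left]
    have h3 := hi j
    rw [h1] at h3
    rw [hidx, ← h3, Polynomial.eval_comp]
    congr 1
    simp only [Polynomial.eval_mul, Polynomial.eval_C, Polynomial.eval_sub, Polynomial.eval_X]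
    rw [Nat.cast_add (a % M1), add_sub_cancel_left, Nat.cast_mul M1,
      inv_mul_cancel_left₀ (Nat.cast_ne_zero.2 hM1.ne')]

end Pool.Agent.Q183.UH
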