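import Pool.Agent.Q183.UH.Step

/-!
Rigidity for forms in sequences given by nonsingular linear recurrences.
-/

set_option autoImplicit false

namespace Pool.Agent.Q183.UH

open Filter Pool.Agent.Q183.RS Matrix

variable {K : Type} [Field K]

/-- forms are multilinear -/
theorem exists_multilin {J : Type} [Fintype J] [DecidableEq J] {e : ℕ} {G : MvPolynomial J K}
    (hG : G.IsHomogeneous e) : ∃ c : (Fin e → J) → K, ∀ v : J → K,
      MvPolynomial.eval v G = ∑ I, c I * ∏ k, v (I k) := by
  classical
  have h1 : ∀ d : J →₀ ℕ, d ∈ G.support → ∃ I : Fin e → J, ∀ v : J → K,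
      ∏ k, v (I k) = ∏ j, v j ^ d j := by
    intro d hd
    have h2 : ∑ j, d j = e := by
      have h3 := hG (MvPolynomial.mem_support_iff.1 hd)
      rw [Finsupp.weight_apply, Finsupp.sum_fintype _ _ (by simp)] at h3
      simpa using h3
    let L := (Finsupp.toMultiset d).toList
    have hL : L.length = e := by
      rw [Multiset.length_toList, Finsupp.card_toMultiset, Finsupp.sum_fintype _ _ (by simp)]
      exact h2
    refine ⟨fun k => L.get (k.cast hL.symm), fun v => ?_⟩
    have h4 : ∏ k : Fin e, v (L.get (k.cast hL.symm)) = (L.map v).prod := by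
      rw [← Fintype.prod_equiv (finCongr hL) (fun k => v (L.get k)) (fun k => v (L.get (k.cast hL.symm)))
        (fun k => rfl)]
      have h5 : (L.map v) = List.ofFn fun k : Fin L.length => v (L.get k) := by
        conv_lhs => rw [← List.ofFn_get L]
        rw [List.map_ofFn]
        rfl
      rw [h5, List.prod_ofFn]
    rw [h4]
    have h5 : (L.map v).prod = ((Finsupp.toMultiset d).map v).prod := by
      rw [← Multiset.prod_coe, ← Multiset.map_coe, Multiset.coe_toList]
    rw [h5]
    have h6 := Finsupp.prod_toMultiset (d.mapDomain v)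
    rw [Finsupp.toMultiset_map, h6, Finsupp.prod_mapDomain_index (by simp)
      (fun b m n => pow_add b m n), Finsupp.prod_fintype _ _ (by simp)]
  choose I hI using fun d : G.support => h1 d.1 d.2
  refine ⟨fun I' => ∑ d ∈ G.support.attach, if I' = I d then G.coeff d.1 else 0, fun v => ?_⟩
  rw [MvPolynomial.eval_eq', ← Finset.sum_attach]
  simp only [Finset.sum_mul]
  rw [Finset.sum_comm]
  refine Finset.sum_congr rfl fun d _ => ?_
  rw [Finset.sum_eq_single (I d)]
  · rw [if_pos rfl, hI d]
  · intro I' _ hI'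
    rw [if_neg hI', zero_mul]
  · intro h
    exact absurd (Finset.mem_univ _) h

section

variable {ι : Type} [Fintype ι] [DecidableEq ι]

/-- the tensor power of a matrix -/
def tenM (e : ℕ) (A : Matrix ι ι K) : Matrix (Fin e → ι) (Fin e → ι) K :=
  fun I J => ∏ k, A (I k) (J k)

theorem tenM_mul (e : ℕ) (A B : Matrix ι ι K) : tenM e (A * B) = tenM e A * tenM e B := by
  ext I J
  rw [Matrix.mul_apply]
  unfold tenM
  simp only [Matrix.mul_apply]
  rw [Finset.prod_univ_sum]
  rw [Fintype.piFinset_univ]
  refine Finset.sum_congr rfl fun L _ => ?_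
  rw [Finset.prod_mul_distrib]

theorem tenM_one (e : ℕ) : tenM e (1 : Matrix ι ι K) = 1 := by
  ext I J
  unfold tenM
  rw [Matrix.one_apply]
  split_ifs with h
  · subst h
    simp
  · obtain ⟨k, hk⟩ := Function.ne_iff.1 h
    exact Finset.prod_eq_zero (Finset.mem_univ k) (by rw [Matrix.one_apply, if_neg hk])

theorem tenM_det (e : ℕ) {A : Matrix ι ι K} (hA : A.det ≠ 0) : (tenM e A).det ≠ 0 := by
  have h1 : A * A⁻¹ = 1 := Matrix.mul_nonsing_inv A hA.isUnit
  have h2 : tenM e A * tenM e A⁻¹ = 1 := by rw [← tenM_mul, h1, tenM_one]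
  have h3 := congrArg Matrix.det h2
  rw [Matrix.det_mul, Matrix.det_one] at h3
  exact left_ne_zero_of_mul_eq_one h3

theorem tenM_mulVec (e : ℕ) (A : Matrix ι ι K) (v : ι → K) (I : Fin e → ι) :
    (tenM e A *ᵥ fun J => ∏ k, v (J k)) I = ∏ k, (A *ᵥ v) (I k) := by
  have h1 : ∀ i, (A *ᵥ v) i = ∑ j, A i j * v j := fun i => rfl
  simp only [h1]
  rw [Finset.prod_univ_sum, Fintype.piFinset_univ]
  change ∑ J, tenM e A I J * ∏ k, v (J k) = _
  refine Finset.sum_congr rfl fun J _ => ?_
  unfold tenM
  rw [Finset.prod_mul_distrib]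

end

variable {J : Type} [Fintype J] [DecidableEq J] {R : ℕ}

/-- **Rigidity of forms.** The sequences `u j` satisfy nonsingular recurrences of order `R`. If
a form in them vanishes at all `l M`, `l ≥ 1`, then it vanishes at `0`. -/
theorem rigid_form [CharZero K] (hRpos : 0 < R) {α : J → ℕ → ℕ → K} {u : J → ℕ → K}
    (hα : ∀ j k, (fun t => α j k t) ∈ polyB K) (h0 : ∀ j t, α j 0 t ≠ 0)
    (hR : ∀ j t, α j R t ≠ 0)
    (hu : ∀ j t, ∑ k ∈ Finset.range (R + 1), α j k t * u j (t + k) = 0) (M : ℕ)
    {e : ℕ} {G : MvPolynomial J K} (hG : G.IsHomogeneous e)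
    (h : ∀ l, 1 ≤ l → MvPolynomial.eval (fun j => u j (l * M)) G = 0) :
    MvPolynomial.eval (fun j => u j 0) G = 0 := by
  let s : ℕ → J × Fin R → K := fun t a => u a.1 (t + a.2)
  have hs : ∀ l, qq R α l • s (l + 1) = stepM R α l *ᵥ s l := by
    intro l
    funext a
    rw [stepM_mulVec, Pi.smul_apply, smul_eq_mul]
    split_ifs with h1
    · simp only [s]
      congr 2
      omega
    · have h2 : (a.2 : ℕ) + 1 = R := by
        have := a.2.2
        omega
      have h3 := hu a.1 l
      rw [Finset.sum_range_succ, Finset.sum_range] at h3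
      simp only [s]
      have h4 : l + 1 + (a.2 : ℕ) = l + R := by omega
      rw [h4, qq_eq α a.1 l]
      linear_combination wj R α a.1 l * h3
  let G' : MvPolynomial (J × Fin R) K := MvPolynomial.rename (fun j => (j, (⟨0, hRpos⟩ : Fin R))) G
  have hG' : G'.IsHomogeneous e := hG.rename_isHomogeneous
  have hGe : ∀ t, MvPolynomial.eval (s t) G' = MvPolynomial.eval (fun j => u j t) G := by
    intro t
    simp only [G']
    rw [MvPolynomial.eval_rename]
    rfl
  obtain ⟨c, hc⟩ := exists_multilin hG'
  have h1 := rigid_step (e := fun _ => c) (A := fun t => tenM e (stepM R α t))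
    (q := fun t => qq R α t ^ e) (s := fun t I => ∏ k, s t (I k))
    (fun I => (polyB K).algebraMap_mem (c I)) (fun I I' => by
      have h2 : (fun m => tenM e (stepM R α m) I I') = ∏ k, fun m => stepM R α m (I k) (I' k) := by
        funext m
        rw [Finset.prod_apply]
        rfl
      rw [h2]
      exact (polyB K).prod_mem fun k _ => stepM_mem hα _ _)
    (fun t => tenM_det e (stepM_det h0 hR t)) (fun l => by
      funext I
      rw [tenM_mulVec, ← hs, Pi.smul_apply, smul_eq_mul]
      simp only [Pi.smul_apply, smul_eq_mul]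
      rw [Finset.prod_mul_distrib, Finset.prod_const, Finset.card_univ, Fintype.card_fin]) M
    (fun l hl => by
      change ∑ I, c I * ∏ k, s (l * M) (I k) = 0
      rw [← hc, hGe]
      exact h l hl)
  change ∑ I, c I * ∏ k, s 0 (I k) = 0 at h1
  rwa [← hc, hGe] at h1

end Pool.Agent.Q183.UH
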