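import Pool.Agent.Q183.UH.Main
import Pool.Agent.Q183.UH.Ten
import Pool.Agent.Q183.UH.Str

/-!
Internal families of sequences: if the first indices of the windows are good, then all indices of
the windows are good.
-/

set_option autoImplicit false

namespace Pool.Agent.Q183.UH

open Filter Pool.Agent.TH143.HE Pool.Agent.Q183.RS MvPolynomial Cardinal
open scoped LinearAlgebra.Projectivization

variable {K : ℕ → Type} [∀ n, Field (K n)] {N : ℕ}

/-- The index `t` is good: the points with the indices `t` and `t + M` coincide, or they are in the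
closed set. -/
def Good {L : Type} [Field L] {ι : Type} (G : ι → MvPolynomial (Fin (N + 1)) L)
    (x : ℕ → Fin (N + 1) → L) (M t : ℕ) : Prop :=
  (∀ i, eval (x t) (G i) = 0 ∧ eval (x (t + M)) (G i) = 0) ∨ Par (x (t + M)) (x t)

theorem Par.eval_zero {L : Type} [Field L] {u v : Fin (N + 1) → L} (hu : u ≠ 0) (h : Par u v)
    {e : ℕ} {G : MvPolynomial (Fin (N + 1)) L} (hG : G.IsHomogeneous e) (h0 : eval u G = 0) :
    eval v G = 0 := by
  obtain ⟨c, hc⟩ := Function.ne_iff.1 hu
  rw [Pi.zero_apply] at hc
  have h1 : v = fun j => (v c / u c) * u j := by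
    funext j
    rw [div_mul_eq_mul_div, eq_div_iff hc]
    have := h j c
    linear_combination -this
  rw [h1, eval_smul_homogL hG, h0, mul_zero]

theorem XX_eval {U : Ultrafilter ℕ} {x : ∀ n, ℕ → Fin (N + 1) → K n} {t : ℕ → ℕ}
    {G : ∀ n, MvPolynomial (Fin (N + 1)) (K n)} {Q : MvPolynomial (Fin (N + 1)) (∀ n, K n)}
    (hQ : ∀ n, MvPolynomial.map (ev K n) Q = G n) :
    eval (XX U x t) (MvPolynomial.map (mk K U) Q) = 0 ↔
      ∀ᶠ n in (U : Filter ℕ), eval (x n (t n)) (G n) = 0 := by
  have h1 := eval_mkM (U := U) Q (fun n => x n (t n))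
  have h2 : (fun j => mk K U fun n => x n (t n) j) = XX U x t := rfl
  rw [h2] at h1
  rw [h1, mk_zero]
  simp only [hQ]

theorem all_good [∀ n, CharZero (K n)] {U : Ultrafilter ℕ} {R b d : ℕ} (hRpos : 0 < R)
    (x : ∀ n, ℕ → Fin (N + 1) → K n) (hne : ∀ n m, x n m ≠ 0)
    (α : ∀ n, Fin (N + 1) → ℕ → Polynomial (K n)) (hdeg : ∀ n j k, (α n j k).natDegree ≤ d)
    (hα : ∀ n j m, b ≤ m → ∑ k ∈ Finset.range (R + 1), (α n j k).eval (m : K n) *
      x n (m + k) j = 0) (μ L : ℕ → ℕ) (hb : ∀ n, b ≤ μ n)
    (hns0 : ∀ n m, μ n ≤ m → m < μ n + L n → ∀ j, (α n j 0).eval (m : K n) ≠ 0)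
    (hnsR : ∀ n m, μ n ≤ m → m < μ n + L n → ∀ j, (α n j R).eval (m : K n) ≠ 0)
    {s' : ℕ} {e' : Fin s' → ℕ} (G : ∀ n, Fin s' → MvPolynomial (Fin (N + 1)) (K n))
    (hGh : ∀ n i, (G n i).IsHomogeneous (e' i)) (M i0 : ℕ)
    (hG : ∀ i, i0 ≤ i → ∀ᶠ n in (U : Filter ℕ), Good (G n) (x n) M (μ n + i)) :
    ∀ᶠ n in (U : Filter ℕ), ∀ t, μ n + i0 ≤ t → t + M < μ n + L n → Good (G n) (x n) M t := by
  classical
  let Bd : ℕ → ℕ → Prop := fun n t => μ n + i0 ≤ t ∧ t + M < μ n + L n ∧ ¬ Good (G n) (x n) M t
  by_contra hcon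
  have hBad : ∀ᶠ n in (U : Filter ℕ), ∃ t, Bd n t := by
    have h1 := Ultrafilter.eventually_not.2 hcon
    filter_upwards [h1] with n hn
    push Not at hn
    exact hn
  -- lifts
  choose A hA using fun (j : Fin (N + 1)) (k : ℕ) => exists_lift d (fun n => α n j k)
    fun n => hdeg n j k
  choose Q hQhom hQ using fun i => exists_liftM (e' i) (fun n => G n i) fun n => hGh n i
  have hrec : ∀ (j : Fin (N + 1)) (t : ℕ → ℕ), (∀ᶠ n in (U : Filter ℕ), b ≤ t n) →
      ∑ k ∈ Finset.range (R + 1), ((A j k).map (mk K U)).eval (TT K U t) *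
        XX U x (fun n => t n + k) j = 0 := by
    intro j t ht
    refine XX_rec (fun n m hm => ?_) ht
    simp only [hA]
    exact hα n j m hm
  have hev0 : ∀ (j : Fin (N + 1)) (t : ℕ → ℕ), (∀ᶠ n in (U : Filter ℕ), μ n ≤ t n ∧
      t n < μ n + L n) → ((A j 0).map (mk K U)).eval (TT K U t) ≠ 0 := by
    intro j t ht
    unfold TT
    rw [eval_mk, mk_ne]
    filter_upwards [ht] with n hn
    rw [hA]
    exact hns0 n (t n) hn.1 hn.2 j
  have hevR : ∀ (j : Fin (N + 1)) (t : ℕ → ℕ), (∀ᶠ n in (U : Filter ℕ), μ n ≤ t n ∧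
      t n < μ n + L n) → ((A j R).map (mk K U)).eval (TT K U t) ≠ 0 := by
    intro j t ht
    unfold TT
    rw [eval_mk, mk_ne]
    filter_upwards [ht] with n hn
    rw [hA]
    exact hnsR n (t n) hn.1 hn.2 j
  -- the first bad index
  let κ : ℕ → ℕ := fun n => if h : ∃ t, Bd n t then Nat.find h else 0
  have hκ : ∀ᶠ n in (U : Filter ℕ), Bd n (κ n) ∧
      ∀ t, μ n + i0 ≤ t → t < κ n → Good (G n) (x n) M t := by
    filter_upwards [hBad] with n hn
    have h1 : κ n = Nat.find hn := dif_pos hn
    rw [h1]
    refine ⟨Nat.find_spec hn, fun t h2 h3 => ?_⟩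
    by_contra h4
    refine Nat.find_min hn h3 ⟨h2, ?_, h4⟩
    have := (Nat.find_spec hn).2.1
    omega
  have hfar : ∀ l, ∀ᶠ n in (U : Filter ℕ), μ n + i0 + l < κ n := by
    intro l
    have h1 : ∀ᶠ n in (U : Filter ℕ), ∀ i ∈ Finset.range (l + 1),
        Good (G n) (x n) M (μ n + (i0 + i)) := by
      rw [Finset.eventually_all]
      intro i _
      exact hG (i0 + i) (by omega)
    filter_upwards [hκ, h1] with n h2 h3
    by_contra h4
    have h5 := h2.1.1
    have h6 := h3 (κ n - (μ n + i0)) (Finset.mem_range.2 (by omega))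
    have h7 : μ n + (i0 + (κ n - (μ n + i0))) = κ n := by omega
    rw [h7] at h6
    exact h2.1.2.2 h6
  -- the window at the first bad index
  let τ : ℕ → ℕ → ℕ := fun l n => κ n + M - l
  have hτ : ∀ l, ∀ᶠ n in (U : Filter ℕ), μ n ≤ κ n + M - l - R ∧
      κ n + M - l - R < μ n + L n ∧ l + R ≤ κ n := by
    intro l
    filter_upwards [hfar (l + R), hκ] with n h1 h2
    have := h2.1.2.1
    omega
  have hTT : ∀ l, TT K U (fun n => κ n + M - l - R) =
      TT K U κ + (M : UK K U) - (R : UK K U) - (l : UK K U) := by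
    intro l
    unfold TT
    have h3 : ∀ i : ℕ, (i : UK K U) = mk K U (fun n => (i : K n)) := by
      intro i
      rw [← map_natCast (mk K U)]
      rfl
    rw [h3 M, h3 R, h3 l, ← map_add, ← map_sub, ← map_sub, mk_eq]
    filter_upwards [hτ l] with n hn
    have h4 : κ n + M = (κ n + M - l - R) + l + R := by omega
    have h5 : ((κ n : ℕ) : K n) + (M : K n) = ((κ n + M - l - R : ℕ) : K n) + (l : K n) +
        (R : K n) := by
      have h6 : ((κ n + M : ℕ) : K n) = (((κ n + M - l - R) + l + R : ℕ) : K n) := by rw [← h4]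
      push_cast at h6
      exact h6
    simp only [Pi.add_apply, Pi.sub_apply]
    rw [h5]
    ring
  let cc : UK K U := TT K U κ + (M : UK K U) - (R : UK K U)
  let β : Fin (N + 1) → ℕ → ℕ → UK K U := fun j k l =>
    ((A j (R - k)).map (mk K U)).eval (cc - (l : UK K U))
  let u : Fin (N + 1) → ℕ → UK K U := fun j l => XX U x (τ l) j
  have hβ : ∀ j k, (fun l => β j k l) ∈ polyB (UK K U) := by
    intro j k
    refine ⟨((A j (R - k)).map (mk K U)).comp (Polynomial.C cc - Polynomial.X), fun l => ?_⟩
    rw [Polynomial.eval_comp, Polynomial.eval_sub, Polynomial.eval_C, Polynomial.eval_X]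
  have hβ0 : ∀ j l, β j 0 l ≠ 0 := by
    intro j l
    simp only [β, cc, Nat.sub_zero]
    rw [← hTT l]
    refine hevR j _ ?_
    filter_upwards [hτ l] with n hn
    exact ⟨hn.1, hn.2.1⟩
  have hβR : ∀ j l, β j R l ≠ 0 := by
    intro j l
    simp only [β, cc, Nat.sub_self]
    rw [← hTT l]
    refine hev0 j _ ?_
    filter_upwards [hτ l] with n hn
    exact ⟨hn.1, hn.2.1⟩
  have hu : ∀ j l, ∑ k ∈ Finset.range (R + 1), β j k l * u j (l + k) = 0 := by
    intro j l
    have h1 := hrec j (fun n => κ n + M - l - R) (by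
      filter_upwards [hτ l] with n hn
      have := hb n
      omega)
    rw [hTT l] at h1
    rw [← Finset.sum_range_reflect] at h1
    rw [← h1]
    refine Finset.sum_congr rfl fun k hk => ?_
    have h2 := Finset.mem_range.1 hk
    have h3 : R + 1 - 1 - k = R - k := by omega
    rw [h3]
    have h4 : u j (l + k) = XX U x (fun n => κ n + M - l - R + (R - k)) j := by
      refine congrFun (XX_congr ?_) j
      filter_upwards [hτ l] with n hn
      simp only [τ]
      omega
    rw [h4]
  have hune : ∀ l, (fun j => u j l) ≠ 0 := fun l => XX_ne hne _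
  -- consecutive vectors
  have hstep : ∀ l, 1 ≤ l → (∀ i, eval (fun j => u j l) (MvPolynomial.map (mk K U) (Q i)) = 0 ∧
      eval (fun j => u j (l + M)) (MvPolynomial.map (mk K U) (Q i)) = 0) ∨
      Par (fun j => u j l) (fun j => u j (l + M)) := by
    intro l hl
    have h0 : ∀ᶠ n in (U : Filter ℕ),
        (∀ i, eval (x n (τ l n)) (G n i) = 0 ∧ eval (x n (τ (l + M) n)) (G n i) = 0) ∨
        Par (x n (τ l n)) (x n (τ (l + M) n)) := by
      filter_upwards [hκ, hfar l] with n h2 h3
      have h4 := h2.2 (κ n - l) (by omega) (by omega)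
      have h5 : κ n - l + M = τ l n := by
        simp only [τ]
        omega
      have h6 : κ n - l = τ (l + M) n := by
        simp only [τ]
        omega
      unfold Good at h4
      rw [h5, h6] at h4
      rcases h4 with h4 | h4
      · exact Or.inl fun i => ⟨(h4 i).2, (h4 i).1⟩
      · exact Or.inr h4
    rcases Ultrafilter.eventually_or.1 h0 with h1 | h1
    · left
      intro i
      refine ⟨(XX_eval fun n => hQ i n).2 ?_, (XX_eval fun n => hQ i n).2 ?_⟩
      · filter_upwards [h1] with n hn
        exact (hn i).1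
      · filter_upwards [h1] with n hn
        exact (hn i).2
    · right
      exact XX_par.2 h1
  have hhom : ∀ i, (MvPolynomial.map (mk K U) (Q i)).IsHomogeneous (e' i) := fun i =>
    (hQhom i).map _
  by_cases hz : ∀ i, eval (fun j => u j M) (MvPolynomial.map (mk K U) (Q i)) = 0
  · -- the vectors are in the closed set
    have hall : ∀ l, 1 ≤ l → ∀ i, eval (fun j => u j (l * M))
        (MvPolynomial.map (mk K U) (Q i)) = 0 := by
      intro l hl
      induction l, hl using Nat.le_induction with
      | base =>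
        rw [one_mul]
        exact hz
      | succ l hl ih =>
        intro i
        have h2 : (l + 1) * M = l * M + M := by ring
        rw [h2]
        rcases Nat.eq_zero_or_pos M with hM0 | hMpos
        · rw [hM0, mul_zero, add_zero]
          rw [hM0] at hz
          exact hz i
        rcases hstep (l * M) (by nlinarith) with h1 | h1
        · exact (h1 i).2
        · exact h1.eval_zero (hune _) (hhom i) (ih i)
    have hzero : ∀ i, eval (fun j => u j 0) (MvPolynomial.map (mk K U) (Q i)) = 0 := fun i =>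
      rigid_form hRpos hβ hβ0 hβR hu M (hhom i) fun l hl => hall l hl i
    have e1 : ∀ᶠ n in (U : Filter ℕ), ∀ i, eval (x n (τ M n)) (G n i) = 0 :=
      eventually_all.2 fun i => (XX_eval fun n => hQ i n).1 (hz i)
    have e2 : ∀ᶠ n in (U : Filter ℕ), ∀ i, eval (x n (τ 0 n)) (G n i) = 0 :=
      eventually_all.2 fun i => (XX_eval fun n => hQ i n).1 (hzero i)
    obtain ⟨n, h1, h2, h3⟩ := (e1.and (e2.and hκ)).exists
    apply h3.1.2.2
    simp only [τ, Nat.sub_zero, Nat.add_sub_cancel] at h1 h2
    exact Or.inl fun i => ⟨h1 i, h2 i⟩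
  · -- the vectors are proportional
    obtain ⟨i1, hi1⟩ := not_forall.1 hz
    have hall : ∀ l, 1 ≤ l → Par (fun j => u j (l * M)) (fun j => u j M) := by
      intro l hl
      induction l, hl using Nat.le_induction with
      | base =>
        rw [one_mul]
        exact Par.refl _
      | succ l hl ih =>
        have h2 : (l + 1) * M = l * M + M := by ring
        rcases Nat.eq_zero_or_pos M with hM0 | hMpos
        · rw [hM0, mul_zero]
          exact Par.refl _
        rw [h2]
        rcases hstep (l * M) (by nlinarith) with h1 | h1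
        · exact absurd (ih.eval_zero (hune _) (hhom i1) (h1 i1).1) hi1
        · exact (h1.symm).trans (hune _) ih
    obtain ⟨j0, hj0⟩ := Function.ne_iff.1 (hune M)
    rw [Pi.zero_apply] at hj0
    have hzero : ∀ a, u j0 M * u a 0 = u a M * u j0 0 := by
      intro a
      have h1 := rigid_seq hRpos hβ hβ0 hβR hu M
        (fun j => algebraMap (UK K U) (ℕ → UK K U)
          ((if j = a then u j0 M else 0) - if j = j0 then u a M else 0))
        (fun j => (polyB (UK K U)).algebraMap_mem _) (fun l hl => by
          have h2 : ∀ j, (algebraMap (UK K U) (ℕ → UK K U)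
              ((if j = a then u j0 M else 0) - if j = j0 then u a M else 0)) l * u j (l * M) =
              (if j = a then u j0 M * u j (l * M) else 0) -
                if j = j0 then u a M * u j (l * M) else 0 := by
            intro j
            change ((if j = a then u j0 M else 0) - if j = j0 then u a M else 0) * _ = _
            split_ifs <;> ring
          rw [Finset.sum_congr rfl fun j _ => h2 j, Finset.sum_sub_distrib, Finset.sum_ite_eq',
            Finset.sum_ite_eq', if_pos (Finset.mem_univ _), if_pos (Finset.mem_univ _)]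
          have h3 := hall l hl a j0
          simp only at h3
          linear_combination h3)
      have h2 : ∀ j, (algebraMap (UK K U) (ℕ → UK K U)
          ((if j = a then u j0 M else 0) - if j = j0 then u a M else 0)) 0 * u j 0 =
          (if j = a then u j0 M * u j 0 else 0) - if j = j0 then u a M * u j 0 else 0 := by
        intro j
        change ((if j = a then u j0 M else 0) - if j = j0 then u a M else 0) * _ = _
        split_ifs <;> ring
      rw [Finset.sum_congr rfl fun j _ => h2 j, Finset.sum_sub_distrib, Finset.sum_ite_eq',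
        Finset.sum_ite_eq', if_pos (Finset.mem_univ _), if_pos (Finset.mem_univ _)] at h1
      linear_combination h1
    have hpar0 : Par (XX U x (τ 0)) (XX U x (τ M)) := by
      intro i j
      change u i 0 * u j M = u j 0 * u i M
      apply mul_left_cancel₀ hj0
      have e1 := hzero i
      have e2 := hzero j
      linear_combination u j M * e1 - u i M * e2
    rw [XX_par] at hpar0
    obtain ⟨n, h1, h2⟩ := (hpar0.and hκ).exists
    apply h2.1.2.2
    simp only [τ, Nat.sub_zero, Nat.add_sub_cancel] at h1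
    exact Or.inr h1

end Pool.Agent.Q183.UH
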