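import Pool.Agent.Q183.UH.Size

/-!
The curves `y ^ 2 = f(x)` with `f` separable of degree at least three have no rational
parametrisation.
-/

set_option autoImplicit false

namespace Pool.Agent.Q183.UH

open Polynomial

variable {K : Type} [Field K]

/-- linear combinations of coprime polynomials -/
theorem comb_coprime {U W : K[X]} (h : IsCoprime U W) {a b c d : K} (hdet : a * d - b * c ≠ 0) :
    IsCoprime (C a * U + C b * W) (C c * U + C d * W) := by
  obtain ⟨u, v, huv⟩ := h
  set δ := a * d - b * c with hδ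
  have h1 : C δ⁻¹ * (C a * C d - C b * C c) = (1 : K[X]) := by
    rw [← C_mul, ← C_mul, ← C_sub, ← C_mul, ← hδ, inv_mul_cancel₀ hdet, C_1]
  refine ⟨C δ⁻¹ * (C d * u - C c * v), C δ⁻¹ * (C a * v - C b * u), ?_⟩
  calc C δ⁻¹ * (C d * u - C c * v) * (C a * U + C b * W) +
      C δ⁻¹ * (C a * v - C b * u) * (C c * U + C d * W) =
      (C δ⁻¹ * (C a * C d - C b * C c)) * (u * U + v * W) := by ring
    _ = 1 := by rw [h1, huv, one_mul]

/-- over an algebraically closed field the factors of a square which are coprime are squares -/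
theorem sq_of_mul [IsAlgClosed K] {P Q s : K[X]} (h : IsCoprime P Q) (hs : P * Q = s ^ 2) :
    ∃ u, P = u ^ 2 := by
  obtain ⟨v, w, hw⟩ := exists_associated_pow_of_mul_eq_pow' h hs
  obtain ⟨c, hc, hc'⟩ := Polynomial.isUnit_iff.1 w.isUnit
  obtain ⟨e, he⟩ := IsAlgClosed.exists_pow_nat_eq c (n := 2) (by norm_num)
  refine ⟨v * C e, ?_⟩
  rw [← hw, ← hc', mul_pow, ← C_pow, he]

/-- **Four squares in a pencil**: the pencil is constant. -/
theorem four_sq [IsAlgClosed K] [CharZero K] (n : ℕ) : ∀ (U W : K[X]), IsCoprime U W →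
    U.natDegree ≤ n → W.natDegree ≤ n → ∀ (a b : Fin 4 → K),
    (∀ i j, i ≠ j → a i * b j - b i * a j ≠ 0) → (∀ i, ∃ s, C (a i) * U + C (b i) * W = s ^ 2) →
    U.natDegree = 0 ∧ W.natDegree = 0 := by
  induction n using Nat.strong_induction_on with
  | _ n ih =>
    intro U W hUW hU hW a b hab hsq
    rcases Nat.eq_zero_or_pos n with hn | hn
    · exact ⟨by omega, by omega⟩
    choose s hs using hsq
    have h01 := hab 0 1 (by decide)
    have hcop : IsCoprime (s 0) (s 1) := by
      have h1 := comb_coprime hUW h01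
      rw [hs 0, hs 1] at h1
      exact (IsCoprime.pow_iff (by norm_num) (by norm_num)).1 h1
    have hdeg : ∀ i, (s i).natDegree ≤ n / 2 := by
      intro i
      have h1 : (s i ^ 2).natDegree ≤ n := by
        rw [← hs i]
        refine (natDegree_add_le _ _).trans (max_le ?_ ?_)
        · exact (natDegree_C_mul_le _ _).trans hU
        · exact (natDegree_C_mul_le _ _).trans hW
      rw [natDegree_pow] at h1
      omega
    -- the other members in terms of the squares of `s 0` and `s 1`
    set δ := a 0 * b 1 - b 0 * a 1 with hδ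
    have hc : ∀ i, C (a i) * U + C (b i) * W =
        C (δ⁻¹ * (a i * b 1 - b i * a 1)) * s 0 ^ 2 - C (δ⁻¹ * (a i * b 0 - b i * a 0)) * s 1 ^ 2 := by
      intro i
      rw [← hs 0, ← hs 1]
      have h1 : C δ⁻¹ * (C (a 0) * C (b 1) - C (b 0) * C (a 1)) = (1 : K[X]) := by
        rw [← C_mul, ← C_mul, ← C_sub, ← C_mul, ← hδ, inv_mul_cancel₀ h01, C_1]
      simp only [C_mul, C_sub]
      linear_combination -(C (a i) * U + C (b i) * W) * h1
    choose γ hγ using fun i : Fin 4 => IsAlgClosed.exists_pow_nat_eq
      (δ⁻¹ * (a i * b 1 - b i * a 1)) (n := 2) (by norm_num)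
    choose ε hε using fun i : Fin 4 => IsAlgClosed.exists_pow_nat_eq
      (δ⁻¹ * (a i * b 0 - b i * a 0)) (n := 2) (by norm_num)
    have hγ0 : ∀ i, i ≠ 1 → γ i ≠ 0 := by
      intro i hi h0
      have h1 := hγ i
      rw [h0] at h1
      have h2 := hab i 1 hi
      have h3 := mul_ne_zero (inv_ne_zero h01) h2
      apply h3
      rw [← h1]
      ring
    have hε0 : ∀ i, i ≠ 0 → ε i ≠ 0 := by
      intro i hi h0
      have h1 := hε i
      rw [h0] at h1
      have h2 := hab i 0 hi
      have h3 := mul_ne_zero (inv_ne_zero h01) h2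
      apply h3
      rw [← h1]
      ring
    have hfac : ∀ i, i ≠ 0 → i ≠ 1 → (∃ u, C (γ i) * s 0 + C (ε i) * s 1 = u ^ 2) ∧
        ∃ u, C (γ i) * s 0 + C (-ε i) * s 1 = u ^ 2 := by
      intro i h0 h1
      have hdet : γ i * (-ε i) - ε i * γ i ≠ 0 := by
        have h2 : γ i * (-ε i) - ε i * γ i = -(2 * (γ i * ε i)) := by ring
        rw [h2]
        exact neg_ne_zero.2 (mul_ne_zero two_ne_zero (mul_ne_zero (hγ0 i h1) (hε0 i h0)))
      have hco := comb_coprime hcop hdet
      have hprod : (C (γ i) * s 0 + C (ε i) * s 1) * (C (γ i) * s 0 + C (-ε i) * s 1) = s i ^ 2 := by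
        rw [← hs i, hc i, ← hγ i, ← hε i]
        simp only [C_pow, C_neg]
        ring
      exact ⟨sq_of_mul hco hprod, sq_of_mul hco.symm (by rw [mul_comm]; exact hprod)⟩
    -- the new pencil
    have h23 : γ 2 * ε 3 - ε 2 * γ 3 ≠ 0 ∧ γ 2 * ε 3 + ε 2 * γ 3 ≠ 0 := by
      have key : (γ 2 * ε 3) ^ 2 - (ε 2 * γ 3) ^ 2 =
          δ⁻¹ * (a 2 * b 3 - b 2 * a 3) * (-1) := by
        rw [mul_pow, mul_pow, hγ, hε, hγ, hε]
        have h1 : δ * δ⁻¹ = 1 := mul_inv_cancel₀ h01
        have h2 : δ⁻¹ * (a 2 * b 1 - b 2 * a 1) * (δ⁻¹ * (a 3 * b 0 - b 3 * a 0)) -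
            δ⁻¹ * (a 2 * b 0 - b 2 * a 0) * (δ⁻¹ * (a 3 * b 1 - b 3 * a 1)) =
            δ⁻¹ * δ⁻¹ * ((a 0 * b 1 - b 0 * a 1) * (a 2 * b 3 - b 2 * a 3) * (-1)) := by ring
        rw [h2, ← hδ]
        linear_combination δ⁻¹ * (a 2 * b 3 - b 2 * a 3) * (-1) * h1
      have hne : (γ 2 * ε 3) ^ 2 - (ε 2 * γ 3) ^ 2 ≠ 0 := by
        rw [key]
        exact mul_ne_zero (mul_ne_zero (inv_ne_zero h01) (hab 2 3 (by decide))) (by norm_num)
      have hfact : (γ 2 * ε 3) ^ 2 - (ε 2 * γ 3) ^ 2 =
          (γ 2 * ε 3 - ε 2 * γ 3) * (γ 2 * ε 3 + ε 2 * γ 3) := by ring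
      rw [hfact] at hne
      exact ⟨left_ne_zero_of_mul hne, right_ne_zero_of_mul hne⟩
    have hdet2 : ∀ i, i ≠ 0 → i ≠ 1 → 2 * (γ i * ε i) ≠ 0 := fun i h0 h1 =>
      mul_ne_zero two_ne_zero (mul_ne_zero (hγ0 i h1) (hε0 i h0))
    have g2 := hdet2 2 (by decide) (by decide)
    have g3 := hdet2 3 (by decide) (by decide)
    have hnew := ih (n / 2) (by omega) (s 0) (s 1) hcop (hdeg 0) (hdeg 1)
      ![γ 2, γ 2, γ 3, γ 3] ![ε 2, -ε 2, ε 3, -ε 3] (by
        intro i j hij
        fin_cases i <;> fin_cases j <;> simp only [Fin.zero_eta, Fin.mk_one, Fin.reduceFinMk,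
          Matrix.cons_val_zero, Matrix.cons_val_one, Matrix.cons_val, ne_eq, not_true_eq_false,
          Fin.isValue] at hij ⊢
        · intro h
          apply g2
          linear_combination -h
        · exact h23.1
        · intro h
          apply h23.2
          linear_combination -h
        · intro h
          apply g2
          linear_combination h
        · intro h
          apply h23.2
          linear_combination h
        · intro h
          apply h23.1
          linear_combination -h
        · intro h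
          apply h23.1
          linear_combination -h
        · intro h
          apply h23.2
          linear_combination -h
        · intro h
          apply g3
          linear_combination -h
        · intro h
          apply h23.2
          linear_combination h
        · intro h
          apply h23.1
          linear_combination h
        · intro h
          apply g3
          linear_combination h) (by
        intro i
        fin_cases i
        · exact (hfac 2 (by decide) (by decide)).1
        · exact (hfac 2 (by decide) (by decide)).2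
        · exact (hfac 3 (by decide) (by decide)).1
        · exact (hfac 3 (by decide) (by decide)).2)
    -- back
    have hconst : ∀ i : Fin 4, i = 0 ∨ i = 1 → (C (a i) * U + C (b i) * W).natDegree = 0 := by
      rintro i (rfl | rfl)
      · rw [hs, natDegree_pow, hnew.1]
      · rw [hs, natDegree_pow, hnew.2]
    obtain ⟨c0, hc0⟩ := natDegree_eq_zero.1 (hconst 0 (Or.inl rfl))
    obtain ⟨c1, hc1⟩ := natDegree_eq_zero.1 (hconst 1 (Or.inr rfl))
    have hinv : C δ⁻¹ * (C (a 0) * C (b 1) - C (b 0) * C (a 1)) = (1 : K[X]) := by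
      rw [← C_mul, ← C_mul, ← C_sub, ← C_mul, ← hδ, inv_mul_cancel₀ h01, C_1]
    have hUc : U = C (δ⁻¹ * (b 1 * c0 - b 0 * c1)) := by
      simp only [C_mul, C_sub]
      rw [hc0, hc1]
      linear_combination -U * hinv
    have hWc : W = C (δ⁻¹ * (a 0 * c1 - a 1 * c0)) := by
      simp only [C_mul, C_sub]
      rw [hc0, hc1]
      linear_combination -W * hinv
    exact ⟨by rw [hUc, natDegree_C], by rw [hWc, natDegree_C]⟩

/-- a square root of a polynomial which is a rational function is a polynomial -/
theorem sqrt_poly {z : RatFunc K} {P : K[X]} (h : z ^ 2 = algebraMap K[X] (RatFunc K) P) :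
    ∃ s : K[X], z = algebraMap K[X] (RatFunc K) s ∧ P = s ^ 2 := by
  obtain ⟨s, hs⟩ := IsIntegrallyClosed.exists_algebraMap_eq_of_isIntegral_pow (R := K[X])
    (K := RatFunc K) (x := z) (n := 2) (by norm_num) (by rw [h]; exact isIntegral_algebraMap)
  refine ⟨s, hs.symm, ?_⟩
  apply RatFunc.algebraMap_injective K
  rw [map_pow, hs, h]

/-- **No rational parametrisation** of `y ^ 2 = f(x)`. -/
theorem hyper_const' [IsAlgClosed K] [CharZero K] {f : K[X]} (hf : f.Separable)
    (h3 : 3 ≤ f.natDegree) (u v : RatFunc K) (h : v ^ 2 = aeval u f) :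
    ∃ a b : K, u = RatFunc.C a ∧ v = RatFunc.C b := by
  classical
  set T := f.roots.toFinset with hT
  have hnd : f.roots.Nodup := nodup_roots hf
  have hTval : T.val = f.roots := by
    rw [hT, Multiset.toFinset_val, Multiset.dedup_eq_self.2 hnd]
  have hsp : f.Splits := IsAlgClosed.splits f
  have hcard : T.card = f.natDegree := by
    rw [Finset.card_def, hTval]
    exact hsp.natDegree_eq_card_roots.symm
  have hf0 : f ≠ 0 := by
    intro h0
    rw [h0, natDegree_zero] at h3
    omega
  have hprod : f = C f.leadingCoeff * ∏ α ∈ T, (X - C α) := by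
    have h1 := hsp.eq_prod_roots
    conv_lhs => rw [h1]
    congr 1
    rw [Finset.prod_eq_multiset_prod, hTval]
  set a := f.leadingCoeff with ha
  have ha0 : a ≠ 0 := leadingCoeff_ne_zero.2 hf0
  let ι := algebraMap K[X] (RatFunc K)
  have hinj : Function.Injective ι := RatFunc.algebraMap_injective K
  have hι : ∀ q, algebraMap K[X] (RatFunc K) q = ι q := fun q => rfl
  set U := u.num with hU
  set W := u.denom with hW
  have hW0 : W ≠ 0 := u.denom_ne_zero
  have hιW : ι W ≠ 0 := (map_ne_zero_iff ι hinj).2 hW0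
  have hu : u = ι U / ι W := (u.num_div_denom).symm
  have hcop : IsCoprime U W := u.isCoprime_num_denom
  have hC : ∀ c : K, algebraMap K (RatFunc K) c = ι (C c) := by
    intro c
    rw [IsScalarTower.algebraMap_apply K K[X] (RatFunc K)]
    rfl
  have hval : aeval u f * ι W ^ T.card = ι (C a * ∏ α ∈ T, (U - C α * W)) := by
    conv_lhs => rw [hprod]
    rw [map_mul, map_prod, aeval_C, map_mul, map_prod, hC, mul_assoc, Finset.prod_congr rfl
      (fun α _ => (by rw [map_sub, aeval_X, aeval_C] : aeval u (X - C α) = u - algebraMap K _ α))]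
    congr 1
    rw [← Finset.prod_const, ← Finset.prod_mul_distrib]
    refine Finset.prod_congr rfl fun α _ => ?_
    rw [map_sub, map_mul, sub_mul, hC, hu, div_mul_cancel₀ _ hιW]
  -- the square
  obtain ⟨e, m, he, hm⟩ : ∃ e m : ℕ, e ≤ 1 ∧ T.card + e = m + m :=
    ⟨T.card % 2, (T.card + T.card % 2) / 2, by omega, by omega⟩
  have hsq : (v * ι W ^ m) ^ 2 = ι (C a * W ^ e * ∏ α ∈ T, (U - C α * W)) := by
    have h1 : (v * ι W ^ m) ^ 2 = v ^ 2 * ι W ^ (m + m) := by ring
    rw [h1, ← hm, h, pow_add, ← mul_assoc, hval]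
    simp only [map_mul, map_pow]
    ring
  obtain ⟨s, -, hs⟩ := sqrt_poly hsq
  -- the members of the pencil are squares
  obtain ⟨a', ha'⟩ := IsAlgClosed.exists_pow_nat_eq a (n := 2) (by norm_num)
  have hmem : ∀ α ∈ T, ∃ w, U - C α * W = w ^ 2 := by
    intro α hα
    refine sq_of_mul (Q := C a * W ^ e * ∏ β ∈ T.erase α, (U - C β * W)) (s := s) ?_ ?_
    · refine IsCoprime.mul_right (IsCoprime.mul_right ?_ ?_) ?_
      · refine ⟨0, C a⁻¹, ?_⟩
        rw [zero_mul, zero_add, ← C_mul, inv_mul_cancel₀ ha0, C_1]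
      · have h1 := comb_coprime hcop (a := 1) (b := -α) (c := 0) (d := 1) (by simp)
        simp only [C_1, one_mul, C_0, zero_mul, zero_add, C_neg, neg_mul] at h1
        rw [← sub_eq_add_neg] at h1
        exact h1.pow_right
      · refine IsCoprime.prod_right fun β hβ => ?_
        have h1 := comb_coprime hcop (a := 1) (b := -α) (c := 1) (d := -β) (by
          have h2 : β ≠ α := Finset.ne_of_mem_erase hβ
          intro h3
          apply h2
          linear_combination -h3)
        simp only [C_1, one_mul, C_neg, neg_mul] at h1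
        rw [← sub_eq_add_neg, ← sub_eq_add_neg] at h1
        exact h1
    · rw [← hs, ← Finset.mul_prod_erase T (fun α => U - C α * W) hα]
      ring
  have hconst : U.natDegree = 0 ∧ W.natDegree = 0 := by
    rcases Nat.lt_or_ge 3 T.card with h4 | h4
    · obtain ⟨T', hT', hc'⟩ := Finset.exists_subset_card_eq (show 4 ≤ T.card by omega)
      let eq := T'.equivFinOfCardEq hc'
      refine four_sq (max U.natDegree W.natDegree) U W hcop (le_max_left _ _) (le_max_right _ _)
        (fun _ => 1) (fun i => -(eq.symm i : K)) (fun i j hij h5 => ?_) fun i => ?_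
      · apply hij
        have h6 : (eq.symm i : K) = eq.symm j := by linear_combination h5
        exact eq.symm.injective (Subtype.ext h6)
      · obtain ⟨w, hw⟩ := hmem _ (hT' (eq.symm i).2)
        refine ⟨w, ?_⟩
        rw [← hw, C_1, one_mul, C_neg]
        ring
    · have hc3 : T.card = 3 := by omega
      have he1 : e = 1 := by omega
      let eq := T.equivFinOfCardEq hc3
      have hWsq : ∃ w, W = w ^ 2 := by
        refine sq_of_mul (Q := C a * ∏ β ∈ T, (U - C β * W)) (s := s) ?_ ?_
        · refine IsCoprime.mul_right ?_ ?_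
          · refine ⟨0, C a⁻¹, ?_⟩
            rw [zero_mul, zero_add, ← C_mul, inv_mul_cancel₀ ha0, C_1]
          · refine IsCoprime.prod_right fun β hβ => ?_
            have h1 := comb_coprime hcop (a := 0) (b := 1) (c := 1) (d := -β) (by simp)
            simp only [C_1, one_mul, C_0, zero_mul, zero_add, C_neg, neg_mul] at h1
            rw [← sub_eq_add_neg] at h1
            exact h1
        · rw [← hs, he1]
          ring
      refine four_sq (max U.natDegree W.natDegree) U W hcop (le_max_left _ _) (le_max_right _ _)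
        (Fin.snoc (fun _ : Fin 3 => (1 : K)) 0) (Fin.snoc (fun i : Fin 3 => -(eq.symm i : K)) 1)
        (fun i j => ?_) fun i => ?_
      · refine Fin.lastCases ?_ (fun i => ?_) i <;> refine Fin.lastCases ?_ (fun j => ?_) j
        · intro hij
          exact absurd rfl hij
        · intro _
          simp only [Fin.snoc_last, Fin.snoc_castSucc]
          simp
        · intro _
          simp only [Fin.snoc_last, Fin.snoc_castSucc]
          simp
        · intro hij h5
          apply hij
          simp only [Fin.snoc_castSucc] at h5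
          have h6 : (eq.symm i : K) = eq.symm j := by linear_combination h5
          rw [eq.symm.injective (Subtype.ext h6)]
      · refine Fin.lastCases ?_ (fun i => ?_) i
        · simp only [Fin.snoc_last]
          obtain ⟨w, hw⟩ := hWsq
          refine ⟨w, ?_⟩
          rw [← hw, C_1, one_mul, C_0, zero_mul, zero_add]
        · simp only [Fin.snoc_castSucc]
          obtain ⟨w, hw⟩ := hmem _ (eq.symm i).2
          refine ⟨w, ?_⟩
          rw [← hw, C_1, one_mul, C_neg]
          ring
  obtain ⟨c, hc⟩ := natDegree_eq_zero.1 hconst.1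
  obtain ⟨c', hc'⟩ := natDegree_eq_zero.1 hconst.2
  have hc'0 : c' ≠ 0 := by
    rintro rfl
    rw [C_0] at hc'
    exact hW0 hc'.symm
  have huc : u = RatFunc.C (c / c') := by
    rw [hu, ← hc, ← hc']
    change algebraMap K[X] (RatFunc K) (C c) / algebraMap K[X] (RatFunc K) (C c') = _
    rw [RatFunc.algebraMap_C, RatFunc.algebraMap_C, map_div₀]
  refine ⟨c / c', ?_⟩
  have hv : v ^ 2 = RatFunc.C (f.eval (c / c')) := by
    rw [h, huc]
    have h1 := Polynomial.hom_eval₂ f (RingHom.id K) (RatFunc.C : K →+* RatFunc K) (c / c')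
    rw [Polynomial.eval₂_id] at h1
    rw [h1, Polynomial.aeval_def]
    rfl
  obtain ⟨b, hb⟩ := IsAlgClosed.exists_pow_nat_eq (f.eval (c / c')) (n := 2) (by norm_num)
  rw [← hb, map_pow, sq_eq_sq_iff_eq_or_eq_neg] at hv
  rcases hv with hv | hv
  · exact ⟨b, huc, hv⟩
  · exact ⟨-b, huc, by rw [hv, map_neg]⟩

theorem aeval_hyp {K S : Type} [Field K] [CommRing S] [Algebra K S] (f : K[X]) (x y : S) :
    MvPolynomial.aeval ![x, y] (MvPolynomial.X 1 ^ 2 -
      Polynomial.aeval (MvPolynomial.X 0 : MvPolynomial (Fin 2) K) f) = y ^ 2 - aeval x f := by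
  have h1 : (MvPolynomial.aeval ![x, y]) (Polynomial.aeval (MvPolynomial.X 0 :
      MvPolynomial (Fin 2) K) f) = aeval x f := by
    rw [← Polynomial.aeval_algHom_apply, MvPolynomial.aeval_X]
    rfl
  rw [map_sub, map_pow, MvPolynomial.aeval_X, h1]
  rfl

theorem hyp_deg {K : Type} [Field K] {f : K[X]} {n : ℕ} (hn : f.natDegree ≤ n) (h2 : 2 ≤ n) :
    (MvPolynomial.X 1 ^ 2 - Polynomial.aeval (MvPolynomial.X 0 : MvPolynomial (Fin 2) K)
      f).totalDegree ≤ n := by
  refine (MvPolynomial.totalDegree_sub _ _).trans (max_le ?_ ?_)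
  · refine (MvPolynomial.totalDegree_pow _ _).trans ?_
    rw [MvPolynomial.totalDegree_X]
    omega
  · rw [Polynomial.aeval_eq_sum_range]
    refine (MvPolynomial.totalDegree_finsetSum _ _).trans (Finset.sup_le fun i hi => ?_)
    refine (MvPolynomial.totalDegree_smul_le _ _).trans ?_
    rw [MvPolynomial.totalDegree_X_pow]
    have := Finset.mem_range.1 hi
    omega

/-- the curves over an arbitrary field of characteristic zero -/
theorem hyp_ratIn {K : Type} [Field K] [CharZero K] {f : K[X]} (hf : f.Separable)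
    (h3 : 3 ≤ f.natDegree) {D : ℕ} (hD : f.natDegree ≤ D) (E : Type) [Field E] [Algebra K E] :
    RatIn (N := 2) {hmg D (MvPolynomial.X 1 ^ 2 -
      Polynomial.aeval (MvPolynomial.X 0 : MvPolynomial (Fin 2) K) f)} {MvPolynomial.X 2} E := by
  let L := AlgebraicClosure E
  have hcz : CharZero L := charZero_of_injective_algebraMap
    ((algebraMap E L).comp (algebraMap K E)).injective
  have hno : NoParam (MvPolynomial.X 1 ^ 2 -
      Polynomial.aeval (MvPolynomial.X 0 : MvPolynomial (Fin 2) K) f) L := by
    intro u v huv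
    rw [aeval_hyp, sub_eq_zero] at huv
    refine hyper_const' (f := f.map (algebraMap K L)) (hf.map) (by rwa [natDegree_map]) u v ?_
    rw [huv, Polynomial.aeval_map_algebraMap]
  have hL := hno.ratIn (hyp_deg hD (by omega))
  intro p hp
  have hmap : ∀ F : MvPolynomial (Fin (2 + 1)) K,
      MvPolynomial.aeval (fun j => (p j).map (algebraMap E L)) F =
        (MvPolynomial.aeval p F).map (algebraMap E L) := by
    intro F
    have h1 := MvPolynomial.comp_aeval_apply (f := p)
      (Polynomial.mapAlgHom (IsScalarTower.toAlgHom K E L)) F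
    exact h1.symm
  rcases hL (fun j => (p j).map (algebraMap E L)) (fun F hF => by
    rw [hmap, hp F hF, Polynomial.map_zero]) with h1 | h1
  · left
    intro i j m n
    have h2 := h1 i j m n
    simp only [Polynomial.coeff_map] at h2
    rw [← map_mul, ← map_mul] at h2
    exact (algebraMap E L).injective h2
  · right
    intro G hG
    have h2 := h1 G hG
    rw [hmap] at h2
    exact (Polynomial.map_eq_zero _).1 h2

end Pool.Agent.Q183.UH
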