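import Pool.Agent.Q183.UH.Win

/-!
The ultraproduct argument.
-/

set_option autoImplicit false

namespace Pool.Agent.Q183.UH

open Filter Pool.Agent.TH143.HE Pool.Agent.Q183.RS MvPolynomial Cardinal
open scoped LinearAlgebra.Projectivization

variable {K : ℕ → Type} [∀ n, Field (K n)] {N : ℕ}

/-- two vectors are proportional -/
def Par {L : Type} [Field L] (v w : Fin (N + 1) → L) : Prop := ∀ i j, v i * w j = v j * w i

theorem Par.trans {L : Type} [Field L] {u v w : Fin (N + 1) → L} (hv : v ≠ 0) (h1 : Par u v)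
    (h2 : Par v w) : Par u w := by
  obtain ⟨c, hc⟩ := Function.ne_iff.1 hv
  rw [Pi.zero_apply] at hc
  intro i j
  apply mul_right_cancel₀ hc
  have e1 := h1 i c
  have e2 := h1 j c
  have e3 := h2 i j
  have e4 := h2 j c
  have e5 := h2 i c
  calc u i * w j * v c = u i * v c * w j := by ring
    _ = u c * (v i * w j) := by rw [e1]; ring
    _ = u c * (v j * w i) := by rw [e3]
    _ = u j * v c * w i := by rw [e2]; ring
    _ = u j * w i * v c := by ring

theorem Par.symm {L : Type} [Field L] {u v : Fin (N + 1) → L} (h : Par u v) : Par v u := by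
  intro i j
  have := h j i
  linear_combination this

theorem Par.refl {L : Type} [Field L] (u : Fin (N + 1) → L) : Par u u := fun i j => by ring

theorem Par.eq {L : Type} [Field L] {u v : Fin (N + 1) → L} (hu : u ≠ 0) (hv : v ≠ 0)
    (h : Par u v) : Projectivization.mk L u hu = Projectivization.mk L v hv := by
  obtain ⟨c, hc⟩ := Function.ne_iff.1 hv
  rw [Pi.zero_apply] at hc
  rw [Projectivization.mk_eq_mk_iff']
  refine ⟨u c / v c, ?_⟩
  funext i
  rw [Pi.smul_apply, smul_eq_mul, div_mul_eq_mul_div, div_eq_iff hc]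
  exact (h i c).symm

section

variable {U : Ultrafilter ℕ}

/-- the point of the ultraproduct given by a choice of indices -/
noncomputable def XX (U : Ultrafilter ℕ) (x : ∀ n, ℕ → Fin (N + 1) → K n) (t : ℕ → ℕ)
    (j : Fin (N + 1)) : UK K U := mk K U fun n => x n (t n) j

/-- the element of the ultraproduct given by a choice of indices -/
noncomputable def TT (K : ℕ → Type) [∀ n, Field (K n)] (U : Ultrafilter ℕ) (t : ℕ → ℕ) : UK K U :=
  mk K U fun n => ((t n : ℕ) : K n)

theorem XX_congr {x : ∀ n, ℕ → Fin (N + 1) → K n} {t t' : ℕ → ℕ}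
    (h : ∀ᶠ n in (U : Filter ℕ), t n = t' n) : XX U x t = XX U x t' := by
  funext j
  unfold XX
  rw [mk_eq]
  filter_upwards [h] with n hn
  rw [hn]

theorem XX_ne {x : ∀ n, ℕ → Fin (N + 1) → K n} (hne : ∀ n m, x n m ≠ 0) (t : ℕ → ℕ) :
    XX U x t ≠ 0 := by
  intro h
  have h1 : ∀ j, ∀ᶠ n in (U : Filter ℕ), x n (t n) j = 0 := fun j => mk_zero.1 (congrFun h j)
  obtain ⟨n, hn⟩ := (eventually_all.2 h1).exists
  exact hne n (t n) (funext hn)

theorem XX_par {x : ∀ n, ℕ → Fin (N + 1) → K n} {t t' : ℕ → ℕ} :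
    Par (XX U x t) (XX U x t') ↔ ∀ᶠ n in (U : Filter ℕ), Par (x n (t n)) (x n (t' n)) := by
  constructor
  · intro h
    have h1 : ∀ i j, ∀ᶠ n in (U : Filter ℕ),
        x n (t n) i * x n (t' n) j = x n (t n) j * x n (t' n) i := by
      intro i j
      have h2 := h i j
      unfold XX at h2
      rw [← map_mul, ← map_mul, mk_eq] at h2
      exact h2
    filter_upwards [eventually_all.2 fun i => eventually_all.2 fun j => h1 i j] with n hn
    exact hn
  · intro h i j
    unfold XX
    rw [← map_mul, ← map_mul, mk_eq]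
    filter_upwards [h] with n hn
    exact hn i j

theorem XX_rec {x : ∀ n, ℕ → Fin (N + 1) → K n} {b R : ℕ} {j : Fin (N + 1)}
    {A : ℕ → Polynomial (∀ n, K n)}
    (hA : ∀ n m, b ≤ m → ∑ k ∈ Finset.range (R + 1), ((A k).map (ev K n)).eval (m : K n) *
      x n (m + k) j = 0) {t : ℕ → ℕ} (ht : ∀ᶠ n in (U : Filter ℕ), b ≤ t n) :
    ∑ k ∈ Finset.range (R + 1), ((A k).map (mk K U)).eval (TT K U t) *
      XX U x (fun n => t n + k) j = 0 := by
  have h1 : ∀ k, ((A k).map (mk K U)).eval (TT K U t) * XX U x (fun n => t n + k) j =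
      mk K U (fun n => ((A k).map (ev K n)).eval ((t n : ℕ) : K n) * x n (t n + k) j) := by
    intro k
    unfold TT XX
    rw [eval_mk, ← map_mul]
    rfl
  rw [Finset.sum_congr rfl fun k _ => h1 k, ← map_sum, mk_zero]
  filter_upwards [ht] with n hn
  rw [Finset.sum_apply]
  exact hA n (t n) hn

end

/-- **The contradiction.** -/
theorem contra [∀ n, CharZero (K n)] [∀ n, IsAlgClosed (K n)] (hK : ∀ n, #(K n) ≤ 𝔠)
    {s R b d : ℕ} (hRpos : 0 < R) {e : Fin s → ℕ}
    (F : ∀ n, Fin s → MvPolynomial (Fin (N + 1)) (K n)) (hF : ∀ n i, (F n i).IsHomogeneous (e i))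
    (hno : ∀ n, NoRat (Set.range (F n))) (x : ∀ n, ℕ → Fin (N + 1) → K n)
    (hne : ∀ n m, x n m ≠ 0) (hX : ∀ n m i, eval (x n m) (F n i) = 0)
    (α : ∀ n, Fin (N + 1) → ℕ → Polynomial (K n)) (hdeg : ∀ n j k, (α n j k).natDegree ≤ d)
    (hα : ∀ n j m, b ≤ m → ∑ k ∈ Finset.range (R + 1), (α n j k).eval (m : K n) *
      x n (m + k) j = 0) (μ L : ℕ → ℕ) (hb : ∀ n, b ≤ μ n)
    (hns0 : ∀ n m, μ n ≤ m → m < μ n + L n → ∀ j, (α n j 0).eval (m : K n) ≠ 0)
    (hnsR : ∀ n m, μ n ≤ m → m < μ n + L n → ∀ j, (α n j R).eval (m : K n) ≠ 0)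
    (hbig : ∀ n : ℕ, ((n : ℕ) : ℕ∞) < ((fun m => Projectivization.mk (K n) (x n m) (hne n m)) ''
      Set.Ico (μ n) (μ n + L n)).encard) : False := by
  classical
  let U : Ultrafilter ℕ := hyperfilter ℕ
  have hU : ∀ {p : ℕ → Prop}, (∀ᶠ n in atTop, p n) → ∀ᶠ n in (U : Filter ℕ), p n := fun h =>
    Nat.hyperfilter_le_atTop h
  have hL : ∀ n, 0 < L n := by
    intro n
    by_contra h0
    have h1 : L n = 0 := by omega
    have h2 := hbig n
    rw [h1, add_zero, Set.Ico_self, Set.image_empty, Set.encard_empty] at h2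
    exact absurd h2 (by simp)
  -- lifts
  choose Q hQhom hQ using fun i => exists_liftM (e i) (fun n => F n i) fun n => hF n i
  choose A hA using fun (j : Fin (N + 1)) (k : ℕ) => exists_lift d (fun n => α n j k)
    fun n => hdeg n j k
  let FF : Set (MvPolynomial (Fin (N + 1)) (UK K U)) :=
    Set.range fun i => MvPolynomial.map (mk K U) (Q i)
  have hFF : ∀ F ∈ FF, ∃ e, F.IsHomogeneous e := by
    rintro _ ⟨i, rfl⟩
    exact ⟨e i, (hQhom i).map _⟩
  have hnoU : NoRat FF := by
    refine noRat_ultra fun n => ?_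
    have h1 : (fun i => MvPolynomial.map (ev K n) (Q i)) = F n := funext fun i => hQ i n
    rw [h1]
    exact hno n
  have hXX : ∀ (t : ℕ → ℕ), ∀ F ∈ FF, eval (XX U x t) F = 0 := by
    rintro t _ ⟨i, rfl⟩
    have h1 := eval_mkM (U := U) (Q i) (fun n => x n (t n))
    have h2 : (fun j => mk K U fun n => x n (t n) j) = XX U x t := rfl
    rw [h2] at h1
    rw [h1, mk_zero]
    refine Eventually.of_forall fun n => ?_
    rw [hQ i n]
    exact hX n (t n) i
  have hrec : ∀ (j : Fin (N + 1)) (t : ℕ → ℕ), (∀ᶠ n in (U : Filter ℕ), b ≤ t n) →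
      ∑ k ∈ Finset.range (R + 1), ((A j k).map (mk K U)).eval (TT K U t) *
        XX U x (fun n => t n + k) j = 0 := by
    intro j t ht
    refine XX_rec (fun n m hm => ?_) ht
    simp only [hA]
    exact hα n j m hm
  have hev0 : ∀ (j : Fin (N + 1)) (t : ℕ → ℕ), (∀ᶠ n in (U : Filter ℕ), μ n ≤ t n ∧
      t n < μ n + L n) → ((A j 0).map (mk K U)).eval (TT K U t) ≠ 0 := by
    intro j t ht
    unfold TT
    rw [eval_mk, mk_ne]
    filter_upwards [ht] with n hn
    rw [hA]
    exact hns0 n (t n) hn.1 hn.2 j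
  have hevR : ∀ (j : Fin (N + 1)) (t : ℕ → ℕ), (∀ᶠ n in (U : Filter ℕ), μ n ≤ t n ∧
      t n < μ n + L n) → ((A j R).map (mk K U)).eval (TT K U t) ≠ 0 := by
    intro j t ht
    unfold TT
    rw [eval_mk, mk_ne]
    filter_upwards [ht] with n hn
    rw [hA]
    exact hnsR n (t n) hn.1 hn.2 j
  -- the window at the left end
  obtain ⟨M, i0, hM, hwin⟩ := window (card_le hK) hFF hnoU
    (y := fun i => XX U x fun n => μ n + i) (fun i => XX_ne hne _) (fun j => by
      refine ⟨R, fun k => ((A j k).map (mk K U)).comp (Polynomial.X + Polynomial.C (TT K U μ)),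
        ⟨0, Nat.zero_le _, comp_ne ?_ _⟩, fun i => ?_⟩
      · intro h0
        refine hev0 j μ (Eventually.of_forall fun n => ⟨le_rfl, by have := hL n; omega⟩) ?_
        rw [h0, Polynomial.eval_zero]
      · have h1 := hrec j (fun n => μ n + i) (Eventually.of_forall fun n => by
          have := hb n
          omega)
        rw [← h1]
        refine Finset.sum_congr rfl fun k _ => ?_
        rw [Polynomial.eval_comp, Polynomial.eval_add, Polynomial.eval_X, Polynomial.eval_C]
        have h2 : TT K U (fun n => μ n + i) = (i : UK K U) + TT K U μ := by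
          unfold TT
          have h3 : (i : UK K U) = mk K U (fun n => (i : K n)) := by
            rw [← map_natCast (mk K U)]
            rfl
          rw [h3, ← map_add]
          congr 1
          funext n
          rw [Pi.add_apply]
          push_cast
          ring
        have h3 : (fun n => μ n + i + k) = fun n => μ n + (i + k) := by
          funext n
          ring
        rw [h2, h3]) (fun i => hXX _)
  let Good : ℕ → ℕ → Prop := fun n t => Par (x n (t + M)) (x n t)
  have hG : ∀ i, i0 ≤ i → ∀ᶠ n in (U : Filter ℕ), Good n (μ n + i) := by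
    intro i hi
    have h1 := XX_par.1 (hwin i hi)
    filter_upwards [h1] with n hn
    simp only [Good]
    rw [add_assoc]
    exact hn
  let Bd : ℕ → ℕ → Prop := fun n t => μ n + i0 ≤ t ∧ t + M < μ n + L n ∧ ¬ Good n t
  have hBad : ∀ᶠ n in (U : Filter ℕ), ∃ t, Bd n t := by
    rw [← not_not (a := ∀ᶠ n in (U : Filter ℕ), ∃ t, Bd n t), ← Ultrafilter.eventually_not]
    intro hcon
    obtain ⟨n, hn1, hn2⟩ := (hcon.and (hU (eventually_ge_atTop (i0 + M)))).exists
    have hgood : ∀ t, μ n + i0 ≤ t → t + M < μ n + L n → Good n t := by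
      intro t h1 h2
      by_contra h3
      exact hn1 ⟨t, h1, h2, h3⟩
    have hval : ∀ t, μ n ≤ t → t < μ n + L n → ∃ t', μ n ≤ t' ∧ t' < μ n + (i0 + M) ∧
        Projectivization.mk (K n) (x n t) (hne n t) =
          Projectivization.mk (K n) (x n t') (hne n t') := by
      intro t
      induction t using Nat.strong_induction_on with
      | _ t ih =>
        intro h1 h2
        by_cases h3 : t < μ n + (i0 + M)
        · exact ⟨t, h1, h3, rfl⟩
        · obtain ⟨t', h4, h5, h6⟩ := ih (t - M) (by omega) (by omega) (by omega)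
          refine ⟨t', h4, h5, ?_⟩
          rw [← h6]
          have h7 := hgood (t - M) (by omega) (by omega)
          simp only [Good] at h7
          rw [Nat.sub_add_cancel (by omega)] at h7
          exact h7.eq _ _
    have h1 : ((fun m => Projectivization.mk (K n) (x n m) (hne n m)) ''
        Set.Ico (μ n) (μ n + L n)) ⊆ (fun m => Projectivization.mk (K n) (x n m) (hne n m)) ''
        Set.Ico (μ n) (μ n + (i0 + M)) := by
      rintro _ ⟨t, ht, rfl⟩
      obtain ⟨t', h4, h5, h6⟩ := hval t ht.1 ht.2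
      exact ⟨t', ⟨h4, h5⟩, h6.symm⟩
    have h2 := (Set.encard_le_encard h1).trans (Set.encard_image_le _ _)
    have h3 : (Set.Ico (μ n) (μ n + (i0 + M))).encard = ((i0 + M : ℕ) : ℕ∞) := by
      rw [← Finset.coe_Ico, Set.encard_coe_eq_coe_finsetCard, Nat.card_Ico]
      congr 1
      omega
    rw [h3] at h2
    have h4 := (hbig n).trans_le h2
    have h5 : n < i0 + M := by exact_mod_cast h4
    omega
  -- the first bad index
  let κ : ℕ → ℕ := fun n => if h : ∃ t, Bd n t then Nat.find h else 0
  have hκ : ∀ᶠ n in (U : Filter ℕ), Bd n (κ n) ∧ ∀ t, μ n + i0 ≤ t → t < κ n → Good n t := by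
    filter_upwards [hBad] with n hn
    have h1 : κ n = Nat.find hn := dif_pos hn
    rw [h1]
    refine ⟨Nat.find_spec hn, fun t h2 h3 => ?_⟩
    by_contra h4
    refine Nat.find_min hn h3 ⟨h2, ?_, h4⟩
    have := (Nat.find_spec hn).2.1
    omega
  have hfar : ∀ l, ∀ᶠ n in (U : Filter ℕ), μ n + i0 + l < κ n := by
    intro l
    have h1 : ∀ᶠ n in (U : Filter ℕ), ∀ i ∈ Finset.range (l + 1), Good n (μ n + (i0 + i)) := by
      rw [Finset.eventually_all]
      intro i _
      exact hG (i0 + i) (by omega)
    filter_upwards [hκ, h1] with n h2 h3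
    by_contra h4
    have h5 := h2.1.1
    have h6 := h3 (κ n - (μ n + i0)) (Finset.mem_range.2 (by omega))
    have h7 : μ n + (i0 + (κ n - (μ n + i0))) = κ n := by omega
    rw [h7] at h6
    exact h2.1.2.2 h6
  -- the window at the first bad index
  let τ : ℕ → ℕ → ℕ := fun l n => κ n + M - l
  have hτ : ∀ l, ∀ᶠ n in (U : Filter ℕ), μ n ≤ κ n + M - l - R ∧
      κ n + M - l - R < μ n + L n ∧ l + R ≤ κ n := by
    intro l
    filter_upwards [hfar (l + R), hκ] with n h1 h2
    have := h2.1.2.1
    omega
  have hTT : ∀ l, TT K U (fun n => κ n + M - l - R) =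
      TT K U κ + (M : UK K U) - (R : UK K U) - (l : UK K U) := by
    intro l
    unfold TT
    have h3 : ∀ i : ℕ, (i : UK K U) = mk K U (fun n => (i : K n)) := by
      intro i
      rw [← map_natCast (mk K U)]
      rfl
    rw [h3 M, h3 R, h3 l, ← map_add, ← map_sub, ← map_sub, mk_eq]
    filter_upwards [hτ l] with n hn
    have h4 : κ n + M = (κ n + M - l - R) + l + R := by omega
    have h5 : ((κ n : ℕ) : K n) + (M : K n) = ((κ n + M - l - R : ℕ) : K n) + (l : K n) +
        (R : K n) := by
      have h6 : ((κ n + M : ℕ) : K n) = (((κ n + M - l - R) + l + R : ℕ) : K n) := by rw [← h4]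
      push_cast at h6
      exact h6
    simp only [Pi.add_apply, Pi.sub_apply]
    rw [h5]
    ring
  let cc : UK K U := TT K U κ + (M : UK K U) - (R : UK K U)
  let β : Fin (N + 1) → ℕ → ℕ → UK K U := fun j k l =>
    ((A j (R - k)).map (mk K U)).eval (cc - (l : UK K U))
  let u : Fin (N + 1) → ℕ → UK K U := fun j l => XX U x (τ l) j
  have hβ : ∀ j k, (fun l => β j k l) ∈ polyB (UK K U) := by
    intro j k
    refine ⟨((A j (R - k)).map (mk K U)).comp (Polynomial.C cc - Polynomial.X), fun l => ?_⟩
    rw [Polynomial.eval_comp, Polynomial.eval_sub, Polynomial.eval_C, Polynomial.eval_X]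
  have hβ0 : ∀ j l, β j 0 l ≠ 0 := by
    intro j l
    simp only [β, cc, Nat.sub_zero]
    rw [← hTT l]
    refine hevR j _ ?_
    filter_upwards [hτ l] with n hn
    exact ⟨hn.1, hn.2.1⟩
  have hβR : ∀ j l, β j R l ≠ 0 := by
    intro j l
    simp only [β, cc, Nat.sub_self]
    rw [← hTT l]
    refine hev0 j _ ?_
    filter_upwards [hτ l] with n hn
    exact ⟨hn.1, hn.2.1⟩
  have hu : ∀ j l, ∑ k ∈ Finset.range (R + 1), β j k l * u j (l + k) = 0 := by
    intro j l
    have h1 := hrec j (fun n => κ n + M - l - R) (by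
      filter_upwards [hτ l] with n hn
      have := hb n
      omega)
    rw [hTT l] at h1
    rw [← Finset.sum_range_reflect] at h1
    rw [← h1]
    refine Finset.sum_congr rfl fun k hk => ?_
    have h2 := Finset.mem_range.1 hk
    have h3 : R + 1 - 1 - k = R - k := by omega
    rw [h3]
    have h4 : u j (l + k) = XX U x (fun n => κ n + M - l - R + (R - k)) j := by
      refine congrFun (XX_congr ?_) j
      filter_upwards [hτ l] with n hn
      simp only [τ]
      omega
    rw [h4]
  -- proportional vectors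
  have hstep : ∀ l, 1 ≤ l → Par (fun j => u j l) (fun j => u j (l + M)) := by
    intro l hl
    have h1 : Par (XX U x (τ l)) (XX U x (τ (l + M))) := by
      rw [XX_par]
      filter_upwards [hκ, hfar l] with n h2 h3
      have h4 := h2.2 (κ n - l) (by omega) (by omega)
      simp only [Good] at h4
      have h5 : κ n - l + M = τ l n := by
        simp only [τ]
        omega
      have h6 : κ n - l = τ (l + M) n := by
        simp only [τ]
        omega
      rw [h5, h6] at h4
      exact h4
    exact h1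
  have hune : ∀ l, (fun j => u j l) ≠ 0 := fun l => XX_ne hne _
  have hall : ∀ l, 1 ≤ l → Par (fun j => u j (l * M)) (fun j => u j M) := by
    intro l hl
    induction l, hl using Nat.le_induction with
    | base =>
      rw [one_mul]
      exact Par.refl _
    | succ l hl ih =>
      have h1 := hstep (l * M) (by nlinarith)
      have h2 : (l + 1) * M = l * M + M := by ring
      rw [h2]
      exact (h1.symm).trans (hune _) ih
  obtain ⟨j0, hj0⟩ := Function.ne_iff.1 (hune M)
  rw [Pi.zero_apply] at hj0
  have hzero : ∀ a, u j0 M * u a 0 = u a M * u j0 0 := by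
    intro a
    have h1 := rigid_seq hRpos hβ hβ0 hβR hu M
      (fun j => algebraMap (UK K U) (ℕ → UK K U)
        ((if j = a then u j0 M else 0) - if j = j0 then u a M else 0))
      (fun j => (polyB (UK K U)).algebraMap_mem _) (fun l hl => by
        have h2 : ∀ j, (algebraMap (UK K U) (ℕ → UK K U)
            ((if j = a then u j0 M else 0) - if j = j0 then u a M else 0)) l * u j (l * M) =
            (if j = a then u j0 M * u j (l * M) else 0) -
              if j = j0 then u a M * u j (l * M) else 0 := by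
          intro j
          change ((if j = a then u j0 M else 0) - if j = j0 then u a M else 0) * _ = _
          split_ifs <;> ring
        rw [Finset.sum_congr rfl fun j _ => h2 j, Finset.sum_sub_distrib, Finset.sum_ite_eq',
          Finset.sum_ite_eq', if_pos (Finset.mem_univ _), if_pos (Finset.mem_univ _)]
        have h3 := hall l hl a j0
        simp only at h3
        linear_combination h3)
    have h2 : ∀ j, (algebraMap (UK K U) (ℕ → UK K U)
        ((if j = a then u j0 M else 0) - if j = j0 then u a M else 0)) 0 * u j 0 =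
        (if j = a then u j0 M * u j 0 else 0) - if j = j0 then u a M * u j 0 else 0 := by
      intro j
      change ((if j = a then u j0 M else 0) - if j = j0 then u a M else 0) * _ = _
      split_ifs <;> ring
    rw [Finset.sum_congr rfl fun j _ => h2 j, Finset.sum_sub_distrib, Finset.sum_ite_eq',
      Finset.sum_ite_eq', if_pos (Finset.mem_univ _), if_pos (Finset.mem_univ _)] at h1
    linear_combination h1
  have hpar0 : Par (XX U x (τ 0)) (XX U x (τ M)) := by
    intro i j
    change u i 0 * u j M = u j 0 * u i M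
    apply mul_left_cancel₀ hj0
    have e1 := hzero i
    have e2 := hzero j
    linear_combination u j M * e1 - u i M * e2
  rw [XX_par] at hpar0
  obtain ⟨n, h1, h2⟩ := (hpar0.and hκ).exists
  apply h2.1.2.2
  simp only [τ, Nat.sub_zero, Nat.add_sub_cancel] at h1
  exact h1

end Pool.Agent.Q183.UH
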