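import Pool.Agent.Q183.UH.Fin3

/-!
Varieties which are not uniruled: finite sequences.
-/

set_option autoImplicit false

namespace Pool.Agent.Q183.UH

open Filter Pool.Agent.TH143.HE Pool.Agent.TH143.DE Pool.Agent.Q183.RS MvPolynomial Cardinal
open Pool.Agent.H533R3.SL
open scoped LinearAlgebra.Projectivization

variable {N : ℕ}

/-- the property over the field `K`, for finite sequences -/
def FinOff {k : Type} [Field k] (FF : Set (MvPolynomial (Fin (N + 1)) k)) (R d : ℕ)
    (G : MvPolynomial (Fin (N + 1)) k) (M C : ℕ) (K : Type) [Field K] [Algebra k K] : Prop :=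
  ∀ (l : ℕ) (x : ℕ → Fin (N + 1) → K), (∀ m, m < l → x m ≠ 0) →
    (∀ m, m < l → ∀ F ∈ FF, aeval (x m) F = 0) →
    (∀ j, RegRec R d l fun m => x m j) → ∀ t, C ≤ t → t + M + C ≤ l →
    GoodZ (fun t => aeval (x t) G = 0) x M t

/-- **Varieties which are not uniruled**, over fields with at most continuum many elements. -/
theorem coreNonFin {k : Type} [Field k] (FF : Set (MvPolynomial (Fin (N + 1)) k))
    (hprime : (Ideal.span FF).IsPrime) (hnu : ¬ Uniruled (Ideal.span FF)) (D : ℕ) (hD : 1 ≤ D)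
    (hFF : ∀ F ∈ FF, ∃ e, e ≤ D ∧ F.IsHomogeneous e) (R d : ℕ) :
    ∃ (G : MvPolynomial (Fin (N + 1)) k) (M C : ℕ), (∃ e, G.IsHomogeneous e) ∧
      G ∉ Ideal.span FF ∧ 0 < M ∧ ∀ (K : Type) [Field K] [CharZero K] [Algebra k K], #K ≤ 𝔠 →
        FinOff FF R d G M C K := by
  classical
  by_contra hcon
  push Not at hcon
  choose H hH1 hH2 hH3 using fun R => exists_hyper FF hprime hnu D hD hFF R
  choose E hE using hH1
  let GG : ℕ → MvPolynomial (Fin (N + 1)) k := fun n => ∏ R ∈ Finset.range n, H R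
  have hGGh : ∀ n, (GG n).IsHomogeneous (∑ R ∈ Finset.range n, E R) := fun n =>
    IsHomogeneous.prod _ _ _ fun R _ => hE R
  choose K i1 i2 i3 hK hbad using fun n : ℕ => hcon (GG n) n.factorial n ⟨_, hGGh n⟩ (by
      rw [hprime.prod_mem_iff]
      push Not
      intro R _
      exact hH2 R) n.factorial_pos
  unfold FinOff at hbad
  push Not at hbad
  choose L x hne hX hrec T hT1 hT2 hT3 using hbad
  let U : Ultrafilter ℕ := hyperfilter ℕ
  have hU : (U : Filter ℕ) ≤ atTop := Nat.hyperfilter_le_atTop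
  have hL0 : 0 < L 0 := by
    have := hT2 0
    have h2 := Nat.factorial_pos 0
    omega
  refine contraF (K := K) (RegRec.pos hL0 (hne 0 0 hL0) (hrec 0)) (U := U) hU x L hne hrec
    (fun n t => aeval (x n t) (GG n) = 0)
    (fun n t t' ht ht' h1 h2 => by
      rw [← ev_algebraMap] at h2 ⊢
      exact h1.eval_zero (hne n _ ht) ((hGGh n).map _) h2) T hT1 hT2 hT3
    fun hrecU hneU hbigL => ?_
  -- the fields
  let f0 : k →+* (∀ n, K n) := algebraMap k (∀ n, K n)
  obtain ⟨φ⟩ := exists_emb (UK K U) (card_le hK)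
  let _ : Algebra (UK K U) ℂ := φ.toAlgebra
  let _ : Algebra k ℂ := (φ.comp (algebraMap k (UK K U))).toAlgebra
  have htower : IsScalarTower k (UK K U) ℂ := IsScalarTower.of_algebraMap_eq fun _ => rfl
  have hmap : ∀ (n : ℕ) (F : MvPolynomial (Fin (N + 1)) k),
      MvPolynomial.map (ev K n) (MvPolynomial.map f0 F) =
        MvPolynomial.map (algebraMap k (K n)) F := by
    intro n F
    rw [MvPolynomial.map_map]
    rfl
  have hmapU : ∀ (F : MvPolynomial (Fin (N + 1)) k),
      MvPolynomial.map (mk K U) (MvPolynomial.map f0 F) =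
        MvPolynomial.map (algebraMap k (UK K U)) F := by
    intro F
    rw [MvPolynomial.map_map]
    rfl
  have hevU : ∀ (F : MvPolynomial (Fin (N + 1)) k) (t : ℕ → ℕ),
      eval (XX U x t) (MvPolynomial.map (algebraMap k (UK K U)) F) = 0 ↔
        ∀ᶠ n in (U : Filter ℕ), aeval (x n (t n)) F = 0 := by
    intro F t
    rw [← hmapU]
    have h1 := XX_eval (U := U) (x := x) (t := t)
      (G := fun n => MvPolynomial.map (algebraMap k (K n)) F) (Q := MvPolynomial.map f0 F)
      fun n => hmap n F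
    rw [h1]
    simp only [ev_algebraMap]
  let FU : Set (MvPolynomial (Fin (N + 1)) (UK K U)) :=
    (MvPolynomial.map (algebraMap k (UK K U))) '' FF
  have hFU : ∀ F ∈ FU, ∃ e, F.IsHomogeneous e := by
    rintro _ ⟨F, hF, rfl⟩
    obtain ⟨e, _, he⟩ := hFF F hF
    exact ⟨e, he.map _⟩
  let y : ℕ → Fin (N + 1) → UK K U := fun i => XX U x fun _ => i
  have hyX : ∀ m, ∀ F ∈ FU, eval (y m) F = 0 := by
    rintro m _ ⟨F, hF, rfl⟩
    refine (hevU F _).2 ?_
    filter_upwards [hbigL m] with n hn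
    exact hX n m hn F hF
  set R0 := (N + 1) * R with hR0
  obtain ⟨M, ρ, hM, hcl⟩ := classes (q := R) hFU
    (G := fun _ : Fin 1 => MvPolynomial.map (algebraMap k (UK K U)) (H R0)) (fun i c l h1 h2 => by
      rw [aeval_map_algebraMap]
      refine hH3 R0 ℂ c l (fun F hF => ?_) h2
      have h3 := h1 _ ⟨F, hF, rfl⟩
      rwa [aeval_map_algebraMap] at h3) (y := y) hneU hrecU hyX
  -- the degree of the curves
  let R1 : ℕ := (Finset.range M).sup (fun a => Finset.univ.sup fun j => (ρ a j).natDegree) + 1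
  have hR1 : ∀ a < M, ∀ j, (ρ a j).natDegree < R1 := by
    intro a ha j
    refine Nat.lt_succ_of_le ?_
    have h1 : (ρ a j).natDegree ≤ Finset.univ.sup fun j => (ρ a j).natDegree :=
      Finset.le_sup (f := fun j => (ρ a j).natDegree) (Finset.mem_univ j)
    exact h1.trans (Finset.le_sup (f := fun a => Finset.univ.sup fun j => (ρ a j).natDegree)
      (Finset.mem_range.2 ha))
  let G1 : MvPolynomial (Fin (N + 1)) k := H R0 * H R1
  have hG1 : G1.IsHomogeneous (E R0 + E R1) := (hE R0).mul (hE R1)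
  obtain ⟨i0, hi0⟩ := finish (G := fun _ : Fin 1 => MvPolynomial.map (algebraMap k (UK K U)) G1)
    (fun _ => ⟨_, hG1.map _⟩) (y := y) hM (ρ := ρ) (fun a ha => by
      have hz : ∀ {v : Fin (N + 1) → UK K U},
          eval v (MvPolynomial.map (algebraMap k (UK K U)) (H R0)) = 0 →
          eval v (MvPolynomial.map (algebraMap k (UK K U)) G1) = 0 := by
        intro v hv
        simp only [G1]
        rw [map_mul, map_mul, hv, zero_mul]
      rcases hcl a with h | h
      · left
        filter_upwards [h] with i hi l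
        exact hz (hi l)
      · right
        refine ⟨h, ?_⟩
        have h1 : ∀ F ∈ FF, aeval (ρ a) F = 0 := by
          intro F hF
          obtain ⟨e, _, he⟩ := hFF F hF
          have h2 := curve_on hM h (F := MvPolynomial.map (algebraMap k (UK K U)) F) (he.map _)
            (Eventually.of_forall fun i => by
              rw [aeval_alg, hyX _ _ ⟨F, hF, rfl⟩, map_zero])
          rwa [aeval_map_algebraMap] at h2
        by_cases hnc : NonConst (ρ a)
        · right
          intro l
          rw [aeval_map_algebraMap]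
          simp only [G1]
          rw [map_mul, poly_in_hyper (FF := FF) (H := H R1) (hH3 R1 ℂ) (hR1 a ha) h1 hnc, mul_zero]
        · exact Or.inl hnc)
  refine ⟨1, fun _ => E R0 + E R1, fun n _ => MvPolynomial.map (algebraMap k (K n)) G1, M, i0, hM,
    fun n _ => hG1.map _, fun i hi => ?_, ?_⟩
  · rcases hi0 i hi with h | h
    · have h1 : ∀ᶠ n in (U : Filter ℕ), aeval (x n i) G1 = 0 ∧ aeval (x n (i + M)) G1 = 0 :=
        ((hevU G1 _).1 (h 0).1).and ((hevU G1 _).1 (h 0).2)
      filter_upwards [h1] with n hn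
      refine Or.inl fun l => ⟨?_, ?_⟩
      · rw [ev_algebraMap]
        exact hn.1
      · rw [ev_algebraMap]
        exact hn.2
    · filter_upwards [XX_par.1 h] with n hn
      exact Or.inr hn
  · filter_upwards [hU (eventually_ge_atTop (R0 + R1 + 1))] with n hn t _ ht
    have h1 := ht 0
    rw [ev_algebraMap] at h1
    simp only [G1] at h1
    rw [map_mul, mul_eq_zero] at h1
    simp only [GG]
    rw [map_prod]
    rcases h1 with h1 | h1
    · exact Finset.prod_eq_zero (Finset.mem_range.2 (by omega)) h1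
    · exact Finset.prod_eq_zero (Finset.mem_range.2 (by omega)) h1

/-- **Varieties which are not uniruled**, over all extension fields. -/
theorem non_fin {k : Type} [Field k] (hk : #k ≤ 𝔠) (FF : Set (MvPolynomial (Fin (N + 1)) k))
    (hprime : (Ideal.span FF).IsPrime) (hnu : ¬ Uniruled (Ideal.span FF)) (D : ℕ) (hD : 1 ≤ D)
    (hFF : ∀ F ∈ FF, ∃ e, e ≤ D ∧ F.IsHomogeneous e) (R d : ℕ) :
    ∃ (G : MvPolynomial (Fin (N + 1)) k) (M C : ℕ), (∃ e, G.IsHomogeneous e) ∧
      G ∉ Ideal.span FF ∧ 0 < M ∧ ∀ (K : Type) [Field K] [CharZero K] [Algebra k K],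
        FinOff FF R d G M C K := by
  classical
  obtain ⟨G, M, C, hG1, hG2, hM, hB⟩ := coreNonFin FF hprime hnu D hD hFF R d
  refine ⟨G, M, C, hG1, hG2, hM, fun K _ _ _ l x hne hX hrec t ht1 ht2 => ?_⟩
  choose a had ha hreg using hrec
  let T : Set K := Set.range (algebraMap k K) ∪
    ((Set.range fun p : ℕ × Fin (N + 1) => x p.1 p.2) ∪
      Set.range fun p : Fin (N + 1) × ℕ × ℕ => (a p.1 p.2.1).coeff p.2.2)
  have hTc : #T ≤ 𝔠 := by
    refine (mk_union_le _ _).trans ?_
    have h1 : #(Set.range (algebraMap k K)) ≤ 𝔠 := mk_range_le.trans hk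
    have h2 : #(((Set.range fun p : ℕ × Fin (N + 1) => x p.1 p.2) ∪
      Set.range fun p : Fin (N + 1) × ℕ × ℕ => (a p.1 p.2.1).coeff p.2.2 : Set K)) ≤ 𝔠 :=
      (Cardinal.le_aleph0_iff_set_countable.2
        ((Set.countable_range _).union (Set.countable_range _))).trans aleph0_le_continuum
    exact (add_le_add h1 h2).trans (by rw [continuum_add_self])
  let K0 := Subfield.closure T
  have hK0 : #K0 ≤ 𝔠 := (Subfield.cardinalMk_closure_le_max T).trans
    (max_le hTc aleph0_le_continuum)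
  let ι : k →+* K0 := (algebraMap k K).codRestrict K0.toSubring fun z =>
    Subfield.subset_closure (Or.inl ⟨z, rfl⟩)
  let _ : Algebra k K0 := ι.toAlgebra
  let ψ : K0 →+* K := K0.subtype
  have hTr : ∀ z ∈ T, z ∈ ψ.range := fun z hz => ⟨⟨z, Subfield.subset_closure hz⟩, rfl⟩
  choose x' hx' using fun m j => hTr _ (Or.inr (Or.inl ⟨(m, j), rfl⟩) : x m j ∈ T)
  have hev : ∀ m (F : MvPolynomial (Fin (N + 1)) k), ψ (aeval (x' m) F) = aeval (x m) F := by
    intro m F
    have h1 : x m = fun j => ψ (x' m j) := funext fun j => (hx' m j).symm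
    rw [h1, aeval_def, eval₂_comp_left]
    rfl
  have key := hB K0 hK0 l x' (fun m hm h0 => hne m hm (by
      funext j
      rw [← hx', h0]
      simp)) (fun m hm F hF => ψ.injective (by rw [hev, hX m hm F hF, map_zero])) (fun j =>
      regRec_lift ψ (fun m => hx' m j) (had j) (ha j) (hreg j)
        fun k c => hTr _ (Or.inr (Or.inr ⟨(j, k, c), rfl⟩))) t ht1 ht2
  refine (goodZ_map ψ hx' fun t => ?_).1 key
  rw [← hev t G]
  exact (map_eq_zero ψ).symm

/-- for sequences of points with recurrences of order at most `R` -/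
theorem non_points {k : Type} [Field k] [CharZero k] (hk : #k ≤ 𝔠)
    (FF : Set (MvPolynomial (Fin (N + 1)) k))
    (hprime : (Ideal.span FF).IsPrime) (hnu : ¬ Uniruled (Ideal.span FF)) (D : ℕ) (hD : 1 ≤ D)
    (hFF : ∀ F ∈ FF, ∃ e, e ≤ D ∧ F.IsHomogeneous e) (R d : ℕ) :
    ∃ (G : MvPolynomial (Fin (N + 1)) k) (M C : ℕ), (∃ e, G.IsHomogeneous e) ∧
      G ∉ Ideal.span FF ∧ 0 < M ∧ ∀ (K : Type) [Field K] [Algebra k K] (l : ℕ)
        (P : ℕ → ℙ K (Fin (N + 1) → K)), FinPoints FF K R d l P → ∀ t, C ≤ t → t + M + C ≤ l →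
        P (t + M) = P t ∨ InZ {G} (P t) ∧ InZ {G} (P (t + M)) := by
  obtain ⟨G, M, C, hG1, hG2, hM, h⟩ := non_fin hk FF hprime hnu D hD hFF R d
  refine ⟨G, M, C + R, hG1, hG2, hM, fun K _ _ l P hP t ht1 ht2 => ?_⟩
  have hcz : CharZero K := charZero_of_injective_algebraMap (algebraMap k K).injective
  obtain ⟨x, hP, hX, hrec⟩ := hP
  have h3 := h K (l - R) x (fun m hm => (hP m (by omega)).1) (fun m hm => hX m (by omega))
    (fun j => (hrec j).reg) t (by omega) (by omega)
  have hGG' : ∀ G' ∈ ({G} : Set (MvPolynomial (Fin (N + 1)) k)), ∃ e, G'.IsHomogeneous e := by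
    rintro _ rfl
    exact hG1
  obtain ⟨n1, e1⟩ := hP t (by omega)
  by_cases hC : t + M < l
  · obtain ⟨n2, e2⟩ := hP (t + M) hC
    rw [e1, e2]
    unfold GoodZ at h3
    rcases h3 with h3 | h3
    · right
      rw [inZ_mk hGG', inZ_mk hGG']
      exact ⟨fun G' hG' => by rw [Set.mem_singleton_iff.1 hG']; exact h3.1,
        fun G' hG' => by rw [Set.mem_singleton_iff.1 hG']; exact h3.2⟩
    · exact Or.inl (h3.eq _ _)
  · exfalso
    have hR0 : R = 0 := by omega
    subst hR0
    apply (hP t (by omega)).1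
    funext j
    obtain ⟨q, a, hq, -, ha⟩ := hrec j
    have hq0 : q = 0 := by omega
    subst hq0
    have h5 := ha t (by omega)
    simp only [Finset.sum_range_succ, Finset.sum_range_zero, zero_add, Nat.add_zero] at h5
    exact (mul_eq_zero.1 h5.2.2).resolve_left h5.1

end Pool.Agent.Q183.UH
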