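import Pool.Agent.Q183.UH.Pair

/-!
Varieties which are not uniruled.
-/

set_option autoImplicit false

namespace Pool.Agent.Q183.UH

open Filter Pool.Agent.TH143.HE Pool.Agent.TH143.DE Pool.Agent.Q183.RS MvPolynomial Cardinal
open Pool.Agent.H533R3.SL
open scoped LinearAlgebra.Projectivization

variable {N : ℕ}

/-- a rational curve of degree less than `R` lies in the hypersurface of the curves with `R`
terms -/
theorem poly_in_hyper {k : Type} [Field k] [Algebra k ℂ] {FF : Set (MvPolynomial (Fin (N + 1)) k)}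
    {R : ℕ} {H : MvPolynomial (Fin (N + 1)) k}
    (hH : ∀ (c : Fin R → Fin (N + 1) → ℂ) (l : Fin R → ℕ),
        (∀ F ∈ FF, MvPolynomial.aeval (cur c l) F = 0) →
        (∃ i i', cur c l i * Polynomial.C (∑ j, c j i') ≠
          cur c l i' * Polynomial.C (∑ j, c j i)) →
        MvPolynomial.aeval (fun i => ∑ j, c j i) H = 0)
    {ρ : Fin (N + 1) → Polynomial ℂ} (hdeg : ∀ j, (ρ j).natDegree < R)
    (hρ : ∀ F ∈ FF, aeval ρ F = 0) (hnc : NonConst ρ) : aeval ρ H = 0 := by
  classical
  obtain ⟨j0, hj0⟩ : ∃ j, ρ j ≠ 0 := by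
    by_contra hcon
    push Not at hcon
    obtain ⟨j, k', u, v, h⟩ := hnc
    apply h
    rw [hcon j, hcon k']
  have hkey : ∀ u : ℂ, u ≠ 0 → (ρ j0).eval u ≠ 0 → (aeval ρ H : Polynomial ℂ).eval u = 0 := by
    intro u hu0 hu
    rw [aeval_eval']
    let c : Fin R → Fin (N + 1) → ℂ := fun i j => (ρ j).coeff i * u ^ (i : ℕ)
    have hcur : ∀ j, cur c (fun i => (i : ℕ)) j = (ρ j).comp (Polynomial.C u * Polynomial.X) := by
      intro j
      unfold Pool.Agent.H533R3.SL.cur
      rw [Polynomial.comp, Polynomial.eval₂_eq_sum_range' _ (hdeg j),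
        Finset.sum_range]
      refine Finset.sum_congr rfl fun i _ => ?_
      simp only [c]
      rw [mul_pow, ← Polynomial.C_pow, ← mul_assoc, ← Polynomial.C_mul]
    have hsum : ∀ j, ∑ i, c i j = (ρ j).eval u := by
      intro j
      rw [← cur_eval_one c (fun i => (i : ℕ)) j, hcur, Polynomial.eval_comp]
      simp
    have h1 := hH c (fun i => (i : ℕ)) (fun F hF => ?_) ?_
    · rw [← h1]
      congr 2
      funext j
      exact (hsum j).symm
    · apply Polynomial.funext
      intro v
      rw [aeval_eval', Polynomial.eval_zero]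
      have h2 : (fun j => (Pool.Agent.H533R3.SL.cur c (fun i => (i : ℕ)) j).eval v) =
          fun j => (ρ j).eval (u * v) := by
        funext j
        rw [hcur, Polynomial.eval_comp]
        simp
      rw [h2, ← aeval_eval', hρ F hF, Polynomial.eval_zero]
    · by_contra hcon
      push Not at hcon
      have h3 : ∀ i i' (v : ℂ), (ρ i).eval (u * v) * (ρ i').eval u =
          (ρ i').eval (u * v) * (ρ i).eval u := by
        intro i i' v
        have h4 := congrArg (Polynomial.eval v) (hcon i i')
        rw [hcur, hcur, hsum, hsum, Polynomial.eval_mul, Polynomial.eval_mul,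
          Polynomial.eval_comp, Polynomial.eval_comp] at h4
        simpa using h4
      obtain ⟨j, k', v, w, h⟩ := hnc
      apply h
      have e1 := h3 j j0 (v / u)
      have e2 := h3 k' j0 (v / u)
      have e3 := h3 j j0 (w / u)
      have e4 := h3 k' j0 (w / u)
      rw [mul_div_cancel₀ _ hu0] at e1 e2 e3 e4
      have h5 : (ρ j0).eval u * (ρ j0).eval u * ((ρ j).eval v * (ρ k').eval w -
          (ρ k').eval v * (ρ j).eval w) = 0 := by
        linear_combination e1 * ((ρ j0).eval u * (ρ k').eval w) +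
          (ρ j0).eval v * (ρ j).eval u * e4 - e2 * ((ρ j0).eval u * (ρ j).eval w) -
          (ρ j0).eval v * (ρ k').eval u * e3
      exact sub_eq_zero.1 ((mul_eq_zero.1 h5).resolve_left (mul_ne_zero hu hu))
  apply Polynomial.eq_zero_of_infinite_isRoot
  have hfin : ({u : ℂ | (ρ j0).eval u = 0} ∪ {0}).Finite :=
    (Polynomial.finite_setOfPred_isRoot hj0).union (Set.finite_singleton _)
  refine Set.Infinite.mono (s := ({u : ℂ | (ρ j0).eval u = 0} ∪ {0})ᶜ) (fun u hu => ?_)
    hfin.infinite_compl
  rw [Set.mem_compl_iff, Set.mem_union, not_or] at hu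
  exact hkey u hu.2 hu.1

/-- the property over the field `K` -/
def BoundOff {k : Type} [Field k] (FF : Set (MvPolynomial (Fin (N + 1)) k)) (r d : ℕ)
    (G : MvPolynomial (Fin (N + 1)) k) (M C : ℕ) (K : Type) [Field K] [Algebra k K] : Prop :=
  ∀ (x : ℕ → Fin (N + 1) → K), (∀ m, x m ≠ 0) → (∀ m, ∀ F ∈ FF, aeval (x m) F = 0) →
    (∀ j, PRecOD r d fun m => x m j) →
    {t | ¬ GoodZ (fun t => aeval (x t) G = 0) x M t}.encard ≤ (C : ℕ∞)

theorem ev_algebraMap {k L : Type} [Field k] [Field L] [Algebra k L] (y : Fin (N + 1) → L)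
    (F : MvPolynomial (Fin (N + 1)) k) :
    eval y (MvPolynomial.map (algebraMap k L) F) = aeval y F := by
  rw [eval_map]
  rfl

/-- **Varieties which are not uniruled**, over fields with at most continuum many elements. -/
theorem coreNon {k : Type} [Field k] (FF : Set (MvPolynomial (Fin (N + 1)) k))
    (hprime : (Ideal.span FF).IsPrime) (hnu : ¬ Uniruled (Ideal.span FF)) (D : ℕ) (hD : 1 ≤ D)
    (hFF : ∀ F ∈ FF, ∃ e, e ≤ D ∧ F.IsHomogeneous e) (r d : ℕ) :
    ∃ (G : MvPolynomial (Fin (N + 1)) k) (M C : ℕ), (∃ e, G.IsHomogeneous e) ∧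
      G ∉ Ideal.span FF ∧ 0 < M ∧ ∀ (K : Type) [Field K] [CharZero K] [Algebra k K], #K ≤ 𝔠 →
        BoundOff FF r d G M C K := by
  classical
  by_contra hcon
  push Not at hcon
  choose H hH1 hH2 hH3 using fun R => exists_hyper FF hprime hnu D hD hFF R
  choose E hE using hH1
  let GG : ℕ → MvPolynomial (Fin (N + 1)) k := fun n => ∏ R ∈ Finset.range n, H R
  have hGGh : ∀ n, (GG n).IsHomogeneous (∑ R ∈ Finset.range n, E R) := fun n =>
    IsHomogeneous.prod _ _ _ fun R _ => hE R
  choose K i1 i2 i3 hK hbad using fun n : ℕ => hcon (GG n) n.factorial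
    (sig N r d + (sig N r d + 1) * (n + n.factorial)) ⟨_, hGGh n⟩ (by
      rw [hprime.prod_mem_iff]
      push Not
      intro R _
      exact hH2 R) n.factorial_pos
  unfold BoundOff at hbad
  push Not at hbad
  choose x hne hX hrec hlt using hbad
  let U : Ultrafilter ℕ := hyperfilter ℕ
  have hU : (U : Filter ℕ) ≤ atTop := Nat.hyperfilter_le_atTop
  refine contra3 (K := K) (U := U) hU x hne hrec (fun n t => aeval (x n t) (GG n) = 0)
    (fun n t t' h1 h2 => by
      rw [← ev_algebraMap] at h2 ⊢
      exact h1.eval_zero (hne n _) ((hGGh n).map _) h2) hlt fun μ hrecU => ?_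
  -- the fields
  let f0 : k →+* (∀ n, K n) := algebraMap k (∀ n, K n)
  obtain ⟨φ⟩ := exists_emb (UK K U) (card_le hK)
  let _ : Algebra (UK K U) ℂ := φ.toAlgebra
  let _ : Algebra k ℂ := (φ.comp (algebraMap k (UK K U))).toAlgebra
  have htower : IsScalarTower k (UK K U) ℂ := IsScalarTower.of_algebraMap_eq fun _ => rfl
  have hmap : ∀ (n : ℕ) (F : MvPolynomial (Fin (N + 1)) k),
      MvPolynomial.map (ev K n) (MvPolynomial.map f0 F) =
        MvPolynomial.map (algebraMap k (K n)) F := by
    intro n F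
    rw [MvPolynomial.map_map]
    rfl
  have hmapU : ∀ (F : MvPolynomial (Fin (N + 1)) k),
      MvPolynomial.map (mk K U) (MvPolynomial.map f0 F) =
        MvPolynomial.map (algebraMap k (UK K U)) F := by
    intro F
    rw [MvPolynomial.map_map]
    rfl
  have hevU : ∀ (F : MvPolynomial (Fin (N + 1)) k) (t : ℕ → ℕ),
      eval (XX U x t) (MvPolynomial.map (algebraMap k (UK K U)) F) = 0 ↔
        ∀ᶠ n in (U : Filter ℕ), aeval (x n (t n)) F = 0 := by
    intro F t
    rw [← hmapU]
    have h1 := XX_eval (U := U) (x := x) (t := t)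
      (G := fun n => MvPolynomial.map (algebraMap k (K n)) F) (Q := MvPolynomial.map f0 F)
      fun n => hmap n F
    rw [h1]
    simp only [ev_algebraMap]
  let FU : Set (MvPolynomial (Fin (N + 1)) (UK K U)) :=
    (MvPolynomial.map (algebraMap k (UK K U))) '' FF
  have hFU : ∀ F ∈ FU, ∃ e, F.IsHomogeneous e := by
    rintro _ ⟨F, hF, rfl⟩
    obtain ⟨e, _, he⟩ := hFF F hF
    exact ⟨e, he.map _⟩
  let y : ℕ → Fin (N + 1) → UK K U := fun i => XX U x fun n => μ n + i
  have hyX : ∀ m, ∀ F ∈ FU, eval (y m) F = 0 := by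
    rintro m _ ⟨F, hF, rfl⟩
    exact (hevU F _).2 (Eventually.of_forall fun n => hX n _ F hF)
  set R0 := (N + 1) * (r + 1) with hR0
  obtain ⟨M, ρ, hM, hcl⟩ := classes (q := r + 1) hFU
    (G := fun _ : Fin 1 => MvPolynomial.map (algebraMap k (UK K U)) (H R0)) (fun i c l h1 h2 => by
      rw [aeval_map_algebraMap]
      refine hH3 R0 ℂ c l (fun F hF => ?_) h2
      have h3 := h1 _ ⟨F, hF, rfl⟩
      rwa [aeval_map_algebraMap] at h3) (y := y) (fun i => XX_ne hne _) hrecU hyX
  -- the degree of the curves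
  let R1 : ℕ := (Finset.range M).sup (fun a => Finset.univ.sup fun j => (ρ a j).natDegree) + 1
  have hR1 : ∀ a < M, ∀ j, (ρ a j).natDegree < R1 := by
    intro a ha j
    refine Nat.lt_succ_of_le ?_
    have h1 : (ρ a j).natDegree ≤ Finset.univ.sup fun j => (ρ a j).natDegree :=
      Finset.le_sup (f := fun j => (ρ a j).natDegree) (Finset.mem_univ j)
    exact h1.trans (Finset.le_sup (f := fun a => Finset.univ.sup fun j => (ρ a j).natDegree)
      (Finset.mem_range.2 ha))
  let G1 : MvPolynomial (Fin (N + 1)) k := H R0 * H R1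
  have hG1 : G1.IsHomogeneous (E R0 + E R1) := (hE R0).mul (hE R1)
  obtain ⟨i0, hi0⟩ := finish (G := fun _ : Fin 1 => MvPolynomial.map (algebraMap k (UK K U)) G1)
    (fun _ => ⟨_, hG1.map _⟩) (y := y) hM (ρ := ρ) (fun a ha => by
      have hz : ∀ {v : Fin (N + 1) → UK K U},
          eval v (MvPolynomial.map (algebraMap k (UK K U)) (H R0)) = 0 →
          eval v (MvPolynomial.map (algebraMap k (UK K U)) G1) = 0 := by
        intro v hv
        simp only [G1]
        rw [map_mul, map_mul, hv, zero_mul]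
      rcases hcl a with h | h
      · left
        filter_upwards [h] with i hi l
        exact hz (hi l)
      · right
        refine ⟨h, ?_⟩
        have h1 : ∀ F ∈ FF, aeval (ρ a) F = 0 := by
          intro F hF
          obtain ⟨e, _, he⟩ := hFF F hF
          have h2 := curve_on hM h (F := MvPolynomial.map (algebraMap k (UK K U)) F) (he.map _)
            (Eventually.of_forall fun i => by
              rw [aeval_alg, hyX _ _ ⟨F, hF, rfl⟩, map_zero])
          rwa [aeval_map_algebraMap] at h2
        by_cases hnc : NonConst (ρ a)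
        · right
          intro l
          rw [aeval_map_algebraMap]
          simp only [G1]
          rw [map_mul, poly_in_hyper (FF := FF) (H := H R1) (hH3 R1 ℂ) (hR1 a ha) h1 hnc, mul_zero]
        · exact Or.inl hnc)
  refine ⟨1, fun _ => E R0 + E R1, fun n _ => MvPolynomial.map (algebraMap k (K n)) G1, M, i0, hM,
    fun n _ => hG1.map _, fun i hi => ?_, ?_⟩
  · rcases hi0 i hi with h | h
    · have h1 : ∀ᶠ n in (U : Filter ℕ), aeval (x n (μ n + i)) G1 = 0 ∧
          aeval (x n (μ n + (i + M))) G1 = 0 :=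
        ((hevU G1 _).1 (h 0).1).and ((hevU G1 _).1 (h 0).2)
      filter_upwards [h1] with n hn
      refine Or.inl fun l => ⟨?_, ?_⟩
      · rw [ev_algebraMap]
        exact hn.1
      · rw [ev_algebraMap, add_assoc]
        exact hn.2
    · filter_upwards [XX_par.1 h] with n hn
      right
      rw [add_assoc]
      exact hn
  · filter_upwards [hU (eventually_ge_atTop (R0 + R1 + 1))] with n hn t ht
    have h1 := ht 0
    rw [ev_algebraMap] at h1
    simp only [G1] at h1
    rw [map_mul, mul_eq_zero] at h1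
    simp only [GG]
    rw [map_prod]
    rcases h1 with h1 | h1
    · exact Finset.prod_eq_zero (Finset.mem_range.2 (by omega)) h1
    · exact Finset.prod_eq_zero (Finset.mem_range.2 (by omega)) h1

end Pool.Agent.Q183.UH
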