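import Pool.Agent.Q183.UH.Win2

/-!
Pairs: varieties on which all rational curves lie in a closed subset.
-/

set_option autoImplicit false

namespace Pool.Agent.Q183.UH

open Filter Pool.Agent.TH143.HE Pool.Agent.TH143.DE Pool.Agent.Q183.RS MvPolynomial Cardinal
open Pool.Agent.H533R3.SL
open scoped LinearAlgebra.Projectivization

/-- Every map from the projective line, given by polynomials over `K`, to the projective variety of
the forms in `FF` is constant or has its image in the variety of the forms in `GG`. -/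
def PairOn {K : Type} [Field K] {N : ℕ} (FF GG : Set (MvPolynomial (Fin (N + 1)) K)) : Prop :=
  ∀ p : Fin (N + 1) → Polynomial K, (∀ F ∈ FF, aeval p F = 0) →
    (∀ j k i i', (p j).coeff i * (p k).coeff i' = (p k).coeff i * (p j).coeff i') ∨
    ∀ G ∈ GG, aeval p G = 0

variable {N : ℕ}

theorem aeval_span {K S : Type} [CommRing K] [CommRing S] [Algebra K S]
    {FF : Set (MvPolynomial (Fin (N + 1)) K)} {p : Fin (N + 1) → S}
    (h : ∀ F ∈ FF, aeval p F = 0) {G : MvPolynomial (Fin (N + 1)) K}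
    (hG : G ∈ Ideal.span FF) : aeval p G = 0 := by
  have h1 : Ideal.span FF ≤ RingHom.ker (aeval p : MvPolynomial (Fin (N + 1)) K →ₐ[K] S) :=
    Ideal.span_le.2 fun F hF => h F hF
  exact h1 hG

/-- transfer to the complex numbers -/
theorem pair_up {L : Type} [Field L] [IsAlgClosed L] [Algebra L ℂ]
    {FF GG : Set (MvPolynomial (Fin (N + 1)) L)} (hFF : ∀ F ∈ FF, ∃ e, F.IsHomogeneous e)
    (hGG : ∀ G ∈ GG, ∃ e, G.IsHomogeneous e) (h : PairOn FF GG)
    {p : Fin (N + 1) → Polynomial ℂ} (hp : ∀ F ∈ FF, aeval p F = 0) :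
    ¬ NonConst p ∨ ∀ G ∈ GG, aeval p G = 0 := by
  by_contra hcon
  push Not at hcon
  obtain ⟨hnc, G0, hG0, hne⟩ := hcon
  have hp' : RCur ((algebraMap L ℂ).comp (RingHom.id L)) (Ideal.span FF) (Ideal.span GG) p :=
    ⟨fun F hF _ => aeval_span hp hF, ⟨G0, Ideal.subset_span hG0, hGG G0 hG0, hne⟩,
      (nc_iff p).2 hnc⟩
  obtain ⟨L', _, _, _, p', h'⟩ := hp'.spec (RingHom.id L)
  have hbij : Function.Bijective (algebraMap L L') :=
    IsAlgClosed.algebraMap_bijective_of_isIntegral
  let ε : L ≃+* L' := RingEquiv.ofBijective (algebraMap L L') hbij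
  have h2 := h'.map (ε.symm : L' →+* L)
  have hid : (ε.symm : L' →+* L).comp ((algebraMap L L').comp (RingHom.id L)) = RingHom.id L := by
    ext z
    exact ε.symm_apply_apply z
  rw [hid] at h2
  rcases h (fun j => (p' j).map (ε.symm : L' →+* L)) (fun F hF =>
    h2.zero F (Ideal.subset_span hF) (hFF F hF)) with h3 | h3
  · obtain ⟨j, k, i, i', hne'⟩ := h2.nc
    exact hne' (h3 j k i i')
  · obtain ⟨G', hG', _, hne'⟩ := h2.ne
    exact hne' (aeval_span h3 hG')

theorem cur_eval_one {R : ℕ} (c : Fin R → Fin (N + 1) → ℂ) (l : Fin R → ℕ) (i : Fin (N + 1)) :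
    (cur c l i).eval 1 = ∑ j, c j i := by
  rw [eval_cur]
  simp

/-- **The first window.** -/
theorem window2 {L : Type} [Field L] [CharZero L] [IsAlgClosed L] (hL : #L ≤ 𝔠)
    {FF : Set (MvPolynomial (Fin (N + 1)) L)} (hFF : ∀ F ∈ FF, ∃ e, F.IsHomogeneous e)
    {s' : ℕ} {G : Fin s' → MvPolynomial (Fin (N + 1)) L} (hG : ∀ i, ∃ e, (G i).IsHomogeneous e)
    (hpair : PairOn FF (Set.range G)) {q : ℕ} {y : ℕ → Fin (N + 1) → L} (hne : ∀ m, y m ≠ 0)
    (hy : ∀ j, PRecO q fun m => y m j) (hX : ∀ m, ∀ F ∈ FF, eval (y m) F = 0) :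
    ∃ M i0 : ℕ, 0 < M ∧ ∀ i, i0 ≤ i → Good G y M i := by
  obtain ⟨φ⟩ := exists_emb L hL
  let _ : Algebra L ℂ := φ.toAlgebra
  have hGG : ∀ G' ∈ Set.range G, ∃ e, G'.IsHomogeneous e := by
    rintro _ ⟨i, rfl⟩
    exact hG i
  have hcurve := fun (p : Fin (N + 1) → Polynomial ℂ) (hp : ∀ F ∈ FF, aeval p F = 0) =>
    pair_up hFF hGG hpair hp
  obtain ⟨M, ρ, hM, hcl⟩ := classes (q := q) hFF (G := G) (fun i c l h1 h2 => by
    rcases hcurve _ h1 with h3 | h3
    · exfalso
      obtain ⟨a, a', hne'⟩ := h2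
      apply hne'
      unfold NonConst at h3
      push Not at h3
      apply Polynomial.funext
      intro u
      have h4 := h3 a a' u 1
      rw [cur_eval_one, cur_eval_one] at h4
      rw [Polynomial.eval_mul, Polynomial.eval_mul, Polynomial.eval_C, Polynomial.eval_C]
      exact h4
    · have h4 := h3 (G i) ⟨i, rfl⟩
      have h5 := congrArg (Polynomial.eval 1) h4
      rw [Polynomial.eval_zero, aeval_eval'] at h5
      rw [← h5]
      congr 2
      funext j
      exact (cur_eval_one c l j).symm) hne hy hX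
  obtain ⟨i0, hi0⟩ := finish (G := G) hG (y := y) hM (ρ := ρ) (fun a _ => by
    rcases hcl a with h | h
    · exact Or.inl h
    · right
      refine ⟨h, ?_⟩
      have h1 : ∀ F ∈ FF, aeval (ρ a) F = 0 := by
        intro F hF
        obtain ⟨e, he⟩ := hFF F hF
        refine curve_on hM h he (Eventually.of_forall fun i => ?_)
        rw [aeval_alg, hX _ F hF, map_zero]
      rcases hcurve _ h1 with h2 | h2
      · exact Or.inl h2
      · exact Or.inr fun l => h2 (G l) ⟨l, rfl⟩)
  exact ⟨M, i0, hM, hi0⟩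

/-! ### transfer to the ultraproduct -/

section

variable {K : ℕ → Type} [∀ n, Field (K n)] {U : Ultrafilter ℕ}

theorem pair_ultra {ι κ : Type} [Finite ι] {Q : ι → MvPolynomial (Fin (N + 1)) (∀ n, K n)}
    {Q' : κ → MvPolynomial (Fin (N + 1)) (∀ n, K n)}
    (h : ∀ n, PairOn (Set.range fun i => MvPolynomial.map (ev K n) (Q i))
      (Set.range fun i => MvPolynomial.map (ev K n) (Q' i))) :
    PairOn (Set.range fun i => MvPolynomial.map (mk K U) (Q i))
      (Set.range fun i => MvPolynomial.map (mk K U) (Q' i)) := by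
  classical
  intro p hp
  choose P hP using fun j => Polynomial.map_surjective (mk K U) mk_surj (p j)
  have hPp : (fun j => (P j).map (mk K U)) = p := funext hP
  have h1 : ∀ a, ∀ᶠ n in (U : Filter ℕ),
      aeval (fun j => (P j).map (ev K n)) (MvPolynomial.map (ev K n) (Q a)) = 0 := by
    intro a
    have h2 := hp _ ⟨a, rfl⟩
    have h3 : (aeval P (Q a)).map (mk K U) = 0 := by
      rw [map_aeval, hPp]
      exact h2
    filter_upwards [map_mk_zero.1 h3] with n hn
    rwa [map_aeval] at hn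
  have h2 : ∀ᶠ n in (U : Filter ℕ),
      (∀ j k i i', ((P j).map (ev K n)).coeff i * ((P k).map (ev K n)).coeff i' =
        ((P k).map (ev K n)).coeff i * ((P j).map (ev K n)).coeff i') ∨
      (∀ b, aeval (fun j => (P j).map (ev K n)) (MvPolynomial.map (ev K n) (Q' b)) = 0) := by
    filter_upwards [eventually_all.2 h1] with n hn
    rcases h n _ (by rintro _ ⟨a, rfl⟩; exact hn a) with h3 | h3
    · exact Or.inl h3
    · exact Or.inr fun b => h3 _ ⟨b, rfl⟩
  rcases Ultrafilter.eventually_or.1 h2 with h3 | h3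
  · left
    intro j k i i'
    have h4 : mk K U ((P j).coeff i * (P k).coeff i') = mk K U ((P k).coeff i * (P j).coeff i') := by
      rw [mk_eq]
      filter_upwards [h3] with n hn
      have h5 := hn j k i i'
      simp only [Polynomial.coeff_map] at h5
      exact h5
    rw [map_mul, map_mul] at h4
    rw [← hP j, ← hP k]
    simp only [Polynomial.coeff_map]
    exact h4
  · right
    rintro _ ⟨b, rfl⟩
    have h4 : (aeval P (Q' b)).map (mk K U) = 0 := by
      rw [map_mk_zero]
      filter_upwards [h3] with n hn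
      rw [map_aeval]
      exact hn b
    rw [map_aeval, hPp] at h4
    exact h4

end

/-- the property holds for all sequences over `K` -/
def BoundPair (K : Type) [Field K] (N s s' r d : ℕ) (e : Fin s → ℕ) (e' : Fin s' → ℕ)
    (M C : ℕ) : Prop :=
  ∀ (F : Fin s → MvPolynomial (Fin (N + 1)) K) (G : Fin s' → MvPolynomial (Fin (N + 1)) K),
    (∀ i, (F i).IsHomogeneous (e i)) → (∀ i, (G i).IsHomogeneous (e' i)) →
    PairOn (Set.range F) (Set.range G) → ∀ (x : ℕ → Fin (N + 1) → K), (∀ m, x m ≠ 0) →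
    (∀ m i, eval (x m) (F i) = 0) → (∀ j, PRecOD r d fun m => x m j) →
    {t | ¬ GoodZ (fun t => ∀ i, eval (x t) (G i) = 0) x M t}.encard ≤ (C : ℕ∞)

theorem corePair (N s s' r d : ℕ) (e : Fin s → ℕ) (e' : Fin s' → ℕ) :
    ∃ M C : ℕ, 0 < M ∧ ∀ (K : Type) [Field K] [CharZero K] [IsAlgClosed K], #K ≤ 𝔠 →
      BoundPair K N s s' r d e e' M C := by
  classical
  by_contra hcon
  push Not at hcon
  choose K i1 i2 i3 hK hbad using fun n : ℕ => hcon n.factorial
    (sig N r d + (sig N r d + 1) * (n + n.factorial)) n.factorial_pos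
  unfold BoundPair at hbad
  push Not at hbad
  choose F G hF hG hno x hne hX hrec hlt using hbad
  let U : Ultrafilter ℕ := hyperfilter ℕ
  have hU : (U : Filter ℕ) ≤ atTop := Nat.hyperfilter_le_atTop
  refine contra3 (K := K) (U := U) hU x hne hrec (fun n t => ∀ i, eval (x n t) (G n i) = 0)
    (fun n t t' h1 h2 i => h1.eval_zero (hne n _) (hG n i) (h2 i)) hlt fun μ hrecU => ?_
  choose Q hQhom hQ using fun i => exists_liftM (e i) (fun n => F n i) fun n => hF n i
  choose Q' hQ'hom hQ' using fun i => exists_liftM (e' i) (fun n => G n i) fun n => hG n i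
  have hpair : PairOn (Set.range fun i => MvPolynomial.map (mk K U) (Q i))
      (Set.range fun i => MvPolynomial.map (mk K U) (Q' i)) := by
    refine pair_ultra fun n => ?_
    have h1 : (fun i => MvPolynomial.map (ev K n) (Q i)) = F n := funext fun i => hQ i n
    have h2 : (fun i => MvPolynomial.map (ev K n) (Q' i)) = G n := funext fun i => hQ' i n
    rw [h1, h2]
    exact hno n
  obtain ⟨M, i0, hM, hgood⟩ := window2 (card_le hK) (FF := Set.range fun i =>
    MvPolynomial.map (mk K U) (Q i)) (by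
      rintro _ ⟨i, rfl⟩
      exact ⟨e i, (hQhom i).map _⟩) (G := fun i => MvPolynomial.map (mk K U) (Q' i))
      (fun i => ⟨e' i, (hQ'hom i).map _⟩) hpair (q := r + 1)
      (y := fun i => XX U x fun n => μ n + i) (fun i => XX_ne hne _) hrecU (by
      rintro m _ ⟨i, rfl⟩
      exact (XX_eval fun n => hQ i n).2 (Eventually.of_forall fun n => hX n _ i))
  refine ⟨s', e', G, M, i0, hM, hG, fun i hi => ?_, Eventually.of_forall fun n t ht => ht⟩
  rcases hgood i hi with h | h
  · have h1 : ∀ᶠ n in (U : Filter ℕ), ∀ l, eval (x n (μ n + i)) (G n l) = 0 ∧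
        eval (x n (μ n + (i + M))) (G n l) = 0 := by
      refine eventually_all.2 fun l => ?_
      exact ((XX_eval fun n => hQ' l n).1 (h l).1).and ((XX_eval fun n => hQ' l n).1 (h l).2)
    filter_upwards [h1] with n hn
    refine Or.inl fun l => ⟨(hn l).1, ?_⟩
    rw [add_assoc]
    exact (hn l).2
  · filter_upwards [XX_par.1 h] with n hn
    right
    rw [add_assoc]
    exact hn

end Pool.Agent.Q183.UH
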