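import Pool.Agent.Q183.UH.Fin3

/-!
Plane curves: affine points of curves without rational parametrisation; recurrences with integer
coefficients and bounds for the size.
-/

set_option autoImplicit false

namespace Pool.Agent.Q183.UH

open Filter MvPolynomial
open scoped LinearAlgebra.Projectivization

/-! ### homogenisation -/

/-- the homogenisation of degree `D` of a polynomial in two variables -/
noncomputable def hmg {K : Type} [Field K] (D : ℕ) (F : MvPolynomial (Fin 2) K) :
    MvPolynomial (Fin (2 + 1)) K :=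
  ∑ i ∈ Finset.range (D + 1), X 2 ^ (D - i) * rename Fin.castSucc (homogeneousComponent i F)

theorem hmg_hom {K : Type} [Field K] (D : ℕ) (F : MvPolynomial (Fin 2) K) :
    (hmg D F).IsHomogeneous D := by
  unfold hmg
  refine IsHomogeneous.sum _ _ _ fun i hi => ?_
  have h1 := Finset.mem_range.1 hi
  have h2 : ((X 2 : MvPolynomial (Fin (2 + 1)) K) ^ (D - i)).IsHomogeneous (1 * (D - i)) :=
    (isHomogeneous_X K 2).pow _
  have h3 : (rename Fin.castSucc (homogeneousComponent i F) :
      MvPolynomial (Fin (2 + 1)) K).IsHomogeneous i :=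
    (homogeneousComponent_isHomogeneous i F).rename_isHomogeneous
  have h4 := h2.mul h3
  have h5 : 1 * (D - i) + i = D := by omega
  rwa [h5] at h4

theorem sum_comp {K : Type} [Field K] {D : ℕ} {F : MvPolynomial (Fin 2) K}
    (hF : F.totalDegree ≤ D) : ∑ i ∈ Finset.range (D + 1), homogeneousComponent i F = F := by
  refine (Finset.sum_subset (s₁ := Finset.range (F.totalDegree + 1)) (fun i hi => ?_)
    fun i _ hi => ?_).symm.trans (sum_homogeneousComponent F)
  · have := Finset.mem_range.1 hi
    exact Finset.mem_range.2 (by omega)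
  · have h2 : F.totalDegree < i := by
      by_contra h3
      exact hi (Finset.mem_range.2 (by omega))
    exact homogeneousComponent_eq_zero _ _ h2

theorem aeval_hmg {K S : Type} [Field K] [Field S] [Algebra K S] {D : ℕ}
    {F : MvPolynomial (Fin 2) K} (hF : F.totalDegree ≤ D) (p : Fin (2 + 1) → S) (hp : p 2 ≠ 0) :
    aeval p (hmg D F) = p 2 ^ D * aeval ![p 0 / p 2, p 1 / p 2] F := by
  unfold hmg
  conv_rhs => rw [← sum_comp hF]
  rw [map_sum, map_sum, Finset.mul_sum]
  refine Finset.sum_congr rfl fun i hi => ?_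
  have h1 := Finset.mem_range.1 hi
  rw [map_mul, map_pow, aeval_X, aeval_rename]
  have h2 : (p ∘ Fin.castSucc : Fin (1 + 1) → S) = p 2 • ![p 0 / p 2, p 1 / p 2] := by
    funext j
    fin_cases j
    · change p 0 = p 2 * (p 0 / p 2)
      field_simp
    · change p 1 = p 2 * (p 1 / p 2)
      field_simp
  have h3 := aeval_smul_homL (N := 1) (L := S) (homogeneousComponent_isHomogeneous i F) (p 2)
    ![p 0 / p 2, p 1 / p 2]
  rw [h2, h3, ← mul_assoc, ← pow_add]
  congr 2
  omega

/-- The curve `F = 0` has no rational parametrisation over the field `E`. -/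
def NoParam {K : Type} [Field K] (F : MvPolynomial (Fin 2) K) (E : Type) [Field E] [Algebra K E] :
    Prop :=
  ∀ u v : RatFunc E, aeval ![u, v] F = 0 → ∃ a b : E, u = RatFunc.C a ∧ v = RatFunc.C b

/-- the rational curves in the projective closure lie in the line at infinity -/
theorem NoParam.ratIn {K : Type} [Field K] {D : ℕ} {F : MvPolynomial (Fin 2) K}
    (hF : F.totalDegree ≤ D) {E : Type} [Field E] [Algebra K E] (h : NoParam F E) :
    RatIn (N := 2) {hmg D F} {X 2} E := by
  intro p hp
  by_cases hp2 : p 2 = 0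
  · right
    rintro _ rfl
    rw [aeval_X, hp2]
  left
  let ι : Polynomial E →ₐ[K] RatFunc E := (IsScalarTower.toAlgHom K (Polynomial E) (RatFunc E))
  have hι : ∀ q, ι q = algebraMap (Polynomial E) (RatFunc E) q := fun q => rfl
  have hinj : Function.Injective ι := RatFunc.algebraMap_injective E
  have h2 : ι (p 2) ≠ 0 := (map_ne_zero_iff ι hinj).2 hp2
  have h1 : aeval (fun j => ι (p j)) (hmg D F) = 0 := by
    have h3 := congrArg ι (hp _ rfl)
    rw [map_zero, comp_aeval_apply] at h3
    exact h3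
  rw [aeval_hmg hF (fun j => ι (p j)) h2] at h1
  obtain ⟨a, b, ha, hb⟩ := h _ _ ((mul_eq_zero.1 h1).resolve_left (pow_ne_zero _ h2))
  rw [div_eq_iff h2] at ha hb
  have hc : ∀ c : E, (RatFunc.C c : RatFunc E) = ι (Polynomial.C c) := fun c => by
    rw [hι, RatFunc.algebraMap_C]
  rw [hc, ← map_mul] at ha hb
  have ha' := hinj ha
  have hb' := hinj hb
  have hall : ∀ j, ∃ c : E, p j = Polynomial.C c * p 2 := by
    intro j
    fin_cases j
    · exact ⟨a, ha'⟩
    · exact ⟨b, hb'⟩
    · exact ⟨1, by simp⟩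
  choose c hc' using hall
  intro i j m n
  rw [hc' i, hc' j]
  simp only [Polynomial.coeff_C_mul]
  ring

/-! ### affine points -/

theorem finRec_one {K : Type} [Field K] (R d l : ℕ) : FinRec (R + 1) d l fun _ => (1 : K) := by
  refine ⟨1, fun k => if k = 0 then -1 else 1, by omega, fun k => ?_, fun m _ => ?_⟩
  · change (if k = 0 then (-1 : Polynomial K) else 1).natDegree ≤ d
    split_ifs <;> simp
  · simp [Finset.sum_range_succ]

theorem aeval_hmg_one {K L : Type} [Field K] [Field L] [Algebra K L] {D : ℕ}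
    {F : MvPolynomial (Fin 2) K} (hF : F.totalDegree ≤ D) (x y : L) :
    aeval (![x, y, 1] : Fin (2 + 1) → L) (hmg D F) = aeval ![x, y] F := by
  rw [aeval_hmg hF _ (by simp)]
  simp

/-- **Finite sequences of affine points** -/
theorem plane_fin' (D R d : ℕ) : ∃ M C : ℕ, 0 < M ∧ ∀ (K : Type) [Field K] [CharZero K]
    (F : MvPolynomial (Fin 2) K), F.totalDegree ≤ D →
    (∀ (E : Type) [Field E] [Algebra K E] [FiniteDimensional K E],
      RatIn (N := 2) {hmg (D + 1) F} {X 2} E) →
    ∀ (L : Type) [Field L] [Algebra K L] (l : ℕ) (x y : ℕ → L),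
      (∀ m, m < l → aeval ![x m, y m] F = 0) → FinRec R d l x → FinRec R d l y →
      ∀ t, C ≤ t → t + M + C ≤ l → x (t + M) = x t ∧ y (t + M) = y t := by
  obtain ⟨M, C, hM, h⟩ := fin_tfae 2 (D + 1)
  refine ⟨M (R + 1) d, C (R + 1) d + 1, hM _ _, fun K _ _ F hF h2 L _ _ l x y hX hx hy t ht1 ht2 => ?_⟩
  have hT := h K {hmg (D + 1) F} {X 2} (by
    rintro _ rfl
    exact ⟨D + 1, le_rfl, hmg_hom _ _⟩) (by
    rintro _ rfl
    exact ⟨1, by omega, isHomogeneous_X _ _⟩)
  have h13 := (hT.out 1 2).1 h2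
  have hne : ∀ m, (![x m, y m, 1] : Fin (2 + 1) → L) ≠ 0 := fun m h0 => by
    have := congrFun h0 2
    simp at this
  have h4 := h13 L (R + 1) d l (fun m => Projectivization.mk L ![x m, y m, 1] (hne m))
    ⟨fun m => ![x m, y m, 1], fun m _ => ⟨hne m, rfl⟩, by
      rintro m hm _ rfl
      rw [aeval_hmg_one (hF.trans (by omega))]
      exact hX m hm, fun j => by
      fin_cases j
      · exact hx.mono (by omega) le_rfl le_rfl
      · exact hy.mono (by omega) le_rfl le_rfl
      · exact finRec_one R d l⟩ t (by omega) (by omega)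
  rcases h4 with h4 | h4
  · rw [Projectivization.mk_eq_mk_iff'] at h4
    obtain ⟨c, hc⟩ := h4
    have e2 := congrFun hc 2
    have e0 := congrFun hc 0
    have e1 := congrFun hc 1
    simp only [Pi.smul_apply, smul_eq_mul] at e0 e1 e2
    have hc1 : c = 1 := by simpa using e2
    rw [hc1, one_mul] at e0 e1
    exact ⟨e0.symm, e1.symm⟩
  · exfalso
    have h5 := (inZ_mk (K := K) (GG := {X 2}) (by
      rintro _ rfl
      exact ⟨1, isHomogeneous_X _ _⟩) ![x t, y t, 1] (hne t)).1 h4.1 _ rfl
    rw [aeval_X] at h5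
    simp at h5

/-- **Finite sequences of affine points** -/
theorem plane_fin (D R d : ℕ) : ∃ M C : ℕ, 0 < M ∧ ∀ (K : Type) [Field K] [CharZero K]
    (F : MvPolynomial (Fin 2) K), F.totalDegree ≤ D →
    (∀ (E : Type) [Field E] [Algebra K E] [FiniteDimensional K E], NoParam F E) →
    ∀ (L : Type) [Field L] [Algebra K L] (l : ℕ) (x y : ℕ → L),
      (∀ m, m < l → aeval ![x m, y m] F = 0) → FinRec R d l x → FinRec R d l y →
      ∀ t, C ≤ t → t + M + C ≤ l → x (t + M) = x t ∧ y (t + M) = y t := by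
  obtain ⟨M, C, hM, h⟩ := plane_fin' D R d
  refine ⟨M, C, hM, fun K _ _ F hF hno => h K F hF ?_⟩
  intro E i1 i2 i3
  exact (hno E).ratIn (hF.trans (by omega))

end Pool.Agent.Q183.UH
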