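import Pool.Agent.Q183.UH.NonFin

/-!
Pointed maps.
-/

set_option autoImplicit false

namespace Pool.Agent.Q183.UH

open Filter Pool.Agent.TH143.DE Pool.Agent.Q183.RS MvPolynomial Cardinal Pool.Agent.H533R3.SL
open scoped LinearAlgebra.Projectivization

variable {N : ℕ}

/-- The point `P` of projective space over the field `K` has homogeneous coordinates in the
subalgebra `O` of `K` whose values at the homomorphism `ρ` are homogeneous coordinates of the
point `Q`. -/
def MapsTo {k : Type} [Field k] {K : Type} [Field K] [Algebra k K] (O : Subalgebra k K)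
    (ρ : O →ₐ[k] k) (P : ℙ K (Fin (N + 1) → K)) (Q : ℙ k (Fin (N + 1) → k)) : Prop :=
  ∃ (y : Fin (N + 1) → O) (hy : (fun j => (y j : K)) ≠ 0) (hz : (fun j => ρ (y j)) ≠ 0),
    P = Projectivization.mk K (fun j => (y j : K)) hy ∧
    Q = Projectivization.mk k (fun j => ρ (y j)) hz

theorem MapsTo.inZ {k : Type} [Field k] {K : Type} [Field K] [Algebra k K] {O : Subalgebra k K}
    {ρ : O →ₐ[k] k} {P : ℙ K (Fin (N + 1) → K)} {Q : ℙ k (Fin (N + 1) → k)}
    (h : MapsTo O ρ P Q) {G : MvPolynomial (Fin (N + 1)) k} (hG : ∃ e, G.IsHomogeneous e)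
    (hP : InZ {G} P) : InZ {G} Q := by
  obtain ⟨y, hy, hz, rfl, rfl⟩ := h
  have hGG : ∀ G' ∈ ({G} : Set (MvPolynomial (Fin (N + 1)) k)), ∃ e, G'.IsHomogeneous e := by
    intro G' hG'
    rw [Set.mem_singleton_iff.1 hG']
    exact hG
  rw [inZ_mk hGG] at hP ⊢
  intro G' hG'
  rw [Set.mem_singleton_iff.1 hG']
  have h1 := hP G rfl
  have h2 : aeval y G = 0 := by
    apply Subtype.val_injective
    have h3 := comp_aeval_apply (f := y) O.val G
    change (aeval y G : O).val = _ at h3
    rw [h3]
    exact h1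
  have h3 := comp_aeval_apply (f := y) ρ G
  rw [h2, map_zero] at h3
  exact h3.symm

/-- the polynomials as a subalgebra of the rational functions -/
noncomputable abbrev lineRing (k : Type) [Field k] : Subalgebra k (RatFunc k) :=
  (IsScalarTower.toAlgHom k (Polynomial k) (RatFunc k)).range

/-- the value at the point `0` of the line -/
noncomputable def lineEval (k : Type) [Field k] : lineRing k →ₐ[k] k :=
  (Polynomial.aeval (0 : k)).comp
    ((AlgEquiv.ofInjective (IsScalarTower.toAlgHom k (Polynomial k) (RatFunc k))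
      (RatFunc.algebraMap_injective k)).symm : lineRing k →ₐ[k] Polynomial k)

theorem lineEval_apply {k : Type} [Field k] (p : Polynomial k)
    (h : algebraMap (Polynomial k) (RatFunc k) p ∈ lineRing k) :
    lineEval k ⟨algebraMap (Polynomial k) (RatFunc k) p, h⟩ = p.eval 0 := by
  unfold lineEval
  have h1 : (AlgEquiv.ofInjective (IsScalarTower.toAlgHom k (Polynomial k) (RatFunc k))
      (RatFunc.algebraMap_injective k)).symm ⟨algebraMap (Polynomial k) (RatFunc k) p, h⟩ = p := by
    rw [AlgEquiv.symm_apply_eq]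
    rfl
  change Polynomial.aeval (0 : k) ((AlgEquiv.ofInjective (IsScalarTower.toAlgHom k (Polynomial k)
    (RatFunc k)) (RatFunc.algebraMap_injective k)).symm
      ⟨algebraMap (Polynomial k) (RatFunc k) p, h⟩) = _
  rw [h1, Polynomial.coe_aeval_eq_eval]

/-- curves of bounded degree on a uniruled variety over an algebraically closed field -/
theorem curve_closed {k : Type} [Field k] [IsAlgClosed k]
    (FF : Set (MvPolynomial (Fin (N + 1)) k)) (hu : Uniruled (Ideal.span FF)) :
    ∃ n : ℕ, ∀ G : MvPolynomial (Fin (N + 1)) k, (∃ e, G.IsHomogeneous e) → G ∉ Ideal.span FF →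
      ∃ q : Fin (N + 1) → Polynomial k, (∀ i, (q i).natDegree < n) ∧ (∀ F ∈ FF, aeval q F = 0) ∧
        (∃ i j, q i * Polynomial.C ((q j).eval 1) ≠ q j * Polynomial.C ((q i).eval 1)) ∧
        aeval (fun i => (q i).eval 1) G ≠ 0 := by
  classical
  obtain ⟨L, iL, iA, p, hp1, hp2, hp3⟩ := hu
  set n : ℕ := Finset.univ.sup (fun i => (p i).natDegree) + 1 with hn
  have hNc : ∀ i m, n ≤ m → (p i).coeff m = 0 := by
    intro i m hm
    apply Polynomial.coeff_eq_zero_of_natDegree_lt
    have := Finset.le_sup (f := fun i => (p i).natDegree) (Finset.mem_univ i)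
    omega
  refine ⟨n, ?_⟩
  intro G hG1 hG2
  obtain ⟨K, iK, iAK, iF, v, h1, h2, h3⟩ := specialise' k L p FF (by
      intro F hF
      exact hp1 F (Ideal.subset_span hF)) n hNc hp3 G (hp2 G hG1 hG2)
  have hbij : Function.Bijective (algebraMap k K) :=
    IsAlgClosed.algebraMap_bijective_of_isIntegral
  let ε : k ≃ₐ[k] K := AlgEquiv.ofBijective (Algebra.ofId k K) hbij
  let w : Fin n → Fin (N + 1) → k := fun i j => ε.symm (v i j)
  have hw : ∀ i, Polynomial.mapAlgHom (ε.symm : K →ₐ[k] k) (cur v (fun j => (j : ℕ)) i) =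
      cur w (fun j => (j : ℕ)) i := by
    intro i
    unfold cur
    rw [map_sum]
    refine Finset.sum_congr rfl fun j _ => ?_
    rw [map_mul, map_pow, Polynomial.coe_mapAlgHom, Polynomial.map_C, Polynomial.map_X]
    rfl
  have hw1 : ∀ i, ε.symm ((cur v (fun j => (j : ℕ)) i).eval 1) =
      (cur w (fun j => (j : ℕ)) i).eval 1 := by
    intro i
    rw [← hw i]
    have h4 : (1 : k) = ((ε.symm : K →ₐ[k] k) : K →+* k) 1 := (map_one _).symm
    rw [Polynomial.coe_mapAlgHom, h4, Polynomial.eval_map, Polynomial.eval₂_at_apply]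
    rfl
  refine ⟨cur w (fun j => (j : ℕ)), fun i => ?_, fun F hF => ?_, ?_, ?_⟩
  · unfold cur
    refine lt_of_le_of_lt (Polynomial.natDegree_sum_le_of_forall_le _ _ (n := n - 1)
      fun j _ => ?_) (by omega)
    exact (Polynomial.natDegree_C_mul_X_pow_le _ _).trans (Nat.le_sub_one_of_lt j.2)
  · have h4 := congrArg (Polynomial.mapAlgHom (ε.symm : K →ₐ[k] k)) (h1 F hF)
    rw [map_zero, MvPolynomial.comp_aeval_apply] at h4
    rw [← h4]
    congr 2
    funext i
    exact (hw i).symm
  · obtain ⟨i, j, hij⟩ := h2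
    refine ⟨i, j, fun h => hij ?_⟩
    have hinj : Function.Injective (Polynomial.mapAlgHom (ε.symm : K →ₐ[k] k)) :=
      Polynomial.map_injective _ ε.symm.injective
    apply hinj
    have hC : ∀ i, Polynomial.mapAlgHom (ε.symm : K →ₐ[k] k)
        (Polynomial.C ((cur v (fun j => (j : ℕ)) i).eval 1)) =
        Polynomial.C ((cur w (fun j => (j : ℕ)) i).eval 1) := by
      intro i
      rw [Polynomial.coe_mapAlgHom, Polynomial.map_C]
      congr 1
      exact hw1 i
    rw [map_mul, map_mul, hw, hw, hC, hC]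
    exact h
  · intro h
    apply h3
    have hinj : Function.Injective (ε.symm : K →ₐ[k] k) := ε.symm.injective
    apply hinj
    rw [map_zero, MvPolynomial.comp_aeval_apply, ← h]
    congr 2
    funext i
    exact hw1 i

/-- the maps `s ↦ q (1 + 2 ^ t s)` -/
theorem pointed_seq {k : Type} [Field k] [CharZero k] {FF : Set (MvPolynomial (Fin (N + 1)) k)}
    {n : ℕ} {q : Fin (N + 1) → Polynomial k} (hdeg : ∀ i, (q i).natDegree < n)
    (hq : ∀ F ∈ FF, aeval q F = 0)
    (hnc : ∃ i j, q i * Polynomial.C ((q j).eval 1) ≠ q j * Polynomial.C ((q i).eval 1))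
    (h1 : (fun i => (q i).eval 1) ≠ 0) :
    ∃ P : ℕ → ℙ (RatFunc k) (Fin (N + 1) → RatFunc k), CRecPoints FF (RatFunc k) n P ∧
      (∀ t, MapsTo (lineRing k) (lineEval k) (P t)
        (Projectivization.mk k (fun i => (q i).eval 1) h1)) ∧ (Set.range P).Infinite := by
  classical
  let ι : Polynomial k →+* RatFunc k := algebraMap (Polynomial k) (RatFunc k)
  have hι : Function.Injective ι := RatFunc.algebraMap_injective k
  let g : ℕ → Polynomial k := fun t => Polynomial.C 1 + Polynomial.C (2 ^ t) * Polynomial.X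
  let f : ℕ → Fin (N + 1) → Polynomial k := fun t i => Polynomial.aeval (g t) (q i)
  have hfc : ∀ t i, f t i = (q i).comp (g t) := fun t i => rfl
  have hf0 : ∀ t i, (f t i).eval 0 = (q i).eval 1 := by
    intro t i
    rw [hfc, Polynomial.eval_comp]
    simp [g]
  have hfne : ∀ t, (fun i => ι (f t i)) ≠ 0 := by
    intro t h0
    apply h1
    funext i
    have h2 : f t i = 0 := hι (by rw [map_zero]; exact congrFun h0 i)
    rw [← hf0 t i, h2, Polynomial.eval_zero]
    rfl
  have hev : ∀ t i (y : k), (f t i).eval y = (q i).eval (1 + 2 ^ t * y) := by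
    intro t i y
    rw [hfc, Polynomial.eval_comp]
    simp [g]
  refine ⟨fun t => Projectivization.mk (RatFunc k) (fun i => ι (f t i)) (hfne t), ?_, ?_, ?_⟩
  · refine ⟨fun t i => ι (f t i), hfne, fun t => rfl, fun t F hF => ?_, fun j => ?_⟩
    · have h2 : aeval (f t) F = 0 := by
        have h3 := comp_aeval_apply (f := q) (Polynomial.aeval (g t) : Polynomial k →ₐ[k] _) F
        rw [hq F hF, map_zero] at h3
        exact h3.symm
      have h3 := comp_aeval_apply (f := f t)
        (IsScalarTower.toAlgHom k (Polynomial k) (RatFunc k)) F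
      rw [h2, map_zero] at h3
      exact h3.symm
    · have h4 : (fun t => ι (f t j)) = fun t => ∑ l : Fin n,
          ι (Polynomial.C (((q j).comp (Polynomial.C 1 + Polynomial.X)).coeff l) *
            Polynomial.X ^ (l : ℕ)) * ((2 : RatFunc k) ^ (l : ℕ)) ^ t := by
        funext t
        have h5 : f t j = ((q j).comp (Polynomial.C 1 + Polynomial.X)).comp
            (Polynomial.C (2 ^ t) * Polynomial.X) := by
          rw [Polynomial.comp_assoc, hfc]
          congr 1
          simp [g]
        have h6 : ((q j).comp (Polynomial.C 1 + Polynomial.X)).natDegree < n := by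
          refine lt_of_le_of_lt (Polynomial.natDegree_comp_le) ?_
          have h7 : (Polynomial.C 1 + Polynomial.X : Polynomial k).natDegree = 1 := by
            rw [add_comm]
            exact Polynomial.natDegree_X_add_C 1
          rw [h7, mul_one]
          exact hdeg j
        rw [h5, Polynomial.comp, Polynomial.eval₂_eq_sum_range' _ h6, Finset.sum_range, map_sum]
        refine Finset.sum_congr rfl fun l _ => ?_
        have h7 : (2 : RatFunc k) = ι (Polynomial.C 2) := by
          rw [map_ofNat, map_ofNat]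
        rw [h7, ← map_pow, ← map_pow, ← map_mul]
        congr 1
        rw [mul_pow, ← Polynomial.C_pow, ← Polynomial.C_pow, ← Polynomial.C_pow, ← pow_mul,
          ← pow_mul, mul_comm t (l : ℕ)]
        ring
      change CRecO n (fun t => ι (f t j))
      rw [h4]
      exact crec_expsum _ _
  · intro t
    have hmem : ∀ i, ι (f t i) ∈ lineRing k := fun i => ⟨f t i, rfl⟩
    have hval : ∀ i, lineEval k ⟨ι (f t i), hmem i⟩ = (q i).eval 1 := by
      intro i
      rw [← hf0 t i]
      exact lineEval_apply (f t i) (hmem i)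
    refine ⟨fun i => ⟨ι (f t i), hmem i⟩, hfne t, ?_, rfl, ?_⟩
    · rw [funext hval]
      exact h1
    · congr 1
      exact (funext hval).symm
  · intro hfin
    obtain ⟨i, j, hij⟩ := hnc
    apply hij
    have : Finite (Set.range fun t => Projectivization.mk (RatFunc k) (fun i => ι (f t i))
      (hfne t)) := hfin
    obtain ⟨⟨P, t0, ht0⟩, hP⟩ := Finite.exists_infinite_fiber (Set.rangeFactorization
      fun t => Projectivization.mk (RatFunc k) (fun i => ι (f t i)) (hfne t))
    have hset : (Set.rangeFactorization (fun t => Projectivization.mk (RatFunc k)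
        (fun i => ι (f t i)) (hfne t)) ⁻¹' {⟨P, t0, ht0⟩}).Infinite := Set.infinite_coe_iff.1 hP
    have hrel : ∀ t ∈ (Set.rangeFactorization (fun t => Projectivization.mk (RatFunc k)
        (fun i => ι (f t i)) (hfne t)) ⁻¹' {⟨P, t0, ht0⟩}), f t i * f t0 j = f t j * f t0 i := by
      intro t ht
      have h2 : Projectivization.mk (RatFunc k) (fun i => ι (f t i)) (hfne t) = P :=
        congrArg Subtype.val ht
      rw [← ht0, Projectivization.mk_eq_mk_iff'] at h2
      obtain ⟨c, hc⟩ := h2
      apply hι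
      rw [map_mul, map_mul]
      have e1 : ι (f t i) = c * ι (f t0 i) := (congrFun hc i).symm
      have e2 : ι (f t j) = c * ι (f t0 j) := (congrFun hc j).symm
      rw [e1, e2]
      ring
    apply Polynomial.funext
    intro z
    rw [Polynomial.eval_mul, Polynomial.eval_mul, Polynomial.eval_C, Polynomial.eval_C]
    -- `z = 1 + y`
    obtain ⟨y, rfl⟩ : ∃ y, z = 1 + y := ⟨z - 1, by ring⟩
    have h20 : (2 : k) ^ t0 ≠ 0 := pow_ne_zero _ two_ne_zero
    have hpoly : (q i).comp (Polynomial.C 1 + Polynomial.C y * Polynomial.X) *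
        Polynomial.C ((q j).eval (1 + y)) - (q j).comp (Polynomial.C 1 + Polynomial.C y *
          Polynomial.X) * Polynomial.C ((q i).eval (1 + y)) = 0 := by
      apply Polynomial.eq_zero_of_infinite_isRoot
      refine Set.Infinite.mono ?_ (hset.image (f := fun t : ℕ => (2 : k) ^ t / 2 ^ t0) ?_)
      · rintro _ ⟨t, ht, rfl⟩
        have h3 := congrArg (Polynomial.eval (y / 2 ^ t0)) (hrel t ht)
        rw [Polynomial.eval_mul, Polynomial.eval_mul, hev, hev, hev, hev] at h3
        change Polynomial.eval _ _ = 0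
        simp only [Polynomial.eval_sub, Polynomial.eval_mul, Polynomial.eval_comp,
          Polynomial.eval_add, Polynomial.eval_C, Polynomial.eval_X]
        have e1 : (1 : k) + 2 ^ t0 * (y / 2 ^ t0) = 1 + y := by field_simp
        have e2 : (1 : k) + 2 ^ t * (y / 2 ^ t0) = 1 + y * (2 ^ t / 2 ^ t0) := by ring
        rw [e1, e2] at h3
        rw [h3, sub_self]
      · intro t _ t' _ h3
        have h4 : (2 : k) ^ t = 2 ^ t' := by
          have h5 : (2 : k) ^ t / 2 ^ t0 = 2 ^ t' / 2 ^ t0 := h3
          rwa [div_left_inj' h20] at h5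
        have h5 : ((2 ^ t : ℕ) : k) = ((2 ^ t' : ℕ) : k) := by
          push_cast
          exact h4
        exact Nat.pow_right_injective le_rfl (Nat.cast_injective h5)
    have h3 := congrArg (Polynomial.eval 0) hpoly
    simp only [Polynomial.eval_sub, Polynomial.eval_mul, Polynomial.eval_comp,
      Polynomial.eval_add, Polynomial.eval_C, Polynomial.eval_X, Polynomial.eval_zero, mul_zero,
      add_zero] at h3
    linear_combination -h3

theorem finite_of_bdd {α : Type} {P : ℕ → α} {B : ℕ} (h : ∀ l : ℕ, (P '' {t | t < l}).encard ≤ B) :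
    (Set.range P).Finite := by
  classical
  by_contra hinf
  obtain ⟨T, hT, hcard⟩ := Set.Infinite.exists_subset_card_eq hinf (B + 1)
  have hT' : ∀ Q, Q ∈ T → ∃ m, P m = Q := fun Q hQ => hT hQ
  choose! ind hind using hT'
  have h2 : (T : Set α) ⊆ P '' {t | t < T.sup ind + 1} := by
    intro Q hQ
    exact ⟨ind Q, Nat.lt_succ_of_le (Finset.le_sup (f := ind) hQ), hind Q hQ⟩
  have h3 := (Set.encard_le_encard h2).trans (h _)
  rw [Set.encard_coe_eq_coe_finsetCard, hcard] at h3
  have h4 : B + 1 ≤ B := by exact_mod_cast h3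
  omega

/-- finite pieces of infinite sequences -/
theorem CRecPoints.fin {K : Type} [Field K] {FF : Set (MvPolynomial (Fin (N + 1)) K)} {L : Type}
    [Field L] [Algebra K L] {r : ℕ} {P : ℕ → ℙ L (Fin (N + 1) → L)} (h : CRecPoints FF L r P)
    (d l : ℕ) : FinPoints FF L r d l fun m => P (r + m) := by
  obtain ⟨x, hne, hP, hX, hrec⟩ := h
  exact ⟨fun m => x (r + m), fun m _ => ⟨hne _, hP _⟩, fun m _ => hX _,
    fun j => CRecO.finRec (hrec j) d l⟩

theorem range_finite_of_shift {α : Type} {P : ℕ → α} {r : ℕ}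
    (h : (Set.range fun m => P (r + m)).Finite) : (Set.range P).Finite := by
  refine ((h.union ((Set.finite_lt_nat r).image P))).subset ?_
  rintro _ ⟨m, rfl⟩
  rcases Nat.lt_or_ge m r with h1 | h1
  · exact Or.inr ⟨m, h1, rfl⟩
  · left
    refine ⟨m - r, ?_⟩
    have h2 : r + (m - r) = m := by omega
    simp only [h2]

end Pool.Agent.Q183.UH
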