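import Pool.Agent.Q183.RS.Main

/-!
Rigidity: a functional on a sequence given by a nonsingular linear recurrence which vanishes at all
indices `l ≥ 1` vanishes at `0`.
-/

set_option autoImplicit false

namespace Pool.Agent.Q183.UH

open Filter Pool.Agent.Q183.RS Matrix

variable {K : Type} [Field K]

theorem polyB_ne [CharZero K] {f : ℕ → K} (hf : f ∈ polyB K) {m : ℕ} (h : f m ≠ 0) :
    ∀ᶠ m in atTop, f m ≠ 0 := by
  obtain ⟨P, hP⟩ := hf
  have h1 : P ≠ 0 := by
    rintro rfl
    rw [hP, Polynomial.eval_zero] at h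
    exact h rfl
  filter_upwards [eval_ev_ne h1] with m hm
  rwa [hP]

theorem polyB_det {β : Type} [Fintype β] [DecidableEq β] {A : ℕ → Matrix β β K}
    (hA : ∀ i j, (fun m => A m i j) ∈ polyB K) : (fun m => (A m).det) ∈ polyB K := by
  let A' : Matrix β β (polyB K) := fun i j => ⟨_, hA i j⟩
  have h1 : (fun m => (A m).det) = ((A'.det : polyB K) : ℕ → K) := by
    funext m
    let g : polyB K →+* K := (Pi.evalRingHom (fun _ => K) m).comp (polyB K).val.toRingHom
    have h2 := g.map_det A'
    have h3 : g A'.det = ((A'.det : polyB K) : ℕ → K) m := rfl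
    rw [← h3, h2]
    rfl
  rw [h1]
  exact (A'.det).2

variable {ι : Type} [Fintype ι] [DecidableEq ι]

/-- the iterated functionals -/
def psi (e : ℕ → ι → K) (P : ℕ → Matrix ι ι K) : ℕ → ℕ → ι → K
  | 0, m => e m
  | k + 1, m => psi e P k (m + 1) ᵥ* P m

theorem psi_mem {e : ℕ → ι → K} {P : ℕ → Matrix ι ι K} (he : ∀ i, (fun m => e m i) ∈ polyB K)
    (hP : ∀ i j, (fun m => P m i j) ∈ polyB K) [CharZero K] (k : ℕ) (i : ι) :
    (fun m => psi e P k m i) ∈ polyB K := by
  induction k generalizing i with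
  | zero => exact he i
  | succ k ih =>
    have h1 : (fun m => psi e P (k + 1) m i) =
        ∑ j, (fun m => psi e P k (m + 1) j) * fun m => P m j i := by
      funext m
      rw [Finset.sum_apply]
      rfl
    rw [h1]
    exact (polyB K).sum_mem fun j _ => (polyB K).mul_mem (polyB_ring.shift _ (ih j)) (hP j i)

theorem psi_dot {e : ℕ → ι → K} {P : ℕ → Matrix ι ι K} {q : ℕ → K} {s : ℕ → ι → K}
    (hs : ∀ l, q l • s (l + 1) = P l *ᵥ s l) (k m : ℕ) :
    psi e P k m ⬝ᵥ s m = (∏ i ∈ Finset.range k, q (m + i)) * (e (m + k) ⬝ᵥ s (m + k)) := by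
  induction k generalizing m with
  | zero => simp [psi]
  | succ k ih =>
    change (psi e P k (m + 1) ᵥ* P m) ⬝ᵥ s m = _
    rw [← dotProduct_mulVec, ← hs, dotProduct_smul, ih, smul_eq_mul, Finset.prod_range_succ']
    have h1 : m + 1 + k = m + (k + 1) := by ring
    have h2 : ∀ i, m + 1 + i = m + (i + 1) := fun i => by ring
    rw [h1]
    simp only [h2, add_zero]
    ring

/-- the kernel of the functionals -/
def WW (e : ℕ → ι → K) (P : ℕ → Matrix ι ι K) (m : ℕ) : Submodule K (ι → K) where
  carrier := {v | ∀ k, psi e P k m ⬝ᵥ v = 0}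
  add_mem' := by
    intro v w hv hw k
    rw [dotProduct_add, hv k, hw k, add_zero]
  zero_mem' := fun k => dotProduct_zero _
  smul_mem' := by
    intro c v hv k
    rw [dotProduct_smul, hv k, smul_zero]

/-- the kernel of all functionals but the first -/
def WW1 (e : ℕ → ι → K) (P : ℕ → Matrix ι ι K) (m : ℕ) : Submodule K (ι → K) where
  carrier := {v | ∀ k, psi e P (k + 1) m ⬝ᵥ v = 0}
  add_mem' := by
    intro v w hv hw k
    rw [dotProduct_add, hv k, hw k, add_zero]
  zero_mem' := fun k => dotProduct_zero _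
  smul_mem' := by
    intro c v hv k
    rw [dotProduct_smul, hv k, smul_zero]

theorem WW_le (e : ℕ → ι → K) (P : ℕ → Matrix ι ι K) (m : ℕ) : WW e P m ≤ WW1 e P m :=
  fun _ hv k => hv (k + 1)

theorem WW1_rank {e : ℕ → ι → K} {P : ℕ → Matrix ι ι K} (hdet : ∀ m, (P m).det ≠ 0) (m : ℕ) :
    Module.finrank K (WW1 e P m) = Module.finrank K (WW e P (m + 1)) := by
  have hinj : Function.Injective (P m).mulVecLin := by
    rw [Matrix.coe_mulVecLin, Matrix.mulVec_injective_iff_isUnit, Matrix.isUnit_iff_isUnit_det]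
    exact (hdet m).isUnit
  let E := LinearEquiv.ofInjectiveEndo (P m).mulVecLin hinj
  have h1 : (WW1 e P m).map (E : (ι → K) →ₗ[K] (ι → K)) = WW e P (m + 1) := by
    ext w
    constructor
    · rintro ⟨v, hv, rfl⟩ k
      have h2 := hv k
      change (psi e P k (m + 1) ᵥ* P m) ⬝ᵥ v = 0 at h2
      rw [← dotProduct_mulVec] at h2
      exact h2
    · intro hw
      refine ⟨E.symm w, fun k => ?_, E.apply_symm_apply w⟩
      change (psi e P k (m + 1) ᵥ* P m) ⬝ᵥ E.symm w = 0
      rw [← dotProduct_mulVec]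
      have h2 : P m *ᵥ E.symm w = w := E.apply_symm_apply w
      rw [h2]
      exact hw k
  rw [← h1]
  exact (LinearEquiv.finrank_map_eq E _).symm

/-- semicontinuity -/
theorem WW_semi [CharZero K] {e : ℕ → ι → K} {P : ℕ → Matrix ι ι K}
    (he : ∀ i, (fun m => e m i) ∈ polyB K) (hP : ∀ i j, (fun m => P m i j) ∈ polyB K) :
    ∀ᶠ m in atTop, Module.finrank K (WW e P m) ≤ Module.finrank K (WW e P 0) := by
  classical
  obtain ⟨b, hb, hspan, hli⟩ := exists_linearIndependent K (Set.range fun k => psi e P k 0)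
  have hfin : Finite b := hli.finite
  let _ : Fintype b := Fintype.ofFinite b
  choose κ hκ using fun β : b => hb β.2
  let M : ℕ → Matrix b ι K := fun m β => psi e P (κ β) m
  have hM0 : ∀ β : b, M 0 β = (β : ι → K) := fun β => hκ β
  have hrow : LinearIndependent K (M 0).row := by
    have h1 : (M 0).row = fun β : b => (β : ι → K) := funext hM0
    rw [h1]
    exact hli
  have hrank0 : (M 0).rank = Fintype.card b := hrow.rank_matrix
  -- a right inverse
  have hsurj : Function.Surjective (M 0).mulVecLin := by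
    rw [← LinearMap.range_eq_top]
    apply Submodule.eq_top_of_finrank_eq
    rw [Module.finrank_fintype_fun_eq_card]
    exact hrank0
  choose c hc using fun β : b => hsurj (Pi.single β 1)
  let C : Matrix ι b K := fun i β => c β i
  have hMC : M 0 * C = 1 := by
    ext β β'
    have h1 := congrFun (hc β') β
    rw [Matrix.mulVecLin_apply] at h1
    rw [Matrix.mul_apply, Matrix.one_apply]
    rw [Pi.single_apply] at h1
    exact h1
  have hdet : (fun m => (M m * C).det) ∈ polyB K := by
    refine polyB_det fun β β' => ?_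
    have h1 : (fun m => (M m * C) β β') = ∑ i, (fun m => psi e P (κ β) m i) *
        algebraMap K (ℕ → K) (C i β') := by
      funext m
      rw [Finset.sum_apply, Matrix.mul_apply]
      rfl
    rw [h1]
    exact (polyB K).sum_mem fun i _ => (polyB K).mul_mem (psi_mem he hP _ i)
      ((polyB K).algebraMap_mem _)
  have hne : ∀ᶠ m in atTop, (M m * C).det ≠ 0 := by
    refine polyB_ne (f := fun m => (M m * C).det) hdet (m := 0) ?_
    change (M 0 * C).det ≠ 0
    rw [hMC, Matrix.det_one]
    exact one_ne_zero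
  have hker : ∀ m, Module.finrank K (LinearMap.ker (M m).mulVecLin) + (M m).rank =
      Fintype.card ι := by
    intro m
    have h1 := LinearMap.finrank_range_add_finrank_ker (M m).mulVecLin
    rw [Module.finrank_fintype_fun_eq_card] at h1
    rw [← h1, add_comm]
    rfl
  have hle : ∀ m, WW e P m ≤ LinearMap.ker (M m).mulVecLin := by
    intro m v hv
    rw [LinearMap.mem_ker, Matrix.mulVecLin_apply]
    funext β
    exact hv (κ β)
  have h0 : LinearMap.ker (M 0).mulVecLin ≤ WW e P 0 := by
    intro v hv k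
    rw [LinearMap.mem_ker, Matrix.mulVecLin_apply] at hv
    have h1 : psi e P k 0 ∈ Submodule.span K b := by
      rw [hspan]
      exact Submodule.subset_span ⟨k, rfl⟩
    have h2 : ∀ w ∈ Submodule.span K b, w ⬝ᵥ v = 0 := by
      intro w hw
      induction hw using Submodule.span_induction with
      | mem w hw =>
        have h3 := congrFun hv ⟨w, hw⟩
        have h4 : M 0 ⟨w, hw⟩ = w := hM0 ⟨w, hw⟩
        change M 0 ⟨w, hw⟩ ⬝ᵥ v = 0 at h3
        rwa [h4] at h3
      | zero => exact zero_dotProduct _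
      | add w w' _ _ h3 h4 => rw [add_dotProduct, h3, h4, add_zero]
      | smul a w _ h3 => rw [smul_dotProduct, h3, smul_zero]
    exact h2 _ h1
  filter_upwards [hne] with m hm
  have h1 : Fintype.card b ≤ (M m).rank := by
    have h2 : (M m * C).rank = Fintype.card b := Matrix.rank_of_isUnit _ (by
      rw [Matrix.isUnit_iff_isUnit_det]
      exact hm.isUnit)
    rw [← h2]
    exact Matrix.rank_mul_le_left _ _
  have h2 := Submodule.finrank_mono (hle m)
  have h3 := Submodule.finrank_mono h0
  have h4 := hker m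
  have h5 := hker 0
  rw [hrank0] at h5
  omega

/-- **Rigidity.** -/
theorem rigid [CharZero K] {e : ℕ → ι → K} {P : ℕ → Matrix ι ι K} {q : ℕ → K} {s : ℕ → ι → K}
    (he : ∀ i, (fun m => e m i) ∈ polyB K) (hP : ∀ i j, (fun m => P m i j) ∈ polyB K)
    (hdet : ∀ m, (P m).det ≠ 0) (hs : ∀ l, q l • s (l + 1) = P l *ᵥ s l)
    (h : ∀ l, 1 ≤ l → e l ⬝ᵥ s l = 0) : e 0 ⬝ᵥ s 0 = 0 := by
  have hmono : ∀ m, Module.finrank K (WW e P m) ≤ Module.finrank K (WW e P (m + 1)) := by
    intro m
    rw [← WW1_rank hdet]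
    exact Submodule.finrank_mono (WW_le e P m)
  have hmono' : ∀ m, Module.finrank K (WW e P 1) ≤ Module.finrank K (WW e P (1 + m)) := by
    intro m
    induction m with
    | zero => exact le_rfl
    | succ m ih => exact ih.trans (hmono (1 + m))
  obtain ⟨m0, hm0⟩ := eventually_atTop.1 (WW_semi he hP)
  have h1 : Module.finrank K (WW1 e P 0) ≤ Module.finrank K (WW e P 0) := by
    rw [WW1_rank hdet]
    exact (hmono' m0).trans (hm0 (1 + m0) (by omega))
  have h2 : WW e P 0 = WW1 e P 0 := Submodule.eq_of_le_of_finrank_le (WW_le e P 0) h1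
  have h3 : s 0 ∈ WW1 e P 0 := by
    intro k
    rw [psi_dot hs, h _ (by omega), mul_zero]
  rw [← h2] at h3
  exact h3 0

end Pool.Agent.Q183.UH
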