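import Pool.Agent.Q183.UH.Hyp

/-!
Recurrences with integer coefficients which are regular from an index `s` on.
-/

set_option autoImplicit false

namespace Pool.Agent.Q183.UH

open Filter MvPolynomial
open scoped LinearAlgebra.Projectivization

/-- The sequence `x` of length `l` (possibly infinite) satisfies, from the index `s` on, a linear
recurrence of order at most `r` whose coefficients are polynomials of degree at most `d` with integer
coefficients of absolute value at most `A`, the first and the last of which do not vanish at the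
indices at least `s`. -/
def SRec (r d A s : ℕ) (l : ℕ∞) (x : ℕ → ℂ) : Prop :=
  ∃ (q : ℕ) (a : ℕ → Polynomial ℤ), q ≤ r ∧
    (∀ k, (a k).natDegree ≤ d ∧ ∀ i, |(a k).coeff i| ≤ A) ∧
    ∀ m : ℕ, s ≤ m → ((m + q : ℕ) : ℕ∞) < l →
      (a 0).eval (m : ℤ) ≠ 0 ∧ (a q).eval (m : ℤ) ≠ 0 ∧
      ∑ k ∈ Finset.range (q + 1), (((a k).eval (m : ℤ) : ℤ) : ℂ) * x (m + k) = 0

variable {r d A s : ℕ} {l : ℕ∞} {x : ℕ → ℂ}

theorem SRec.finRec (h : SRec r d A s l x) (l' : ℕ)
    (hl : ((s + l' : ℕ) : ℕ∞) ≤ l) : FinRec r d l' fun m => x (s + m) := by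
  obtain ⟨q, a, hq, hA, ha⟩ := h
  have hev : ∀ k (m : ℕ), (((a k).map (Int.castRingHom ℂ)).comp
      (Polynomial.X + Polynomial.C ((s : ℕ) : ℂ))).eval (m : ℂ) =
      (((a k).eval ((s + m : ℕ) : ℤ) : ℤ) : ℂ) := by
    intro k m
    rw [eval_shift]
    have h1 : (m : ℂ) + ((s : ℕ) : ℂ) = Int.castRingHom ℂ ((s + m : ℕ) : ℤ) := by
      rw [map_natCast]
      push_cast
      ring
    rw [h1, Polynomial.eval_map, Polynomial.eval₂_at_apply]
    rfl
  refine ⟨q, fun k => ((a k).map (Int.castRingHom ℂ)).comp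
    (Polynomial.X + Polynomial.C ((s : ℕ) : ℂ)), hq, fun k =>
    (natDegree_shift_le _ _).trans ((Polynomial.natDegree_map_le).trans (hA k).1), fun m hm => ?_⟩
  simp only [hev]
  obtain ⟨h1, h2, h3⟩ := ha (s + m) (by omega) (lt_of_lt_of_le (by
    exact_mod_cast (by omega : s + m + q < s + l')) hl)
  refine ⟨?_, ?_, ?_⟩
  · exact_mod_cast h1
  · exact_mod_cast h2
  · rw [← h3]
    refine Finset.sum_congr rfl fun k _ => ?_
    rw [Nat.add_assoc s]

/-- one step -/
theorem SRec.step (h : SRec r d A s l x) {t : ℕ}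
    (ht : s + r ≤ t) (htl : (t : ℕ∞) < l) {Y : ℝ} (hY : ∀ s' < t, ‖x s'‖ ≤ Y) (hY0 : 0 ≤ Y) :
    ‖x t‖ ≤ (r * ((d + 1) * A * (t + 1) ^ d)) * Y := by
  obtain ⟨q, a, hq, hA, ha⟩ := h
  obtain ⟨m, hm⟩ : ∃ m, t = m + q := ⟨t - q, by omega⟩
  obtain ⟨-, h0, h1⟩ := ha m (by omega) (by rw [← hm]; exact htl)
  rw [Finset.sum_range_succ, ← hm] at h1
  have h2 : (1 : ℝ) ≤ ‖(((a q).eval (m : ℤ) : ℤ) : ℂ)‖ := by
    rw [Complex.norm_intCast]
    exact_mod_cast Int.one_le_abs h0
  have h3 : (((a q).eval (m : ℤ) : ℤ) : ℂ) * x t =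
      -∑ k ∈ Finset.range q, (((a k).eval (m : ℤ) : ℤ) : ℂ) * x (m + k) := by
    linear_combination h1
  have h4 : ‖x t‖ ≤ ‖(((a q).eval (m : ℤ) : ℤ) : ℂ) * x t‖ := by
    rw [norm_mul]
    nlinarith [norm_nonneg (x t)]
  refine h4.trans ?_
  rw [h3, norm_neg]
  refine (norm_sum_le _ _).trans ?_
  have h5 : ∀ k ∈ Finset.range q, ‖(((a k).eval (m : ℤ) : ℤ) : ℂ) * x (m + k)‖ ≤
      ((d + 1) * A * (t + 1) ^ d) * Y := by
    intro k hk
    have h6 := Finset.mem_range.1 hk
    rw [norm_mul, Complex.norm_intCast]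
    refine mul_le_mul ?_ (hY _ (by omega)) (norm_nonneg _) (by positivity)
    have h7 := eval_size (hA k).1 (hA k).2 m
    have h8 : (|(((a k).eval (m : ℤ) : ℤ) : ℝ)|) ≤ (d + 1) * A * (m + 1) ^ d := by
      exact_mod_cast h7
    refine h8.trans ?_
    refine mul_le_mul_of_nonneg_left ?_ (by positivity)
    refine pow_le_pow_left₀ (by positivity) ?_ _
    have : (m : ℝ) ≤ t := by exact_mod_cast (by omega : m ≤ t)
    linarith
  refine (Finset.sum_le_sum h5).trans ?_
  rw [Finset.sum_const, Finset.card_range, nsmul_eq_mul]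
  have h6 : (q : ℝ) ≤ r := by exact_mod_cast hq
  have h7 : (0 : ℝ) ≤ ((d + 1) * A * (t + 1) ^ d) * Y := by positivity
  nlinarith

/-- several steps -/
theorem SRec.steps (h : SRec r d A s l x) {t0 n : ℕ}
    (ht0 : s + r ≤ t0) (htl : ((t0 + n : ℕ) : ℕ∞) ≤ l) {Y W : ℝ} (hY : ∀ s' < t0, ‖x s'‖ ≤ Y)
    (hY0 : 0 ≤ Y) (hW1 : 1 ≤ W)
    (hW : ∀ t, t < t0 + n → (r : ℝ) * ((d + 1) * A * (t + 1) ^ d) ≤ W) :
    ∀ s' < t0 + n, ‖x s'‖ ≤ W ^ n * Y := by
  induction n with
  | zero =>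
    intro s' hs
    rw [pow_zero, one_mul]
    exact hY s' hs
  | succ n ih =>
    have ih' := ih (le_trans (by exact_mod_cast (by omega : t0 + n ≤ t0 + (n + 1))) htl)
      fun t ht => hW t (by omega)
    intro s' hs
    have h0 : 0 ≤ W ^ n * Y := by positivity
    rcases Nat.lt_or_ge s' (t0 + n) with h1 | h1
    · refine (ih' s' h1).trans ?_
      rw [pow_succ]
      nlinarith
    · have h2 : s' = t0 + n := by omega
      rw [h2]
      refine (h.step (t := t0 + n) (by omega) (lt_of_lt_of_le (by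
        exact_mod_cast (by omega : t0 + n < t0 + (n + 1))) htl) ih' h0).trans ?_
      have h3 : W ^ (n + 1) * Y = W * (W ^ n * Y) := by ring
      rw [h3]
      exact mul_le_mul_of_nonneg_right (hW _ (by omega)) h0

/-- the constant in the bound -/
def cst2 (r d M C : ℕ) : ℕ := (r + 1) * (d + 1) * (C + M + r + 1) ^ d + 3 * C + M + 1

/-- **The size of a sequence whose middle part is periodic.** -/
theorem SRec.bound {M C : ℕ} (h : SRec r d A s l x) (hA : 1 ≤ A)
    (hM : 0 < M) (hper : ∀ t, s + C ≤ t → ((t + M + C : ℕ) : ℕ∞) ≤ l → x (t + M) = x t)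
    {B : ℝ} (hB0 : 0 ≤ B) (hB : ∀ t, t < s + r → (t : ℕ∞) < l → ‖x t‖ ≤ B) :
    (∀ t : ℕ, ((t + cst2 r d M C : ℕ) : ℕ∞) ≤ l →
      ‖x t‖ ≤ ((cst2 r d M C : ℝ) * (A * (s + 1) ^ d)) ^ cst2 r d M C * B) ∧
    ∀ t : ℕ, (t : ℕ∞) < l →
      ‖x t‖ ≤ ((cst2 r d M C : ℝ) * (A * (s + t + 1) ^ d)) ^ cst2 r d M C * B := by
  obtain ⟨c, hc⟩ : ∃ c, c = cst2 r d M C := ⟨_, rfl⟩
  rw [← hc]
  have hA1 : (1 : ℝ) ≤ A := by exact_mod_cast hA
  obtain ⟨c1, hc1⟩ : ∃ c1 : ℕ, c1 = (r + 1) * (d + 1) * (C + M + r + 1) ^ d := ⟨_, rfl⟩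
  have hc' : c = c1 + 3 * C + M + 1 := by rw [hc, hc1]; rfl
  have hc1c : (c1 : ℝ) ≤ c := by
    have : c1 ≤ c := by omega
    exact_mod_cast this
  have hc11 : (1 : ℝ) ≤ c1 := by
    have : 1 ≤ c1 := by
      rw [hc1]
      exact Nat.one_le_iff_ne_zero.2 (by positivity)
    exact_mod_cast this
  have hcR : (1 : ℝ) ≤ c := hc11.trans hc1c
  have hs0 : (0 : ℝ) ≤ s := by positivity
  have hr0 : (0 : ℝ) ≤ r := by positivity
  have hC0 : (0 : ℝ) ≤ C := by positivity
  have hM0 : (0 : ℝ) ≤ M := by positivity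
  -- the factor for the first indices
  obtain ⟨W1, hW1⟩ : ∃ W1 : ℝ, W1 = (r + 1) * ((d + 1) * A * (s + C + M + r + 1) ^ d) := ⟨_, rfl⟩
  have hW11 : 1 ≤ W1 := by
    rw [hW1]
    have e1 : (1 : ℝ) ≤ r + 1 := by linarith
    have e2 : (1 : ℝ) ≤ d + 1 := by
      have : (0 : ℝ) ≤ d := by positivity
      linarith
    have e3 : (1 : ℝ) ≤ (s + C + M + r + 1 : ℝ) ^ d := one_le_pow₀ (by linarith)
    exact one_le_mul_of_one_le_of_one_le e1 (one_le_mul_of_one_le_of_one_le
      (one_le_mul_of_one_le_of_one_le e2 hA1) e3)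
  have hW1c : W1 ≤ (c1 : ℝ) * (A * (s + 1) ^ d) := by
    rw [hW1, hc1]
    push_cast
    have e1 : (s + C + M + r + 1 : ℝ) ^ d ≤ ((C + M + r + 1) * (s + 1)) ^ d := by
      refine pow_le_pow_left₀ (by positivity) ?_ _
      nlinarith
    have e2 : ((r : ℝ) + 1) * ((d + 1) * A * (s + C + M + r + 1) ^ d) ≤
        (r + 1) * ((d + 1) * A * ((C + M + r + 1) * (s + 1)) ^ d) := by
      refine mul_le_mul_of_nonneg_left ?_ (by positivity)
      exact mul_le_mul_of_nonneg_left e1 (by positivity)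
    refine e2.trans (le_of_eq ?_)
    rw [mul_pow]
    ring
  have hU : ∀ t : ℕ, t ≤ s + C + M + r → (t : ℕ∞) < l → ‖x t‖ ≤ W1 ^ (C + M + 1) * B := by
    intro t ht htl
    rcases Nat.lt_or_ge t (s + r) with h1 | h1
    · refine (hB t h1 htl).trans ?_
      have h2 : 1 ≤ W1 ^ (C + M + 1) := one_le_pow₀ hW11
      nlinarith
    · have h2 := h.steps (t0 := s + r) (n := t + 1 - (s + r)) le_rfl (by
        have h3 : s + r + (t + 1 - (s + r)) = t + 1 := by omega
        rw [h3]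
        exact Order.add_one_le_of_lt htl) (Y := B) (W := W1) (fun s' hs => hB s' (by omega)
          (lt_of_lt_of_le (by exact_mod_cast (by omega : s' < t + 1))
            (Order.add_one_le_of_lt htl))) hB0 hW11 (fun s' hs => by
          rw [hW1]
          have e1 : ((s' : ℝ) + 1) ^ d ≤ (s + C + M + r + 1) ^ d := by
            refine pow_le_pow_left₀ (by positivity) ?_ _
            have : (s' : ℝ) ≤ (s + C + M + r : ℕ) := by exact_mod_cast (by omega)
            push_cast at this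
            linarith
          have e2 : (0 : ℝ) ≤ (d + 1) * A * (s + C + M + r + 1) ^ d := by positivity
          calc (r : ℝ) * ((d + 1) * A * (s' + 1) ^ d)
              ≤ r * ((d + 1) * A * (s + C + M + r + 1) ^ d) := by
                refine mul_le_mul_of_nonneg_left ?_ (by positivity)
                exact mul_le_mul_of_nonneg_left e1 (by positivity)
            _ ≤ _ := by nlinarith) t (by omega)
      refine h2.trans (mul_le_mul_of_nonneg_right ?_ hB0)
      exact pow_le_pow_right₀ hW11 (by omega)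
  have hmid : ∀ t : ℕ, ((t + C + 1 : ℕ) : ℕ∞) ≤ l → ‖x t‖ ≤ W1 ^ (C + M + 1) * B := by
    intro t
    induction t using Nat.strong_induction_on with
    | _ t ih =>
      intro ht
      rcases Nat.lt_or_ge (s + C + M + r) t with h1 | h1
      · have h2 := hper (t - M) (by omega) (le_trans (by
          exact_mod_cast (by omega : t - M + M + C ≤ t + C + 1)) ht)
        have h3 : t - M + M = t := by omega
        rw [h3] at h2
        rw [h2]
        exact ih (t - M) (by omega) (le_trans (by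
          exact_mod_cast (by omega : t - M + C + 1 ≤ t + C + 1)) ht)
      · exact hU t h1 (lt_of_lt_of_le (by exact_mod_cast (by omega : t < t + C + 1)) ht)
  have hcA : (1 : ℝ) ≤ c * (A * (s + 1) ^ d) := by
    have e3 : (1 : ℝ) ≤ (s + 1 : ℝ) ^ d := one_le_pow₀ (by linarith)
    exact one_le_mul_of_one_le_of_one_le hcR (one_le_mul_of_one_le_of_one_le hA1 e3)
  have hpow : W1 ^ (C + M + 1) ≤ ((c : ℝ) * (A * (s + 1) ^ d)) ^ (C + M + 1) := by
    refine pow_le_pow_left₀ (by linarith) (hW1c.trans ?_) _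
    exact mul_le_mul_of_nonneg_right hc1c (by positivity)
  refine ⟨fun t ht => ?_, fun t ht => ?_⟩
  · refine (hmid t (le_trans (by exact_mod_cast (by omega : t + C + 1 ≤ t + c)) ht)).trans ?_
    refine mul_le_mul_of_nonneg_right (hpow.trans ?_) hB0
    exact pow_le_pow_right₀ hcA (by omega)
  · -- the last indices
    obtain ⟨Q, hQ⟩ : ∃ Q : ℝ, Q = c * (A * (s + t + 1) ^ d) := ⟨_, rfl⟩
    rw [← hQ]
    have ht0 : (0 : ℝ) ≤ t := by positivity
    have hcAQ : (c : ℝ) * (A * (s + 1) ^ d) ≤ Q := by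
      rw [hQ]
      refine mul_le_mul_of_nonneg_left ?_ (by positivity)
      refine mul_le_mul_of_nonneg_left ?_ (by positivity)
      exact pow_le_pow_left₀ (by positivity) (by linarith) _
    have hQ1 : 1 ≤ Q := hcA.trans hcAQ
    have hWQ : ∀ s' : ℕ, s' ≤ t → (r : ℝ) * ((d + 1) * A * (s' + 1) ^ d) ≤ Q := by
      intro s' hs
      have e1 : ((s' : ℝ) + 1) ^ d ≤ (s + t + 1) ^ d := by
        refine pow_le_pow_left₀ (by positivity) ?_ _
        have : (s' : ℝ) ≤ t := by exact_mod_cast hs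
        linarith
      have e3 : ((r : ℝ) + 1) * (d + 1) ≤ c := by
        have e4 : (r + 1) * (d + 1) ≤ c := by
          have : (r + 1) * (d + 1) * 1 ≤ c1 := by
            rw [hc1]
            exact Nat.mul_le_mul_left _ (Nat.one_le_pow _ _ (by omega))
          omega
        exact_mod_cast e4
      calc (r : ℝ) * ((d + 1) * A * (s' + 1) ^ d)
          ≤ r * ((d + 1) * A * (s + t + 1) ^ d) := by
            refine mul_le_mul_of_nonneg_left ?_ (by positivity)
            exact mul_le_mul_of_nonneg_left e1 (by positivity)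
        _ ≤ ((r + 1) * (d + 1)) * (A * (s + t + 1) ^ d) := by
            have : (0 : ℝ) ≤ (d + 1) * (A * (s + t + 1) ^ d) := by positivity
            nlinarith
        _ ≤ Q := by
            rw [hQ]
            exact mul_le_mul_of_nonneg_right e3 (by positivity)
    have hfin : ‖x t‖ ≤ Q ^ C * (W1 ^ (C + M + 1) * B) := by
      have hU0 : B ≤ W1 ^ (C + M + 1) * B := by
        have : 1 ≤ W1 ^ (C + M + 1) := one_le_pow₀ hW11
        nlinarith
      have hU00 : 0 ≤ W1 ^ (C + M + 1) * B := hB0.trans hU0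
      rcases Nat.lt_or_ge (t + 1) (s + r + C) with h1 | h1
      · rcases Nat.lt_or_ge t (s + r) with h4 | h4
        · refine (hB t h4 ht).trans (hU0.trans ?_)
          have h5 : 1 ≤ Q ^ C := one_le_pow₀ hQ1
          nlinarith
        · have h2 := h.steps (t0 := s + r) (n := t + 1 - (s + r)) le_rfl (by
            have h3 : s + r + (t + 1 - (s + r)) = t + 1 := by omega
            rw [h3]
            exact Order.add_one_le_of_lt ht) (Y := B) (W := Q) (fun s' hs => hB s' (by omega)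
              (lt_of_lt_of_le (by exact_mod_cast (by omega : s' < t + 1))
                (Order.add_one_le_of_lt ht))) hB0 hQ1
              (fun s' hs => hWQ s' (by omega)) t (by omega)
          refine h2.trans ?_
          refine mul_le_mul (pow_le_pow_right₀ hQ1 (by omega)) hU0 hB0 (by positivity)
      · have h2 := h.steps (t0 := t + 1 - C) (n := C) (by omega) (by
          have h3 : t + 1 - C + C = t + 1 := by omega
          rw [h3]
          exact Order.add_one_le_of_lt ht) (Y := W1 ^ (C + M + 1) * B) (W := Q) (fun s' hs =>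
            hmid s' (le_trans (by exact_mod_cast (by omega : s' + C + 1 ≤ t + 1))
              (Order.add_one_le_of_lt ht))) hU00 hQ1 (fun s' hs => hWQ s' (by omega)) t (by omega)
        exact h2
    refine hfin.trans ?_
    rw [← mul_assoc]
    refine mul_le_mul_of_nonneg_right ?_ hB0
    have e1 : W1 ^ (C + M + 1) ≤ Q ^ (C + M + 1) :=
      hpow.trans (pow_le_pow_left₀ (by positivity) hcAQ _)
    calc Q ^ C * W1 ^ (C + M + 1) ≤ Q ^ C * Q ^ (C + M + 1) :=
          mul_le_mul_of_nonneg_left e1 (by positivity)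
      _ = Q ^ (C + (C + M + 1)) := (pow_add _ _ _).symm
      _ ≤ Q ^ c := pow_le_pow_right₀ hQ1 (by omega)

/-- **The size of the points of plane curves in recurrent sequences.** -/
theorem plane_size2 (D r d : ℕ) : ∃ M c : ℕ, 0 < M ∧ 0 < c ∧ ∀ (F : MvPolynomial (Fin 2) ℂ),
    F.totalDegree ≤ D → RatIn (N := 2) {hmg (D + 1) F} {X 2} ℂ → ∀ (A s : ℕ), 1 ≤ A →
    ∀ (B : ℝ), 0 ≤ B → ∀ (l : ℕ∞)
    (x y : ℕ → ℂ), (∀ t : ℕ, (t : ℕ∞) < l → aeval ![x t, y t] F = 0) → SRec r d A s l x →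
    SRec r d A s l y → (∀ t : ℕ, t < s + r → (t : ℕ∞) < l → ‖x t‖ ≤ B ∧ ‖y t‖ ≤ B) →
    (∀ t : ℕ, s + c ≤ t → ((t + M + c : ℕ) : ℕ∞) ≤ l → x (t + M) = x t ∧ y (t + M) = y t) ∧
    (∀ t : ℕ, ((t + c : ℕ) : ℕ∞) ≤ l →
      ‖x t‖ ≤ ((c : ℝ) * (A * (s + 1) ^ d)) ^ c * B ∧
      ‖y t‖ ≤ ((c : ℝ) * (A * (s + 1) ^ d)) ^ c * B) ∧
    ∀ t : ℕ, (t : ℕ∞) < l → ‖x t‖ ≤ ((c : ℝ) * (A * (s + t + 1) ^ d)) ^ c * B ∧
      ‖y t‖ ≤ ((c : ℝ) * (A * (s + t + 1) ^ d)) ^ c * B := by
  obtain ⟨M, C, hM, h⟩ := plane_fin' D r d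
  refine ⟨M, cst2 r d M C, hM, by unfold cst2; omega, fun F hF hno A s hA B hB0 l x y hX hx hy hB => ?_⟩
  have hno' : ∀ (E : Type) [Field E] [Algebra ℂ E] [FiniteDimensional ℂ E],
      RatIn (N := 2) {hmg (D + 1) F} {X 2} E := by
    intro E i1 i2 i3
    exact hno.fin_ext E
  have hper : ∀ t, s + C ≤ t → ((t + M + C : ℕ) : ℕ∞) ≤ l → x (t + M) = x t ∧
      y (t + M) = y t := by
    intro t ht htl
    obtain ⟨t', rfl⟩ := Nat.exists_eq_add_of_le (show s ≤ t by omega)
    have h1 : ((s + (t' + M + C) : ℕ) : ℕ∞) ≤ l := le_trans (by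
      exact_mod_cast (by omega : s + (t' + M + C) ≤ s + t' + M + C)) htl
    have h2 := h ℂ F hF hno' ℂ (t' + M + C) (fun m => x (s + m)) (fun m => y (s + m))
      (fun m hm => hX _ (lt_of_lt_of_le (by
        exact_mod_cast (by omega : s + m < s + (t' + M + C))) h1))
      (hx.finRec _ h1) (hy.finRec _ h1) t' (by omega) le_rfl
    simp only [← Nat.add_assoc] at h2
    exact h2
  have hbx := hx.bound hA hM (fun t h1 h2 => (hper t h1 h2).1) hB0 fun t h1 h2 => (hB t h1 h2).1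
  have hby := hy.bound hA hM (fun t h1 h2 => (hper t h1 h2).2) hB0 fun t h1 h2 => (hB t h1 h2).2
  have hcC : C ≤ cst2 r d M C := by
    unfold cst2
    omega
  refine ⟨fun t h1 h2 => hper t (by omega) (le_trans (by
    exact_mod_cast (by omega : t + M + C ≤ t + M + cst2 r d M C)) h2),
    fun t ht => ⟨hbx.1 t ht, hby.1 t ht⟩, fun t ht => ⟨hbx.2 t ht, hby.2 t ht⟩⟩

end Pool.Agent.Q183.UH
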