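import Pool.Agent.Q183.UH.Rig

/-!
Rigidity for linear combinations of sequences given by nonsingular linear recurrences.
-/

set_option autoImplicit false

namespace Pool.Agent.Q183.UH

open Filter Pool.Agent.Q183.RS Matrix

variable {K : Type} [Field K]

theorem polyB_affine {f : ℕ → K} (hf : f ∈ polyB K) (a b : ℕ) :
    (fun m => f (m * a + b)) ∈ polyB K := by
  obtain ⟨P, hP⟩ := hf
  refine ⟨P.comp (Polynomial.X * Polynomial.C (a : K) + Polynomial.C (b : K)), fun m => ?_⟩
  change f (m * a + b) = _
  rw [hP, Polynomial.eval_comp]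
  simp

/-! ### several steps -/

section Steps

variable {ι : Type} [Fintype ι] [DecidableEq ι]

/-- the product of matrices -/
def prodM (A : ℕ → Matrix ι ι K) (t : ℕ) : ℕ → Matrix ι ι K
  | 0 => 1
  | i + 1 => A (t + i) * prodM A t i

theorem prodM_step {A : ℕ → Matrix ι ι K} {q : ℕ → K} {s : ℕ → ι → K}
    (hs : ∀ l, q l • s (l + 1) = A l *ᵥ s l) (t i : ℕ) :
    (∏ k ∈ Finset.range i, q (t + k)) • s (t + i) = prodM A t i *ᵥ s t := by
  induction i with
  | zero => simp [prodM]
  | succ i ih =>
    rw [Finset.prod_range_succ, mul_smul, ← add_assoc, hs]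
    change _ = (A (t + i) * prodM A t i) *ᵥ s t
    rw [← Matrix.mulVec_mulVec, ← ih, Matrix.mulVec_smul]

theorem prodM_det {A : ℕ → Matrix ι ι K} (hA : ∀ m, (A m).det ≠ 0) (t i : ℕ) :
    (prodM A t i).det ≠ 0 := by
  induction i with
  | zero => simp [prodM]
  | succ i ih =>
    change (A (t + i) * prodM A t i).det ≠ 0
    rw [Matrix.det_mul]
    exact mul_ne_zero (hA _) ih

theorem prodM_mem {A : ℕ → Matrix ι ι K} (hA : ∀ a b, (fun m => A m a b) ∈ polyB K) (M c i : ℕ)
    (a b : ι) : (fun l => prodM A (l * M + c) i a b) ∈ polyB K := by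
  induction i generalizing a b with
  | zero =>
    have h1 : (fun l : ℕ => prodM A (l * M + c) 0 a b) =
        algebraMap K (ℕ → K) ((1 : Matrix ι ι K) a b) := by
      funext l
      rfl
    rw [h1]
    exact (polyB K).algebraMap_mem _
  | succ i ih =>
    have h1 : (fun l => prodM A (l * M + c) (i + 1) a b) =
        ∑ j, (fun l => A (l * M + (c + i)) a j) * fun l => prodM A (l * M + c) i j b := by
      funext l
      rw [Finset.sum_apply]
      change (A (l * M + c + i) * prodM A (l * M + c) i) a b = _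
      rw [Matrix.mul_apply, add_assoc]
      rfl
    rw [h1]
    exact (polyB K).sum_mem fun j _ => (polyB K).mul_mem (polyB_affine (hA a j) M (c + i)) (ih j b)

/-- **Rigidity along an arithmetic progression.** -/
theorem rigid_step [CharZero K] {e : ℕ → ι → K} {A : ℕ → Matrix ι ι K} {q : ℕ → K}
    {s : ℕ → ι → K} (he : ∀ i, (fun m => e m i) ∈ polyB K)
    (hA : ∀ i j, (fun m => A m i j) ∈ polyB K) (hdet : ∀ m, (A m).det ≠ 0)
    (hs : ∀ l, q l • s (l + 1) = A l *ᵥ s l) (M : ℕ)
    (h : ∀ l, 1 ≤ l → e l ⬝ᵥ s (l * M) = 0) : e 0 ⬝ᵥ s 0 = 0 := by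
  have h1 := rigid (e := e) (P := fun l => prodM A (l * M) M)
    (q := fun l => ∏ k ∈ Finset.range M, q (l * M + k)) (s := fun l => s (l * M)) he
    (fun a b => by
      have h2 := prodM_mem hA M 0 M a b
      simpa using h2) (fun l => prodM_det hdet _ _) (fun l => by
      have h2 := prodM_step hs (l * M) M
      rw [← h2]
      congr 2
      ring) h
  simpa using h1

end Steps

/-! ### recurrences -/

variable {J : Type} [Fintype J] [DecidableEq J] {R : ℕ}

/-- the product of the leading coefficients -/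
def qq (R : ℕ) (α : J → ℕ → ℕ → K) (t : ℕ) : K := ∏ j, α j R t

/-- the product of the other leading coefficients -/
def wj (R : ℕ) (α : J → ℕ → ℕ → K) (j : J) (t : ℕ) : K := ∏ i ∈ Finset.univ.erase j, α i R t

theorem qq_eq (α : J → ℕ → ℕ → K) (j : J) (t : ℕ) : qq R α t = α j R t * wj R α j t := by
  unfold qq wj
  exact (Finset.mul_prod_erase _ (fun j => α j R t) (Finset.mem_univ j)).symm

/-- the matrix of the recurrences -/
def stepM (R : ℕ) (α : J → ℕ → ℕ → K) (t : ℕ) : Matrix (J × Fin R) (J × Fin R) K := fun a b =>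
  if a.1 = b.1 then
    (if (a.2 : ℕ) + 1 < R then (if (b.2 : ℕ) = a.2 + 1 then qq R α t else 0)
      else -(wj R α a.1 t * α a.1 b.2 t)) else 0

theorem stepM_mulVec (α : J → ℕ → ℕ → K) (t : ℕ) (v : J × Fin R → K) (a : J × Fin R) :
    (stepM R α t *ᵥ v) a = if h : (a.2 : ℕ) + 1 < R then qq R α t * v (a.1, ⟨a.2 + 1, h⟩)
      else -(wj R α a.1 t * ∑ i : Fin R, α a.1 i t * v (a.1, i)) := by
  have h1 : (stepM R α t *ᵥ v) a = ∑ i : Fin R,
      (if (a.2 : ℕ) + 1 < R then (if (i : ℕ) = a.2 + 1 then qq R α t else 0)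
        else -(wj R α a.1 t * α a.1 i t)) * v (a.1, i) := by
    change ∑ b, stepM R α t a b * v b = _
    rw [Fintype.sum_prod_type, Finset.sum_eq_single a.1]
    · refine Finset.sum_congr rfl fun i _ => ?_
      unfold stepM
      rw [if_pos rfl]
    · intro j _ hj
      refine Finset.sum_eq_zero fun i _ => ?_
      unfold stepM
      rw [if_neg (fun h => hj h.symm), zero_mul]
    · intro h
      exact absurd (Finset.mem_univ _) h
  rw [h1]
  split_ifs with h
  · rw [Finset.sum_eq_single ⟨(a.2 : ℕ) + 1, h⟩]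
    · rw [if_pos rfl]
    · intro i _ hi
      rw [if_neg (fun h2 => hi (Fin.ext h2)), zero_mul]
    · intro h2
      exact absurd (Finset.mem_univ _) h2
  · rw [Finset.mul_sum, ← Finset.sum_neg_distrib]
    refine Finset.sum_congr rfl fun i _ => ?_
    ring

theorem stepM_det {α : J → ℕ → ℕ → K} (h0 : ∀ j t, α j 0 t ≠ 0) (hR : ∀ j t, α j R t ≠ 0)
    (t : ℕ) : (stepM R α t).det ≠ 0 := by
  have hq : qq R α t ≠ 0 := Finset.prod_ne_zero_iff.2 fun j _ => hR j t
  have hw : ∀ j, wj R α j t ≠ 0 := fun j => Finset.prod_ne_zero_iff.2 fun i _ => hR i t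
  have hinj : Function.Injective (stepM R α t).mulVec := by
    have h1 : Function.Injective (stepM R α t).mulVecLin := by
      rw [injective_iff_map_eq_zero]
      intro v hv
      rw [Matrix.mulVecLin_apply] at hv
      have h2 : ∀ a, (stepM R α t *ᵥ v) a = 0 := fun a => congrFun hv a
      have h3 : ∀ (j : J) (i : Fin R), 0 < (i : ℕ) → v (j, i) = 0 := by
        intro j i hi
        have h4 := h2 (j, ⟨(i : ℕ) - 1, by omega⟩)
        rw [stepM_mulVec] at h4
        have h5 : (i : ℕ) - 1 + 1 < R := by omega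
        rw [dif_pos h5] at h4
        have h6 : (⟨(i : ℕ) - 1 + 1, h5⟩ : Fin R) = i := Fin.ext (by simp only; omega)
        rw [h6] at h4
        exact (mul_eq_zero.1 h4).resolve_left hq
      funext a
      obtain ⟨j, i⟩ := a
      by_cases hi : 0 < (i : ℕ)
      · exact h3 j i hi
      · have hRpos : 0 < R := i.pos
        have h4 := h2 (j, ⟨R - 1, by omega⟩)
        rw [stepM_mulVec, dif_neg (by simp only; omega), neg_eq_zero] at h4
        have h5 := (mul_eq_zero.1 h4).resolve_left (hw j)
        rw [Finset.sum_eq_single i] at h5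
        · have h6 : (i : ℕ) = 0 := by omega
          have h7 : α j (i : ℕ) t ≠ 0 := by
            rw [h6]
            exact h0 j t
          exact (mul_eq_zero.1 h5).resolve_left h7
        · intro i' _ hi'
          rw [h3 j i' (by
            by_contra h6
            apply hi'
            exact Fin.ext (by omega)), mul_zero]
        · intro h6
          exact absurd (Finset.mem_univ _) h6
    exact h1
  rw [Matrix.mulVec_injective_iff_isUnit, Matrix.isUnit_iff_isUnit_det] at hinj
  exact hinj.ne_zero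

theorem stepM_mem {α : J → ℕ → ℕ → K} (hα : ∀ j k, (fun t => α j k t) ∈ polyB K)
    (a b : J × Fin R) : (fun t => stepM R α t a b) ∈ polyB K := by
  have hq : (fun t => qq R α t) ∈ polyB K := by
    have h1 : (fun t => qq R α t) = ∏ j, fun t => α j R t := by
      funext t
      rw [Finset.prod_apply]
      rfl
    rw [h1]
    exact (polyB K).prod_mem fun j _ => hα j R
  have hw : ∀ j, (fun t => wj R α j t) ∈ polyB K := by
    intro j
    have h1 : (fun t => wj R α j t) = ∏ i ∈ Finset.univ.erase j, fun t => α i R t := by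
      funext t
      rw [Finset.prod_apply]
      rfl
    rw [h1]
    exact (polyB K).prod_mem fun j _ => hα j R
  unfold stepM
  split_ifs
  · exact hq
  · exact (polyB K).zero_mem
  · exact (polyB K).neg_mem ((polyB K).mul_mem (hw _) (hα _ _))
  · exact (polyB K).zero_mem

/-- **Rigidity of sequences.** The sequences `u j` satisfy nonsingular recurrences of order `R`. If
a linear combination of them vanishes at all `l M`, `l ≥ 1`, then it vanishes at `0`. -/
theorem rigid_seq [CharZero K] (hRpos : 0 < R) {α : J → ℕ → ℕ → K} {u : J → ℕ → K}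
    (hα : ∀ j k, (fun t => α j k t) ∈ polyB K) (h0 : ∀ j t, α j 0 t ≠ 0)
    (hR : ∀ j t, α j R t ≠ 0)
    (hu : ∀ j t, ∑ k ∈ Finset.range (R + 1), α j k t * u j (t + k) = 0) (M : ℕ)
    (c : J → ℕ → K) (hc : ∀ j, c j ∈ polyB K)
    (h : ∀ l, 1 ≤ l → ∑ j, c j l * u j (l * M) = 0) : ∑ j, c j 0 * u j 0 = 0 := by
  let s : ℕ → J × Fin R → K := fun t a => u a.1 (t + a.2)
  have hs : ∀ l, qq R α l • s (l + 1) = stepM R α l *ᵥ s l := by
    intro l
    funext a
    rw [stepM_mulVec, Pi.smul_apply, smul_eq_mul]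
    split_ifs with h1
    · simp only [s]
      congr 2
      omega
    · have h2 : (a.2 : ℕ) + 1 = R := by
        have := a.2.2
        omega
      have h3 := hu a.1 l
      rw [Finset.sum_range_succ, Finset.sum_range] at h3
      simp only [s]
      have h4 : l + 1 + (a.2 : ℕ) = l + R := by omega
      rw [h4, qq_eq α a.1 l]
      linear_combination wj R α a.1 l * h3
  let e : ℕ → J × Fin R → K := fun m a => if (a.2 : ℕ) = 0 then c a.1 m else 0
  have he : ∀ a, (fun m => e m a) ∈ polyB K := by
    intro a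
    simp only [e]
    split_ifs
    · exact hc a.1
    · exact (polyB K).zero_mem
  have hes : ∀ m t, e m ⬝ᵥ s t = ∑ j, c j m * u j t := by
    intro m t
    change ∑ a, e m a * s t a = _
    rw [Fintype.sum_prod_type]
    refine Finset.sum_congr rfl fun j _ => ?_
    rw [Finset.sum_eq_single ⟨0, hRpos⟩]
    · simp [e, s]
    · intro i _ hi
      have h5 : (i : ℕ) ≠ 0 := fun h6 => hi (Fin.ext h6)
      simp only [e, if_neg h5, zero_mul]
    · intro h5
      exact absurd (Finset.mem_univ _) h5
  have h1 := rigid_step (e := e) (A := stepM R α) (q := qq R α) (s := s) he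
    (fun a b => stepM_mem hα a b) (stepM_det h0 hR) hs M (fun l hl => by
      rw [hes]
      exact h l hl)
  rwa [hes] at h1

end Pool.Agent.Q183.UH
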