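import Pool.Agent.Q183.UH.Desc2
import Pool.Agent.Q183.RS.Conv2

/-!
Rational curves over extensions, sequences of points on rational curves, equivalences.
-/

set_option autoImplicit false

namespace Pool.Agent.Q183.UH

open Filter Pool.Agent.TH143.HE Pool.Agent.Q183.RS MvPolynomial Cardinal Pool.Agent.H533R3.SL
open scoped LinearAlgebra.Projectivization

variable {N : ℕ}

/-- Every map from the projective line over the field `E` to the projective variety of the forms
in `FF` is constant or has its image in the variety of the forms in `GG`. -/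
def RatIn {K : Type} [Field K] (FF GG : Set (MvPolynomial (Fin (N + 1)) K)) (E : Type) [Field E]
    [Algebra K E] : Prop :=
  ∀ p : Fin (N + 1) → Polynomial E, (∀ F ∈ FF, aeval p F = 0) →
    (∀ i j m n, (p i).coeff m * (p j).coeff n = (p j).coeff m * (p i).coeff n) ∨
    ∀ G ∈ GG, aeval p G = 0

theorem RatIn.pairOn {K : Type} [Field K] {FF GG : Set (MvPolynomial (Fin (N + 1)) K)} {E : Type}
    [Field E] [Algebra K E] (h : RatIn FF GG E) :
    PairOn ((MvPolynomial.map (algebraMap K E)) '' FF) ((MvPolynomial.map (algebraMap K E)) '' GG) := by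
  intro p hp
  rcases h p (fun F hF => by
    have h1 := hp _ ⟨F, hF, rfl⟩
    rwa [aeval_map_algebraMap] at h1) with h1 | h1
  · exact Or.inl fun j k i i' => h1 j k i i'
  · right
    rintro _ ⟨G, hG, rfl⟩
    rw [aeval_map_algebraMap]
    exact h1 G hG

/-- it is enough to consider finite extensions -/
theorem ratIn_ext {K : Type} [Field K] {FF GG : Set (MvPolynomial (Fin (N + 1)) K)}
    (hFF : ∀ F ∈ FF, ∃ e, F.IsHomogeneous e) (hGG : ∀ G ∈ GG, ∃ e, G.IsHomogeneous e)
    (h : ∀ (E : Type) [Field E] [Algebra K E] [FiniteDimensional K E], RatIn FF GG E)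
    (E : Type) [Field E] [Algebra K E] : RatIn FF GG E := by
  intro p hp
  by_contra hcon
  push Not at hcon
  obtain ⟨hnc, G0, hG0, hne⟩ := hcon
  have hp' : RCur ((algebraMap K E).comp (RingHom.id K)) (Ideal.span FF) (Ideal.span GG) p :=
    ⟨fun F hF _ => aeval_span hp hF, ⟨G0, Ideal.subset_span hG0, hGG G0 hG0, hne⟩, hnc⟩
  obtain ⟨L, _, _, _, p', h'⟩ := hp'.spec (RingHom.id K)
  rcases h L p' (fun F hF => h'.zero F (Ideal.subset_span hF) (hFF F hF)) with h3 | h3
  · obtain ⟨j, k, i, i', hne'⟩ := h'.nc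
    exact hne' (h3 j k i i')
  · obtain ⟨G', hG', _, hne'⟩ := h'.ne
    exact hne' (aeval_span h3 hG')

theorem CRecO.precOD {K : Type} [Field K] {r : ℕ} {f : ℕ → K} (h : CRecO r f) (d : ℕ) :
    PRecOD r d f := by
  obtain ⟨a, ⟨k, hk, hk0⟩, h⟩ := h
  refine ⟨fun k => Polynomial.C (a k), ⟨k, hk, by rwa [Ne, Polynomial.C_eq_zero]⟩, fun k => by simp,
    fun m => ?_⟩
  simp only [Polynomial.eval_C]
  exact h m

/-- the powers of two on a rational curve -/
theorem seq_on_curve {K E : Type} [Field K] [Field E] [CharZero E] [Algebra K E]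
    {FF : Set (MvPolynomial (Fin (N + 1)) K)} {p : Fin (N + 1) → Polynomial E}
    (hp : ∀ F ∈ FF, aeval p F = 0)
    (hnc : ¬ ∀ i j m n, (p i).coeff m * (p j).coeff n = (p j).coeff m * (p i).coeff n)
    {G : MvPolynomial (Fin (N + 1)) K} (hG : aeval p G ≠ 0) :
    ∃ (r : ℕ) (x : ℕ → Fin (N + 1) → E) (hne : ∀ m, x m ≠ 0),
      (∀ m, ∀ F ∈ FF, aeval (x m) F = 0) ∧ (∀ j, CRecO r fun m => x m j) ∧
      (∀ m, aeval (x m) G ≠ 0) ∧
      (Set.range fun m => Projectivization.mk E (x m) (hne m)).Infinite := by
  classical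
  have hinf : Infinite E := CharZero.infinite E
  have hevG : ∀ (F : MvPolynomial (Fin (N + 1)) K) (t : E), (aeval p F).eval t =
      aeval (fun i => (p i).eval t) F := fun F t => Pool.Agent.Y215.AF.aeval_eval p F t
  obtain ⟨i0, hi0⟩ : ∃ i, p i ≠ 0 := by
    by_contra h
    push Not at h
    apply hnc
    intro i j m n
    rw [h i, h j]
  obtain ⟨s, hs⟩ := eventually_atTop.1 ((pow_two_ev hG).and (pow_two_ev hi0))
  set n : ℕ := Finset.univ.sup (fun i => (p i).natDegree) + 1 with hn
  have hdeg : ∀ i, (p i).natDegree < n := by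
    intro i
    have := Finset.le_sup (f := fun i => (p i).natDegree) (Finset.mem_univ i)
    omega
  refine ⟨n, fun m i => (p i).eval (2 ^ (m + s)), fun m h0 =>
    (hs (m + s) (by omega)).2 (congrFun h0 i0), fun m F hF => ?_, fun j => ?_, fun m => ?_, ?_⟩
  · rw [← hevG, hp F hF, Polynomial.eval_zero]
  · have h4 : (fun m => (p j).eval ((2 : E) ^ (m + s))) = fun m => ∑ i : Fin n,
        ((p j).coeff i * 2 ^ (s * (i : ℕ))) * ((2 : E) ^ (i : ℕ)) ^ m := by
      funext m
      rw [Polynomial.eval_eq_sum_range' (hdeg j), Finset.sum_range]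
      refine Finset.sum_congr rfl fun i _ => ?_
      rw [← pow_mul, ← pow_mul, Nat.add_mul, pow_add, mul_comm (i : ℕ) m]
      ring
    rw [h4]
    exact crec_expsum _ _
  · rw [← hevG]
    exact (hs (m + s) (by omega)).1
  · intro hfin
    apply hnc
    have : Finite (Set.range fun m => Projectivization.mk E (fun i => (p i).eval (2 ^ (m + s)))
      (fun h0 => (hs (m + s) (by omega)).2 (congrFun h0 i0))) := hfin
    obtain ⟨⟨P, m0, hm0⟩, hP⟩ := Finite.exists_infinite_fiber (Set.rangeFactorization
      fun m => Projectivization.mk E (fun i => (p i).eval (2 ^ (m + s)))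
      (fun h0 => (hs (m + s) (by omega)).2 (congrFun h0 i0)))
    have hset : (Set.rangeFactorization (fun m => Projectivization.mk E
        (fun i => (p i).eval (2 ^ (m + s))) (fun h0 => (hs (m + s) (by omega)).2
          (congrFun h0 i0))) ⁻¹' {⟨P, m0, hm0⟩}).Infinite := Set.infinite_coe_iff.1 hP
    let v : Fin (N + 1) → E := fun i => (p i).eval (2 ^ (m0 + s))
    have hvne : v i0 ≠ 0 := (hs (m0 + s) (by omega)).2
    have hrel : ∀ i j, p i * Polynomial.C (v j) = p j * Polynomial.C (v i) := by
      intro i j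
      rw [← sub_eq_zero]
      apply Polynomial.eq_zero_of_infinite_isRoot
      refine Set.Infinite.mono ?_ (hset.image (f := fun m : ℕ => (2 : E) ^ (m + s)) ?_)
      · rintro _ ⟨m, hm, rfl⟩
        have h1 : Projectivization.mk E (fun i => (p i).eval (2 ^ (m + s)))
            (fun h0 => (hs (m + s) (by omega)).2 (congrFun h0 i0)) = P := congrArg Subtype.val hm
        rw [← hm0, Projectivization.mk_eq_mk_iff'] at h1
        obtain ⟨c, hc⟩ := h1
        change Polynomial.eval _ _ = 0
        have h2 : ∀ i, (p i).eval (2 ^ (m + s)) = c * v i := fun i => (congrFun hc i).symm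
        rw [Polynomial.eval_sub, Polynomial.eval_mul, Polynomial.eval_mul, Polynomial.eval_C,
          Polynomial.eval_C, h2, h2]
        ring
      · intro m _ m' _ h1
        have h2 : m + s = m' + s := by
          have h3 : ((2 ^ (m + s) : ℕ) : E) = ((2 ^ (m' + s) : ℕ) : E) := by
            push_cast
            exact h1
          exact Nat.pow_right_injective le_rfl (Nat.cast_injective h3)
        omega
    intro i j m n'
    have h1 : ∀ i m, (p i).coeff m * v i0 = (p i0).coeff m * v i := by
      intro i m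
      have h2 := congrArg (fun q => Polynomial.coeff q m) (hrel i i0)
      simp only [Polynomial.coeff_mul_C] at h2
      exact h2
    apply mul_left_cancel₀ (mul_ne_zero hvne hvne)
    have e1 := h1 i m
    have e2 := h1 j n'
    have e3 := h1 j m
    have e4 := h1 i n'
    linear_combination e1 * ((p j).coeff n' * v i0) + (p i0).coeff m * v i * e2 -
      e3 * ((p i).coeff n' * v i0) - (p i0).coeff m * v j * e4

end Pool.Agent.Q183.UH
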