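import Mathlib

/-!
Ultraproducts of fields.
-/

set_option autoImplicit false

namespace Pool.Agent.Q183.UH

open Filter Cardinal

variable (K : ℕ → Type) [∀ n, Field (K n)] (U : Ultrafilter ℕ)

/-- the sequences which are zero along the ultrafilter -/
def nullI : Ideal (∀ n, K n) where
  carrier := {f | ∀ᶠ n in (U : Filter ℕ), f n = 0}
  add_mem' := by
    intro f g hf hg
    filter_upwards [hf, hg] with n h1 h2
    rw [Pi.add_apply, h1, h2, add_zero]
  zero_mem' := Eventually.of_forall fun n => rfl
  smul_mem' := by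
    intro c f hf
    filter_upwards [hf] with n h1
    rw [smul_eq_mul, Pi.mul_apply, h1, mul_zero]

theorem mem_nullI {f : ∀ n, K n} : f ∈ nullI K U ↔ ∀ᶠ n in (U : Filter ℕ), f n = 0 := Iff.rfl

instance nullI_max : (nullI K U).IsMaximal := by
  classical
  rw [Ideal.isMaximal_iff]
  refine ⟨fun h => ?_, fun J x hJ hx hxJ => ?_⟩
  · obtain ⟨n, hn⟩ := ((mem_nullI K U).1 h).exists
    exact one_ne_zero hn
  · rw [mem_nullI, ← Ultrafilter.eventually_not] at hx
    have h1 : (1 : ∀ n, K n) - (fun n => (x n)⁻¹) * x ∈ nullI K U := by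
      filter_upwards [hx] with n hn
      rw [Pi.sub_apply, Pi.mul_apply, Pi.one_apply, inv_mul_cancel₀ hn, sub_self]
    have h2 := J.add_mem (hJ h1) (J.mul_mem_left (fun n => (x n)⁻¹) hxJ)
    rwa [sub_add_cancel] at h2

/-- the ultraproduct -/
abbrev UK : Type := (∀ n, K n) ⧸ nullI K U

noncomputable instance : Field (UK K U) := Ideal.Quotient.field _

/-- the projection to the ultraproduct -/
noncomputable def mk : (∀ n, K n) →+* UK K U := Ideal.Quotient.mk _

/-- the evaluation at an index -/
def ev (n : ℕ) : (∀ n, K n) →+* K n := Pi.evalRingHom K n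

theorem ev_apply (n : ℕ) (f : ∀ n, K n) : ev K n f = f n := rfl

variable {K} {U}

theorem mk_surj : Function.Surjective (mk K U) := Ideal.Quotient.mk_surjective

theorem mk_zero {f : ∀ n, K n} : mk K U f = 0 ↔ ∀ᶠ n in (U : Filter ℕ), f n = 0 := by
  unfold mk
  rw [Ideal.Quotient.eq_zero_iff_mem, mem_nullI]

theorem mk_eq {f g : ∀ n, K n} : mk K U f = mk K U g ↔ ∀ᶠ n in (U : Filter ℕ), f n = g n := by
  rw [← sub_eq_zero, ← map_sub, mk_zero]
  refine eventually_congr (Eventually.of_forall fun n => ?_)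
  rw [Pi.sub_apply, sub_eq_zero]

theorem mk_ne {f : ∀ n, K n} : mk K U f ≠ 0 ↔ ∀ᶠ n in (U : Filter ℕ), f n ≠ 0 := by
  rw [Ne, mk_zero, ← Ultrafilter.eventually_not]

instance [∀ n, CharZero (K n)] : CharZero (UK K U) := by
  refine charZero_of_inj_zero fun m hm => ?_
  have h1 : mk K U (fun n => (m : K n)) = 0 := by
    have h2 : (fun n => (m : K n)) = (m : ∀ n, K n) := rfl
    rw [h2, map_natCast]
    exact hm
  obtain ⟨n, hn⟩ := (mk_zero.1 h1).exists
  exact_mod_cast hn

theorem card_le (h : ∀ n, #(K n) ≤ 𝔠) : #(UK K U) ≤ 𝔠 := by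
  refine (mk_le_of_surjective mk_surj).trans ?_
  rw [Cardinal.mk_pi]
  refine (Cardinal.prod_le_prod _ _ h).trans ?_
  rw [Cardinal.prod_const]
  simp

instance closed [∀ n, IsAlgClosed (K n)] : IsAlgClosed (UK K U) := by
  classical
  refine IsAlgClosed.of_exists_root _ fun p hp hirr => ?_
  choose g hg using fun i => mk_surj (K := K) (U := U) (p.coeff i)
  have hD : 0 < p.natDegree := hirr.natDegree_pos
  let q : ∀ n, Polynomial (K n) := fun n => Polynomial.X ^ p.natDegree +
    ∑ i ∈ Finset.range p.natDegree, Polynomial.C (g i n) * Polynomial.X ^ i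
  have hq : ∀ n, (q n).degree ≠ 0 := by
    intro n
    have h1 : (∑ i ∈ Finset.range p.natDegree, Polynomial.C (g i n) * Polynomial.X ^ i).degree <
        ((Polynomial.X : Polynomial (K n)) ^ p.natDegree).degree := by
      rw [Polynomial.degree_X_pow]
      refine (Polynomial.degree_sum_le _ _).trans_lt ?_
      rw [Finset.sup_lt_iff (by exact_mod_cast WithBot.bot_lt_coe _)]
      intro i hi
      refine (Polynomial.degree_C_mul_X_pow_le _ _).trans_lt ?_
      exact_mod_cast Finset.mem_range.1 hi
    simp only [q]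
    rw [Polynomial.degree_add_eq_left_of_degree_lt h1, Polynomial.degree_X_pow]
    exact_mod_cast hD.ne'
  choose z hz using fun n => IsAlgClosed.exists_root (q n) (hq n)
  refine ⟨mk K U z, ?_⟩
  have h1 : p.eval (mk K U z) = mk K U fun n => (q n).eval (z n) := by
    conv_lhs => rw [hp.as_sum]
    have h2 : (fun n => (q n).eval (z n)) = z ^ p.natDegree +
        ∑ i ∈ Finset.range p.natDegree, g i * z ^ i := by
      funext n
      simp only [q, Polynomial.eval_add, Polynomial.eval_pow, Polynomial.eval_X,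
        Polynomial.eval_finsetSum, Polynomial.eval_mul, Polynomial.eval_C, Pi.add_apply,
        Pi.pow_apply, Finset.sum_apply, Pi.mul_apply]
    rw [h2, map_add, map_pow, map_sum, Polynomial.eval_add, Polynomial.eval_pow,
      Polynomial.eval_X, Polynomial.eval_finsetSum]
    congr 1
    refine Finset.sum_congr rfl fun i _ => ?_
    rw [Polynomial.eval_mul, Polynomial.eval_C, Polynomial.eval_pow, Polynomial.eval_X, map_mul,
      map_pow, hg]
  rw [h1, mk_zero]
  exact Eventually.of_forall fun n => hz n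

/-! ### lifts of polynomials -/

/-- a polynomial over the ultraproduct which is zero -/
theorem map_mk_zero {Q : Polynomial (∀ n, K n)} :
    Q.map (mk K U) = 0 ↔ ∀ᶠ n in (U : Filter ℕ), Q.map (ev K n) = 0 := by
  constructor
  · intro h
    have h1 : ∀ i, ∀ᶠ n in (U : Filter ℕ), Q.coeff i n = 0 := by
      intro i
      have h2 := congrArg (fun P => Polynomial.coeff P i) h
      simp only [Polynomial.coeff_map, Polynomial.coeff_zero] at h2
      exact mk_zero.1 h2
    have h3 : ∀ᶠ n in (U : Filter ℕ), ∀ i ∈ Finset.range (Q.natDegree + 1), Q.coeff i n = 0 := by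
      rw [Finset.eventually_all]
      exact fun i _ => h1 i
    filter_upwards [h3] with n hn
    ext i
    rw [Polynomial.coeff_map, Polynomial.coeff_zero]
    by_cases hi : i < Q.natDegree + 1
    · exact hn i (Finset.mem_range.2 hi)
    · rw [Polynomial.coeff_eq_zero_of_natDegree_lt (by omega), map_zero]
  · intro h
    ext i
    rw [Polynomial.coeff_map, Polynomial.coeff_zero, mk_zero]
    filter_upwards [h] with n hn
    have h2 := congrArg (fun P => Polynomial.coeff P i) hn
    simp only [Polynomial.coeff_map, Polynomial.coeff_zero] at h2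
    exact h2

/-- families of polynomials of bounded degree -/
theorem exists_lift (d : ℕ) (P : ∀ n, Polynomial (K n)) (hP : ∀ n, (P n).natDegree ≤ d) :
    ∃ Q : Polynomial (∀ n, K n), ∀ n, Q.map (ev K n) = P n := by
  refine ⟨∑ i ∈ Finset.range (d + 1), Polynomial.C (fun n => (P n).coeff i) * Polynomial.X ^ i,
    fun n => ?_⟩
  rw [Polynomial.map_sum]
  conv_rhs => rw [Polynomial.as_sum_range' (P n) (d + 1) (Nat.lt_succ_of_le (hP n))]
  refine Finset.sum_congr rfl fun i _ => ?_
  rw [Polynomial.map_mul, Polynomial.map_C, Polynomial.map_pow, Polynomial.map_X,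
    ← Polynomial.C_mul_X_pow_eq_monomial]
  rfl

theorem eval_mk (Q : Polynomial (∀ n, K n)) (c : ∀ n, K n) :
    (Q.map (mk K U)).eval (mk K U c) = mk K U fun n => (Q.map (ev K n)).eval (c n) := by
  rw [Polynomial.eval_map, Polynomial.eval₂_at_apply]
  congr 1
  funext n
  have h1 : (Q.map (ev K n)).eval (c n) = ev K n (Q.eval c) := by
    rw [Polynomial.eval_map]
    exact Polynomial.eval₂_at_apply (ev K n) c
  rw [h1]
  rfl

theorem exists_liftM {σ : Type} [Fintype σ] (d : ℕ) (P : ∀ n, MvPolynomial σ (K n))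
    (hP : ∀ n, (P n).IsHomogeneous d) :
    ∃ Q : MvPolynomial σ (∀ n, K n), Q.IsHomogeneous d ∧ ∀ n, MvPolynomial.map (ev K n) Q = P n := by
  classical
  let T : Finset (σ →₀ ℕ) := Finset.univ.finsuppAntidiag d
  have hT : ∀ α : σ →₀ ℕ, α ∈ T ↔ ∑ i, α i = d := by
    intro α
    simp only [T]
    rw [Finset.mem_finsuppAntidiag]
    simp
  have hdeg : ∀ α : σ →₀ ℕ, Finsupp.weight (1 : σ → ℕ) α = ∑ i, α i := by
    intro α
    rw [Finsupp.weight_apply, Finsupp.sum_fintype _ _ (by simp)]
    exact Finset.sum_congr rfl fun i _ => by rw [Pi.one_apply, smul_eq_mul, mul_one]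
  refine ⟨∑ α ∈ T, MvPolynomial.monomial α (fun n => (P n).coeff α), ?_, fun n => ?_⟩
  · refine MvPolynomial.IsHomogeneous.sum _ _ _ fun α hα => ?_
    refine MvPolynomial.isHomogeneous_monomial _ ?_
    rw [Finsupp.degree_apply, ← (hT α).1 hα]
    exact Finset.sum_subset (Finset.subset_univ _) fun i _ hi => Finsupp.notMem_support_iff.1 hi
  · rw [map_sum]
    ext β
    rw [MvPolynomial.coeff_sum]
    simp only [MvPolynomial.map_monomial, MvPolynomial.coeff_monomial]
    by_cases hβ : β ∈ T
    · rw [Finset.sum_eq_single β]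
      · rw [if_pos rfl]
        rfl
      · intro α _ hαβ
        rw [if_neg hαβ]
      · intro h
        exact absurd hβ h
    · rw [Finset.sum_eq_zero]
      · by_contra hne
        apply hβ
        rw [hT, ← hdeg]
        exact hP n (Ne.symm hne)
      · intro α hα
        rw [if_neg]
        rintro rfl
        exact hβ hα

theorem eval_mkM {σ : Type} (Q : MvPolynomial σ (∀ n, K n)) (c : ∀ n, σ → K n) :
    MvPolynomial.eval (fun j => mk K U fun n => c n j) (MvPolynomial.map (mk K U) Q) =
      mk K U fun n => MvPolynomial.eval (c n) (MvPolynomial.map (ev K n) Q) := by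
  rw [MvPolynomial.eval_map]
  have h1 : MvPolynomial.eval₂ (mk K U) (fun j => mk K U fun n => c n j) Q =
      mk K U (MvPolynomial.eval (fun j n => c n j) Q) := by
    rw [MvPolynomial.eval, MvPolynomial.coe_eval₂Hom, MvPolynomial.eval₂_comp_left]
    rfl
  rw [h1]
  congr 1
  funext n
  have h2 : MvPolynomial.eval (c n) (MvPolynomial.map (ev K n) Q) =
      ev K n (MvPolynomial.eval (fun j n => c n j) Q) := by
    rw [MvPolynomial.eval_map, MvPolynomial.eval, MvPolynomial.coe_eval₂Hom,
      MvPolynomial.eval₂_comp_left]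
    rfl
  rw [h2]
  rfl

end Pool.Agent.Q183.UH
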