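import Pool.Agent.Q183.UH.Norm
import Pool.Agent.Q183.UH.Ult
import Pool.Agent.TH143.HE.Proj

/-!
P-recursive sequences of points on varieties without rational curves are eventually periodic.
-/

set_option autoImplicit false

namespace Pool.Agent.Q183.UH

open Filter Pool.Agent.TH143.HE Pool.Agent.Q183.RS MvPolynomial Cardinal

/-- The projective variety given by the forms in `FF` contains no rational curve over `K`: all
polynomial maps from the line to it are constant in the projective space. -/
def NoRat {K : Type} [Field K] {N : ℕ} (FF : Set (MvPolynomial (Fin (N + 1)) K)) : Prop :=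
  ∀ p : Fin (N + 1) → Polynomial K, (∀ F ∈ FF, aeval p F = 0) →
    ∀ j k i i', (p j).coeff i * (p k).coeff i' = (p k).coeff i * (p j).coeff i'

theorem window {K : Type} [Field K] [CharZero K] [IsAlgClosed K] (hK : #K ≤ 𝔠) {N : ℕ}
    {FF : Set (MvPolynomial (Fin (N + 1)) K)} (hFF : ∀ F ∈ FF, ∃ e, F.IsHomogeneous e)
    (hno : NoRat FF) {y : ℕ → Fin (N + 1) → K} (hne : ∀ m, y m ≠ 0)
    (hy : ∀ j, PRec fun m => y m j) (hX : ∀ m, ∀ F ∈ FF, eval (y m) F = 0) :
    ∃ k m0 : ℕ, 0 < k ∧ ∀ m, m0 ≤ m → ∀ i j, y (m + k) i * y m j = y (m + k) j * y m i := by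
  classical
  obtain ⟨φ⟩ := exists_emb K hK
  have hcur : RatCurvesIn φ (Ideal.span FF) (⊤ : Ideal (MvPolynomial (Fin (N + 1)) K)) := by
    rw [ratCurvesIn_iff]
    intro p hp
    let _ : Algebra K ℂ := φ.toAlgebra
    have hp' : RCur ((algebraMap K ℂ).comp (RingHom.id K)) (Ideal.span FF) ⊤ p := hp
    obtain ⟨L, _, _, _, p', h'⟩ := hp'.spec (RingHom.id K)
    have hbij : Function.Bijective (algebraMap K L) :=
      IsAlgClosed.algebraMap_bijective_of_isIntegral
    let ε : K ≃+* L := RingEquiv.ofBijective (algebraMap K L) hbij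
    have h2 := h'.map (ε.symm : L →+* K)
    have hid : (ε.symm : L →+* K).comp ((algebraMap K L).comp (RingHom.id K)) = RingHom.id K := by
      ext z
      exact ε.symm_apply_apply z
    rw [hid] at h2
    obtain ⟨j, k, i, i', hne'⟩ := h2.nc
    refine hne' (hno (fun j => (p' j).map (ε.symm : L →+* K)) (fun F hF => ?_) j k i i')
    have h3 := h2.zero F (Ideal.subset_span hF) (hFF F hF)
    rw [← h3]
    rfl
  have hXP : ∀ m, IsPtP φ (Ideal.span FF) (fun j => φ (y m j)) := by
    intro m G hG _
    have h1 : eval₂ φ (fun j => φ (y m j)) G = φ (eval (y m) G) := by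
      rw [eval, coe_eval₂Hom, eval₂_comp_left]
      rfl
    rw [h1]
    have h2 : Ideal.span FF ≤ RingHom.ker (eval (y m)) := Ideal.span_le.2 fun F hF => hX m F hF
    have h3 : eval (y m) G = 0 := h2 hG
    rw [h3, map_zero]
  obtain ⟨k, m0, hk, h⟩ := proj_periodic hcur (x := fun m j => φ (y m j))
    (fun m h0 => hne m (funext fun j => φ.injective (by
      rw [Pi.zero_apply, map_zero]
      exact congrFun h0 j))) (fun j => (hy j).map φ) hXP (fun m h0 => by
      have h1 := h0 1 Submodule.mem_top ⟨0, isHomogeneous_one _ _⟩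
      rw [eval₂_one] at h1
      exact one_ne_zero h1)
  refine ⟨k, m0, hk, fun m hm i j => φ.injective ?_⟩
  rw [map_mul, map_mul]
  exact h m hm i j

/-! ### transfer to the ultraproduct -/

variable {K : ℕ → Type} [∀ n, Field (K n)] {U : Ultrafilter ℕ} {N : ℕ}

theorem map_aeval {A A' : Type} [CommRing A] [CommRing A'] (g : A →+* A')
    (p : Fin (N + 1) → Polynomial A) (F : MvPolynomial (Fin (N + 1)) A) :
    (aeval p F).map g = aeval (fun j => (p j).map g) (MvPolynomial.map g F) := by
  have h1 := eval₂_map' (RingHom.id A) g p F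
  rw [RingHom.comp_id, RingHom.comp_id] at h1
  have h2 : aeval p F = eval₂ Polynomial.C p F := rfl
  rw [h2, h1, aeval_def, eval₂_map]
  rfl

/-- the ultraproduct contains no rational curve -/
theorem noRat_ultra {ι : Type} [Finite ι] {Q : ι → MvPolynomial (Fin (N + 1)) (∀ n, K n)}
    (h : ∀ n, NoRat (Set.range fun i => MvPolynomial.map (ev K n) (Q i))) :
    NoRat (Set.range fun i => MvPolynomial.map (mk K U) (Q i)) := by
  classical
  intro p hp j k i i'
  by_contra hne
  choose P hP using fun j => Polynomial.map_surjective (mk K U) mk_surj (p j)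
  have h1 : ∀ a, ∀ᶠ n in (U : Filter ℕ),
      aeval (fun j => (P j).map (ev K n)) (MvPolynomial.map (ev K n) (Q a)) = 0 := by
    intro a
    have h2 := hp _ ⟨a, rfl⟩
    have h3 : (aeval P (Q a)).map (mk K U) = 0 := by
      rw [map_aeval]
      have h4 : (fun j => (P j).map (mk K U)) = p := funext hP
      rw [h4]
      exact h2
    filter_upwards [map_mk_zero.1 h3] with n hn
    rwa [map_aeval] at hn
  have h2 : ∀ᶠ n in (U : Filter ℕ), ((P j).map (ev K n)).coeff i * ((P k).map (ev K n)).coeff i' ≠
      ((P k).map (ev K n)).coeff i * ((P j).map (ev K n)).coeff i' := by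
    have h3 : mk K U ((P j).coeff i * (P k).coeff i' - (P k).coeff i * (P j).coeff i') ≠ 0 := by
      rw [map_sub, map_mul, map_mul, sub_ne_zero]
      rw [← hP j, ← hP k] at hne
      simp only [Polynomial.coeff_map] at hne
      exact hne
    filter_upwards [mk_ne.1 h3] with n hn
    simp only [Polynomial.coeff_map]
    rw [← sub_ne_zero]
    exact hn
  obtain ⟨n, hn1, hn2⟩ := ((eventually_all.2 h1).and h2).exists
  exact hn2 (h n _ (by rintro _ ⟨a, rfl⟩; exact hn1 a) j k i i')

end Pool.Agent.Q183.UH
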